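import Pool.Agent.YNG.StC

/-!
# Project YNG, module CA
-/

set_option autoImplicit false

open NumberField
open scoped Classical

namespace Pool.Agent.YNG

namespace CAx

theorem torsion_of_order (F : Type) [Field F] [NumberField F]
    (h : ∀ x : F, 2 < orderOf x → False) : Units.torsionOrder F = 2 := by
  have h1 : ∀ x : Units.torsion F, x.1 = 1 ∨ x.1 = -1 := by
    intro x
    let f : (𝓞 F)ˣ →* F := ((algebraMap (𝓞 F) F : 𝓞 F →+* F) : 𝓞 F →* F).comp
      (_root_.Units.coeHom (𝓞 F))
    have hf : Function.Injective f := fun a b hab =>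
      _root_.Units.ext (FaithfulSMul.algebraMap_injective (𝓞 F) F hab)
    have ho : orderOf (f x.1) = orderOf x.1 := orderOf_injective f hf x.1
    by_cases hc : 2 < orderOf x.1
    · rw [← ho] at hc
      exact (h _ hc).elim
    · have h3 : 0 < orderOf x.1 := orderOf_pos_iff.2 ((CommGroup.mem_torsion x.1).1 x.2)
      have h4 : orderOf x.1 = 1 ∨ orderOf x.1 = 2 := by omega
      rcases h4 with h4 | h4
      · exact Or.inl (orderOf_eq_one_iff.1 h4)
      · right
        rw [← ho, CharP.orderOf_eq_two_iff 0 (by decide)] at h4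
        apply hf
        rw [h4]
        show (-1 : F) = algebraMap (𝓞 F) F ((-1 : (𝓞 F)ˣ) : 𝓞 F)
        rw [_root_.Units.val_neg, _root_.Units.val_one, map_neg, map_one]
  let := Fintype.ofFinite (Units.torsion F)
  rw [Units.torsionOrder, Nat.card_eq_fintype_card]
  refine (Finset.card_eq_two.2 ⟨1, ⟨-1, neg_one_mem_torsion⟩,
    by simp [← Subtype.coe_ne_coe], Finset.ext fun x ↦ ⟨fun _ ↦ ?_, fun _ ↦ Finset.mem_univ _⟩⟩)
  rw [Finset.mem_insert, Finset.mem_singleton, ← Subtype.val_inj, ← Subtype.val_inj]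
  exact h1 x

end CAx

open CAx in
theorem CA_thm : Stmt_CA := by
  intro F _ _ hF
  apply torsion_of_order
  intro x hx
  apply hF
  have hp : IsPrimitiveRoot x (orderOf x) := IsPrimitiveRoot.orderOf x
  have : NeZero (orderOf x) := ⟨by omega⟩
  have hc : IsCyclotomicExtension {orderOf x} ℚ (IntermediateField.adjoin ℚ {x}) :=
    hp.intermediateField_adjoin_isCyclotomicExtension ℚ
  exact ⟨IntermediateField.adjoin ℚ {x},
    IsCyclotomicExtension.Rat.isCMField (IntermediateField.adjoin ℚ {x})
      (S := {orderOf x}) ⟨orderOf x, rfl, hx⟩⟩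

end Pool.Agent.YNG
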