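import Pool.Agent.YNG.StC

set_option autoImplicit false

open NumberField
open scoped Classical

namespace Pool.Agent.YNG

namespace CB1x

/-- all embeddings of a number field of degree one agree -/
theorem hom_eq (K : Type) [Field K] [NumberField K] (h : Module.finrank ℚ K = 1)
    (f g : K →+* ℂ) : f = g := by
  have h1 : (⊥ : Subalgebra ℚ K) = ⊤ := Subalgebra.bot_eq_top_iff_finrank_eq_one.2 h
  ext x
  have hx : x ∈ (⊥ : Subalgebra ℚ K) := by rw [h1]; exact Algebra.mem_top
  obtain ⟨q, rfl⟩ := Algebra.mem_bot.1 hx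
  simp

end CB1x

theorem CB1_thm : Stmt_CB1 := by
  intro K L _ _ _ _ _ _ hK W _ _ σ hσ φ
  obtain ⟨τ, hτ⟩ := ComplexEmbedding.exists_comp_symm_eq_of_comp_eq (k := K) φ
    (ComplexEmbedding.conjugate φ) (CB1x.hom_eq K hK _ _)
  have hc : ∀ x, φ (τ.symm x) = starRingEnd ℂ (φ x) := by
    intro x
    have := congrArg (fun f : L →+* ℂ => f x) hτ
    simpa using this
  have hconj : ComplexEmbedding.IsConj φ τ.symm := by
    have : ComplexEmbedding.conjugate φ = φ.comp τ.symm := hτ.symm
    exact this
  have hcc : τ.symm * τ.symm = 1 := by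
    ext x
    apply φ.injective
    rw [AlgEquiv.mul_apply, hc, hc, Complex.conj_conj, AlgEquiv.one_apply]
  refine ⟨τ.symm, hc, fun u => ?_⟩
  have h0 : u + σ τ.symm u = 0 := by
    refine hσ (InfinitePlace.mk φ) _ fun g hg => ?_
    rw [InfinitePlace.mem_stabilizer_mk_iff] at hg
    rcases hg with rfl | hg
    · simp
    · have : g = τ.symm := hg.ext hconj
      subst this
      rw [map_add, ← Module.End.mul_apply, ← map_mul, hcc, map_one, Module.End.one_apply, add_comm]
  exact (neg_eq_of_add_eq_zero_right h0).symm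

end Pool.Agent.YNG
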