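import Pool.Agent.YNG.StP

/-!
# Project YNG, part P, module PA: the nontrivial constituent of a 2-transitive permutation
representation (helper83)

The lemmas `char_inv`, `sub_of` are copied from `Pool/Agent/ABS/PEQ.lean`, `ZDU.lean`.
-/

set_option autoImplicit false

open scoped Classical ComplexConjugate

namespace Pool.Agent.YNG

namespace PAx

section Char

variable {G V : Type} [Group G] [Fintype G] [AddCommGroup V] [Module ℂ V] [Module.Finite ℂ V]

open scoped Matrix ComplexOrder in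
theorem char_inv (ρ : Representation ℂ G V) (g : G) :
    ρ.character g⁻¹ = conj (ρ.character g) := by
  let b := Module.finBasis ℂ V
  let M : G → Matrix (Fin (Module.finrank ℂ V)) (Fin (Module.finrank ℂ V)) ℂ :=
    fun h => LinearMap.toMatrix b b (ρ h)
  have hM1 : M 1 = 1 := by
    simp only [M, map_one]
    exact LinearMap.toMatrix_one b
  have hMm : ∀ a c, M (a * c) = M a * M c := by
    intro a c
    simp only [M, map_mul]
    exact LinearMap.toMatrix_mul b _ _
  have htr : ∀ h, ρ.character h = (M h).trace := by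
    intro h
    change LinearMap.trace ℂ _ (ρ h) = _
    rw [LinearMap.trace_eq_matrix_trace ℂ b]
  obtain ⟨A, hAd⟩ : ∃ A : Matrix (Fin (Module.finrank ℂ V)) (Fin (Module.finrank ℂ V)) ℂ,
    A = ∑ h, (M h)ᴴ * M h := ⟨_, rfl⟩
  have hA : ∀ a, (M a)ᴴ * A * M a = A := by
    intro a
    rw [hAd, Finset.mul_sum, Finset.sum_mul]
    rw [← Equiv.sum_comp (Equiv.mulRight a) (fun h => (M h)ᴴ * M h)]
    refine Finset.sum_congr rfl fun h _ => ?_
    simp only [Equiv.coe_mulRight]
    rw [hMm, Matrix.conjTranspose_mul]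
    simp only [Matrix.mul_assoc]
  have hpd : A.PosDef := by
    rw [hAd, ← Finset.add_sum_erase _ _ (Finset.mem_univ (1 : G)), hM1,
      Matrix.conjTranspose_one, Matrix.one_mul]
    apply Matrix.PosDef.add_posSemidef Matrix.PosDef.one
    exact Matrix.posSemidef_sum _ fun h _ => Matrix.posSemidef_conjTranspose_mul_self _
  have hdet : IsUnit A.det := (Matrix.isUnit_iff_isUnit_det A).mp hpd.isUnit
  have h1 : (M g)ᴴ * A = A * M g⁻¹ := by
    have h2 : M g * M g⁻¹ = 1 := by rw [← hMm, mul_inv_cancel, hM1]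
    calc (M g)ᴴ * A = (M g)ᴴ * A * (M g * M g⁻¹) := by rw [h2, Matrix.mul_one]
      _ = (M g)ᴴ * A * M g * M g⁻¹ := by rw [Matrix.mul_assoc _ (M g)]
      _ = A * M g⁻¹ := by rw [hA]
  rw [htr, htr, starRingEnd_apply, ← Matrix.trace_conjTranspose]
  calc (M g⁻¹).trace = (M g⁻¹ * (A⁻¹ * A)).trace := by
        rw [Matrix.nonsing_inv_mul A hdet, Matrix.mul_one]
    _ = (A * (M g⁻¹ * A⁻¹)).trace := by
        rw [← Matrix.mul_assoc, Matrix.trace_mul_comm]
    _ = ((M g)ᴴ * A * A⁻¹).trace := by rw [← Matrix.mul_assoc, ← h1]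
    _ = ((M g)ᴴ).trace := by
        rw [Matrix.mul_assoc, Matrix.mul_nonsing_inv A hdet, Matrix.mul_one]

omit [Fintype G] [Module.Finite ℂ V] in
theorem sub_of (ρ : Representation ℂ G V) (h : ρ.IsIrreducible) (W : Submodule ℂ V)
    (hW : ∀ g, ∀ v ∈ W, ρ g v ∈ W) : W = ⊥ ∨ W = ⊤ := by
  have h1 := h.eq_bot_or_eq_top ⟨W, fun g v hv => hW g v hv⟩
  rcases h1 with h1 | h1
  · left
    exact congrArg Subrepresentation.toSubmodule h1
  · right
    exact congrArg Subrepresentation.toSubmodule h1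

theorem sum_mul_inv (ρ : Representation ℂ G V) (hρ : ρ.IsIrreducible) :
    ∑ g : G, ρ.character g * ρ.character g⁻¹ = (Nat.card G : ℂ) := by
  have hc : (Nat.card G : ℂ) ≠ 0 := Nat.cast_ne_zero.2 Nat.card_pos.ne'
  have : Invertible (Nat.card G : ℂ) := invertibleOfNonzero hc
  have h := Representation.char_orthonormal ρ ρ
  rw [if_pos ⟨Representation.Equiv.refl ρ⟩] at h
  rw [inv_mul_eq_iff_eq_mul₀ hc, mul_one] at h
  exact h

/-- the sum of the character is the dimension of the invariants times the order -/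
theorem sum_char (ρ : Representation ℂ G V) :
    ∑ g : G, ρ.character g = (Nat.card G : ℂ) * Module.finrank ℂ ρ.invariants := by
  have hc : (Nat.card G : ℂ) ≠ 0 := Nat.cast_ne_zero.2 Nat.card_pos.ne'
  have : Invertible (Nat.card G : ℂ) := invertibleOfNonzero hc
  have h := ρ.card_inv_mul_sum_char_eq_finrank
  rw [inv_mul_eq_iff_eq_mul₀ hc] at h
  exact h

theorem sum_zero (ρ : Representation ℂ G V) (hρ : ρ.IsIrreducible) (hnt : ∃ g, ρ g ≠ 1) :
    ∑ g : G, ρ.character g = 0 := by
  have hb : ρ.invariants = ⊥ := by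
    rcases sub_of ρ hρ ρ.invariants (fun g v hv => by
      rw [hv g]
      exact hv) with h | h
    · exact h
    · exfalso
      obtain ⟨g, hg⟩ := hnt
      apply hg
      ext v
      have : v ∈ ρ.invariants := by rw [h]; trivial
      exact this g
  rw [sum_char, hb, finrank_bot]
  simp

end Char

section Count

variable {G : Type} [Group G] [Fintype G] (H : Subgroup G)

/-- `|H|` times the permutation character. -/
noncomputable def P (g : G) : ℂ := ∑ x : G, if x⁻¹ * g * x ∈ H then (1 : ℂ) else 0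

theorem sum_ind : ∑ h : G, (if h ∈ H then (1 : ℂ) else 0) = (Nat.card H : ℂ) := by
  rw [Finset.sum_boole]
  congr 1
  rw [Nat.card_eq_fintype_card, Fintype.card_subtype]

theorem P_inv (g : G) : P H g⁻¹ = P H g := by
  unfold P
  refine Finset.sum_congr rfl fun x _ => ?_
  have : x⁻¹ * g⁻¹ * x = (x⁻¹ * g * x)⁻¹ := by group
  rw [this]
  simp only [inv_mem_iff]

theorem P_conj (g : G) : conj (P H g) = P H g := by
  unfold P
  rw [map_sum]
  refine Finset.sum_congr rfl fun x _ => ?_
  split_ifs <;> simp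

/-- the product of `P` with a class function -/
theorem sum_P_mul (f : G → ℂ) (hf : ∀ x g, f (x * g * x⁻¹) = f g) :
    ∑ g : G, P H g * f g = (Nat.card G : ℂ) * ∑ h : G, (if h ∈ H then f h else 0) := by
  have h1 : ∀ x : G, ∑ g : G, (if x⁻¹ * g * x ∈ H then (1 : ℂ) else 0) * f g
      = ∑ h : G, (if h ∈ H then f h else 0) := by
    intro x
    let e : G ≃ G := (MulAut.conj x).toEquiv
    rw [← Equiv.sum_comp e]
    refine Finset.sum_congr rfl fun h _ => ?_
    have he : e h = x * h * x⁻¹ := rfl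
    rw [he, hf]
    have : x⁻¹ * (x * h * x⁻¹) * x = h := by group
    rw [this]
    split_ifs <;> simp
  calc ∑ g : G, P H g * f g
      = ∑ g : G, ∑ x : G, (if x⁻¹ * g * x ∈ H then (1 : ℂ) else 0) * f g := by
        refine Finset.sum_congr rfl fun g _ => ?_
        unfold P
        rw [Finset.sum_mul]
    _ = ∑ x : G, ∑ g : G, (if x⁻¹ * g * x ∈ H then (1 : ℂ) else 0) * f g := Finset.sum_comm
    _ = ∑ x : G, ∑ h : G, (if h ∈ H then f h else 0) :=
        Finset.sum_congr rfl fun x _ => h1 x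
    _ = _ := by
        rw [Finset.sum_const, Finset.card_univ, nsmul_eq_mul, Nat.card_eq_fintype_card]

theorem P_class (x g : G) : P H (x * g * x⁻¹) = P H g := by
  unfold P
  rw [← Equiv.sum_comp (Equiv.mulLeft x)]
  refine Finset.sum_congr rfl fun y _ => ?_
  have : ((Equiv.mulLeft x) y)⁻¹ * (x * g * x⁻¹) * ((Equiv.mulLeft x) y) = y⁻¹ * g * y := by
    simp only [Equiv.coe_mulLeft]
    group
  rw [this]

theorem sum_sub (f : G → ℂ) : ∑ a : H, f a = ∑ h : G, if h ∈ H then f h else 0 := by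
  rw [← Finset.sum_filter]
  exact (Finset.sum_subtype (Finset.univ.filter (· ∈ H)) (by simp) f).symm

/-- number of pairs `a z b = w` -/
noncomputable def N (z w : G) : ℂ := ∑ a : H, ∑ b : H, if (a : G) * z * b = w then (1 : ℂ) else 0

theorem N_self (z : G) : N H z z = ∑ h : G, (if h ∈ H then (if z⁻¹ * h * z ∈ H then (1 : ℂ)
    else 0) else 0) := by
  have h1 : ∀ a : H, (∑ b : H, if (a : G) * z * b = z then (1 : ℂ) else 0)
      = if z⁻¹ * (a : G) * z ∈ H then (1 : ℂ) else 0 := by
    intro a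
    by_cases h : z⁻¹ * (a : G) * z ∈ H
    · rw [if_pos h]
      have h' : z⁻¹ * (a : G)⁻¹ * z ∈ H := by
        have : z⁻¹ * (a : G)⁻¹ * z = (z⁻¹ * (a : G) * z)⁻¹ := by group
        rw [this]
        exact H.inv_mem h
      rw [Finset.sum_eq_single (⟨z⁻¹ * (a : G)⁻¹ * z, h'⟩ : H)]
      · rw [if_pos]
        simp only
        group
      · intro b _ hb
        rw [if_neg]
        intro hab
        apply hb
        apply Subtype.ext
        simp only
        have : (b : G) = z⁻¹ * (a : G)⁻¹ * ((a : G) * z * b) := by group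
        rw [this, hab]
      · intro hh
        exact absurd (Finset.mem_univ _) hh
    · rw [if_neg h]
      apply Finset.sum_eq_zero
      intro b _
      rw [if_neg]
      intro hab
      apply h
      have : z⁻¹ * (a : G) * z = (b : G)⁻¹ := by
        have h3 : (a : G) * z = z * (b : G)⁻¹ := by
          rw [eq_mul_inv_iff_mul_eq]
          exact hab
        rw [mul_assoc, h3]
        group
      rw [this]
      exact H.inv_mem b.2
  unfold N
  rw [Finset.sum_congr rfl fun a _ => h1 a]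
  exact sum_sub H (fun h => if z⁻¹ * h * z ∈ H then (1 : ℂ) else 0)

theorem N_shift (w z a₀ b₀ : G) (ha : a₀ ∈ H) (hb : b₀ ∈ H) (hz : z = a₀ * w * b₀) :
    N H w z = N H z z := by
  unfold N
  rw [← Equiv.sum_comp (Equiv.mulRight (⟨a₀, ha⟩ : H))]
  refine Finset.sum_congr rfl fun a _ => ?_
  rw [← Equiv.sum_comp (Equiv.mulLeft (⟨b₀, hb⟩ : H))]
  refine Finset.sum_congr rfl fun b _ => ?_
  have e : (((Equiv.mulRight (⟨a₀, ha⟩ : H)) a : H) : G) * w *
      (((Equiv.mulLeft (⟨b₀, hb⟩ : H)) b : H) : G) = (a : G) * z * b := by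
    simp only [Equiv.coe_mulRight, Equiv.coe_mulLeft, Subgroup.coe_mul]
    rw [hz]
    group
  rw [e]

theorem N_zero (w z : G) (hw : w ∉ H) (hz : z ∈ H) : N H w z = 0 := by
  unfold N
  apply Finset.sum_eq_zero
  intro a _
  apply Finset.sum_eq_zero
  intro b _
  rw [if_neg]
  intro h
  apply hw
  have : w = (a : G)⁻¹ * ((a : G) * w * b) * (b : G)⁻¹ := by group
  rw [this, h]
  exact H.mul_mem (H.mul_mem (H.inv_mem a.2) hz) (H.inv_mem b.2)

theorem sum_N (w : G) : ∑ z : G, N H w z = (Nat.card H : ℂ) ^ 2 := by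
  unfold N
  rw [Finset.sum_comm]
  have h1 : ∀ a : H, ∑ z : G, ∑ b : H, (if (a : G) * w * b = z then (1 : ℂ) else 0)
      = (Nat.card H : ℂ) := by
    intro a
    rw [Finset.sum_comm]
    have h2 : ∀ b : H, ∑ z : G, (if (a : G) * w * b = z then (1 : ℂ) else 0) = 1 := by
      intro b
      simp
    rw [Finset.sum_congr rfl fun b _ => h2 b, Finset.sum_const, Finset.card_univ,
      Nat.card_eq_fintype_card]
    simp
  rw [Finset.sum_congr rfl fun a _ => h1 a, Finset.sum_const, Finset.card_univ, nsmul_eq_mul,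
    ← Nat.card_eq_fintype_card]
  ring

theorem N_mem (z : G) (hz : z ∈ H) : N H z z = (Nat.card H : ℂ) := by
  rw [N_self, ← sum_ind H]
  refine Finset.sum_congr rfl fun h _ => ?_
  by_cases hh : h ∈ H
  · rw [if_pos hh, if_pos hh, if_pos]
    exact H.mul_mem (H.mul_mem (H.inv_mem hz) hh) hz
  · rw [if_neg hh, if_neg hh]

theorem sum_N_self (hDC : ∀ g g' : G, g ∉ H → g' ∉ H → ∃ a ∈ H, ∃ b ∈ H, g' = a * g * b)
    (w : G) (hw : w ∉ H) : ∑ z : G, N H z z = 2 * (Nat.card H : ℂ) ^ 2 := by
  have h1 : ∀ z : G, N H z z = N H w z + (if z ∈ H then (Nat.card H : ℂ) else 0) := by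
    intro z
    by_cases hz : z ∈ H
    · rw [if_pos hz, N_mem H z hz, N_zero H w z hw hz, zero_add]
    · rw [if_neg hz, add_zero]
      obtain ⟨a, ha, b, hb, e⟩ := hDC w z hw hz
      exact (N_shift H w z a b ha hb e).symm
  rw [Finset.sum_congr rfl fun z _ => h1 z, Finset.sum_add_distrib, sum_N]
  have h2 : ∑ z : G, (if z ∈ H then (Nat.card H : ℂ) else 0) = (Nat.card H : ℂ) ^ 2 := by
    have h3 : ∀ z : G, (if z ∈ H then (Nat.card H : ℂ) else 0)
        = (Nat.card H : ℂ) * (if z ∈ H then (1 : ℂ) else 0) := by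
      intro z
      split_ifs <;> simp
    rw [Finset.sum_congr rfl fun z _ => h3 z, ← Finset.mul_sum, sum_ind]
    ring
  rw [h2]
  ring

theorem sum_P_sq (hDC : ∀ g g' : G, g ∉ H → g' ∉ H → ∃ a ∈ H, ∃ b ∈ H, g' = a * g * b)
    (w : G) (hw : w ∉ H) :
    ∑ g : G, P H g * P H g = (Nat.card G : ℂ) * (2 * (Nat.card H : ℂ) ^ 2) := by
  rw [sum_P_mul H (P H) (fun x g => P_class H x g), ← sum_N_self H hDC w hw]
  congr 1
  have h1 : ∀ z : G, N H z z = ∑ h : G, (if h ∈ H then (if z⁻¹ * h * z ∈ H then (1 : ℂ)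
    else 0) else 0) := N_self H
  rw [Finset.sum_congr rfl fun z _ => h1 z, Finset.sum_comm]
  refine Finset.sum_congr rfl fun h _ => ?_
  by_cases hh : h ∈ H
  · simp only [if_pos hh]
    rfl
  · simp only [if_neg hh]
    simp

theorem sum_P : ∑ g : G, P H g = (Nat.card G : ℂ) * (Nat.card H : ℂ) := by
  have h := sum_P_mul H (fun _ => (1 : ℂ)) (fun _ _ => rfl)
  simp only [mul_one] at h
  rw [h, sum_ind]

end Count

section Main

variable {G V : Type} [Group G] [Fintype G] [AddCommGroup V] [Module ℂ V] [Module.Finite ℂ V]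

theorem sum_P_char (H : Subgroup G) (ρ : Representation ℂ G V) :
    ∃ d : ℕ, ∑ g : G, P H g * ρ.character g = (Nat.card G : ℂ) * ((Nat.card H : ℂ) * d) ∧
      ((∃ v : V, v ≠ 0 ∧ ∀ h ∈ H, ρ h v = v) → 1 ≤ d) := by
  let τ : Representation ℂ H V := ρ.comp H.subtype
  refine ⟨Module.finrank ℂ τ.invariants, ?_, ?_⟩
  · rw [sum_P_mul H ρ.character (fun x g => ρ.char_conj g x), ← sum_sub H ρ.character]
    congr 1
    have h1 := sum_char τ
    rw [← h1]
    rfl
  · rintro ⟨v, hv, hH⟩
    have hm : v ∈ τ.invariants := fun h => hH h h.2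
    have hn : Nontrivial τ.invariants := ⟨⟨⟨v, hm⟩, 0, fun h => hv (congrArg Subtype.val h)⟩⟩
    exact Module.finrank_pos

end Main

end PAx

theorem PA_thm : Stmt_PA := by
  intro G _ _ H hDC W _ _ _ σ hσ hnt hv g
  have hcG : (Nat.card G : ℝ) > 0 := by exact_mod_cast Nat.card_pos
  have hcH : (Nat.card H : ℝ) > 0 := by exact_mod_cast Nat.card_pos
  have hcH' : (Nat.card H : ℂ) ≠ 0 := Nat.cast_ne_zero.2 Nat.card_pos.ne'
  obtain ⟨w, hw⟩ : ∃ w : G, w ∉ H := by
    by_contra hc
    push Not at hc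
    obtain ⟨v, hv0, hvH⟩ := hv
    have hinv : σ.invariants = ⊤ := by
      rcases PAx.sub_of σ hσ σ.invariants (fun g v hv => by
        rw [hv g]
        exact hv) with h | h
      · exfalso
        have : v ∈ σ.invariants := fun g => hvH g (hc g)
        rw [h] at this
        exact hv0 this
      · exact h
    obtain ⟨g, hg⟩ := hnt
    apply hg
    ext u
    have : u ∈ σ.invariants := by rw [hinv]; trivial
    exact this g
  obtain ⟨d, hd, hd1⟩ := PAx.sum_P_char H σ
  have hd1 := hd1 hv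
  let p : G → ℂ := fun g => PAx.P H g / (Nat.card H : ℂ)
  let ψ : G → ℂ := fun g => σ.character g - (p g - 1)
  have hs1 : ∑ g : G, p g = (Nat.card G : ℂ) := by
    simp only [p]
    rw [← Finset.sum_div, PAx.sum_P]
    field_simp
  have hs2 : ∑ g : G, p g * p g = 2 * (Nat.card G : ℂ) := by
    have : ∀ g, p g * p g = PAx.P H g * PAx.P H g / (Nat.card H : ℂ) ^ 2 := by
      intro g
      simp only [p]
      ring
    rw [Finset.sum_congr rfl fun g _ => this g, ← Finset.sum_div, PAx.sum_P_sq H hDC w hw]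
    field_simp
  have hs3 : ∑ g : G, p g * σ.character g = (Nat.card G : ℂ) * d := by
    have : ∀ g, p g * σ.character g = PAx.P H g * σ.character g / (Nat.card H : ℂ) := by
      intro g
      simp only [p]
      ring
    rw [Finset.sum_congr rfl fun g _ => this g, ← Finset.sum_div, hd]
    field_simp
  have hs3' : ∑ g : G, p g * σ.character g⁻¹ = (Nat.card G : ℂ) * d := by
    rw [← hs3, ← Equiv.sum_comp (Equiv.inv G)]
    refine Finset.sum_congr rfl fun g _ => ?_
    simp only [Equiv.inv_apply, inv_inv, p, PAx.P_inv]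
  have hs4 := PAx.sum_zero σ hσ hnt
  have hs4' : ∑ g : G, σ.character g⁻¹ = 0 := by
    rw [← hs4, ← Equiv.sum_comp (Equiv.inv G)]
    simp
  have hs5 := PAx.sum_mul_inv σ hσ
  have hs6 : ∑ g : G, (1 : ℂ) = (Nat.card G : ℂ) := by
    rw [Finset.sum_const, Finset.card_univ, Nat.card_eq_fintype_card]
    simp
  have hpc : ∀ g, conj (p g) = p g := by
    intro g
    simp only [p]
    rw [map_div₀, PAx.P_conj, map_natCast]
  have hsum : ∑ g : G, ψ g * conj (ψ g) = (Nat.card G : ℂ) * (2 - 2 * (d : ℂ)) := by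
    have e : ∀ g, ψ g * conj (ψ g) = σ.character g * σ.character g⁻¹
        - p g * σ.character g - p g * σ.character g⁻¹ + σ.character g + σ.character g⁻¹
        + p g * p g - 2 * p g + 1 := by
      intro g
      simp only [ψ]
      rw [map_sub, map_sub, hpc, map_one, ← PAx.char_inv]
      ring
    rw [Finset.sum_congr rfl fun g _ => e g]
    simp only [Finset.sum_add_distrib, Finset.sum_sub_distrib, ← Finset.mul_sum]
    rw [hs5, hs3, hs3', hs4, hs4', hs2, hs1, hs6]
    ring
  have hreal : ∑ g : G, Complex.normSq (ψ g) = (Nat.card G : ℝ) * (2 - 2 * (d : ℝ)) := by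
    have : ((∑ g : G, Complex.normSq (ψ g) : ℝ) : ℂ)
        = (((Nat.card G : ℝ) * (2 - 2 * (d : ℝ)) : ℝ) : ℂ) := by
      rw [Complex.ofReal_sum]
      push_cast
      rw [← hsum]
      refine Finset.sum_congr rfl fun g _ => ?_
      rw [Complex.mul_conj]
    exact_mod_cast this
  have hle : ∑ g : G, Complex.normSq (ψ g) ≤ 0 := by
    rw [hreal]
    have : (1 : ℝ) ≤ d := by exact_mod_cast hd1
    apply mul_nonpos_of_nonneg_of_nonpos hcG.le
    linarith
  have hz : ∑ g : G, Complex.normSq (ψ g) = 0 :=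
    le_antisymm hle (Finset.sum_nonneg fun g _ => Complex.normSq_nonneg _)
  rw [Finset.sum_eq_zero_iff_of_nonneg fun g _ => Complex.normSq_nonneg _] at hz
  have h0 : ψ g = 0 := Complex.normSq_eq_zero.1 (hz g (Finset.mem_univ g))
  have h1 : σ.character g = p g - 1 := sub_eq_zero.1 h0
  rw [h1]
  rfl

end Pool.Agent.YNG
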