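import Pool.Agent.YNG.StP

set_option autoImplicit false

open scoped Classical

namespace Pool.Agent.YNG

namespace PEx

/-- A submodule which is stable under the group and has a nonzero vector is everything. -/
theorem eq_top {G : Type} [Group G] {W : Type} [AddCommGroup W] [Module ℂ W]
    (σ : Representation ℂ G W) (hσ : σ.IsIrreducible) (P : Submodule ℂ W)
    (hP : ∀ g w, w ∈ P → σ g w ∈ P) (v : W) (hv : v ∈ P) (hv0 : v ≠ 0) : ∀ w, w ∈ P := by
  let S : Subrepresentation σ := ⟨P, fun g w hw => hP g w hw⟩
  rcases hσ.eq_bot_or_eq_top S with h | h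
  · exfalso
    have h1 : P = ⊥ := congrArg Subrepresentation.toSubmodule h
    rw [h1] at hv
    exact hv0 ((Submodule.mem_bot ℂ).1 hv)
  · have h1 : P = ⊤ := congrArg Subrepresentation.toSubmodule h
    intro w
    rw [h1]
    exact Submodule.mem_top

end PEx

theorem PE_thm : Stmt_PE := by
  intro G _ _ H p _ f c hH hc haff W _ _ _ σ hirr hnt hvec
  obtain ⟨v, hv0, hv⟩ := hvec
  have hpow : ∀ (n : ℕ) (x : ZMod p), f (c ^ n) x = x + n := by
    intro n
    induction n with
    | zero => intro x; simp
    | succ n ih =>
      intro x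
      rw [pow_succ, map_mul, Equiv.Perm.mul_apply, hc, ih]
      push_cast
      ring
  have hval : ∀ i x : ZMod p, f (c ^ i.val) x = x + i := by
    intro i x
    rw [hpow, ZMod.natCast_zmod_val]
  have hker : ∀ n, f n = 1 → σ n = 1 := by
    let P : Submodule ℂ W :=
      { carrier := {w | ∀ n, f n = 1 → σ n w = w}
        add_mem' := by
          intro a b ha hb n hn
          rw [map_add, ha n hn, hb n hn]
        zero_mem' := by
          intro n _
          exact map_zero _
        smul_mem' := by
          intro r a ha n hn
          rw [map_smul, ha n hn] }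
    have hP : ∀ w, w ∈ P := by
      refine PEx.eq_top σ hirr P ?_ v ?_ hv0
      · intro g w hw n hn
        have h1 : f (g⁻¹ * n * g) = 1 := by
          rw [map_mul, map_mul, hn, mul_one, map_inv, inv_mul_cancel]
        have h2 := hw _ h1
        have h3 : n * g = g * (g⁻¹ * n * g) := by group
        calc σ n (σ g w) = σ (n * g) w := by rw [map_mul]; rfl
          _ = σ g (σ (g⁻¹ * n * g) w) := by rw [h3, map_mul]; rfl
          _ = σ g w := by rw [h2]
      · intro n hn
        refine hv n ((hH n).2 ?_)
        rw [hn]
        rfl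
    intro n hn
    exact LinearMap.ext fun w => hP w n hn
  have heq : ∀ g g', f g = f g' → σ g = σ g' := by
    intro g g' h
    have h1 : f (g * g'⁻¹) = 1 := by rw [map_mul, map_inv, h, mul_inv_cancel]
    have h2 := hker _ h1
    calc σ g = σ (g * g'⁻¹ * g') := by rw [inv_mul_cancel_right]
      _ = σ (g * g'⁻¹) * σ g' := map_mul _ _ _
      _ = σ g' := by rw [h2, one_mul]
  have hcp : σ (c ^ p) = 1 := by
    rw [← map_one σ]
    apply heq
    ext x
    rw [hpow, map_one]
    simp
  have hdec : ∀ g, (c ^ (f g 0).val)⁻¹ * g ∈ H := by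
    intro g
    rw [hH, map_mul, map_inv, Equiv.Perm.mul_apply, Equiv.Perm.inv_eq_iff_eq, hval, zero_add]
  have hc1 : σ c ≠ 1 := by
    intro h1
    have hfix : ∀ g, σ g v = v := by
      intro g
      have h2 := hv _ (hdec g)
      have h3 : σ (c ^ (f g 0).val) = 1 := by rw [map_pow, h1, one_pow]
      calc σ g v = σ (c ^ (f g 0).val * ((c ^ (f g 0).val)⁻¹ * g)) v := by
            rw [mul_inv_cancel_left]
        _ = σ (c ^ (f g 0).val) (σ ((c ^ (f g 0).val)⁻¹ * g) v) := by rw [map_mul]; rfl
        _ = v := by rw [h2, h3]; rfl
    let Q : Submodule ℂ W :=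
      { carrier := {w | ∀ g, σ g w = w}
        add_mem' := by
          intro a b ha hb g
          rw [map_add, ha g, hb g]
        zero_mem' := by
          intro g
          exact map_zero _
        smul_mem' := by
          intro r a ha g
          rw [map_smul, ha g] }
    have hQ : ∀ w, w ∈ Q := by
      refine PEx.eq_top σ hirr Q ?_ v hfix hv0
      intro g w hw
      have h2 : σ g w = w := hw g
      rw [h2]
      exact hw
    obtain ⟨g, hg⟩ := hnt
    exact hg (LinearMap.ext fun w => hQ w g)
  have hconj : ∀ g a b, (∀ x, f g x = a * x + b) → σ (g * c * g⁻¹) = σ (c ^ a.val) := by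
    intro g a b hg
    apply heq
    ext x
    rw [hval, map_mul, map_mul, Equiv.Perm.mul_apply, Equiv.Perm.mul_apply, hc, hg]
    have h1 : f g (f g⁻¹ x) = x := by
      rw [map_inv]
      exact Equiv.apply_symm_apply _ _
    have h2 := hg (f g⁻¹ x)
    rw [h1] at h2
    linear_combination -h2
  refine ⟨?_, hcp, ?_⟩
  · -- the quotient group
    have hπ : ∀ g g' : G, σ g = σ g' →
        (QuotientGroup.mk' (MonoidHom.ker σ) g) = QuotientGroup.mk' (MonoidHom.ker σ) g' := by
      intro g g' h
      rw [QuotientGroup.mk'_apply, QuotientGroup.mk'_apply, QuotientGroup.eq, MonoidHom.mem_ker,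
        map_mul, ← h, ← map_mul, inv_mul_cancel, map_one]
    have hπ' : ∀ g g' : G,
        (QuotientGroup.mk' (MonoidHom.ker σ) g) = QuotientGroup.mk' (MonoidHom.ker σ) g' →
        σ g = σ g' := by
      intro g g' h
      rw [QuotientGroup.mk'_apply, QuotientGroup.mk'_apply, QuotientGroup.eq, MonoidHom.mem_ker]
        at h
      calc σ g = σ g * σ (g⁻¹ * g') := by rw [h, mul_one]
        _ = σ g' := by rw [← map_mul, mul_inv_cancel_left]
    obtain ⟨π, hπd⟩ : ∃ π : G →* G ⧸ MonoidHom.ker σ, π = QuotientGroup.mk' (MonoidHom.ker σ) :=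
      ⟨_, rfl⟩
    rw [← hπd] at hπ hπ'
    have hsurj : Function.Surjective π := by
      rw [hπd]
      exact QuotientGroup.mk'_surjective _
    refine ⟨Subgroup.zpowers (π c), H.map π, ?_, inferInstance, ?_, ?_⟩
    · constructor
      intro n hn g
      obtain ⟨k, rfl⟩ := Subgroup.mem_zpowers_iff.1 hn
      obtain ⟨g, rfl⟩ := hsurj g
      obtain ⟨a, b, hab⟩ := haff g
      have h1 : π g * π c * (π g)⁻¹ = π c ^ a.val := by
        rw [← map_inv, ← map_mul, ← map_mul, ← map_pow]
        exact hπ _ _ (hconj g a b hab)
      rw [← conj_zpow, h1]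
      exact Subgroup.zpow_mem _ (Subgroup.pow_mem _ (Subgroup.mem_zpowers _) _) _
    · rw [eq_top_iff]
      intro x _
      obtain ⟨g, rfl⟩ := hsurj x
      have h1 : π g = π c ^ (f g 0).val * π ((c ^ (f g 0).val)⁻¹ * g) := by
        rw [← map_pow, ← map_mul, mul_inv_cancel_left]
      rw [h1]
      refine Subgroup.mul_mem _ ?_ ?_
      · exact Subgroup.mem_sup_left (Subgroup.pow_mem _ (Subgroup.mem_zpowers _) _)
      · exact Subgroup.mem_sup_right (Subgroup.mem_map_of_mem _ (hdec g))
    · rintro b ⟨h, hh, rfl⟩ hcomm
      have h1 := hcomm (π c) (Subgroup.mem_zpowers _)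
      obtain ⟨a, b, hab⟩ := haff h
      have h0 : f h 0 = 0 := (hH h).1 hh
      have hb : b = 0 := by
        rw [hab] at h0
        simpa using h0
      have h2 : π (h * c * h⁻¹) = π c := by
        rw [map_mul, map_mul, map_inv, ← h1, mul_inv_cancel_right]
      have h3 : π c ^ a.val = π c ^ 1 := by
        rw [← map_pow, ← hπ _ _ (hconj h a b hab), h2, pow_one]
      have hne : π c ≠ 1 := by
        intro h4
        apply hc1
        rw [← map_one σ]
        apply hπ'
        rw [h4, map_one]
      have hord : orderOf (π c) = p := by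
        apply orderOf_eq_prime _ hne
        rw [← map_pow, ← map_one π]
        apply hπ
        rw [hcp, map_one]
      rw [pow_eq_pow_iff_modEq, hord] at h3
      have h5 : ((a.val : ℕ) : ZMod p) = ((1 : ℕ) : ZMod p) :=
        (ZMod.natCast_eq_natCast_iff _ _ _).2 h3
      rw [ZMod.natCast_zmod_val, Nat.cast_one] at h5
      have h6 : f h = 1 := by
        ext x
        rw [hab, h5, hb]
        simp
      rw [← map_one π]
      apply hπ
      rw [hker h h6, map_one]
  · intro g
    obtain ⟨a, b, hab⟩ := haff g
    by_cases ha : a = 1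
    · right
      refine ⟨b.val, heq _ _ ?_⟩
      ext x
      rw [hval, hab, ha, one_mul]
    · left
      -- the sum over the powers of `c`
      have hS : σ c * (∑ e ∈ Finset.range p, σ (c ^ e)) = ∑ e ∈ Finset.range p, σ (c ^ e) := by
        rw [Finset.mul_sum]
        have h1 : ∀ e ∈ Finset.range p, σ c * σ (c ^ e) = σ (c ^ (e + 1)) := by
          intro e _
          rw [← map_mul, pow_succ']
        rw [Finset.sum_congr rfl h1]
        have h2 := Finset.sum_range_succ (fun e => σ (c ^ e)) p
        have h3 := Finset.sum_range_succ' (fun e => σ (c ^ e)) p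
        rw [h2, hcp, pow_zero, map_one] at h3
        exact (add_right_cancel h3).symm
      let P : Submodule ℂ W :=
        { carrier := {w | σ c w = w}
          add_mem' := by
            intro x y hx hy
            show σ c (x + y) = x + y
            rw [map_add, show σ c x = x from hx, show σ c y = y from hy]
          zero_mem' := map_zero _
          smul_mem' := by
            intro r x hx
            show σ c (r • x) = r • x
            rw [map_smul, show σ c x = x from hx] }
      have hfixpow : ∀ (n : ℕ) (w : W), σ c w = w → σ (c ^ n) w = w := by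
        intro n w hw
        induction n with
        | zero => rw [pow_zero, map_one]; rfl
        | succ n ih =>
          rw [pow_succ, map_mul]
          show σ (c ^ n) (σ c w) = w
          rw [hw, ih]
      have hP0 : ∀ w, σ c w = w → w = 0 := by
        intro w hw
        by_contra hw0
        apply hc1
        refine LinearMap.ext fun u => ?_
        refine PEx.eq_top σ hirr P ?_ w hw hw0 u
        intro g' u hu
        obtain ⟨a', b', hab'⟩ := haff g'⁻¹
        have h1 := hconj g'⁻¹ a' b' hab'
        rw [inv_inv] at h1
        have h3 : c * g' = g' * (g'⁻¹ * c * g') := by group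
        show σ c (σ g' u) = σ g' u
        calc σ c (σ g' u) = σ (c * g') u := by rw [map_mul]; rfl
          _ = σ g' (σ (g'⁻¹ * c * g') u) := by rw [h3, map_mul]; rfl
          _ = σ g' u := by rw [h1, hfixpow _ u hu]
      have hS0 : ∑ e ∈ Finset.range p, σ (c ^ e) = 0 := by
        refine LinearMap.ext fun w => ?_
        apply hP0
        have := congrArg (fun T : W →ₗ[ℂ] W => T w) hS
        exact this
      have hchar : ∀ e : ℕ, σ.character (g * c ^ e) = σ.character g := by
        intro e
        have h1a : (1 - a) ≠ 0 := sub_ne_zero.2 (Ne.symm ha)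
        have h1 : σ (c ^ (a * e / (1 - a)).val * g * (c ^ (a * e / (1 - a)).val)⁻¹) =
            σ (g * c ^ e) := by
          apply heq
          ext x
          rw [map_mul, map_mul, map_mul, Equiv.Perm.mul_apply, Equiv.Perm.mul_apply,
            Equiv.Perm.mul_apply, hval, hab, hpow, hab]
          have h2 : f (c ^ (a * e / (1 - a)).val)⁻¹ x = x - a * e / (1 - a) := by
            rw [map_inv, Equiv.Perm.inv_eq_iff_eq, hval]
            ring
          rw [h2]
          field_simp
          ring
        have h2 : σ.character (c ^ (a * e / (1 - a)).val * g * (c ^ (a * e / (1 - a)).val)⁻¹) =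
            σ.character (g * c ^ e) := by
          unfold Representation.character
          rw [h1]
        rw [← h2, Representation.char_conj]
      have hsum : ∑ e ∈ Finset.range p, σ.character (g * c ^ e) = 0 := by
        unfold Representation.character
        have h1 : ∀ e ∈ Finset.range p, LinearMap.trace ℂ W (σ (g * c ^ e)) =
            LinearMap.trace ℂ W (σ g * σ (c ^ e)) := fun e _ => by rw [map_mul]
        rw [Finset.sum_congr rfl h1, ← map_sum, ← Finset.mul_sum, hS0, mul_zero, map_zero]
      rw [Finset.sum_congr rfl fun e _ => hchar e, Finset.sum_const, Finset.card_range,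
        nsmul_eq_mul] at hsum
      rcases mul_eq_zero.1 hsum with h | h
      · exact absurd h (by exact_mod_cast (Fact.out : p.Prime).ne_zero)
      · exact h

end Pool.Agent.YNG
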