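import Pool.Agent.YNG.StP

set_option autoImplicit false

open Polynomial

namespace Pool.Agent.YNG

namespace PMx

theorem sumEq (p : ℕ) [Fact p.Prime] (π : Equiv.Perm (ZMod p)) (U : Finset (ZMod p))
    (h : ∀ i j : ZMod p, i - j ∈ U → π i - π j ∈ U) (i : ZMod p) (r : ℕ) :
    ∑ u ∈ U, (π (i + u)) ^ r = ∑ u ∈ U, (π i + u) ^ r := by
  have hmaps : Set.MapsTo (fun u => π (i + u) - π i) (U : Set (ZMod p)) U := by
    intro u hu
    have := h (i + u) i (by simpa using hu)
    simpa using this
  have hinj : Set.InjOn (fun u => π (i + u) - π i) (U : Set (ZMod p)) := by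
    intro a _ b _ hab
    have h1 : π (i + a) = π (i + b) := by simpa using hab
    exact add_left_cancel (π.injective h1)
  have hsurj := Finset.surjOn_of_injOn_of_card_le _ hmaps hinj le_rfl
  refine Finset.sum_bij (fun u _ => π (i + u) - π i) (fun a ha => hmaps ha)
    (fun a ha b hb hab => hinj ha hb hab) ?_ ?_
  · intro b hb
    obtain ⟨a, ha, hab⟩ := hsurj hb
    exact ⟨a, ha, hab⟩
  · intro a ha
    simp

/-- the polynomial identity -/
theorem polyEq (p : ℕ) [Fact p.Prime] (π : Equiv.Perm (ZMod p)) (U : Finset (ZMod p))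
    (h : ∀ i j : ZMod p, i - j ∈ U → π i - π j ∈ U) (f : (ZMod p)[X])
    (hfe : ∀ x, f.eval x = π x) (r : ℕ) (hr : r * f.natDegree < p) :
    ∑ u ∈ U, taylor u (f ^ r) = ∑ u ∈ U, (f + C u) ^ r := by
  rw [← sub_eq_zero]
  refine Polynomial.eq_zero_of_natDegree_lt_card_of_eval_eq_zero' _ Finset.univ ?_ ?_
  · intro x _
    rw [eval_sub, eval_finsetSum, eval_finsetSum]
    have := sumEq p π U h x r
    simp only [taylor_eval, eval_pow, eval_add, eval_C, hfe]
    rw [this, sub_self]
  · rw [Finset.card_univ, ZMod.card]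
    refine lt_of_le_of_lt ?_ hr
    refine (natDegree_sub_le _ _).trans (max_le ?_ ?_)
    · refine natDegree_sum_le_of_forall_le _ _ ?_
      intro u _
      rw [natDegree_taylor, natDegree_pow]
    · refine natDegree_sum_le_of_forall_le _ _ ?_
      intro u _
      rw [natDegree_pow, natDegree_add_C]

/-- left coefficient -/
theorem coeffL (p : ℕ) [Fact p.Prime] (U : Finset (ZMod p)) (F : (ZMod p)[X]) (N w : ℕ)
    (hN : F.natDegree ≤ N) (hw1 : 1 ≤ w) (hwN : w ≤ N)
    (hsk : ∀ k : ℕ, 1 ≤ k → k < w → (∑ u ∈ U, u ^ k) = 0) :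
    (∑ u ∈ U, taylor u F).coeff (N - w) =
      F.coeff (N - w) * (∑ u ∈ U, u ^ 0) + (N.choose (N - w) : ZMod p) * F.coeff N * (∑ u ∈ U, u ^ w) := by
  have hd : (hasseDeriv (N - w) F).natDegree < w + 1 := by
    have := natDegree_hasseDeriv_le F (N - w)
    omega
  have h1 : ∀ u : ZMod p, (taylor u F).coeff (N - w) =
      ∑ k ∈ Finset.range (w + 1), (hasseDeriv (N - w) F).coeff k * u ^ k := by
    intro u
    rw [taylor_coeff, eval_eq_sum_range' hd]
  rw [finsetSum_coeff, Finset.sum_congr rfl (fun u _ => h1 u), Finset.sum_comm]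
  simp_rw [← Finset.mul_sum]
  rw [Finset.sum_range_succ, Finset.sum_eq_single_of_mem 0 (by simp; omega)]
  · rw [hasseDeriv_coeff, hasseDeriv_coeff]
    have e1 : w + (N - w) = N := by omega
    rw [e1, zero_add, Nat.choose_self]
    simp
  · intro k hk hk0
    rw [Finset.mem_range] at hk
    rw [hsk k (by omega) hk, mul_zero]

/-- right coefficient -/
theorem coeffR (p : ℕ) [Fact p.Prime] (U : Finset (ZMod p)) (f : (ZMod p)[X]) (r w : ℕ)
    (hw1 : 1 ≤ w) (hn : 2 ≤ f.natDegree) (hwN : w ≤ r * f.natDegree)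
    (hsk : ∀ k : ℕ, 1 ≤ k → k < w → (∑ u ∈ U, u ^ k) = 0) :
    (∑ u ∈ U, (f + C u) ^ r).coeff (r * f.natDegree - w) =
      (f ^ r).coeff (r * f.natDegree - w) * (∑ u ∈ U, u ^ 0) := by
  have h1 : ∀ u : ZMod p, ((f + C u) ^ r).coeff (r * f.natDegree - w) =
      ∑ m ∈ Finset.range (r + 1), (f ^ m).coeff (r * f.natDegree - w) * (r.choose m : ZMod p)
        * u ^ (r - m) := by
    intro u
    rw [add_pow, finsetSum_coeff]
    refine Finset.sum_congr rfl ?_
    intro m _
    rw [← C_pow, ← map_natCast C, coeff_mul_C, coeff_mul_C]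
    ring
  rw [finsetSum_coeff, Finset.sum_congr rfl (fun u _ => h1 u), Finset.sum_comm]
  simp_rw [← Finset.mul_sum]
  rw [Finset.sum_range_succ, Finset.sum_eq_zero, zero_add]
  · simp
  · intro m hm
    rw [Finset.mem_range] at hm
    by_cases hk : r - m < w
    · rw [hsk (r - m) (by omega) hk, mul_zero]
    · have h2 : (f ^ m).coeff (r * f.natDegree - w) = 0 := by
        apply coeff_eq_zero_of_natDegree_lt
        rw [natDegree_pow]
        have h3 : m + w ≤ r := by omega
        have h4 : (m + w) * f.natDegree ≤ r * f.natDegree := Nat.mul_le_mul_right _ h3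
        have h5 : w * 2 ≤ w * f.natDegree := Nat.mul_le_mul_left _ hn
        rw [add_mul] at h4
        omega
      rw [h2]
      ring

end PMx

open PMx in
theorem PM_thm (hPM0 : Stmt_PM0) : Stmt_PM := by
  intro p _ π U hne h0 hx h
  obtain ⟨w, hw1, hw2, hsw, hsk⟩ := hPM0 p U hne h0 hx
  have hp : p.Prime := Fact.out
  have hp2 := hp.two_le
  obtain ⟨f, hfe, hfd⟩ : ∃ f : (ZMod p)[X], (∀ x, f.eval x = π x) ∧ f.degree < (p : WithBot ℕ) := by
    refine ⟨Lagrange.interpolate Finset.univ id (fun i => π i), ?_, ?_⟩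
    · intro x
      have := Lagrange.eval_interpolate_at_node (s := Finset.univ) (v := id)
        (fun i => π i) (Set.injOn_id _) (Finset.mem_univ x)
      simpa using this
    · have := Lagrange.degree_interpolate_lt (s := Finset.univ) (v := id)
        (fun i => π i) (Set.injOn_id _)
      rw [Finset.card_univ, ZMod.card] at this
      exact this
  have hn1 : 1 ≤ f.natDegree := by
    by_contra hcon
    have h1 : f.natDegree = 0 := by omega
    rw [eq_C_of_natDegree_eq_zero h1] at hfe
    have h2 : π 0 = π 1 := by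
      rw [← hfe 0, ← hfe 1]; simp
    exact zero_ne_one (π.injective h2)
  have hf0 : f ≠ 0 := by
    rintro rfl
    simp at hn1
  have hnp : f.natDegree < p := by
    rw [natDegree_lt_iff_degree_lt hf0]
    exact hfd
  by_cases hn : f.natDegree = 1
  · refine ⟨f.coeff 1, f.coeff 0, ?_⟩
    intro x
    have h1 := eq_X_add_C_of_natDegree_le_one hn.le
    rw [← hfe x]
    conv_lhs => rw [h1]
    simp
  · exfalso
    have hn2 : 2 ≤ f.natDegree := by omega
    have hmod := Nat.div_add_mod (p - 1) f.natDegree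
    have hlt := Nat.mod_lt (p - 1) (show f.natDegree > 0 by omega)
    set r := (p - 1) / f.natDegree with hr
    have hrn : r * f.natDegree = f.natDegree * r := mul_comm _ _
    have hNp : r * f.natDegree < p := by omega
    have hwN : w ≤ r * f.natDegree := by
      by_cases hc : f.natDegree ≤ (p - 1) / 2
      · omega
      · have hr1 : 1 ≤ r := (Nat.one_le_div_iff (by omega)).mpr (by omega)
        have : 1 * f.natDegree ≤ r * f.natDegree := Nat.mul_le_mul_right _ hr1
        omega
    have e := congrArg (fun q => coeff q (r * f.natDegree - w)) (polyEq p π U h f hfe r hNp)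
    beta_reduce at e
    rw [coeffR p U f r w hw1 hn2 hwN hsk,
      coeffL p U (f ^ r) (r * f.natDegree) w (by rw [natDegree_pow]) hw1 hwN hsk] at e
    have e2 : ((r * f.natDegree).choose (r * f.natDegree - w) : ZMod p) *
        (f ^ r).coeff (r * f.natDegree) * (∑ u ∈ U, u ^ w) = 0 := by
      linear_combination e
    have e3 : (f ^ r).coeff (r * f.natDegree) = f.leadingCoeff ^ r := by
      rw [← natDegree_pow, coeff_natDegree, leadingCoeff_pow]
    have e4 : ((r * f.natDegree).choose (r * f.natDegree - w) : ZMod p) ≠ 0 := by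
      intro hz
      rw [ZMod.natCast_eq_zero_iff] at hz
      have h7 := Nat.choose_mul_factorial_mul_factorial
        (show r * f.natDegree - w ≤ r * f.natDegree by omega)
      have h8 : p ∣ (r * f.natDegree).factorial := by
        rw [← h7, mul_assoc]
        exact Dvd.dvd.mul_right hz _
      have h9 := (Nat.Prime.dvd_factorial hp).mp h8
      omega
    rw [e3] at e2
    have e5 : f.leadingCoeff ^ r ≠ 0 := pow_ne_zero _ (leadingCoeff_ne_zero.mpr hf0)
    exact mul_ne_zero (mul_ne_zero e4 e5) hsw e2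

end Pool.Agent.YNG
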