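import Mathlib

/-!
# Project YNG, part P: fields of prime degree (statements; helper6)

Every module proves `theorem X_thm : Stmt_X` (namespace `Pool.Agent.YNG`), file
`Pool/Agent/YNG/X.lean`, importing `Pool.Agent.YNG.StP` only (auxiliary lemmas in a namespace
`Xx`).
-/

set_option autoImplicit false

open NumberField
open scoped Classical

namespace Pool.Agent.YNG

/-- PM0 (power sums, about 60 lines).  Let `m = (p - 1)/2`.  Proof: `p` is odd (there are two
different nonzero elements).  Let `U' = {x ≠ 0, x ∉ U}`, so `|U| + |U'| = p - 1`.  Let `V` be one of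
`U`, `U'` with `1 ≤ |V| ≤ m`.  Suppose `∑_{u ∈ U} u^k = 0` for `1 ≤ k ≤ m`.  Then the same is true for
`V` (the sum of `x^k` over all `x ≠ 0` is `0` for `0 < k < p - 1`:
`FiniteField.sum_pow_lt_card_sub_one`).  Take `v₀ ∈ V` and `q = X ∏_{v ∈ V, v ≠ v₀} (X - v)`, of
degree `|V| ≤ m`, without constant term: `0 = ∑_{v ∈ V} q(v) = q(v₀) ≠ 0`. -/
def Stmt_PM0 : Prop :=
  ∀ (p : ℕ) [Fact p.Prime] (U : Finset (ZMod p)), U.Nonempty → (0 : ZMod p) ∉ U →
    (∃ x : ZMod p, x ≠ 0 ∧ x ∉ U) →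
    ∃ w : ℕ, 1 ≤ w ∧ w ≤ (p - 1) / 2 ∧ (∑ u ∈ U, u ^ w) ≠ 0 ∧
      ∀ k : ℕ, 1 ≤ k → k < w → (∑ u ∈ U, u ^ k) = 0

/-- PM (P. Müller's lemma, about 120 lines; hypothesis `Stmt_PM0`).  Proof.  Let `f` be the
interpolation polynomial of `π` (`natDegree f = n`, `1 ≤ n ≤ p - 1`, since `π` is not constant),
`r = (p - 1)/n` (rounded down), `N = r n ≤ p - 1`.  For all `i`: `u ↦ π(i + u) - π(i)` is an
injective map from `U` to `U`, hence a permutation of `U`, so
`∑_{u ∈ U} π(i + u)^r = ∑_{u ∈ U} (π(i) + u)^r`.  Both sides are values of polynomials in `i` of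
degree `≤ N < p`: `∑_u F(X + u) = ∑_u (f + u)^r` with `F = f^r`, as polynomials.  Write
`s_k = ∑_u u^k`.  Left side: `∑_k s_k D_k F` (`D_k` the Hasse derivative), right side
`∑_k binom(r,k) s_k f^(r-k)`.  With `w` from PM0 the terms `1 ≤ k < w` vanish and the terms `k = 0` are
equal.  `w ≤ (p-1)/2 ≤ N` (if `n ≤ (p-1)/2` then `N > p - 1 - n`, else `N ≥ n`).  Compare the
coefficients of `X^(N-w)` in the remaining sums: on the left `s_w binom(N,w) a^r ≠ 0` (`a` the
leading coefficient of `f`, `w ≤ N < p`); on the right all degrees are `≤ n (r - w) < N - w` if `n ≥ 2`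
(and there are no terms if `r < w`).  So `n = 1`. -/
def Stmt_PM : Prop :=
  ∀ (p : ℕ) [Fact p.Prime] (π : Equiv.Perm (ZMod p)) (U : Finset (ZMod p)), U.Nonempty →
    (0 : ZMod p) ∉ U → (∃ x : ZMod p, x ≠ 0 ∧ x ∉ U) →
    (∀ i j : ZMod p, i - j ∈ U → π i - π j ∈ U) → ∃ a b : ZMod p, ∀ x, π x = a * x + b

/-- PD (Burnside, about 120 lines; hypothesis `Stmt_PM`).  Proof.  `G` acts transitively on the `p`
points of `G ⧸ H`, so `p` divides the order of the image in the symmetric group and there is `c ∈ G`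
which acts as an element of order `p`, i.e. as a `p`-cycle: `i ↦ c^i H` is a bijection from `ZMod p` to
`G ⧸ H`.  Transport: `f : G →* Perm (ZMod p)` with `f c x = x + 1`, `f g 0 = 0 ↔ g ∈ H`.  Suppose the
first alternative fails for `g₀`, `g₁`: `g₀, g₁ ∉ H`, `g₁ ∉ H g₀ H`.  `U = {f (h g₀) 0 | h ∈ H}`:
`0 ∉ U`, `f g₁ 0 ≠ 0`, `f g₁ 0 ∉ U` (if `f g₁ 0 = f (h g₀) 0` then `g₁ ∈ h g₀ H`).  Claim:
`i - j ∈ U` implies `f g i - f g j ∈ U`: let `i - j = f (h g₀) 0`, `j' = f g j`,
`h' = c^(-j') g c^j h`; `f h' 0 = 0`, so `h' ∈ H`, and `f (h' g₀) 0 = f (c^(-j') g) i = f g i - j'`.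
Now `PM` for every `f g`. -/
def Stmt_PD : Prop :=
  ∀ (G : Type) [Group G] [Fintype G] (H : Subgroup G) (p : ℕ) [Fact p.Prime], H.index = p →
    (∀ g g' : G, g ∉ H → g' ∉ H → ∃ a ∈ H, ∃ b ∈ H, g' = a * g * b) ∨
    ∃ (f : G →* Equiv.Perm (ZMod p)) (c : G), (∀ g, g ∈ H ↔ f g 0 = 0) ∧
      (∀ x, f c x = x + 1) ∧ ∀ g, ∃ a b : ZMod p, ∀ x, f g x = a * x + b

/-- PE (affine groups, about 150 lines).  Proof.  `N = ker f ⊆ H` is normal, so it fixes all
`σ g v`, which span `W` (irreducible): `N ⊆ ker σ`.  `c^p ∈ N`.  Every `g` is `c^i h`, `h ∈ H`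
(`i = f g 0`).  `σ c ≠ 1` (else `σ g v = v` for all `g`, so `W` is trivial).  If `f g x = a x + b` then
`a ≠ 0` and `g c g⁻¹ ∈ c^a N`.  `A` = the subgroup generated by the class of `c`, `B` = the image of
`H`.  `A` is normal, cyclic, `A ⊔ B = ⊤`; if the class of `h ∈ H` commutes with the class of `c`,
which has order `p`, then `f h x = a x` with `a = 1`, `h ∈ N`.  Last part: let `f g x = a x + b`.  If
`a = 1`, `g ∈ c^b N`.  If `a ≠ 1`: `c^j g c^(-j)` is `x ↦ a x + b + j (1 - a)`, `g c^e` is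
`x ↦ a x + b + a e`, so `σ.character g = σ.character (g c^e)` for all `e`, and
`p * σ.character g = trace (σ g ∑_{e < p} σ (c^e)) = 0`: the vectors fixed by `σ c` are a
subrepresentation different from `W`, so `0`, and the image of `∑_e σ (c^e)` consists of such
vectors. -/
def Stmt_PE : Prop :=
  ∀ (G : Type) [Group G] [Fintype G] (H : Subgroup G) (p : ℕ) [Fact p.Prime]
    (f : G →* Equiv.Perm (ZMod p)) (c : G), (∀ g, g ∈ H ↔ f g 0 = 0) →
    (∀ x, f c x = x + 1) → (∀ g, ∃ a b : ZMod p, ∀ x, f g x = a * x + b) →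
    ∀ (W : Type) [AddCommGroup W] [Module ℂ W] [Module.Finite ℂ W]
      (σ : Representation ℂ G W), σ.IsIrreducible → (∃ g, σ g ≠ 1) →
      (∃ v : W, v ≠ 0 ∧ ∀ h ∈ H, σ h v = v) →
      (∃ A B : Subgroup (G ⧸ MonoidHom.ker σ), A.Normal ∧ IsCyclic A ∧ A ⊔ B = ⊤ ∧
        ∀ b ∈ B, (∀ a ∈ A, a * b = b * a) → b = 1) ∧ σ (c ^ p) = 1 ∧
      ∀ g, σ.character g = 0 ∨ ∃ k : ℕ, σ g = σ (c ^ k)

/-- PA (2-transitive groups, about 150 lines).  Proof.  `F` = functions `G ⧸ H → ℂ`, `V₀ ⊆ F` the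
functions with sum `0`.  `F^H` has dimension at most `2` (an `H`-invariant function is constant on
the cosets different from `H`, by the hypothesis), `V₀^H` at most `1`.  A subrepresentation
`U ≠ 0` of `F` has a vector `≠ 0` fixed by `H` (`e u = u (H)` is an `H`-invariant functional, not `0` on
`U`; average a vector with `e u ≠ 0`).  So `V₀` is irreducible (Maschke) or `0`.  The map
`T : F → W`, `u ↦ ∑_{gH} u(gH) σ g v` is equivariant; it is not `0` on `V₀` (else `T` factors through the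
trivial representation, `W = ℂ T(1)`... precisely: the differences `σ g v - v` are `0`, so `v` is
invariant, `W` is trivial).  Schur: `T : V₀ → W` is an isomorphism, and the character of `V₀` is the
one of `F` minus `1`.  (`Pool/Agent/ABS/WZP.lean` has the character of `F`.) -/
def Stmt_PA : Prop :=
  ∀ (G : Type) [Group G] [Fintype G] (H : Subgroup G),
    (∀ g g' : G, g ∉ H → g' ∉ H → ∃ a ∈ H, ∃ b ∈ H, g' = a * g * b) →
    ∀ (W : Type) [AddCommGroup W] [Module ℂ W] [Module.Finite ℂ W]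
      (σ : Representation ℂ G W), σ.IsIrreducible → (∃ g, σ g ≠ 1) →
      (∃ v : W, v ≠ 0 ∧ ∀ h ∈ H, σ h v = v) →
      ∀ g, σ.character g =
        (∑ x : G, if x⁻¹ * g * x ∈ H then (1 : ℂ) else 0) / (Nat.card H : ℂ) - 1

/-- PO (about 30 lines).  Proof: `T` acts on `G ⧸ H`, which has an odd number of points; orbits have
one or two points (or `IsPGroup.card_modEq_card_fixedPoints`), so there is a fixed point. -/
def Stmt_PO : Prop :=
  ∀ (G : Type) [Group G] [Fintype G] (H T : Subgroup G), Odd H.index → Nat.card T ≤ 2 →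
    ∃ g : G, ∀ t ∈ T, g⁻¹ * t * g ∈ H

/-- PQ (about 60 lines).  Proof: a CM field has even degree (`IsCMField`: quadratic over
`maximalRealSubfield`), which divides the prime `[F : ℚ]`; so `[F : ℚ] = 2` and `E = F` is totally
complex (the bijective map `E → F`, or: a real place of `F` restricts to a real place of `E`). -/
def Stmt_PQ : Prop :=
  ∀ (F : Type) [Field F] [NumberField F], (Module.finrank ℚ F).Prime →
    (Module.finrank ℚ F = 2 → 0 < InfinitePlace.nrRealPlaces F) →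
    ¬ ∃ E : IntermediateField ℚ F, IsCMField E

end Pool.Agent.YNG
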