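import Mathlib
import Pool.Agent.YNG.StP

/-! Project YNG, module PM0: power sums of a subset of the prime field. -/

set_option autoImplicit false

open scoped Classical

namespace Pool.Agent.YNG

namespace PM0x

open Polynomial in
theorem core (p : ℕ) [Fact p.Prime] (V : Finset (ZMod p)) (hV : V.Nonempty)
    (h0 : (0 : ZMod p) ∉ V)
    (hs : ∀ k : ℕ, 1 ≤ k → k ≤ V.card → (∑ v ∈ V, v ^ k) = 0) : False := by
  obtain ⟨v₀, hv₀⟩ := hV
  let q : (ZMod p)[X] := X * ∏ v ∈ V.erase v₀, (X - C v)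
  have hdeg : q.natDegree < V.card + 1 := by
    have h1 : (∏ v ∈ V.erase v₀, (X - C v) : (ZMod p)[X]).natDegree = (V.erase v₀).card :=
      natDegree_finsetProd_X_sub_C_eq_card _ (fun v => v)
    have h2 : q.natDegree ≤ 1 + (V.erase v₀).card := by
      refine (natDegree_mul_le).trans ?_
      rw [h1, natDegree_X]
    have h3 := Finset.card_erase_of_mem hv₀
    have h4 := Finset.card_pos.2 ⟨v₀, hv₀⟩
    omega
  have hc0 : q.coeff 0 = 0 := by
    show (X * ∏ v ∈ V.erase v₀, (X - C v) : (ZMod p)[X]).coeff 0 = 0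
    rw [mul_coeff_zero, coeff_X_zero, zero_mul]
  have hsum : ∑ v ∈ V, q.eval v = 0 := by
    have h1 : ∀ v ∈ V, q.eval v = ∑ k ∈ Finset.range (V.card + 1), q.coeff k * v ^ k :=
      fun v _ => eval_eq_sum_range' hdeg v
    rw [Finset.sum_congr rfl h1, Finset.sum_comm]
    refine Finset.sum_eq_zero fun k hk => ?_
    rw [← Finset.mul_sum]
    rcases Nat.eq_zero_or_pos k with h | h
    · rw [h, hc0, zero_mul]
    · rw [hs k h (by have := Finset.mem_range.1 hk; omega), mul_zero]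
  have hev : ∀ v, q.eval v = v * ∏ w ∈ V.erase v₀, (v - w) := by
    intro v
    show (X * ∏ v ∈ V.erase v₀, (X - C v) : (ZMod p)[X]).eval v = _
    rw [eval_mul, eval_X, eval_prod]
    congr 1
    refine Finset.prod_congr rfl fun w _ => ?_
    rw [eval_sub, eval_X, eval_C]
  have hone : ∑ v ∈ V, q.eval v = q.eval v₀ := by
    refine Finset.sum_eq_single_of_mem v₀ hv₀ ?_
    intro v hv hne
    rw [hev]
    have : ∏ w ∈ V.erase v₀, (v - w) = 0 :=
      Finset.prod_eq_zero (Finset.mem_erase.2 ⟨hne, hv⟩) (sub_self v)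
    rw [this, mul_zero]
  rw [hone, hev] at hsum
  have hv0 : v₀ ≠ 0 := fun h => h0 (h ▸ hv₀)
  have hprod : ∏ w ∈ V.erase v₀, (v₀ - w) ≠ 0 := by
    refine Finset.prod_ne_zero_iff.2 fun w hw => ?_
    exact sub_ne_zero.2 (Finset.ne_of_mem_erase hw).symm
  exact mul_ne_zero hv0 hprod hsum

end PM0x

theorem PM0_thm : Stmt_PM0 := by
  intro p hp U hU h0 hx
  obtain ⟨x, hx0, hxU⟩ := hx
  have hp2 : 2 ≤ p := hp.out.two_le
  have hcardU : Fintype.card (ZMod p) = p := ZMod.card p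
  -- the complement
  let U' : Finset (ZMod p) := (Finset.univ.erase 0) \ U
  have hmem : ∀ y, y ∈ U' ↔ y ≠ 0 ∧ y ∉ U := by
    intro y
    show y ∈ (Finset.univ.erase 0) \ U ↔ _
    rw [Finset.mem_sdiff, Finset.mem_erase]
    exact ⟨fun h => ⟨h.1.1, h.2⟩, fun h => ⟨⟨h.1, Finset.mem_univ _⟩, h.2⟩⟩
  have hsubU : U ⊆ Finset.univ.erase 0 := by
    intro y hy
    exact Finset.mem_erase.2 ⟨fun h => h0 (h ▸ hy), Finset.mem_univ _⟩
  have hcard : U.card + U'.card = p - 1 := by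
    have h1 : U'.card + U.card = (Finset.univ.erase (0 : ZMod p)).card :=
      Finset.card_sdiff_add_card_eq_card hsubU
    rw [Finset.card_erase_of_mem (Finset.mem_univ _), Finset.card_univ, hcardU] at h1
    omega
  have hU1 : 1 ≤ U.card := Finset.card_pos.2 hU
  have hU'1 : 1 ≤ U'.card := Finset.card_pos.2 ⟨x, (hmem x).2 ⟨hx0, hxU⟩⟩
  have hodd : p = 2 ∨ p % 2 = 1 := hp.out.eq_two_or_odd
  have hex : ∃ w : ℕ, 1 ≤ w ∧ w ≤ (p - 1) / 2 ∧ (∑ u ∈ U, u ^ w) ≠ 0 := by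
    by_contra hcon
    push Not at hcon
    have hall : ∀ k : ℕ, 1 ≤ k → k ≤ (p - 1) / 2 → (∑ u ∈ U', u ^ k) = 0 := by
      intro k hk1 hk2
      have h1 : ∑ y : ZMod p, y ^ k = 0 :=
        FiniteField.sum_pow_lt_card_sub_one (K := ZMod p) k (by rw [hcardU]; omega)
      have h2 : ∑ y ∈ Finset.univ.erase (0 : ZMod p), y ^ k = 0 := by
        have hz : (0 : ZMod p) ^ k = 0 := zero_pow (Nat.one_le_iff_ne_zero.1 hk1)
        exact (Finset.sum_erase (f := fun y : ZMod p => y ^ k) Finset.univ hz).trans h1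
      have h3 : ∑ y ∈ U', y ^ k + ∑ y ∈ U, y ^ k =
          ∑ y ∈ Finset.univ.erase (0 : ZMod p), y ^ k := Finset.sum_sdiff hsubU
      rw [h2, hcon k hk1 hk2, add_zero] at h3
      exact h3
    by_cases hle : U.card ≤ (p - 1) / 2
    · exact PM0x.core p U hU h0 (fun k h1 h2 => hcon k h1 (h2.trans hle))
    · have hle' : U'.card ≤ (p - 1) / 2 := by omega
      exact PM0x.core p U' ⟨x, (hmem x).2 ⟨hx0, hxU⟩⟩ (fun h => ((hmem 0).1 h).1 rfl)
        (fun k h1 h2 => hall k h1 (h2.trans hle'))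
  let w := Nat.find hex
  have hw := Nat.find_spec hex
  refine ⟨w, hw.1, hw.2.1, hw.2.2, ?_⟩
  intro k hk1 hkw
  by_contra hne
  exact Nat.find_min hex hkw ⟨hk1, (Nat.le_of_lt hkw).trans hw.2.1, hne⟩

end Pool.Agent.YNG
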