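import Pool.Agent.YNG.StP

/-!
# YNG, module PO: a group of order at most two fixes a point of a set with an odd number of points
-/

set_option autoImplicit false

namespace Pool.Agent.YNG

theorem PO_thm : Stmt_PO := by
  intro G _ _ H T hodd hT
  have h1 : Nat.card T = 1 ∨ Nat.card T = 2 := by
    have h0 : 0 < Nat.card T := Nat.card_pos
    omega
  have hp : IsPGroup 2 T := by
    rcases h1 with h | h
    · exact IsPGroup.of_card (n := 0) (by simpa using h)
    · exact IsPGroup.of_card (n := 1) (by simpa using h)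
  haveI : Fact (Nat.Prime 2) := ⟨Nat.prime_two⟩
  have h2 := hp.card_modEq_card_fixedPoints (G ⧸ H)
  have h3 : Nat.card (G ⧸ H) % 2 = 1 := Nat.odd_iff.mp hodd
  have h4 : Nat.card (MulAction.fixedPoints T (G ⧸ H)) ≠ 0 := by
    intro h0
    rw [h0] at h2
    unfold Nat.ModEq at h2
    omega
  obtain ⟨⟨x, hx⟩⟩ : Nonempty (MulAction.fixedPoints T (G ⧸ H)) := (Nat.card_ne_zero.mp h4).1
  obtain ⟨g, rfl⟩ := QuotientGroup.mk_surjective x
  refine ⟨g, fun t ht => ?_⟩
  have h5 := hx ⟨t, ht⟩
  change ((t * g : G) : G ⧸ H) = (g : G ⧸ H) at h5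
  have h6 := QuotientGroup.eq.mp h5.symm
  simpa [mul_assoc] using h6

end Pool.Agent.YNG
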