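import Pool.Agent.YNG.StS

set_option autoImplicit false

open scoped Classical

namespace Pool.Agent.YNG

namespace PS0x

section

variable {G : Type} [Group G] [Fintype G]

/-- sum over the group of a function of the coset -/
theorem sum_coset (H : Subgroup G) [Fintype (G ⧸ H)] (φ : G ⧸ H → ℂ) :
    ∑ a : G, φ (QuotientGroup.mk a) = (Nat.card H : ℂ) * ∑ x : G ⧸ H, φ x := by
  rw [← Finset.sum_fiberwise Finset.univ (fun a : G => (QuotientGroup.mk a : G ⧸ H))
    (fun a => φ (QuotientGroup.mk a)), Finset.mul_sum]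
  refine Finset.sum_congr rfl fun x _ => ?_
  rw [Finset.sum_congr rfl (g := fun _ => φ x) (fun a ha => by rw [(Finset.mem_filter.1 ha).2]),
    Finset.sum_const, nsmul_eq_mul]
  congr 1
  have h1 := QuotientGroup.card_preimage_mk H {x}
  have h2 : Nat.card ({x} : Set (G ⧸ H)) = 1 := by simp
  rw [h2, mul_one] at h1
  rw [← h1, Nat.card_eq_fintype_card, ← Set.toFinset_card]
  congr 2
  ext a
  simp

/-- translation operators -/
noncomputable def tr (H : Subgroup G) (g : G) : (G ⧸ H → ℂ) →ₗ[ℂ] (G ⧸ H → ℂ) :=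
  LinearMap.funLeft ℂ ℂ (fun x : G ⧸ H => g⁻¹ • x)

theorem tr_apply (H : Subgroup G) (g : G) (u : G ⧸ H → ℂ) (x : G ⧸ H) :
    tr H g u x = u (g⁻¹ • x) := rfl

theorem trace_tr (H : Subgroup G) [Fintype (G ⧸ H)] (g : G) :
    LinearMap.trace ℂ (G ⧸ H → ℂ) (tr H g) = ∑ x : G ⧸ H, if g • x = x then (1 : ℂ) else 0 := by
  rw [LinearMap.trace_eq_matrix_trace ℂ (Pi.basisFun ℂ (G ⧸ H))]
  unfold Matrix.trace
  refine Finset.sum_congr rfl fun x _ => ?_
  rw [Matrix.diag_apply, LinearMap.toMatrix_apply]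
  simp only [Pi.basisFun_apply, Pi.basisFun_repr, tr_apply, Pi.single_apply]
  have h : (g⁻¹ • x = x) ↔ (g • x = x) := by
    rw [inv_smul_eq_iff, eq_comm]
  simp only [h]

theorem fix_iff (H : Subgroup G) (g a : G) :
    g • (QuotientGroup.mk a : G ⧸ H) = QuotientGroup.mk a ↔ a⁻¹ * g * a ∈ H := by
  rw [MulAction.Quotient.smul_mk, eq_comm, QuotientGroup.eq, smul_eq_mul, mul_assoc]

theorem trace_tr' (H : Subgroup G) [Fintype (G ⧸ H)] (g : G) :
    LinearMap.trace ℂ (G ⧸ H → ℂ) (tr H g) =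
      (∑ a : G, if a⁻¹ * g * a ∈ H then (1 : ℂ) else 0) / (Nat.card H : ℂ) := by
  have h0 : (Nat.card H : ℂ) ≠ 0 := by
    exact_mod_cast Nat.card_pos.ne'
  rw [trace_tr, eq_div_iff h0, mul_comm, ← sum_coset H (fun x => if g • x = x then (1 : ℂ) else 0)]
  refine Finset.sum_congr rfl fun a _ => ?_
  simp only [fix_iff]


variable {W : Type} [AddCommGroup W] [Module ℂ W]

/-- the vector attached to a coset -/
noncomputable def vec (σ : Representation ℂ G W) (H : Subgroup G) (v : W) (x : G ⧸ H) : W :=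
  σ x.out v

theorem vec_mk (σ : Representation ℂ G W) (H : Subgroup G) (v : W) (hv : ∀ h ∈ H, σ h v = v)
    (a : G) : vec σ H v (QuotientGroup.mk a) = σ a v := by
  unfold vec
  have h1 : (QuotientGroup.mk (Quotient.out (QuotientGroup.mk a : G ⧸ H)) : G ⧸ H) =
      QuotientGroup.mk a := Quotient.out_eq' _
  rw [QuotientGroup.eq] at h1
  have h2 := hv _ h1
  calc σ (Quotient.out (QuotientGroup.mk a : G ⧸ H)) v
      = σ (Quotient.out (QuotientGroup.mk a : G ⧸ H))
          (σ ((Quotient.out (QuotientGroup.mk a : G ⧸ H))⁻¹ * a) v) := by rw [h2]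
    _ = σ a v := by
      rw [← Module.End.mul_apply, ← map_mul, mul_inv_cancel_left]

theorem vec_smul (σ : Representation ℂ G W) (H : Subgroup G) (v : W) (hv : ∀ h ∈ H, σ h v = v)
    (g : G) (x : G ⧸ H) : vec σ H v (g • x) = σ g (vec σ H v x) := by
  induction x using QuotientGroup.induction_on with
  | H a =>
    rw [MulAction.Quotient.smul_mk, smul_eq_mul, vec_mk σ H v hv, vec_mk σ H v hv, map_mul,
      Module.End.mul_apply]

/-- the map from functions on cosets to `W` -/
noncomputable def TT (σ : Representation ℂ G W) (H : Subgroup G) [Fintype (G ⧸ H)] (v : W) :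
    (G ⧸ H → ℂ) →ₗ[ℂ] W where
  toFun u := ∑ x : G ⧸ H, u x • vec σ H v x
  map_add' u u' := by simp only [Pi.add_apply, add_smul, Finset.sum_add_distrib]
  map_smul' c u := by
    simp only [Pi.smul_apply, smul_eq_mul, mul_smul, Finset.smul_sum, RingHom.id_apply]

theorem TT_apply (σ : Representation ℂ G W) (H : Subgroup G) [Fintype (G ⧸ H)] (v : W)
    (u : G ⧸ H → ℂ) : TT σ H v u = ∑ x : G ⧸ H, u x • vec σ H v x := rfl

theorem TT_tr (σ : Representation ℂ G W) (H : Subgroup G) [Fintype (G ⧸ H)] (v : W)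
    (hv : ∀ h ∈ H, σ h v = v) (g : G) (u : G ⧸ H → ℂ) :
    TT σ H v (tr H g u) = σ g (TT σ H v u) := by
  rw [TT_apply, TT_apply, map_sum]
  refine Fintype.sum_equiv (MulAction.toPerm g⁻¹) _ _ fun x => ?_
  rw [tr_apply, MulAction.toPerm_apply, map_smul, ← vec_smul σ H v hv, smul_inv_smul]

/-- push forward of functions to the cosets of a larger subgroup -/
noncomputable def PP {H M : Subgroup G} (hHM : H ≤ M) [Fintype (G ⧸ H)] :
    (G ⧸ H → ℂ) →ₗ[ℂ] (G ⧸ M → ℂ) where
  toFun u y := ∑ x : G ⧸ H, if Subgroup.quotientMapOfLE hHM x = y then u x else 0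
  map_add' u u' := by
    funext y
    simp only [Pi.add_apply, ← Finset.sum_add_distrib]
    refine Finset.sum_congr rfl fun x _ => ?_
    split_ifs <;> simp
  map_smul' c u := by
    funext y
    simp only [Pi.smul_apply, smul_eq_mul, Finset.mul_sum, RingHom.id_apply]
    refine Finset.sum_congr rfl fun x _ => ?_
    split_ifs <;> simp

theorem PP_apply {H M : Subgroup G} (hHM : H ≤ M) [Fintype (G ⧸ H)] (u : G ⧸ H → ℂ)
    (y : G ⧸ M) : PP hHM u y =
      ∑ x : G ⧸ H, if Subgroup.quotientMapOfLE hHM x = y then u x else 0 := rfl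

theorem map_smul' {H M : Subgroup G} (hHM : H ≤ M) (g : G) (x : G ⧸ H) :
    Subgroup.quotientMapOfLE hHM (g • x) = g • Subgroup.quotientMapOfLE hHM x := by
  induction x using QuotientGroup.induction_on with
  | H a => rfl

theorem PP_tr {H M : Subgroup G} (hHM : H ≤ M) [Fintype (G ⧸ H)] (g : G) (u : G ⧸ H → ℂ) :
    PP hHM (tr H g u) = tr M g (PP hHM u) := by
  funext y
  rw [PP_apply, tr_apply, PP_apply]
  refine Fintype.sum_equiv (MulAction.toPerm g⁻¹) _ _ fun x => ?_
  rw [tr_apply, MulAction.toPerm_apply, map_smul']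
  have : (Subgroup.quotientMapOfLE hHM x = y) ↔
      (g⁻¹ • Subgroup.quotientMapOfLE hHM x = g⁻¹ • y) := (MulAction.injective g⁻¹).eq_iff.symm
  simp only [this]

/-- the sum of the vectors over a coset of `M` vanishes -/
theorem sum_vec_zero (σ : Representation ℂ G W) {H M : Subgroup G} (hHM : H ≤ M)
    [Fintype (G ⧸ H)] (v : W) (hv : ∀ h ∈ H, σ h v = v)
    (hM : ∀ v : W, (∀ m ∈ M, σ m v = v) → v = 0) (y : G ⧸ M) :
    (∑ x : G ⧸ H, if Subgroup.quotientMapOfLE hHM x = y then vec σ H v x else 0) = 0 := by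
  have key : ∀ (g : G) (y : G ⧸ M),
      σ g (∑ x : G ⧸ H, if Subgroup.quotientMapOfLE hHM x = y then vec σ H v x else 0) =
        ∑ x : G ⧸ H, if Subgroup.quotientMapOfLE hHM x = g • y then vec σ H v x else 0 := by
    intro g y
    rw [map_sum]
    refine Fintype.sum_equiv (MulAction.toPerm g) _ _ fun x => ?_
    rw [MulAction.toPerm_apply, map_smul', vec_smul σ H v hv]
    have : (g • Subgroup.quotientMapOfLE hHM x = g • y) ↔ (Subgroup.quotientMapOfLE hHM x = y) :=
      (MulAction.injective g).eq_iff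
    simp only [this]
    split_ifs <;> simp
  have h1 : (∑ x : G ⧸ H, if Subgroup.quotientMapOfLE hHM x = (QuotientGroup.mk 1 : G ⧸ M)
      then vec σ H v x else 0) = 0 := by
    refine hM _ fun m hm => ?_
    rw [key]
    have : m • (QuotientGroup.mk 1 : G ⧸ M) = QuotientGroup.mk 1 := by
      rw [fix_iff]; simpa using hm
    rw [this]
  induction y using QuotientGroup.induction_on with
  | H a =>
    have h2 := key a (QuotientGroup.mk 1)
    rw [h1, map_zero, MulAction.Quotient.smul_mk, smul_eq_mul, mul_one] at h2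
    exact h2.symm

/-- the pull back of functions is killed by `TT` -/
theorem TT_pull (σ : Representation ℂ G W) {H M : Subgroup G} (hHM : H ≤ M)
    [Fintype (G ⧸ H)] [Fintype (G ⧸ M)] (v : W) (hv : ∀ h ∈ H, σ h v = v)
    (hM : ∀ v : W, (∀ m ∈ M, σ m v = v) → v = 0) (f : G ⧸ M → ℂ) :
    TT σ H v (fun x => f (Subgroup.quotientMapOfLE hHM x)) = 0 := by
  rw [TT_apply]
  have h1 : ∀ x : G ⧸ H, f (Subgroup.quotientMapOfLE hHM x) • vec σ H v x =
      ∑ y : G ⧸ M, f y • (if Subgroup.quotientMapOfLE hHM x = y then vec σ H v x else 0) := by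
    intro x
    rw [Finset.sum_eq_single (Subgroup.quotientMapOfLE hHM x)]
    · rw [if_pos rfl]
    · intro y _ hy
      rw [if_neg (Ne.symm hy), smul_zero]
    · intro h; exact absurd (Finset.mem_univ _) h
  rw [Finset.sum_congr rfl fun x _ => h1 x, Finset.sum_comm]
  refine Finset.sum_eq_zero fun y _ => ?_
  rw [← Finset.smul_sum, sum_vec_zero σ hHM v hv hM y, smul_zero]

theorem exists_pull {H M : Subgroup G} (hHM : H ≤ M) [Fintype (G ⧸ H)] [Fintype (G ⧸ M)]
    (f : G ⧸ M → ℂ) : ∃ f' : G ⧸ M → ℂ,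
      PP hHM (fun x => f' (Subgroup.quotientMapOfLE hHM x)) = f := by
  refine ⟨fun y => f y / (∑ x : G ⧸ H, if Subgroup.quotientMapOfLE hHM x = y then (1 : ℂ) else 0),
    ?_⟩
  funext y
  have hpos : (∑ x : G ⧸ H, if Subgroup.quotientMapOfLE hHM x = y then (1 : ℂ) else 0) ≠ 0 := by
    rw [Finset.sum_boole]
    obtain ⟨a, rfl⟩ := QuotientGroup.mk_surjective y
    have : (QuotientGroup.mk a : G ⧸ H) ∈ Finset.univ.filter
        (fun x : G ⧸ H => Subgroup.quotientMapOfLE hHM x = QuotientGroup.mk a) :=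
      Finset.mem_filter.2 ⟨Finset.mem_univ _, rfl⟩
    exact_mod_cast (Finset.card_pos.2 ⟨_, this⟩).ne'
  rw [PP_apply]
  have h1 : ∀ x : G ⧸ H, (if Subgroup.quotientMapOfLE hHM x = y then
      (f (Subgroup.quotientMapOfLE hHM x) / (∑ x' : G ⧸ H,
        if Subgroup.quotientMapOfLE hHM x' = Subgroup.quotientMapOfLE hHM x then (1 : ℂ) else 0))
        else 0) =
      f y / (∑ x' : G ⧸ H, if Subgroup.quotientMapOfLE hHM x' = y then (1 : ℂ) else 0) *
        (if Subgroup.quotientMapOfLE hHM x = y then (1 : ℂ) else 0) := by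
    intro x
    split_ifs with h
    · rw [h, mul_one]
    · rw [mul_zero]
  rw [Finset.sum_congr rfl fun x _ => h1 x, ← Finset.mul_sum, div_mul_cancel₀ _ hpos]

end

end PS0x

open PS0x

theorem PS0_thm : Stmt_PS0 := by
  intro G _ _ H M hHM W _ _ _ σ hirr ⟨v, hv0, hv⟩ hM
  have hfin : Finite G := inferInstance
  have T_surj : Function.Surjective (TT σ H v) := by
    let S : Subrepresentation σ :=
      { toSubmodule := LinearMap.range (TT σ H v)
        apply_mem_toSubmodule := by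
          rintro g _ ⟨u, rfl⟩
          exact ⟨tr H g u, TT_tr σ H v hv g u⟩ }
    rcases hirr.eq_bot_or_eq_top S with h | h
    · exfalso
      apply hv0
      have h1 : v ∈ S.toSubmodule := by
        refine ⟨Pi.single (QuotientGroup.mk 1) 1, ?_⟩
        rw [TT_apply, Finset.sum_eq_single (QuotientGroup.mk 1 : G ⧸ H)]
        · rw [Pi.single_eq_same, one_smul, vec_mk σ H v hv, map_one, Module.End.one_apply]
        · intro x _ hx
          rw [Pi.single_eq_of_ne hx, zero_smul]
        · intro h; exact absurd (Finset.mem_univ _) h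
      rw [h] at h1
      exact h1
    · intro w
      have h1 : w ∈ S.toSubmodule := by rw [h]; trivial
      exact h1
  let Φ : (G ⧸ H → ℂ) →ₗ[ℂ] W × (G ⧸ M → ℂ) := (TT σ H v).prod (PP hHM)
  have Φ_surj : Function.Surjective Φ := by
    rintro ⟨w, f⟩
    obtain ⟨u, hu⟩ := T_surj w
    obtain ⟨f', hf'⟩ := exists_pull hHM (f - PP hHM u)
    refine ⟨u + fun x => f' (Subgroup.quotientMapOfLE hHM x), ?_⟩
    refine Prod.ext ?_ ?_
    · show TT σ H v (u + fun x => f' (Subgroup.quotientMapOfLE hHM x)) = w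
      rw [map_add, TT_pull σ hHM v hv hM, add_zero, hu]
    · show PP hHM (u + fun x => f' (Subgroup.quotientMapOfLE hHM x)) = f
      rw [map_add, hf']
      abel
  have d1 : Module.finrank ℂ (G ⧸ H → ℂ) = H.index := by
    rw [Module.finrank_fintype_fun_eq_card, Subgroup.index, Nat.card_eq_fintype_card]
  have d2 : Module.finrank ℂ (W × (G ⧸ M → ℂ)) = Module.finrank ℂ W + M.index := by
    rw [Module.finrank_prod, Module.finrank_fintype_fun_eq_card, Subgroup.index,
      Nat.card_eq_fintype_card]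
  have d3 : Module.finrank ℂ (W × (G ⧸ M → ℂ)) ≤ Module.finrank ℂ (G ⧸ H → ℂ) :=
    LinearMap.finrank_le_finrank_of_surjective Φ_surj
  refine ⟨by rw [← d1, ← d2]; exact d3, fun hd g => ?_⟩
  have d4 : Module.finrank ℂ (G ⧸ H → ℂ) = Module.finrank ℂ (W × (G ⧸ M → ℂ)) := by
    rw [d1, d2, hd]
  have Φ_inj : Function.Injective Φ :=
    (LinearMap.injective_iff_surjective_of_finrank_eq_finrank d4).2 Φ_surj
  let e : (G ⧸ H → ℂ) ≃ₗ[ℂ] W × (G ⧸ M → ℂ) := LinearEquiv.ofBijective Φ ⟨Φ_inj, Φ_surj⟩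
  have h1 : e.conj (tr H g) = LinearMap.prodMap (σ g) (tr M g) := by
    refine LinearMap.ext fun p => ?_
    obtain ⟨u, rfl⟩ := e.surjective p
    rw [LinearEquiv.conj_apply_apply, LinearEquiv.symm_apply_apply]
    refine Prod.ext ?_ ?_
    · exact TT_tr σ H v hv g u
    · exact PP_tr hHM g u
  have h2 := LinearMap.trace_conj' (tr H g) e
  rw [h1, LinearMap.trace_prodMap', trace_tr', trace_tr'] at h2
  show LinearMap.trace ℂ W (σ g) = _
  rw [← h2]
  ring

end Pool.Agent.YNG
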