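import Pool.Agent.YNG.StS

/-!
# Project YNG, module PS1: primitive groups of degree six are doubly transitive

If the orbit of `g H` under `H` has one or two elements, then `K = H ∩ g H g⁻¹` is normal in `G` (its
normalizer contains `H` and `g H g⁻¹`), of index `6` or `12`, and `H / K` is contained in a Sylow
`2`-subgroup of `G / K`, whose inverse image has index three.
-/

set_option autoImplicit false

open scoped Classical

namespace Pool.Agent.YNG

namespace PS1x

variable {G : Type} [Group G] [Fintype G]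

/-- a normal subgroup `K ≤ H` of relative index a power of two -/
theorem sylow_step (H K : Subgroup G) (hidx : H.index = 6)
    (hmax : ∀ M : Subgroup G, H ≤ M → M = H ∨ M = ⊤) (hKH : K ≤ H) (hK : K.Normal)
    (e : ℕ) (he : K.relIndex H = 2 ^ e) : False := by
  have := hK
  have : Fact (Nat.Prime 2) := ⟨Nat.prime_two⟩
  have hKi : K.index = 2 ^ e * 6 := by
    rw [← Subgroup.relIndex_mul_index hKH, he, hidx]
  have hcardQ : Nat.card (G ⧸ K) = 2 ^ e * 6 := hKi
  -- the image of `H`
  have hcardH : Nat.card (H.map (QuotientGroup.mk' K)) = 2 ^ e := by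
    have h1 := Subgroup.card_mul_index (H.map (QuotientGroup.mk' K))
    have h2 : (H.map (QuotientGroup.mk' K)).index = 6 := by
      rw [Subgroup.index_map_eq _ (QuotientGroup.mk'_surjective K)
        (by rw [QuotientGroup.ker_mk']; exact hKH), hidx]
    rw [h2, hcardQ] at h1
    omega
  have hp : IsPGroup 2 (H.map (QuotientGroup.mk' K)) := IsPGroup.of_card hcardH
  obtain ⟨P, hP⟩ := hp.exists_le_sylow
  have hcardP := P.card_eq_multiplicity
  have hf : (Nat.card (G ⧸ K)).factorization 2 = e + 1 := by
    rw [hcardQ]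
    have : 2 ^ e * 6 = 2 ^ (e + 1) * 3 := by ring
    rw [this, Nat.factorization_mul (by positivity) (by norm_num), Nat.Prime.factorization_pow
      Nat.prime_two, Finsupp.add_apply, Finsupp.single_eq_same,
      Nat.factorization_eq_zero_of_not_dvd (by norm_num)]
  rw [hf] at hcardP
  have hPi : (P : Subgroup (G ⧸ K)).index = 3 := by
    have h1 := Subgroup.card_mul_index (P : Subgroup (G ⧸ K))
    have h2 : Nat.card (P : Subgroup (G ⧸ K)) = 2 ^ (e + 1) := hcardP
    rw [h2, hcardQ] at h1
    have h3 : 2 ^ (e + 1) * (P : Subgroup (G ⧸ K)).index = 2 ^ (e + 1) * 3 := by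
      rw [h1]; ring
    exact Nat.eq_of_mul_eq_mul_left (by positivity) h3
  have hMi : ((P : Subgroup (G ⧸ K)).comap (QuotientGroup.mk' K)).index = 3 := by
    rw [Subgroup.index_comap_of_surjective _ (QuotientGroup.mk'_surjective K), hPi]
  have hHM : H ≤ (P : Subgroup (G ⧸ K)).comap (QuotientGroup.mk' K) :=
    Subgroup.map_le_iff_le_comap.1 hP
  rcases hmax _ hHM with h | h
  · rw [h, hidx] at hMi
    omega
  · rw [h, Subgroup.index_top] at hMi
    omega

theorem orbit_ge (H : Subgroup G) (hidx : H.index = 6)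
    (hmax : ∀ M : Subgroup G, H ≤ M → M = H ∨ M = ⊤) (g : G) (hg : g ∉ H) :
    3 ≤ Nat.card (MulAction.orbit H (g : G ⧸ H)) := by
  set S : Subgroup G := MulAction.stabilizer G (g : G ⧸ H) with hS
  have hmemS : ∀ x : G, x ∈ S ↔ g⁻¹ * x⁻¹ * g ∈ H := by
    intro x
    rw [hS, MulAction.mem_stabilizer_iff]
    change ((x * g : G) : G ⧸ H) = (g : G ⧸ H) ↔ _
    rw [QuotientGroup.eq, mul_inv_rev]
  have hSi : S.index = 6 := by
    rw [hS, MulAction.index_stabilizer_of_transitive]
    exact hidx
  have hrel : S.relIndex H = Nat.card (MulAction.orbit H (g : G ⧸ H)) := by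
    rw [Nat.card_coe_set_eq, ← MulAction.index_stabilizer, Subgroup.relIndex]
    congr 1
  set K : Subgroup G := H ⊓ S with hK
  have hKH : K ≤ H := inf_le_left
  have hKS : K ≤ S := inf_le_right
  have hKrel : K.relIndex H = S.relIndex H := Subgroup.inf_relIndex_left H S
  have hKrelS : K.relIndex S = K.relIndex H := by
    have h1 := Subgroup.relIndex_mul_index hKH
    have h2 := Subgroup.relIndex_mul_index hKS
    rw [hidx] at h1
    rw [hSi] at h2
    omega
  have heqS : H ≤ S → H = S := by
    intro h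
    have h1 := Subgroup.relIndex_mul_index h
    rw [hidx, hSi] at h1
    have h2 : H.relIndex S = 1 := by omega
    exact le_antisymm h (Subgroup.relIndex_eq_one.1 h2)
  have heqS' : S ≤ H → H = S := by
    intro h
    have h1 := Subgroup.relIndex_mul_index h
    rw [hidx, hSi] at h1
    have h2 : S.relIndex H = 1 := by omega
    exact le_antisymm (Subgroup.relIndex_eq_one.1 h2) h
  have hpos : 0 < Nat.card (MulAction.orbit H (g : G ⧸ H)) := by
    have : Nonempty (MulAction.orbit H (g : G ⧸ H)) := ⟨⟨_, MulAction.mem_orbit_self _⟩⟩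
    exact Nat.card_pos
  by_contra hlt
  have hcase : K.relIndex H = 1 ∨ K.relIndex H = 2 := by
    rw [hKrel, hrel]; omega
  rcases hcase with h1 | h2
  · -- the normalizer of `H` contains `g`
    have hHS : H = S := heqS ((Subgroup.relIndex_eq_one.1 h1).trans hKS)
    have hKeq : K = H := by rw [hK, ← hHS, inf_idem]
    have hN : (Subgroup.normalizer (H : Set G)) = ⊤ := by
      rcases hmax (Subgroup.normalizer (H : Set G)) Subgroup.le_normalizer with h | h
      · exfalso
        apply hg
        rw [← h, ← inv_mem_iff, Subgroup.mem_normalizer_iff]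
        intro x
        have h3 := hmemS x⁻¹
        rw [inv_inv, ← hHS, inv_mem_iff] at h3
        rw [h3, inv_inv]
      · exact h
    have hnorm : K.Normal := by
      rw [hKeq]
      exact Subgroup.normalizer_eq_top_iff.1 hN
    exact sylow_step H K hidx hmax hKH hnorm 0 (by rw [h1]; norm_num)
  · have hn1 : H ≤ (Subgroup.normalizer (K : Set G)) := by
      have : (K.subgroupOf H).Normal := Subgroup.normal_of_index_eq_two h2
      exact Subgroup.le_normalizer_of_normal_subgroupOf hKH
    have hn2 : S ≤ (Subgroup.normalizer (K : Set G)) := by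
      have : (K.subgroupOf S).Normal := Subgroup.normal_of_index_eq_two (hKrelS.trans h2)
      exact Subgroup.le_normalizer_of_normal_subgroupOf hKS
    have hN : (Subgroup.normalizer (K : Set G)) = ⊤ := by
      rcases hmax _ hn1 with h | h
      · exfalso
        rw [h] at hn2
        have hHS := heqS' hn2
        have hKeq : K = H := by rw [hK, ← hHS, inf_idem]
        rw [hKeq, Subgroup.relIndex_self] at h2
        omega
      · exact h
    have hnorm : K.Normal := Subgroup.normalizer_eq_top_iff.1 hN
    exact sylow_step H K hidx hmax hKH hnorm 1 (by rw [h2]; norm_num)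

end PS1x

open PS1x in
theorem PS1_thm : Stmt_PS1 := by
  intro G _ _ H hidx hmax g g' hg hg'
  by_contra hcon
  have h1 := orbit_ge H hidx hmax g hg
  have h2 := orbit_ge H hidx hmax g' hg'
  rw [Nat.card_coe_set_eq] at h1 h2
  have hcard : Nat.card (G ⧸ H) = 6 := hidx
  have hd1 : ∀ x : G, x ∉ H → ((1 : G) : G ⧸ H) ∉ MulAction.orbit H (x : G ⧸ H) := by
    rintro x hx ⟨⟨a, ha⟩, hax⟩
    apply hx
    have h3 : ((a * x : G) : G ⧸ H) = ((1 : G) : G ⧸ H) := hax
    rw [QuotientGroup.eq, mul_one, inv_mem_iff] at h3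
    exact (Subgroup.mul_mem_cancel_left H ha).1 h3
  have hd2 : Disjoint (MulAction.orbit H (g : G ⧸ H)) (MulAction.orbit H (g' : G ⧸ H)) := by
    rw [Set.disjoint_left]
    intro z hz hz'
    have h3 : (g' : G ⧸ H) ∈ MulAction.orbit H (g : G ⧸ H) := by
      rw [← MulAction.orbit_eq_iff.2 hz, MulAction.orbit_eq_iff.2 hz']
      exact MulAction.mem_orbit_self _
    obtain ⟨⟨a, ha⟩, hag⟩ := h3
    apply hcon
    have h4 : ((a * g : G) : G ⧸ H) = (g' : G ⧸ H) := hag
    rw [QuotientGroup.eq] at h4
    exact ⟨a, ha, (a * g)⁻¹ * g', h4, by group⟩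
  have hd3 : Disjoint ({((1 : G) : G ⧸ H)} : Set (G ⧸ H))
      (MulAction.orbit H (g : G ⧸ H) ∪ MulAction.orbit H (g' : G ⧸ H)) := by
    rw [Set.disjoint_singleton_left]
    rintro (h | h)
    · exact hd1 g hg h
    · exact hd1 g' hg' h
  have h3 := Set.ncard_union_eq hd3 (Set.toFinite _) (Set.toFinite _)
  have h4 := Set.ncard_union_eq hd2 (Set.toFinite _) (Set.toFinite _)
  have h5 : ({((1 : G) : G ⧸ H)} ∪
      (MulAction.orbit H (g : G ⧸ H) ∪ MulAction.orbit H (g' : G ⧸ H))).ncard ≤ 6 := by
    rw [← hcard, ← Set.ncard_univ]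
    exact Set.ncard_le_ncard (Set.subset_univ _) (Set.toFinite _)
  rw [Set.ncard_singleton] at h3
  omega

end Pool.Agent.YNG
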