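import Pool.Agent.YNG.StS

/-!
# Project YNG, part S: degree six, block size two (module PS2)
-/

set_option autoImplicit false

open scoped Classical

namespace Pool.Agent.YNG

namespace PS2x

variable {G : Type} [Group G] {W : Type} [AddCommGroup W] [Module ℂ W]
  (σ : Representation ℂ G W)

/-- Elements of `M` change `v` at most by a sign. -/
theorem sgn {H M : Subgroup G} (hi : (H.subgroupOf M).index = 2) {v : W}
    (hv : ∀ h ∈ H, σ h v = v) (hM : ∀ w : W, (∀ m ∈ M, σ m w = w) → w = 0)
    (m : G) (hm : m ∈ M) : σ m v = v ∨ σ m v = -v := by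
  by_cases hmH : m ∈ H
  · exact Or.inl (hv m hmH)
  · right
    have key : ∀ a ∈ M, ∀ b ∈ M, (a * b ∈ H ↔ (a ∈ H ↔ b ∈ H)) := by
      intro a ha b hb
      have := Subgroup.mul_mem_iff_of_index_two hi (a := ⟨a, ha⟩) (b := ⟨b, hb⟩)
      simpa [Subgroup.mem_subgroupOf] using this
    have h1 : ∀ a ∈ M, a ∉ H → σ a v = σ m v := by
      intro a ha haH
      have hc : m⁻¹ * a ∈ H := (key _ (M.inv_mem hm) _ ha).mpr (by
        constructor
        · intro h; exact absurd ((H.inv_mem_iff).mp h) hmH
        · intro h; exact absurd h haH)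
      have h2 : σ (m * (m⁻¹ * a)) v = σ m v := by
        rw [map_mul]
        show σ m (σ (m⁻¹ * a) v) = σ m v
        rw [hv _ hc]
      rwa [mul_inv_cancel_left] at h2
    have h0 : v + σ m v = 0 := by
      apply hM
      intro a ha
      rw [map_add]
      have e : σ a (σ m v) = σ (a * m) v := by rw [map_mul]; rfl
      rw [e]
      by_cases haH : a ∈ H
      · rw [hv a haH, h1 (a * m) (M.mul_mem ha hm)]
        rw [key a ha m hm]; tauto
      · rw [h1 a ha haH, hv (a * m) ((key a ha m hm).mpr (by tauto)), add_comm]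
    exact (eq_neg_of_add_eq_zero_right h0)

/-- An endomorphism which fixes the orbit of a non zero vector is the identity. -/
theorem ext_orbit (hσ : σ.IsIrreducible) {v : W} (hv0 : v ≠ 0) (T : W →ₗ[ℂ] W)
    (hT : ∀ x, T (σ x v) = σ x v) : T = 1 := by
  have hstab : ∀ (g : G) ⦃w : W⦄, w ∈ Submodule.span ℂ (Set.range fun x => σ x v) →
      σ g w ∈ Submodule.span ℂ (Set.range fun x => σ x v) := by
    intro g w hw
    induction hw using Submodule.span_induction with
    | mem x hx =>
      obtain ⟨y, rfl⟩ := hx
      exact Submodule.subset_span ⟨g * y, by simp [map_mul]⟩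
    | zero => rw [map_zero]; exact Submodule.zero_mem _
    | add x y _ _ hx hy => rw [map_add]; exact Submodule.add_mem _ hx hy
    | smul a x _ hx => rw [map_smul]; exact Submodule.smul_mem _ a hx
  let S : Subrepresentation σ := ⟨Submodule.span ℂ (Set.range fun x => σ x v), hstab⟩
  have hS : S = ⊥ ∨ S = ⊤ := IsSimpleOrder.eq_bot_or_eq_top S
  have hS' : S ≠ ⊥ := by
    intro h
    have h1 : v ∈ S.toSubmodule := Submodule.subset_span ⟨1, by simp⟩
    rw [h] at h1
    exact hv0 ((Submodule.mem_bot ℂ).mp h1)
  have hS'' := hS.resolve_left hS'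
  apply LinearMap.ext
  intro w
  have hw : w ∈ S.toSubmodule := by rw [hS'']; exact Submodule.mem_top
  have hw' : w ∈ Submodule.span ℂ (Set.range fun x => σ x v) := hw
  show T w = w
  induction hw' using Submodule.span_induction with
  | mem x hx =>
    obtain ⟨y, rfl⟩ := hx
    exact hT y
  | zero => rw [map_zero]
  | add x y hx' hy' hx hy => rw [map_add, hx hx', hy hy']
  | smul a x hx' hx => rw [map_smul, hx hx']

/-- Injective maps of a set of three elements. -/
theorem perm3 : ∀ f : Fin 3 → Fin 3, (∀ x y, f x = f y → x = y) →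
    (∀ x, f (f (f x)) = x) ∨ ((∀ x, f (f x) = x) ∧ ∃ x, f x = x) := by
  decide

/-- The action of an element on three cosets. -/
theorem coset3 {X : Type} [MulAction G X] (e : X ≃ Fin 3) (g : G) :
    (∀ x : X, g • g • g • x = x) ∨ ((∀ x : X, g • g • x = x) ∧ ∃ x : X, g • x = x) := by
  rcases perm3 (fun i => e (g • e.symm i)) (fun x y h => by
    have h1 := e.injective h
    exact e.symm.injective (smul_left_cancel g h1)) with h | ⟨h, x, hx⟩
  · left
    intro x
    have := h (e x)
    simp only [Equiv.symm_apply_apply] at this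
    exact e.injective this
  · right
    refine ⟨fun x => ?_, e.symm x, ?_⟩
    · have := h (e x)
      simp only [Equiv.symm_apply_apply] at this
      exact e.injective this
    · apply e.injective
      rw [Equiv.apply_symm_apply]
      exact hx

/-- Three elements of a set of three elements. -/
theorem three {X : Type} [Fintype X] (hX : Fintype.card X = 3) {p q r : X} (h1 : p ≠ q)
    (h2 : p ≠ r) (h3 : q ≠ r) (w : X) : w = p ∨ w = q ∨ w = r := by
  have hc : ({p, q, r} : Finset X).card = 3 := Finset.card_eq_three.mpr ⟨p, q, r, h1, h2, h3, rfl⟩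
  have hu : ({p, q, r} : Finset X) = Finset.univ :=
    Finset.eq_univ_of_card _ (by rw [hc, hX])
  have : w ∈ ({p, q, r} : Finset X) := by rw [hu]; exact Finset.mem_univ w
  simpa using this

/-- A vector which is its own negative is zero. -/
theorem self_neg {w : W} (h : w = -w) : w = 0 := by
  have h2 : (2 : ℂ) • w = 0 := by
    rw [two_smul]
    nth_rewrite 2 [h]
    exact add_neg_cancel w
  exact (smul_eq_zero.mp h2).resolve_left two_ne_zero

end PS2x

open PS2x in
theorem PS2_thm : Stmt_PS2 := by
  intro G _ _ H M hHM hH6 hM3 W _ _ _ σ hσ hex hM hdim g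
  obtain ⟨v, hv0, hv⟩ := hex
  have hi : (H.subgroupOf M).index = 2 := by
    have h := Subgroup.relIndex_mul_index hHM
    rw [hH6, hM3] at h
    have h2 : H.relIndex M = 2 := by omega
    exact h2
  have hs := sgn σ hi hv hM
  have hact : ∀ x y : G, σ x (σ y v) = σ (x * y) v := by
    intro x y; rw [map_mul]; rfl
  have hu0 : ∀ x : G, σ x v ≠ 0 := by
    intro x hx
    apply hv0
    have h : σ x⁻¹ (σ x v) = 0 := by rw [hx, map_zero]
    rw [hact, inv_mul_cancel, map_one] at h
    exact h
  have hcos : ∀ x y : G, ((x : G ⧸ M) = (y : G ⧸ M)) → σ y v = σ x v ∨ σ y v = - σ x v := by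
    intro x y hxy
    have hm : x⁻¹ * y ∈ M := QuotientGroup.eq.mp hxy
    have e : σ y v = σ x (σ (x⁻¹ * y) v) := by rw [hact, mul_inv_cancel_left]
    rcases hs _ hm with h | h
    · left; rw [e, h]
    · right; rw [e, h, map_neg]
  -- squares act trivially when a coset is fixed
  have hsq : ∀ a x : G, ((a * x : G) : G ⧸ M) = (x : G ⧸ M) → σ (a * a) (σ x v) = σ x v := by
    intro a x h
    rcases hcos x (a * x) h.symm with h1 | h1
    · rw [map_mul]
      show σ a (σ a (σ x v)) = σ x v
      rw [hact a x, h1, hact, h1]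
    · rw [map_mul]
      show σ a (σ a (σ x v)) = σ x v
      rw [hact a x, h1, map_neg, hact, h1, neg_neg]
  have hcard : Fintype.card (G ⧸ M) = 3 := by
    rw [← Nat.card_eq_fintype_card]; exact hM3
  have e3 : (G ⧸ M) ≃ Fin 3 := Fintype.equivFinOfCardEq hcard
  rcases coset3 (G := G) e3 g with h3 | ⟨h2, X0, hX0⟩
  · apply ext_orbit σ hσ hv0
    intro x
    have hx : ((g * g * g * x : G) : G ⧸ M) = (x : G ⧸ M) := by
      have h : ((g * (g * (g * x)) : G) : G ⧸ M) = (x : G ⧸ M) := h3 (x : G ⧸ M)
      rw [← mul_assoc, ← mul_assoc] at h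
      exact h
    have h6 := hsq (g * g * g) x hx
    have e6 : g * g * g * (g * g * g) = g ^ 6 := by
      simp only [pow_succ, pow_zero, one_mul, mul_assoc]
    rw [e6, map_pow] at h6
    exact h6
  · -- the case of a transposition
    obtain ⟨a, rfl⟩ := QuotientGroup.mk_surjective X0
    have hn : ∀ y : G, ((g * g * y : G) : G ⧸ M) = (y : G ⧸ M) := by
      intro y
      have h : ((g * (g * y) : G) : G ⧸ M) = (y : G ⧸ M) := h2 (y : G ⧸ M)
      rwa [← mul_assoc] at h
    have hga : ((g * a : G) : G ⧸ M) = (a : G ⧸ M) := hX0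
    have hna : σ (g * g) (σ a v) = σ a v := hsq g a hga
    have hpm : ∀ y : G, σ (g * g) (σ y v) = σ y v ∨ σ (g * g) (σ y v) = - σ y v := by
      intro y
      rw [hact]
      exact hcos y (g * g * y) (hn y).symm
    have hall : ∀ y : G, σ (g * g) (σ y v) = σ y v := by
      intro y
      rcases hpm y with h | hy
      · exact h
      exfalso
      -- the three cosets
      have hdiff : ∀ w w' : G, σ (g * g) (σ w v) = σ w v → σ (g * g) (σ w' v) = - σ w' v →
          (w : G ⧸ M) ≠ (w' : G ⧸ M) := by
        intro w w' h h' he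
        have h'' : σ w' v = - σ w' v := by
          rcases hcos w w' he with h1 | h1
          · rw [← h', h1, h]
          · rw [← h']
            nth_rewrite 2 [h1]
            rw [map_neg, h, h1]
        exact hu0 w' (self_neg h'')
      have hz : σ (g * g) (σ (g * y) v) = - σ (g * y) v := by
        have e1 : σ (g * g) (σ (g * y) v) = σ g (σ (g * g) (σ y v)) := by
          rw [hact, hact, hact]
          congr 2
          simp only [mul_assoc]
        rw [e1, hy, map_neg, hact]
      have hay : (a : G ⧸ M) ≠ (y : G ⧸ M) := hdiff a y hna hy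
      have haz : (a : G ⧸ M) ≠ ((g * y : G) : G ⧸ M) := hdiff a _ hna hz
      have hyz : (y : G ⧸ M) ≠ ((g * y : G) : G ⧸ M) := by
        intro he
        have h1 := hsq g y he.symm
        rw [hy] at h1
        exact hu0 y (self_neg h1.symm)
      have hcov := three hcard hay haz hyz
      -- a linear relation
      have hld : ¬ LinearIndependent ℂ ![σ a v, σ y v, σ (g * y) v] := by
        intro hli
        have := hli.fintype_card_le_finrank
        simp at this
        omega
      rw [Fintype.not_linearIndependent_iff] at hld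
      obtain ⟨c, hc, hc0⟩ := hld
      rw [Fin.sum_univ_three] at hc
      simp only [Matrix.cons_val_zero, Matrix.cons_val_one, Matrix.cons_val_two, Matrix.head_cons,
        Matrix.tail_cons] at hc
      have hc' : c 0 • σ a v - (c 1 • σ y v + c 2 • σ (g * y) v) = 0 := by
        have h := congrArg (σ (g * g)) hc
        rw [map_add, map_add, map_smul, map_smul, map_smul, hna, hy, hz, map_zero] at h
        rw [← h]
        simp only [smul_neg]
        abel
      have hA : c 0 • σ a v = 0 := by
        apply self_neg
        have e1 : c 0 • σ a v = c 1 • σ y v + c 2 • σ (g * y) v := sub_eq_zero.mp hc'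
        have e2 : c 0 • σ a v + (c 1 • σ y v + c 2 • σ (g * y) v) = 0 := by
          rw [← hc]; abel
        nth_rewrite 1 [e1]
        exact eq_neg_of_add_eq_zero_right e2
      have c00 : c 0 = 0 := (smul_eq_zero.mp hA).resolve_right (hu0 a)
      have hB : c 1 • σ y v + c 2 • σ (g * y) v = 0 := by
        rw [c00, zero_smul, zero_add] at hc; exact hc
      -- move the coset of `y` to the coset of `a`
      have hw : σ (g * g) (σ (a * y⁻¹ * (g * y)) v) = - σ (a * y⁻¹ * (g * y)) v := by
        have hne : ((a * y⁻¹ * (g * y) : G) : G ⧸ M) ≠ (a : G ⧸ M) := by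
          intro he
          apply hyz
          rw [QuotientGroup.eq] at he ⊢
          have e : y⁻¹ * (g * y) = ((a * y⁻¹ * (g * y))⁻¹ * a)⁻¹ := by group
          rw [e]
          exact M.inv_mem he
        rcases hcov ((a * y⁻¹ * (g * y) : G) : G ⧸ M) with h | h | h
        · exact absurd h hne
        · rcases hcos y _ h.symm with h1 | h1
          · rw [h1, hy]
          · rw [h1, map_neg, hy]
        · rcases hcos (g * y) _ h.symm with h1 | h1
          · rw [h1, hz]
          · rw [h1, map_neg, hz]
      have hC : c 1 • σ a v + c 2 • σ (a * y⁻¹ * (g * y)) v = 0 := by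
        have h := congrArg (σ (a * y⁻¹)) hB
        rw [map_add, map_smul, map_smul, map_zero, hact, hact, inv_mul_cancel_right] at h
        exact h
      have hC' : c 1 • σ a v - c 2 • σ (a * y⁻¹ * (g * y)) v = 0 := by
        have h := congrArg (σ (g * g)) hC
        rw [map_add, map_smul, map_smul, map_zero, hna, hw, smul_neg, ← sub_eq_add_neg] at h
        exact h
      have hD : c 1 • σ a v = 0 := by
        apply self_neg
        nth_rewrite 1 [sub_eq_zero.mp hC']
        exact eq_neg_of_add_eq_zero_right hC
      have c10 : c 1 = 0 := (smul_eq_zero.mp hD).resolve_right (hu0 a)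
      have hE : c 2 • σ (g * y) v = 0 := by
        rw [c10, zero_smul, zero_add] at hB; exact hB
      have c20 : c 2 = 0 := (smul_eq_zero.mp hE).resolve_right (hu0 _)
      obtain ⟨i, hi0⟩ := hc0
      fin_cases i
      · exact hi0 c00
      · exact hi0 c10
      · exact hi0 c20
    have hT := ext_orbit σ hσ hv0 (σ (g * g)) hall
    have e2 : σ g ^ 2 = 1 := by rw [pow_two, ← map_mul]; exact hT
    have e6 : σ g ^ 6 = (σ g ^ 2) ^ 3 := by rw [← pow_mul]
    rw [e6, e2, one_pow]

end Pool.Agent.YNG
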