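import Pool.Agent.YNG.StS

set_option autoImplicit false

namespace Pool.Agent.YNG

namespace PS3x

theorem perm_cube (π : Equiv.Perm (Fin 3)) (h : π ^ 3 ≠ 1) :
    ∃ i j k : Fin 3, i ≠ j ∧ j ≠ k ∧ i ≠ k ∧ π i = i ∧ π j = k ∧ π k = j := by
  revert π
  decide

theorem perm_six (π : Equiv.Perm (Fin 3)) : π ^ 6 = 1 := by
  have h := pow_card_eq_one (x := π)
  rw [Fintype.card_perm, Fintype.card_fin] at h
  exact h

theorem three (i j k : Fin 3) (h1 : i ≠ j) (h2 : j ≠ k) (h3 : i ≠ k) (a : Fin 3) :
    a = i ∨ a = j ∨ a = k := by
  revert i j k a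
  decide

/-- The action on the three cosets. -/
theorem iface {G : Type} [Group G] [Finite G] {H M : Subgroup G} (h3 : H.relIndex M = 3)
    {W : Type} [AddCommGroup W] [Module ℂ W] (σ : Representation ℂ G W) {v : W}
    (hfix : ∀ h ∈ H, σ h v = v) (hM : ∀ v : W, (∀ m ∈ M, σ m v = v) → v = 0) :
    ∃ (φ : M →* Equiv.Perm (Fin 3)) (u : Fin 3 → W),
      (∀ (m : M) a, σ (m : G) (u a) = u (φ m a)) ∧ (∀ a b, ∃ m, φ m a = b) ∧
      (∃ a, u a = v) ∧ ∑ a, u a = 0 := by
  have hc : Nat.card (M ⧸ H.subgroupOf M) = 3 := h3
  obtain ⟨e⟩ : Nonempty ((M ⧸ H.subgroupOf M) ≃ Fin 3) :=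
    ⟨(Nat.equivFinOfCardPos (by omega)).trans (finCongr hc)⟩
  have hout : ∀ m : M, σ (((QuotientGroup.mk m : M ⧸ H.subgroupOf M).out : M) : G) v =
      σ (m : G) v := by
    intro m
    obtain ⟨h, hh⟩ := QuotientGroup.mk_out_eq_mul (H.subgroupOf M) m
    rw [hh, Subgroup.coe_mul, map_mul, Module.End.mul_apply]
    congr 1
    exact hfix _ (Subgroup.mem_subgroupOf.1 h.2)
  have hact : ∀ (m : M) (q : M ⧸ H.subgroupOf M),
      σ (m : G) (σ ((q.out : M) : G) v) = σ (((m • q).out : M) : G) v := by
    intro m q
    have h1 : m • q = QuotientGroup.mk (m * q.out) := by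
      conv_lhs => rw [← QuotientGroup.out_eq' q]
      rfl
    rw [h1, hout, Subgroup.coe_mul, map_mul, Module.End.mul_apply]
  obtain ⟨φ, hφ⟩ : ∃ φ : M →* Equiv.Perm (Fin 3), ∀ m a, φ m a = e (m • e.symm a) := by
    refine ⟨MonoidHom.mk' (fun m => (e.symm.trans (MulAction.toPerm m)).trans e) ?_, ?_⟩
    · intro m m'
      ext a
      simp [mul_smul]
    · intro m a
      rfl
  have hu : ∀ (m : M) a, σ (m : G) (σ (((e.symm a).out : M) : G) v) =
      σ (((e.symm (φ m a)).out : M) : G) v := by
    intro m a
    rw [hact, hφ, Equiv.symm_apply_apply]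
  refine ⟨φ, fun a => σ (((e.symm a).out : M) : G) v, hu, ?_, ?_, ?_⟩
  · intro a b
    refine ⟨(e.symm b).out * (e.symm a).out⁻¹, ?_⟩
    rw [hφ]
    have h1 : ((e.symm b).out * (e.symm a).out⁻¹ : M) • (e.symm a) = e.symm b := by
      conv_lhs => rw [← QuotientGroup.out_eq' (e.symm a)]
      show (QuotientGroup.mk ((e.symm b).out * (QuotientGroup.mk ((e.symm a).out) :
        M ⧸ H.subgroupOf M).out⁻¹ * (e.symm a).out) : M ⧸ H.subgroupOf M) = _
      rw [QuotientGroup.out_eq', inv_mul_cancel_right, QuotientGroup.out_eq']
    rw [h1, Equiv.apply_symm_apply]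
  · refine ⟨e (QuotientGroup.mk 1), ?_⟩
    show σ (((e.symm (e (QuotientGroup.mk 1))).out : M) : G) v = v
    rw [Equiv.symm_apply_apply, hout]
    simp
  · apply hM
    intro m hm
    rw [map_sum]
    have h1 : ∀ a, σ m (σ (((e.symm a).out : M) : G) v) =
        (fun b => σ (((e.symm b).out : M) : G) v) (φ ⟨m, hm⟩ a) := fun a => hu ⟨m, hm⟩ a
    rw [Finset.sum_congr rfl fun a _ => h1 a]
    exact Equiv.sum_comp (φ ⟨m, hm⟩) fun b => σ (((e.symm b).out : M) : G) v

/-- Stable submodules. -/
theorem eq_top {G : Type} [Group G] {W : Type} [AddCommGroup W] [Module ℂ W]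
    (σ : Representation ℂ G W) (hσ : σ.IsIrreducible) (P : Submodule ℂ W)
    (hP : ∀ g w, w ∈ P → σ g w ∈ P) (v : W) (hv : v ∈ P) (hv0 : v ≠ 0) : ∀ w, w ∈ P := by
  let S : Subrepresentation σ := ⟨P, fun g w hw => hP g w hw⟩
  rcases hσ.eq_bot_or_eq_top S with h | h
  · exfalso
    have h1 : P = ⊥ := congrArg Subrepresentation.toSubmodule h
    rw [h1] at hv
    exact hv0 ((Submodule.mem_bot ℂ).1 hv)
  · have h1 : P = ⊤ := congrArg Subrepresentation.toSubmodule h
    intro w
    rw [h1]
    exact Submodule.mem_top

/-- Linear independence from two transpositions. -/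
theorem indep {W : Type} [AddCommGroup W] [Module ℂ W] {a b c : W} {T T' : W →ₗ[ℂ] W}
    (hs : a + b + c = 0) (ha : a ≠ 0) (hb : b ≠ 0)
    (h1 : T b = c) (h2 : T c = b) (h4 : T' b = b) (h5 : T' c = a) {s t : ℂ}
    (h : s • b + t • c = 0) : s = 0 ∧ t = 0 := by
  have e1 := congrArg T h
  rw [map_add, map_smul, map_smul, h1, h2, map_zero] at e1
  have e2 : (s + t) • a = 0 := by
    have : a = -(b + c) := by
      have := hs
      rw [add_assoc] at this
      exact eq_neg_of_add_eq_zero_left this
    rw [this]
    have e3 : (s + t) • -(b + c) = -((s • b + t • c) + (s • c + t • b)) := by module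
    rw [e3, h, e1]
    simp
  have e3 : s + t = 0 := (smul_eq_zero.1 e2).resolve_right ha
  have e4 : t = -s := by linear_combination e3
  subst e4
  have e5 := congrArg T' h
  rw [map_add, map_smul, map_smul, h4, h5, map_zero] at e5
  have e6 : (3 * s) • b = 0 := by
    have e7 : (3 * s) • b = (s • b + -s • c) + (s • b + -s • a) + s • (a + b + c) := by module
    rw [e7, h, e5, hs]
    simp
  have e7 : 3 * s = 0 := (smul_eq_zero.1 e6).resolve_right hb
  have e8 : s = 0 := by linear_combination e7 / 3
  exact ⟨e8, by rw [e8]; simp⟩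

end PS3x

open PS3x in
theorem PS3_thm : Stmt_PS3 := by
  intro G _ _ H M hHM hH hM W _ _ _ σ hirr hvec hMfix hdim g
  obtain ⟨v, hv0, hv⟩ := hvec
  have h3 : H.relIndex M = 3 := by
    have := Subgroup.relIndex_mul_index hHM
    rw [hH, hM] at this
    omega
  obtain ⟨φ, u, hu, htr, ⟨a0, ha0⟩, hsum⟩ := iface h3 σ hv hMfix
  have hnorm : M.Normal := Subgroup.normal_of_index_eq_two hM
  have hne : ∀ a, u a ≠ 0 := by
    intro a h
    obtain ⟨m, hm⟩ := htr a a0
    have h1 := hu m a
    rw [h, map_zero, hm, ha0] at h1
    exact hv0 h1.symm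
  have hsq : ∀ x : G, x ^ 2 ∈ M := fun x => Subgroup.sq_mem_of_index_two hM x
  have hquot : ∀ x y : G, x ∉ M → y ∉ M → x⁻¹ * y ∈ M := by
    intro x y hx hy
    rw [Subgroup.mul_mem_iff_of_index_two hM, inv_mem_iff]
    simp [hx, hy]
  have hquot' : ∀ x y : G, x ∉ M → y ∉ M → x * y ∈ M := by
    intro x y hx hy
    rw [Subgroup.mul_mem_iff_of_index_two hM]
    simp [hx, hy]
  obtain ⟨U, hU⟩ : ∃ U, U = Submodule.span ℂ (Set.range u) := ⟨_, rfl⟩
  have huU : ∀ a, u a ∈ U := by
    intro a
    rw [hU]
    exact Submodule.subset_span ⟨a, rfl⟩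
  have hUM : ∀ m ∈ M, ∀ w ∈ U, σ m w ∈ U := by
    intro m hm w hw
    rw [hU] at hw ⊢
    induction hw using Submodule.span_induction with
    | mem w h =>
      obtain ⟨a, rfl⟩ := h
      rw [show σ m (u a) = u (φ ⟨m, hm⟩ a) from hu ⟨m, hm⟩ a]
      exact Submodule.subset_span ⟨_, rfl⟩
    | zero => rw [map_zero]; exact Submodule.zero_mem _
    | add a b _ _ h1 h2 => rw [map_add]; exact Submodule.add_mem _ h1 h2
    | smul c a _ h1 => rw [map_smul]; exact Submodule.smul_mem _ _ h1
  have hmul : ∀ a b w, σ a (σ b w) = σ (a * b) w := by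
    intro a b w
    rw [map_mul, Module.End.mul_apply]
  -- everything is `U + σ x U`
  have htop : ∀ x : G, x ∉ M → ∀ w, w ∈ U ⊔ U.map (σ x) := by
    intro x hx
    refine eq_top σ hirr _ ?_ (u a0) (Submodule.mem_sup_left (huU a0)) (hne a0)
    intro h w hw
    obtain ⟨b, hb, c, hc, rfl⟩ := Submodule.mem_sup.1 hw
    obtain ⟨d, hd, rfl⟩ := Submodule.mem_map.1 hc
    rw [map_add]
    by_cases hh : h ∈ M
    · refine Submodule.add_mem _ (Submodule.mem_sup_left (hUM h hh b hb))
        (Submodule.mem_sup_right ?_)
      have h1 : x⁻¹ * h * x ∈ M := by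
        have := hnorm.conj_mem h hh x⁻¹
        rwa [inv_inv] at this
      refine Submodule.mem_map.2 ⟨σ (x⁻¹ * h * x) d, hUM _ h1 d hd, ?_⟩
      rw [hmul, hmul]
      congr 2
      group
    · refine Submodule.add_mem _ (Submodule.mem_sup_right ?_) (Submodule.mem_sup_left ?_)
      · refine Submodule.mem_map.2 ⟨σ (x⁻¹ * h) b, hUM _ (hquot x h hx hh) b hb, ?_⟩
        rw [hmul]
        congr 2
        group
      · rw [hmul]
        exact hUM _ (hquot' h x hh hx) d hd
  -- the action on `U` depends on the permutation only
  have hUid : ∀ m : M, φ m = 1 → ∀ w ∈ U, σ (m : G) w = w := by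
    intro m hm w hw
    rw [hU] at hw
    induction hw using Submodule.span_induction with
    | mem w h =>
      obtain ⟨a, rfl⟩ := h
      rw [hu, hm]
      rfl
    | zero => rw [map_zero]
    | add a b _ _ h1 h2 => rw [map_add, h1, h2]
    | smul c a _ h1 => rw [map_smul, h1]
  obtain ⟨x0, hx0⟩ : ∃ x, x ∉ M := by
    by_contra hcon
    push Not at hcon
    have : M = ⊤ := by
      rw [eq_top_iff]
      intro x _
      exact hcon x
    rw [this, Subgroup.index_top] at hM
    omega
  by_cases hg : g ∈ M
  · -- elements of `M`
    have key : ∀ h ∈ M, ∀ w ∈ U, σ (h ^ 6) w = w := by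
      intro h hh w hw
      have h1 := hUid (⟨h, hh⟩ ^ 6) (by rw [map_pow, perm_six]) w hw
      exact h1
    refine LinearMap.ext fun w => ?_
    rw [← map_pow, Module.End.one_apply]
    obtain ⟨b, hb, c, hc, rfl⟩ := Submodule.mem_sup.1 (htop x0 hx0 w)
    obtain ⟨d, hd, rfl⟩ := Submodule.mem_map.1 hc
    rw [map_add, key g hg b hb]
    congr 1
    have h1 : x0⁻¹ * g * x0 ∈ M := by
      have := hnorm.conj_mem g hg x0⁻¹
      rwa [inv_inv] at this
    have h2 := key _ h1 d hd
    have h3 : (x0⁻¹ * g * x0) ^ 6 = x0⁻¹ * g ^ 6 * x0 := by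
      have := conj_pow (a := x0⁻¹) (b := g) (i := 6)
      rw [inv_inv] at this
      exact this
    rw [h3] at h2
    rw [hmul]
    conv_rhs => rw [← h2, hmul]
    congr 2
    group
  · -- elements outside `M`
    obtain ⟨y, hy⟩ : ∃ y : M, (y : G) = g ^ 2 := ⟨⟨g ^ 2, hsq g⟩, rfl⟩
    by_cases hc : φ y ^ 3 = 1
    · have key : ∀ w ∈ U, σ (g ^ 6) w = w := by
        intro w hw
        have h1 := hUid (y ^ 3) (by rw [map_pow, hc]) w hw
        rw [Subgroup.coe_pow, hy, ← pow_mul] at h1
        exact h1
      refine LinearMap.ext fun w => ?_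
      rw [← map_pow, Module.End.one_apply]
      obtain ⟨b, hb, c, hc, rfl⟩ := Submodule.mem_sup.1 (htop g hg w)
      obtain ⟨d, hd, rfl⟩ := Submodule.mem_map.1 hc
      rw [map_add, key b hb]
      congr 1
      rw [hmul]
      conv_rhs => rw [← key d hd, hmul]
      congr 2
      group
    · exfalso
      obtain ⟨i, j, k, hij, hjk, hik, yi, yj, yk⟩ := perm_cube _ hc
      have hall := three i j k hij hjk hik
      have hs : u i + u j + u k = 0 := by
        rw [← hsum, ← Finset.sum_subset (Finset.subset_univ {i, j, k})]
        · rw [Finset.sum_insert (by simp [hij, hik]), Finset.sum_insert (by simp [hjk]),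
            Finset.sum_singleton, add_assoc]
        · intro a _ ha
          exfalso
          apply ha
          rcases hall a with h | h | h <;> simp [h]
      -- a transposition which fixes `j`
      obtain ⟨m, hm⟩ := htr i j
      obtain ⟨y', hy'⟩ : ∃ y' : M, y' = m * y * m⁻¹ := ⟨_, rfl⟩
      have hφ' : φ y' = φ m * φ y * (φ m)⁻¹ := by rw [hy', map_mul, map_mul, map_inv]
      have y'j : φ y' j = j := by
        rw [hφ', ← hm]
        simp [yi]
      have hy'1 : φ y' ≠ 1 := by
        intro h
        rw [hφ'] at h
        have h1 : φ y = 1 := by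
          have := congrArg (fun z => (φ m)⁻¹ * z * φ m) h
          simpa [mul_assoc] using this
        exact hc (by rw [h1, one_pow])
      have y'i : φ y' i = k := by
        rcases hall (φ y' i) with h | h | h
        · exfalso
          apply hy'1
          have h2 : φ y' k = k := by
            rcases hall (φ y' k) with h' | h' | h'
            · exact absurd ((φ y').injective (h'.trans h.symm)) hik.symm
            · exact absurd ((φ y').injective (h'.trans y'j.symm)) hjk.symm
            · exact h'
          ext a
          rcases hall a with e | e | e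
          · rw [e, h]; rfl
          · rw [e, y'j]; rfl
          · rw [e, h2]; rfl
        · exact absurd ((φ y').injective (h.trans y'j.symm)) hij
        · exact h
      have y'k : φ y' k = i := by
        rcases hall (φ y' k) with h | h | h
        · exact h
        · exact absurd ((φ y').injective (h.trans y'j.symm)) hjk.symm
        · exact absurd ((φ y').injective (h.trans y'i.symm)) hik.symm
      have ind : ∀ s t : ℂ, s • u j + t • u k = 0 → s = 0 ∧ t = 0 := by
        intro s t h
        refine indep (a := u i) (b := u j) (c := u k) (T := σ (y : G)) (T' := σ (y' : G)) hs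
          (hne i) (hne j) ?_ ?_ ?_ ?_ h
        · rw [hu, yj]
        · rw [hu, yk]
        · rw [hu, y'j]
        · rw [hu, y'k]
      have hui : u i = -(u j + u k) := by
        have := hs
        rw [add_assoc] at this
        exact eq_neg_of_add_eq_zero_left this
      -- coordinates in `U`
      have hco : ∀ w ∈ U, ∃ s t : ℂ, w = s • u j + t • u k := by
        intro w hw
        rw [hU] at hw
        induction hw using Submodule.span_induction with
        | mem w h =>
          obtain ⟨a, rfl⟩ := h
          rcases hall a with e | e | e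
          · exact ⟨-1, -1, by rw [e, hui]; module⟩
          · exact ⟨1, 0, by rw [e]; module⟩
          · exact ⟨0, 1, by rw [e]; module⟩
        | zero => exact ⟨0, 0, by simp⟩
        | add a b _ _ h1 h2 =>
          obtain ⟨s, t, rfl⟩ := h1
          obtain ⟨s', t', rfl⟩ := h2
          exact ⟨s + s', t + t', by module⟩
        | smul c a _ h1 =>
          obtain ⟨s, t, rfl⟩ := h1
          exact ⟨c * s, c * t, by module⟩
      -- the dimension of `U` is two
      have hlin : LinearIndependent ℂ ![u j, u k] := by
        rw [LinearIndependent.pair_iff]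
        exact ind
      have hUspan : U = Submodule.span ℂ (Set.range ![u j, u k]) := by
        apply le_antisymm
        · intro w hw
          obtain ⟨s, t, rfl⟩ := hco w hw
          refine Submodule.add_mem _ (Submodule.smul_mem _ _ (Submodule.subset_span ⟨0, rfl⟩))
            (Submodule.smul_mem _ _ (Submodule.subset_span ⟨1, rfl⟩))
        · rw [Submodule.span_le]
          rintro w ⟨a, rfl⟩
          fin_cases a
          · exact huU j
          · exact huU k
      have hrank : Module.finrank ℂ U = 2 := by
        rw [hUspan, finrank_span_eq_card hlin]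
        rfl
      have hinjg : Function.Injective (σ g) := by
        intro a b hab
        have h1 := congrArg (σ g⁻¹) hab
        rw [hmul, hmul, inv_mul_cancel, map_one] at h1
        exact h1
      have hrank' : Module.finrank ℂ (U.map (σ g)) = 2 := by
        rw [← hrank]
        exact ((Submodule.equivMapOfInjective (σ g) hinjg U).finrank_eq).symm
      have hinf : U ⊓ U.map (σ g) ≠ ⊥ := by
        intro h
        have h1 := Submodule.finrank_sup_add_finrank_inf_eq U (U.map (σ g))
        rw [h, finrank_bot, hrank, hrank'] at h1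
        have h2 := Submodule.finrank_le (U ⊔ U.map (σ g))
        omega
      obtain ⟨w0, hw0, hw0'⟩ := (Submodule.ne_bot_iff _).1 hinf
      obtain ⟨hw1, hw2⟩ := Submodule.mem_inf.1 hw0
      obtain ⟨Z, hZ⟩ : ∃ Z, Z = U.map (σ g) := ⟨_, rfl⟩
      rw [← hZ] at hw2
      have hZM : ∀ m ∈ M, ∀ w ∈ Z, σ m w ∈ Z := by
        intro m hm w hw
        rw [hZ] at hw ⊢
        obtain ⟨d, hd, rfl⟩ := Submodule.mem_map.1 hw
        have h1 : g⁻¹ * m * g ∈ M := by
          have := hnorm.conj_mem m hm g⁻¹
          rwa [inv_inv] at this
        refine Submodule.mem_map.2 ⟨σ (g⁻¹ * m * g) d, hUM _ h1 d hd, ?_⟩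
        rw [hmul, hmul]
        congr 2
        group
      have hZall : ∀ a, u a ∈ Z := by
        have h1 : ∃ b, u b ∈ Z := by
          obtain ⟨s, t, rfl⟩ := hco w0 hw1
          have e1 := hZM y y.2 _ hw2
          rw [map_add, map_smul, map_smul, hu, hu, yj, yk] at e1
          by_cases hst : s + t = 0
          · have e2 : t = -s := by linear_combination hst
            subst e2
            have hs0 : s ≠ 0 := by
              intro h
              apply hw0'
              rw [h]
              simp
            have e3 := hZM y' y'.2 _ hw2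
            rw [map_add, map_smul, map_smul, hu, hu, y'j, y'k] at e3
            have e4 := Submodule.smul_mem Z (3 * s)⁻¹ (Submodule.add_mem _ hw2 e3)
            refine ⟨j, ?_⟩
            have e5 : (3 * s)⁻¹ • (s • u j + -s • u k + (s • u j + -s • u i)) = u j := by
              have e6 : s • u j + -s • u k + (s • u j + -s • u i) = (3 * s) • u j := by
                rw [hui]; module
              rw [e6, smul_smul, inv_mul_cancel₀ (mul_ne_zero three_ne_zero hs0), one_smul]
            rw [e5] at e4
            exact e4
          · have e4 := Submodule.smul_mem Z (-(s + t)⁻¹) (Submodule.add_mem _ hw2 e1)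
            refine ⟨i, ?_⟩
            have e5 : -(s + t)⁻¹ • (s • u j + t • u k + (s • u k + t • u j)) = u i := by
              have e6 : s • u j + t • u k + (s • u k + t • u j) = -((s + t) • u i) := by
                rw [hui]; module
              rw [e6, neg_smul, smul_neg, neg_neg, smul_smul, inv_mul_cancel₀ hst, one_smul]
            rw [e5] at e4
            exact e4
        obtain ⟨b, hb⟩ := h1
        intro a
        obtain ⟨m', hm'⟩ := htr b a
        have := hZM m' m'.2 _ hb
        rw [hu, hm'] at this
        exact this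
      have hUZ : U = Z := by
        have h1 : U ≤ Z := by
          rw [hU, Submodule.span_le]
          rintro w ⟨a, rfl⟩
          exact hZall a
        apply Submodule.eq_of_le_of_finrank_eq h1
        rw [hrank, hZ, hrank']
      have hUtop : ∀ w, w ∈ U := by
        intro w
        have := htop g hg w
        rw [← hZ, ← hUZ, sup_idem] at this
        exact this
      -- the action of `g`
      have hgg : ∀ w, σ g (σ g w) = σ (y : G) w := by
        intro w
        rw [hmul, hy, pow_two]
      have hcomm : ∀ w, σ (y : G) (σ g w) = σ g (σ (y : G) w) := by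
        intro w
        rw [← hgg, ← hgg]
      obtain ⟨a, ha⟩ : ∃ a : ℂ, σ g (u i) = a • u i := by
        obtain ⟨s, t, hst⟩ := hco _ (hUtop (σ g (u i)))
        have h1 := hcomm (u i)
        rw [hu y i, yi, hst, map_add, map_smul, map_smul, hu, hu, yj, yk] at h1
        have h2 : (t - s) • u j + (s - t) • u k = 0 := by
          have : (t - s) • u j + (s - t) • u k =
            (s • u k + t • u j) - (s • u j + t • u k) := by module
          rw [this, h1, sub_self]
        have h3 := (ind _ _ h2).1
        have h4 : t = s := by linear_combination h3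
        refine ⟨-s, ?_⟩
        rw [hst, h4, hui]
        module
      obtain ⟨b, hb⟩ : ∃ b : ℂ, σ g (u j - u k) = b • (u j - u k) := by
        obtain ⟨s, t, hst⟩ := hco _ (hUtop (σ g (u j - u k)))
        have h1 := hcomm (u j - u k)
        rw [map_sub (σ (y : G)), hu y j, hu y k, yj, yk, hst, map_add, map_smul, map_smul, hu,
          hu, yj, yk, ← neg_sub (u j) (u k), map_neg, hst] at h1
        have h2 : (s + t) • u j + (s + t) • u k = 0 := by
          have : (s + t) • u j + (s + t) • u k =
            (s • u k + t • u j) - -(s • u j + t • u k) := by module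
          rw [this, h1, sub_self]
        have h3 := (ind _ _ h2).1
        have h4 : t = -s := by linear_combination h3
        refine ⟨s, ?_⟩
        rw [hst, h4]
        module
      have ha2 : a * a = 1 := by
        have h1 := hgg (u i)
        rw [ha, map_smul, ha, hu, yi, smul_smul] at h1
        have h2 : (a * a - 1) • u i = 0 := by rw [sub_smul, one_smul, h1, sub_self]
        have h3 := (smul_eq_zero.1 h2).resolve_right (hne i)
        linear_combination h3
      have hjkne : u j - u k ≠ 0 := by
        intro h
        have h1 : (1 : ℂ) • u j + (-1 : ℂ) • u k = 0 := by rw [← h]; module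
        exact one_ne_zero (ind _ _ h1).1
      have hb2 : b * b = -1 := by
        have h1 := hgg (u j - u k)
        rw [hb, map_smul, hb, map_sub, hu, hu, yj, yk, smul_smul] at h1
        have h2 : (b * b + 1) • (u j - u k) = 0 := by
          rw [add_smul, h1]
          module
        have h3 := (smul_eq_zero.1 h2).resolve_right hjkne
        linear_combination h3
      obtain ⟨p, hp⟩ : ∃ p, p = (a + b) / 2 := ⟨_, rfl⟩
      obtain ⟨q, hq⟩ : ∃ q, q = (a - b) / 2 := ⟨_, rfl⟩
      have hw : σ g (u j) = p • u j + q • u k := by
        have h1 : u j = (1 / 2 : ℂ) • (-u i) + (1 / 2 : ℂ) • (u j - u k) := by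
          rw [hui]; module
        conv_lhs => rw [h1]
        rw [map_add, map_smul, map_smul, map_neg, ha, hb, hui, hp, hq]
        module
      have hpq : p * q = 1 / 2 := by
        rw [hp, hq]
        linear_combination (ha2 - hb2) / 4
      have hpq2 : p * p + q * q = 0 := by
        rw [hp, hq]
        linear_combination (ha2 + hb2) / 2
      have hp0 : p ≠ 0 := by
        intro h
        rw [h, zero_mul] at hpq
        norm_num at hpq
      have hq0 : q ≠ 0 := by
        intro h
        rw [h, mul_zero] at hpq
        norm_num at hpq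
      -- the conjugate of `y'`
      have hz : g * (y' : G) * g⁻¹ ∈ M := hnorm.conj_mem _ y'.2 g
      obtain ⟨z, hz'⟩ : ∃ z : M, (z : G) = g * (y' : G) * g⁻¹ := ⟨⟨_, hz⟩, rfl⟩
      have hzw : σ (z : G) (p • u j + q • u k) = p • u j + q • u k := by
        rw [← hw, hmul, hz']
        have h1 : g * (y' : G) * g⁻¹ * g = g * (y' : G) := by group
        rw [h1, ← hmul, hu, y'j]
      have hz1 : φ z ≠ 1 := by
        intro h
        have h1 := hUid z h (σ g (u i)) (hUtop _)
        rw [hmul, hz'] at h1
        have h2 : g * (y' : G) * g⁻¹ * g = g * (y' : G) := by group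
        rw [h2, ← hmul, hu, y'i] at h1
        have h3 := hinjg h1
        have h4 : (1 : ℂ) • u j + (2 : ℂ) • u k = 0 := by
          have : (1 : ℂ) • u j + (2 : ℂ) • u k = u k - u i := by rw [hui]; module
          rw [this, h3, sub_self]
        exact one_ne_zero (ind _ _ h4).1
      rw [map_add, map_smul, map_smul, hu, hu] at hzw
      rcases hall (φ z j) with h1 | h1 | h1
      · rcases hall (φ z k) with h2 | h2 | h2
        · exact hjk ((φ z).injective (h1.trans h2.symm))
        · -- `j ↦ i`, `k ↦ j`
          rw [h1, h2, hui] at hzw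
          have h3 : (q - 2 * p) • u j + (-p - q) • u k = 0 := by
            have : (q - 2 * p) • u j + (-p - q) • u k =
              (p • -(u j + u k) + q • u j) - (p • u j + q • u k) := by module
            rw [this, hzw, sub_self]
          obtain ⟨h4, h5⟩ := ind _ _ h3
          apply hp0
          linear_combination (-1 / 3 : ℂ) * h4 - (1 / 3 : ℂ) * h5
        · -- `j ↦ i`, `k ↦ k`
          rw [h1, h2, hui] at hzw
          have h3 : (-2 * p) • u j + (-p) • u k = 0 := by
            have : (-2 * p) • u j + (-p) • u k =
              (p • -(u j + u k) + q • u k) - (p • u j + q • u k) := by module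
            rw [this, hzw, sub_self]
          obtain ⟨h4, h5⟩ := ind _ _ h3
          apply hp0
          linear_combination -h5
      · rcases hall (φ z k) with h2 | h2 | h2
        · -- `j ↦ j`, `k ↦ i`
          rw [h1, h2, hui] at hzw
          have h3 : (-q) • u j + (-2 * q) • u k = 0 := by
            have : (-q) • u j + (-2 * q) • u k =
              (p • u j + q • -(u j + u k)) - (p • u j + q • u k) := by module
            rw [this, hzw, sub_self]
          obtain ⟨h4, h5⟩ := ind _ _ h3
          apply hq0
          linear_combination -h4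
        · exact hjk ((φ z).injective (h1.trans h2.symm))
        · apply hz1
          have h3 : φ z i = i := by
            rcases hall (φ z i) with h' | h' | h'
            · exact h'
            · exact absurd ((φ z).injective (h'.trans h1.symm)) hij
            · exact absurd ((φ z).injective (h'.trans h2.symm)) hik
          ext c
          rcases hall c with e | e | e
          · rw [e, h3]; rfl
          · rw [e, h1]; rfl
          · rw [e, h2]; rfl
      · rcases hall (φ z k) with h2 | h2 | h2
        · -- `j ↦ k`, `k ↦ i`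
          rw [h1, h2, hui] at hzw
          have h3 : (-q - p) • u j + (p - 2 * q) • u k = 0 := by
            have : (-q - p) • u j + (p - 2 * q) • u k =
              (p • u k + q • -(u j + u k)) - (p • u j + q • u k) := by module
            rw [this, hzw, sub_self]
          obtain ⟨h4, h5⟩ := ind _ _ h3
          apply hq0
          linear_combination (-1 / 3 : ℂ) * h4 - (1 / 3 : ℂ) * h5
        · -- `j ↦ k`, `k ↦ j`
          rw [h1, h2] at hzw
          have h3 : (q - p) • u j + (p - q) • u k = 0 := by
            have : (q - p) • u j + (p - q) • u k =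
              (p • u k + q • u j) - (p • u j + q • u k) := by module
            rw [this, hzw, sub_self]
          obtain ⟨h4, h5⟩ := ind _ _ h3
          have h6 : p * p = 0 := by
            have h7 : q = p := by linear_combination h4
            rw [h7] at hpq2
            linear_combination hpq2 / 2
          exact hp0 (mul_self_eq_zero.1 h6)
        · exact hjk ((φ z).injective (h1.trans h2.symm))

end Pool.Agent.YNG
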