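import Pool.Agent.YNG.StT
import Pool.Agent.YNG.PA

/-!
# Project YNG, part T, module TC: permutation representations of minimal rank (helper15)

The inner product of the permutation characters on the cosets of `C i` and `C j`, `i ≤ j`, is the number `i + 1` of
double cosets; so the differences of consecutive permutation characters have norm one.
-/

set_option autoImplicit false

open scoped Classical ComplexConjugate

namespace Pool.Agent.YNG

namespace TCx

section Count

variable {G : Type} [Group G] [Fintype G] (A B : Subgroup G)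

/-- number of pairs `a z b = w` -/
noncomputable def N (z w : G) : ℂ := ∑ a : A, ∑ b : B, if (a : G) * z * b = w then (1 : ℂ) else 0

theorem N_self (z : G) : N A B z z = ∑ h : G, (if h ∈ A then (if z⁻¹ * h * z ∈ B then (1 : ℂ)
    else 0) else 0) := by
  have h1 : ∀ a : A, (∑ b : B, if (a : G) * z * b = z then (1 : ℂ) else 0)
      = if z⁻¹ * (a : G) * z ∈ B then (1 : ℂ) else 0 := by
    intro a
    by_cases h : z⁻¹ * (a : G) * z ∈ B
    · rw [if_pos h]
      have h' : z⁻¹ * (a : G)⁻¹ * z ∈ B := by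
        have : z⁻¹ * (a : G)⁻¹ * z = (z⁻¹ * (a : G) * z)⁻¹ := by group
        rw [this]
        exact B.inv_mem h
      rw [Finset.sum_eq_single (⟨z⁻¹ * (a : G)⁻¹ * z, h'⟩ : B)]
      · rw [if_pos]
        simp only
        group
      · intro b _ hb
        rw [if_neg]
        intro hab
        apply hb
        apply Subtype.ext
        simp only
        have : (b : G) = z⁻¹ * (a : G)⁻¹ * ((a : G) * z * b) := by group
        rw [this, hab]
      · intro hh
        exact absurd (Finset.mem_univ _) hh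
    · rw [if_neg h]
      apply Finset.sum_eq_zero
      intro b _
      rw [if_neg]
      intro hab
      apply h
      have : z⁻¹ * (a : G) * z = (b : G)⁻¹ := by
        have h3 : (a : G) * z = z * (b : G)⁻¹ := by
          rw [eq_mul_inv_iff_mul_eq]
          exact hab
        rw [mul_assoc, h3]
        group
      rw [this]
      exact B.inv_mem b.2
  unfold N
  rw [Finset.sum_congr rfl fun a _ => h1 a]
  exact PAx.sum_sub A (fun h => if z⁻¹ * h * z ∈ B then (1 : ℂ) else 0)

theorem N_shift (w z a₀ b₀ : G) (ha : a₀ ∈ A) (hb : b₀ ∈ B) (hz : z = a₀ * w * b₀) :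
    N A B w z = N A B z z := by
  unfold N
  rw [← Equiv.sum_comp (Equiv.mulRight (⟨a₀, ha⟩ : A))]
  refine Finset.sum_congr rfl fun a _ => ?_
  rw [← Equiv.sum_comp (Equiv.mulLeft (⟨b₀, hb⟩ : B))]
  refine Finset.sum_congr rfl fun b _ => ?_
  have e : (((Equiv.mulRight (⟨a₀, ha⟩ : A)) a : A) : G) * w *
      (((Equiv.mulLeft (⟨b₀, hb⟩ : B)) b : B) : G) = (a : G) * z * b := by
    simp only [Equiv.coe_mulRight, Equiv.coe_mulLeft, Subgroup.coe_mul]
    rw [hz]
    group
  rw [e]

theorem N_zero (w z : G) (h : ∀ a ∈ A, ∀ b ∈ B, a * w * b ≠ z) : N A B w z = 0 := by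
  unfold N
  apply Finset.sum_eq_zero
  intro a _
  apply Finset.sum_eq_zero
  intro b _
  rw [if_neg]
  exact h a a.2 b b.2

theorem sum_N (w : G) : ∑ z : G, N A B w z = (Nat.card A : ℂ) * (Nat.card B : ℂ) := by
  unfold N
  rw [Finset.sum_comm]
  have h1 : ∀ a : A, ∑ z : G, ∑ b : B, (if (a : G) * w * b = z then (1 : ℂ) else 0)
      = (Nat.card B : ℂ) := by
    intro a
    rw [Finset.sum_comm]
    have h2 : ∀ b : B, ∑ z : G, (if (a : G) * w * b = z then (1 : ℂ) else 0) = 1 := by
      intro b
      simp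
    rw [Finset.sum_congr rfl fun b _ => h2 b, Finset.sum_const, Finset.card_univ,
      Nat.card_eq_fintype_card]
    simp
  rw [Finset.sum_congr rfl fun a _ => h1 a, Finset.sum_const, Finset.card_univ, nsmul_eq_mul,
    ← Nat.card_eq_fintype_card]

theorem sum_PP : ∑ g : G, PAx.P A g * PAx.P B g = (Nat.card G : ℂ) * ∑ z : G, N A B z z := by
  rw [PAx.sum_P_mul A (PAx.P B) (fun x g => PAx.P_class B x g)]
  congr 1
  rw [Finset.sum_congr rfl fun z _ => N_self A B z, Finset.sum_comm]
  refine Finset.sum_congr rfl fun h _ => ?_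
  by_cases hh : h ∈ A
  · simp only [if_pos hh]
    rfl
  · simp only [if_neg hh]
    simp

end Count

section Chain

variable {G : Type} [Group G] [Fintype G]

/-- The number of double cosets. -/
theorem chain_sum (k : ℕ) (c : ℕ → Subgroup G) (hle : ∀ i j, i ≤ j → j ≤ k → c j ≤ c i)
    (h0 : c 0 = ⊤) (r : ℕ → G) (hr1 : ∀ l, l < k → r l ∈ c l) (hr2 : ∀ l, l < k → r l ∉ c (l + 1))
    (hr3 : ∀ l, l < k → ∀ z, z ∈ c l → z ∉ c (l + 1) → ∃ a ∈ c k, ∃ b ∈ c k, z = a * r l * b)
    (i j : ℕ) (hij : i ≤ j) (hj : j ≤ k) :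
    ∑ z : G, N (c i) (c j) z z =
      ((i : ℂ) + 1) * ((Nat.card (c i) : ℂ) * (Nat.card (c j) : ℂ)) := by
  have key : ∀ z : G, N (c i) (c j) z z =
      ∑ l ∈ Finset.range i, N (c i) (c j) (r l) z + N (c i) (c j) 1 z := by
    intro z
    have hji : c j ≤ c i := hle i j hij hj
    by_cases hz : z ∈ c i
    · have h1 : N (c i) (c j) 1 z = N (c i) (c j) z z :=
        N_shift (c i) (c j) 1 z z 1 hz (c j).one_mem (by group)
      have h2 : ∑ l ∈ Finset.range i, N (c i) (c j) (r l) z = 0 := by
        refine Finset.sum_eq_zero fun l hl => ?_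
        rw [Finset.mem_range] at hl
        refine N_zero (c i) (c j) _ _ ?_
        intro a ha b hb hab
        apply hr2 l (by omega)
        have e : r l = a⁻¹ * z * b⁻¹ := by rw [← hab]; group
        rw [e]
        refine hle (l + 1) i (by omega) (by omega) ?_
        exact (c i).mul_mem ((c i).mul_mem ((c i).inv_mem ha) hz) ((c i).inv_mem (hji hb))
      rw [h1, h2, zero_add]
    · -- the level of `z`
      have hex : ∃ n, z ∉ c n := ⟨i, hz⟩
      obtain ⟨m, hm1, hm2, hmi⟩ : ∃ m, z ∈ c m ∧ z ∉ c (m + 1) ∧ m < i := by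
        have h1 := Nat.find_spec hex
        have h2 : Nat.find hex ≤ i := Nat.find_min' hex hz
        have h3 : Nat.find hex ≠ 0 := by
          intro h
          rw [h, h0] at h1
          exact h1 (Subgroup.mem_top z)
        obtain ⟨m, hm⟩ := Nat.exists_eq_succ_of_ne_zero h3
        refine ⟨m, ?_, ?_, by omega⟩
        · have h4 := Nat.find_min hex (m := m) (by omega)
          push Not at h4
          exact h4
        · rw [hm] at h1
          exact h1
      have h1 : N (c i) (c j) 1 z = 0 := by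
        refine N_zero (c i) (c j) _ _ ?_
        intro a ha b hb hab
        apply hz
        rw [← hab, mul_one]
        exact (c i).mul_mem ha (hji hb)
      have h2 : ∑ l ∈ Finset.range i, N (c i) (c j) (r l) z = N (c i) (c j) (r m) z := by
        refine Finset.sum_eq_single_of_mem m (Finset.mem_range.2 hmi) fun l hl hlm => ?_
        rw [Finset.mem_range] at hl
        refine N_zero (c i) (c j) _ _ ?_
        intro a ha b hb hab
        rcases Nat.lt_or_ge l m with h | h
        · apply hr2 l (by omega)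
          have e : r l = a⁻¹ * z * b⁻¹ := by rw [← hab]; group
          rw [e]
          have hi' : c i ≤ c (l + 1) := hle (l + 1) i (by omega) (by omega)
          have hm' : c m ≤ c (l + 1) := hle (l + 1) m (by omega) (by omega)
          exact (c (l + 1)).mul_mem ((c (l + 1)).mul_mem ((c (l + 1)).inv_mem (hi' ha)) (hm' hm1))
            ((c (l + 1)).inv_mem (hi' (hji hb)))
        · apply hm2
          rw [← hab]
          have hi' : c i ≤ c (m + 1) := hle (m + 1) i (by omega) (by omega)
          have hl' : c l ≤ c (m + 1) := hle (m + 1) l (by omega) (by omega)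
          exact (c (m + 1)).mul_mem ((c (m + 1)).mul_mem (hi' ha) (hl' (hr1 l (by omega))))
            (hi' (hji hb))
      obtain ⟨a, ha, b, hb, hab⟩ := hr3 m (by omega) z hm1 hm2
      have h3 : N (c i) (c j) (r m) z = N (c i) (c j) z z :=
        N_shift (c i) (c j) (r m) z a b (hle i k (by omega) (le_refl k) ha)
          (hle j k hj (le_refl k) hb) hab
      rw [h2, h1, h3, add_zero]
  rw [Finset.sum_congr rfl fun z _ => key z, Finset.sum_add_distrib, Finset.sum_comm, sum_N]
  rw [Finset.sum_congr rfl fun l _ => sum_N (c i) (c j) (r l), Finset.sum_const, Finset.card_range,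
    nsmul_eq_mul]
  ring

theorem main (k : ℕ) (c : ℕ → Subgroup G) (hle : ∀ i j, i ≤ j → j ≤ k → c j ≤ c i)
    (h0 : c 0 = ⊤) (r : ℕ → G) (hr1 : ∀ l, l < k → r l ∈ c l) (hr2 : ∀ l, l < k → r l ∉ c (l + 1))
    (hr3 : ∀ l, l < k → ∀ z, z ∈ c l → z ∉ c (l + 1) → ∃ a ∈ c k, ∃ b ∈ c k, z = a * r l * b)
    {W : Type} [AddCommGroup W] [Module ℂ W] [Module.Finite ℂ W]
    (σ : Representation ℂ G W) (hσ : σ.IsIrreducible) (hnt : ∃ g, σ g ≠ 1)
    (hv : ∃ v : W, v ≠ 0 ∧ ∀ h ∈ c k, σ h v = v) :
    ∃ i, i < k ∧ ∀ g, σ.character g = pc (c (i + 1)) g - pc (c i) g := by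
  have hcG : (Nat.card G : ℝ) > 0 := by exact_mod_cast Nat.card_pos
  have hcGC : (Nat.card G : ℂ) ≠ 0 := Nat.cast_ne_zero.2 Nat.card_pos.ne'
  have hcH : ∀ i, (Nat.card (c i) : ℂ) ≠ 0 := fun i => Nat.cast_ne_zero.2 Nat.card_pos.ne'
  choose d hd hd1 using fun i => PAx.sum_P_char (c i) σ
  have hpcP : ∀ i g, pc (c i) g = PAx.P (c i) g / (Nat.card (c i) : ℂ) := fun i g => rfl
  have hd0 : d 0 = 0 := by
    have h1 := hd 0
    have h2 : ∑ g : G, PAx.P (c 0) g * σ.character g = 0 := by
      have h3 : ∀ g : G, PAx.P (c 0) g = (Nat.card G : ℂ) := by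
        intro g
        unfold PAx.P
        rw [h0]
        simp [Nat.card_eq_fintype_card]
      rw [Finset.sum_congr rfl fun g _ => by rw [h3 g], ← Finset.mul_sum, PAx.sum_zero σ hσ hnt,
        mul_zero]
    rw [h2] at h1
    rcases mul_eq_zero.1 h1.symm with h | h
    · exact absurd h hcGC
    · rcases mul_eq_zero.1 h with h | h
      · exact absurd h (hcH 0)
      · exact_mod_cast h
  have hdk : 1 ≤ d k := hd1 k hv
  obtain ⟨i, hik, hi⟩ : ∃ i, i < k ∧ d i < d (i + 1) := by
    by_contra hcon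
    push Not at hcon
    have h1 : ∀ n, n ≤ k → d n = 0 := by
      intro n
      induction n with
      | zero => exact fun _ => hd0
      | succ n ih =>
        intro hn
        have h2 := ih (by omega)
        have h3 := hcon n (by omega)
        omega
    have := h1 k (le_refl k)
    omega
  refine ⟨i, hik, ?_⟩
  -- inner products
  have hpp : ∀ a b, a ≤ b → b ≤ k → ∑ g : G, pc (c a) g * pc (c b) g =
      (Nat.card G : ℂ) * ((a : ℂ) + 1) := by
    intro a b hab hb
    have h1 : ∀ g : G, pc (c a) g * pc (c b) g = PAx.P (c a) g * PAx.P (c b) g /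
        ((Nat.card (c a) : ℂ) * (Nat.card (c b) : ℂ)) := by
      intro g
      rw [hpcP, hpcP]
      field_simp
    rw [Finset.sum_congr rfl fun g _ => h1 g, ← Finset.sum_div, sum_PP,
      chain_sum k c hle h0 r hr1 hr2 hr3 a b hab hb]
    have ha := hcH a
    have hb' := hcH b
    field_simp
  have hpd : ∀ a, ∑ g : G, pc (c a) g * σ.character g = (Nat.card G : ℂ) * d a := by
    intro a
    have h1 : ∀ g : G, pc (c a) g * σ.character g = PAx.P (c a) g * σ.character g /
        (Nat.card (c a) : ℂ) := by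
      intro g
      rw [hpcP]
      ring
    rw [Finset.sum_congr rfl fun g _ => h1 g, ← Finset.sum_div, hd]
    have ha := hcH a
    field_simp
  have hpd' : ∀ a, ∑ g : G, pc (c a) g * σ.character g⁻¹ = (Nat.card G : ℂ) * d a := by
    intro a
    rw [← hpd a, ← Equiv.sum_comp (Equiv.inv G)]
    refine Finset.sum_congr rfl fun g _ => ?_
    simp only [Equiv.inv_apply, inv_inv]
    rw [hpcP, hpcP, PAx.P_inv]
  have hs5 := PAx.sum_mul_inv σ hσ
  have hpc : ∀ a g, conj (pc (c a) g) = pc (c a) g := by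
    intro a g
    rw [hpcP, map_div₀, PAx.P_conj, map_natCast]
  let ψ : G → ℂ := fun g => σ.character g - (pc (c (i + 1)) g - pc (c i) g)
  have hsum : ∑ g : G, ψ g * conj (ψ g) =
      (Nat.card G : ℂ) * (2 - 2 * ((d (i + 1) : ℂ) - d i)) := by
    have e : ∀ g, ψ g * conj (ψ g) = σ.character g * σ.character g⁻¹
        - pc (c (i + 1)) g * σ.character g - pc (c (i + 1)) g * σ.character g⁻¹
        + pc (c i) g * σ.character g + pc (c i) g * σ.character g⁻¹
        + pc (c (i + 1)) g * pc (c (i + 1)) g - 2 * (pc (c i) g * pc (c (i + 1)) g)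
        + pc (c i) g * pc (c i) g := by
      intro g
      simp only [ψ]
      rw [map_sub, map_sub, hpc, hpc, ← PAx.char_inv]
      ring
    rw [Finset.sum_congr rfl fun g _ => e g]
    simp only [Finset.sum_add_distrib, Finset.sum_sub_distrib, ← Finset.mul_sum]
    rw [hs5, hpd, hpd', hpd, hpd', hpp (i + 1) (i + 1) (le_refl _) (by omega),
      hpp i (i + 1) (by omega) (by omega), hpp i i (le_refl _) (by omega)]
    push_cast
    ring
  have hreal : ∑ g : G, Complex.normSq (ψ g) =
      (Nat.card G : ℝ) * (2 - 2 * ((d (i + 1) : ℝ) - d i)) := by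
    have : ((∑ g : G, Complex.normSq (ψ g) : ℝ) : ℂ)
        = (((Nat.card G : ℝ) * (2 - 2 * ((d (i + 1) : ℝ) - d i)) : ℝ) : ℂ) := by
      rw [Complex.ofReal_sum]
      push_cast
      rw [← hsum]
      refine Finset.sum_congr rfl fun g _ => ?_
      rw [Complex.mul_conj]
    exact_mod_cast this
  have hle' : ∑ g : G, Complex.normSq (ψ g) ≤ 0 := by
    rw [hreal]
    have : (d i : ℝ) + 1 ≤ d (i + 1) := by exact_mod_cast hi
    apply mul_nonpos_of_nonneg_of_nonpos hcG.le
    linarith
  have hz : ∑ g : G, Complex.normSq (ψ g) = 0 :=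
    le_antisymm hle' (Finset.sum_nonneg fun g _ => Complex.normSq_nonneg _)
  rw [Finset.sum_eq_zero_iff_of_nonneg fun g _ => Complex.normSq_nonneg _] at hz
  intro g
  exact sub_eq_zero.1 (Complex.normSq_eq_zero.1 (hz g (Finset.mem_univ g)))

end Chain

end TCx

theorem TC_thm : Stmt_TC := by
  intro G _ _ k C hanti h0 hcard W _ _ _ σ hσ hnt hv
  let c : ℕ → Subgroup G := fun i => C ⟨min i k, by omega⟩
  have hc : ∀ (i : ℕ) (hi : i ≤ k), c i = C ⟨i, by omega⟩ := by
    intro i hi
    show C ⟨min i k, _⟩ = _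
    congr 1
    exact Fin.ext (min_eq_left hi)
  have hclast : c k = C (Fin.last k) := hc k (le_refl k)
  have hle : ∀ i j, i ≤ j → j ≤ k → c j ≤ c i := by
    intro i j hij hj
    rw [hc j hj, hc i (hij.trans hj)]
    exact hanti.antitone (by rw [Fin.mk_le_mk]; exact hij)
  have hlt : ∀ l, l < k → ∃ g, g ∈ c l ∧ g ∉ c (l + 1) := by
    intro l hl
    have h1 : c (l + 1) < c l := by
      rw [hc (l + 1) (by omega), hc l (by omega)]
      exact hanti (by rw [Fin.mk_lt_mk]; omega)
    exact SetLike.exists_of_lt h1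
  have hexr : ∃ r : ℕ → G, (∀ l, l < k → r l ∈ c l ∧ r l ∉ c (l + 1)) ∧ r k = 1 := by
    refine ⟨fun l => if h : l < k then (hlt l h).choose else 1, ?_, ?_⟩
    · intro l hl
      simp only [dif_pos hl]
      exact (hlt l hl).choose_spec
    · simp
  obtain ⟨r, hr, hrk⟩ := hexr
  have hr1 : ∀ l, l ≤ k → r l ∈ c l := by
    intro l hl
    rcases Nat.lt_or_ge l k with h | h
    · exact (hr l h).1
    · have : l = k := by omega
      rw [this, hrk]
      exact (c k).one_mem
  -- the double cosets
  let F : Fin (k + 1) → DoubleCoset.Quotient (C (Fin.last k) : Set G) (C (Fin.last k) : Set G) :=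
    fun l => DoubleCoset.mk (C (Fin.last k)) (C (Fin.last k)) (r l.val)
  have hsep : ∀ l m : ℕ, l < m → m ≤ k → ∀ a ∈ c k, ∀ b ∈ c k, r m ≠ a * r l * b := by
    intro l m hlm hm a ha b hb h
    apply (hr l (by omega)).2
    have e : r l = a⁻¹ * r m * b⁻¹ := by rw [h]; group
    rw [e]
    have h1 : c m ≤ c (l + 1) := hle (l + 1) m (by omega) hm
    have h2 : c k ≤ c (l + 1) := hle (l + 1) k (by omega) (le_refl k)
    exact (c (l + 1)).mul_mem ((c (l + 1)).mul_mem ((c (l + 1)).inv_mem (h2 ha))
      (h1 (hr1 m hm))) ((c (l + 1)).inv_mem (h2 hb))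
  have hFinj : Function.Injective F := by
    intro l m h
    have h1 := (DoubleCoset.eq (C (Fin.last k)) (C (Fin.last k)) (r l.val) (r m.val)).1 h
    obtain ⟨a, ha, b, hb, hab⟩ := h1
    rw [← hclast] at ha hb
    by_contra hlm
    rcases Nat.lt_or_gt_of_ne (fun h' => hlm (Fin.ext h')) with h2 | h2
    · exact hsep l.val m.val h2 (by omega) a ha b hb hab
    · refine hsep m.val l.val h2 (by omega) a⁻¹ ((c k).inv_mem ha) b⁻¹ ((c k).inv_mem hb) ?_
      rw [hab]
      group
  have hfin : Finite (DoubleCoset.Quotient (C (Fin.last k) : Set G) (C (Fin.last k) : Set G)) :=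
    Nat.finite_of_card_ne_zero (by rw [hcard]; omega)
  have hFbij : Function.Bijective F := by
    have := Fintype.ofFinite (DoubleCoset.Quotient (C (Fin.last k) : Set G)
      (C (Fin.last k) : Set G))
    rw [Fintype.bijective_iff_injective_and_card]
    refine ⟨hFinj, ?_⟩
    rw [Fintype.card_fin, ← Nat.card_eq_fintype_card, hcard]
  have hr3 : ∀ l, l < k → ∀ z, z ∈ c l → z ∉ c (l + 1) →
      ∃ a ∈ c k, ∃ b ∈ c k, z = a * r l * b := by
    intro l hl z hz1 hz2
    obtain ⟨m, hm⟩ := hFbij.2 (DoubleCoset.mk (C (Fin.last k)) (C (Fin.last k)) z)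
    have h1 := (DoubleCoset.eq (C (Fin.last k)) (C (Fin.last k)) (r m.val) z).1 hm
    obtain ⟨a, ha, b, hb, hab⟩ := h1
    rw [← hclast] at ha hb
    have hml : m.val = l := by
      by_contra hne
      rcases Nat.lt_or_gt_of_ne hne with h2 | h2
      · apply (hr m.val (by omega)).2
        have e : r m.val = a⁻¹ * z * b⁻¹ := by rw [hab]; group
        rw [e]
        have h3 : c l ≤ c (m.val + 1) := hle _ l (by omega) (by omega)
        have h4 : c k ≤ c (m.val + 1) := hle _ k (by omega) (le_refl k)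
        exact (c (m.val + 1)).mul_mem ((c (m.val + 1)).mul_mem ((c (m.val + 1)).inv_mem (h4 ha))
          (h3 hz1)) ((c (m.val + 1)).inv_mem (h4 hb))
      · apply hz2
        rw [hab]
        have h3 : c m.val ≤ c (l + 1) := hle (l + 1) m.val (by omega) (by omega)
        have h4 : c k ≤ c (l + 1) := hle (l + 1) k (by omega) (le_refl k)
        exact (c (l + 1)).mul_mem ((c (l + 1)).mul_mem (h4 ha) (h3 (hr1 m.val (by omega))))
          (h4 hb)
    rw [hml] at hab
    exact ⟨a, ha, b, hb, hab⟩
  obtain ⟨i, hik, hi⟩ := TCx.main k c hle (by rw [hc 0 (Nat.zero_le k)]; exact h0) r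
    (fun l hl => (hr l hl).1) (fun l hl => (hr l hl).2) hr3 σ hσ hnt (by rw [hclast]; exact hv)
  refine ⟨⟨i, by omega⟩, ⟨i + 1, by omega⟩, fun g => ?_⟩
  rw [← hc i (by omega), ← hc (i + 1) (by omega)]
  exact hi g

end Pool.Agent.YNG
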