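import Pool.Agent.YNG.StT

/-!
# Project YNG, module TE (helper52): transport of `PermG` along an isomorphism
-/

set_option autoImplicit false

open scoped Classical

namespace Pool.Agent.YNG

namespace TEx

theorem mem_map_equiv {G₁ G₂ : Type} [Group G₁] [Group G₂] (e : G₁ ≃* G₂) (H : Subgroup G₁)
    (y : G₁) : e y ∈ H.map e.toMonoidHom ↔ y ∈ H := by
  constructor
  · rintro ⟨z, hz, hzy⟩
    have h : z = y := e.injective hzy
    exact h ▸ hz
  · intro hy
    exact ⟨y, hy, rfl⟩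

theorem card_map_equiv {G₁ G₂ : Type} [Group G₁] [Group G₂] (e : G₁ ≃* G₂) (H : Subgroup G₁) :
    Nat.card (H.map e.toMonoidHom) = Nat.card H := by
  refine (Nat.card_congr ?_).symm
  exact (Subgroup.equivMapOfInjective H e.toMonoidHom e.injective).toEquiv

theorem pc_map {G₁ G₂ : Type} [Group G₁] [Group G₂] [Fintype G₁] [Fintype G₂] (e : G₁ ≃* G₂)
    (H : Subgroup G₁) (g : G₂) : pc (H.map e.toMonoidHom) g = pc H (e.symm g) := by
  unfold pc
  rw [card_map_equiv e H]
  congr 1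
  rw [← Equiv.sum_comp e.toEquiv]
  refine Finset.sum_congr rfl fun y _ => ?_
  have h : (e.toEquiv y)⁻¹ * g * e.toEquiv y = e (y⁻¹ * e.symm g * y) := by
    rw [map_mul, map_mul, map_inv, MulEquiv.apply_symm_apply]
    rfl
  rw [h]
  by_cases hy : y⁻¹ * e.symm g * y ∈ H
  · rw [if_pos hy, if_pos ((mem_map_equiv e H _).2 hy)]
  · rw [if_neg hy, if_neg fun hc => hy ((mem_map_equiv e H _).1 hc)]

end TEx

theorem TE_thm : Stmt_TE := by
  rintro G₁ G₂ _ _ _ _ ⟨e⟩ hP V _ _ _ ρ
  obtain ⟨m, H, c, hc⟩ := hP V (ρ.comp e.toMonoidHom)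
  refine ⟨m, fun i => (H i).map e.toMonoidHom, c, fun g => ?_⟩
  have h1 := hc (e.symm g)
  have h2 : Representation.character (ρ.comp e.toMonoidHom : Representation ℂ G₁ V) (e.symm g) =
      ρ.character g := by
    show LinearMap.trace ℂ V (ρ (e (e.symm g))) = LinearMap.trace ℂ V (ρ g)
    rw [MulEquiv.apply_symm_apply]
  rw [← h2, h1]
  exact Finset.sum_congr rfl fun i _ => by rw [TEx.pc_map]

end Pool.Agent.YNG
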