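import Pool.Agent.YNG.StT

/-!
# Project YNG, module TI: the sign-isotypic part of a representation of `S_n × G₂` (helper47)
-/

set_option autoImplicit false

open scoped Classical

namespace Pool.Agent.YNG

namespace TIx

variable {n : ℕ} {G₂ V : Type} [Group G₂] [Fintype G₂] [AddCommGroup V] [Module ℂ V]

set_option linter.unusedSectionVars false

/-- The sign as a complex number. -/
noncomputable def sg (s : Equiv.Perm (Fin n)) : ℂ := ((Equiv.Perm.sign s : ℤ) : ℂ)

theorem sg_mul (s t : Equiv.Perm (Fin n)) : sg (s * t) = sg s * sg t := by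
  simp [sg]

theorem sg_sq (s : Equiv.Perm (Fin n)) : sg s * sg s = 1 := by
  rcases Int.units_eq_one_or (Equiv.Perm.sign s) with h | h <;> simp [sg, h]

/-- The sign-isotypic part. -/
def VS (ρ : Representation ℂ (Equiv.Perm (Fin n) × G₂) V) (h : Fin n → ℕ) : Submodule ℂ V where
  carrier := {v | ∀ s ∈ stab h, ρ (s, 1) v = sg s • v}
  add_mem' {a b} ha hb s hs := by rw [map_add, ha s hs, hb s hs, smul_add]
  zero_mem' s _ := by rw [map_zero, smul_zero]
  smul_mem' c v hv s hs := by rw [map_smul, hv s hs, smul_comm]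

/-- The average. -/
noncomputable def av (ρ : Representation ℂ (Equiv.Perm (Fin n) × G₂) V) (h : Fin n → ℕ) :
    V →ₗ[ℂ] V :=
  (Nat.card (stab h) : ℂ)⁻¹ • ∑ s : Equiv.Perm (Fin n), if s ∈ stab h then sg s • ρ (s, 1) else 0

variable (ρ : Representation ℂ (Equiv.Perm (Fin n) × G₂) V) (h : Fin n → ℕ)

theorem mul_app (a b : Equiv.Perm (Fin n) × G₂) (v : V) : ρ a (ρ b v) = ρ (a * b) v := by
  rw [map_mul]
  rfl

theorem stable (g : G₂) : ∀ v ∈ VS ρ h, ρ (1, g) v ∈ VS ρ h := by
  intro v hv s hs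
  have e : ρ (s, 1) (ρ (1, g) v) = ρ (1, g) (ρ (s, 1) v) := by
    rw [mul_app, mul_app]
    congr 2
    simp
  rw [e, hv s hs, map_smul]

theorem av_apply (v : V) : av ρ h v = (Nat.card (stab h) : ℂ)⁻¹ •
    ∑ s : Equiv.Perm (Fin n), if s ∈ stab h then sg s • ρ (s, 1) v else 0 := by
  unfold av
  rw [LinearMap.smul_apply, LinearMap.sum_apply]
  congr 1
  refine Finset.sum_congr rfl fun s _ => ?_
  split_ifs <;> simp

theorem av_mem (v : V) : av ρ h v ∈ VS ρ h := by
  intro t ht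
  rw [av_apply, map_smul, map_sum, smul_comm]
  congr 1
  rw [Finset.smul_sum]
  refine Fintype.sum_equiv (Equiv.mulLeft t) _ _ fun s => ?_
  have e1 : (Equiv.mulLeft t s : Equiv.Perm (Fin n)) = t * s := rfl
  rw [e1]
  by_cases hs : s ∈ stab h
  · rw [if_pos hs, if_pos ((stab h).mul_mem ht hs), map_smul, mul_app, sg_mul, smul_smul,
      ← mul_assoc, sg_sq, one_mul]
    congr 3
    simp
  · rw [if_neg hs, if_neg, map_zero, smul_zero]
    intro h1
    exact hs ((Subgroup.mul_mem_cancel_left _ ht).1 h1)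

theorem card_ne : (Nat.card (stab h) : ℂ) ≠ 0 := by
  have h0 : 0 < Nat.card (stab h) := Nat.card_pos
  exact_mod_cast h0.ne'

theorem av_id (v : V) (hv : v ∈ VS ρ h) : av ρ h v = v := by
  rw [av_apply]
  have e : ∀ s : Equiv.Perm (Fin n), (if s ∈ stab h then sg s • ρ (s, 1) v else 0) =
      if s ∈ stab h then v else 0 := by
    intro s
    split_ifs with hs
    · rw [hv s hs, smul_smul, sg_sq, one_smul]
    · rfl
  rw [Finset.sum_congr rfl fun s _ => e s, ← Finset.sum_filter, Finset.sum_const]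
  have h2 : (Finset.univ.filter fun s => s ∈ stab h).card = Nat.card (stab h) := by
    rw [Nat.card_eq_fintype_card, Fintype.card_subtype]
  rw [h2, ← Nat.cast_smul_eq_nsmul ℂ, smul_smul, inv_mul_cancel₀ (card_ne h), one_smul]

/-- The representation of `G₂` on the sign-isotypic part. -/
noncomputable def rep : Representation ℂ G₂ (VS ρ h) where
  toFun g := (ρ (1, g)).restrict (stable ρ h g)
  map_one' := by
    refine LinearMap.ext fun v => Subtype.ext ?_
    show ρ (1, 1) v.1 = v.1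
    have e : ((1 : Equiv.Perm (Fin n)), (1 : G₂)) = 1 := rfl
    rw [e, map_one]
    rfl
  map_mul' a b := by
    refine LinearMap.ext fun v => Subtype.ext ?_
    show ρ (1, a * b) v.1 = ρ (1, a) (ρ (1, b) v.1)
    rw [mul_app]
    congr 2

theorem char_rep [Module.Finite ℂ V] (g : G₂) :
    (rep ρ h).character g = LinearMap.trace ℂ V (ρ (1, g) ∘ₗ av ρ h) := by
  have h1 := LinearMap.trace_comp_comm' (R := ℂ)
    ((av ρ h).codRestrict (VS ρ h) (av_mem ρ h)) (ρ (1, g) ∘ₗ (VS ρ h).subtype)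
  have h2 : (ρ (1, g) ∘ₗ (VS ρ h).subtype) ∘ₗ ((av ρ h).codRestrict (VS ρ h) (av_mem ρ h)) =
      ρ (1, g) ∘ₗ av ρ h := by
    refine LinearMap.ext fun v => ?_
    rfl
  have h3 : ((av ρ h).codRestrict (VS ρ h) (av_mem ρ h)) ∘ₗ (ρ (1, g) ∘ₗ (VS ρ h).subtype) =
      rep ρ h g := by
    refine LinearMap.ext fun v => Subtype.ext ?_
    exact av_id ρ h _ (stable ρ h g v.1 v.2)
  rw [h2, h3] at h1
  exact h1.symm

theorem trace_av [Module.Finite ℂ V] (g : G₂) :
    LinearMap.trace ℂ V (ρ (1, g) ∘ₗ av ρ h) = pair h fun s => ρ.character (s, g) := by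
  unfold pair av
  rw [LinearMap.comp_smul, map_smul, smul_eq_mul, div_eq_inv_mul]
  congr 1
  have e0 : ρ (1, g) ∘ₗ (∑ s : Equiv.Perm (Fin n), if s ∈ stab h then sg s • ρ (s, 1) else 0) =
      ∑ s : Equiv.Perm (Fin n), ρ (1, g) ∘ₗ (if s ∈ stab h then sg s • ρ (s, 1) else 0) :=
    Finset.mul_sum (Finset.univ : Finset (Equiv.Perm (Fin n)))
      (fun s => if s ∈ stab h then sg s • ρ (s, 1) else 0) (ρ (1, g))
  rw [e0, map_sum]
  refine Finset.sum_congr rfl fun s _ => ?_
  by_cases hs : s ∈ stab h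
  · rw [if_pos hs, if_pos hs, LinearMap.comp_smul, map_smul, smul_eq_mul]
    have e : ρ (1, g) ∘ₗ ρ (s, 1) = ρ (s, g) := by
      refine LinearMap.ext fun v => ?_
      rw [LinearMap.comp_apply, mul_app]
      congr 2
      simp
    rw [e]
    rfl
  · rw [if_neg hs, if_neg hs, LinearMap.comp_zero, map_zero]

end TIx

theorem TI_thm : Stmt_TI := by
  intro n G₂ _ _ V _ _ _ ρ h
  exact ⟨TIx.VS ρ h, inferInstance, inferInstance, inferInstance, TIx.rep ρ h, fun g =>
    (TIx.char_rep ρ h g).trans (TIx.trace_av ρ h g)⟩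

end Pool.Agent.YNG
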