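import Mathlib

/-!
# Project YNG: every character of a symmetric group is an integral combination of permutation
characters (statements; helper6)

Every module proves `theorem X_thm : Stmt_X` (namespace `Pool.Agent.YNG`), file
`Pool/Agent/YNG/X.lean`, importing `Pool.Agent.YNG.St` only (auxiliary lemmas in a namespace `Xx`).

Notation: `α = Fin n`, `S_f` (`stab f`) the stabilizer of a colouring `f : α → ℕ`,
`P_h θ = |S_h|⁻¹ ∑_{s ∈ S_h} sgn(s) θ(s)` (`pair h θ`), `a_f` (`aF f`) the permutation character
induced from the trivial character of `S_f`; `inj f h` the set of `x ∈ S_n` such that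
`i ↦ (f (x i), h i)` is injective; for a Young diagram `μ` with `n` cells `fr μ`, `fc μ` are the
row and the column of the cells of `μ` (numbered by `Fin n`).
-/

set_option autoImplicit false

open scoped Classical

namespace Pool.Agent.YNG

/-- The stabilizer of a colouring. -/
def stab {n : ℕ} (f : Fin n → ℕ) : Subgroup (Equiv.Perm (Fin n)) where
  carrier := {g | ∀ i, f (g i) = f i}
  mul_mem' {a b} ha hb i := by
    show f (a (b i)) = f i
    rw [ha, hb]
  one_mem' _ := rfl
  inv_mem' {a} ha i := by
    have h := ha (a⁻¹ i)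
    have h' : a (a⁻¹ i) = i := by simp
    rw [h'] at h
    exact h.symm

/-- `P_h θ = |S_h|⁻¹ ∑_{s ∈ S_h} sgn(s) θ(s)`. -/
noncomputable def pair {n : ℕ} (h : Fin n → ℕ) (θ : Equiv.Perm (Fin n) → ℂ) : ℂ :=
  (∑ s : Equiv.Perm (Fin n), if s ∈ stab h then ((Equiv.Perm.sign s : ℤ) : ℂ) * θ s else 0) /
    (Nat.card (stab h) : ℂ)

/-- The permutation character on the conjugates of `f`. -/
noncomputable def aF {n : ℕ} (f : Fin n → ℕ) : Equiv.Perm (Fin n) → ℂ := fun g =>
  (∑ x : Equiv.Perm (Fin n), if x⁻¹ * g * x ∈ stab f then (1 : ℂ) else 0) /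
    (Nat.card (stab f) : ℂ)

/-- The permutations `x` such that `i ↦ (f (x i), h i)` is injective. -/
noncomputable def inj {n : ℕ} (f h : Fin n → ℕ) : Finset (Equiv.Perm (Fin n)) :=
  Finset.univ.filter fun x => Function.Injective fun i => (f (x i), h i)

/-- Young diagrams with `n` cells. -/
abbrev YD (n : ℕ) := {μ : YoungDiagram // μ.card = n}

/-- A numbering of the cells. -/
noncomputable def num {n : ℕ} (μ : YD n) : Fin n ≃ μ.1.cells :=
  (Finset.equivFinOfCardEq μ.2).symm

/-- The row of the cell with number `i`. -/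
noncomputable def fr {n : ℕ} (μ : YD n) (i : Fin n) : ℕ := (num μ i).1.1

/-- The column of the cell with number `i`. -/
noncomputable def fc {n : ℕ} (μ : YD n) (i : Fin n) : ℕ := (num μ i).1.2

/-- Class functions. -/
def CF (n : ℕ) : Submodule ℂ (Equiv.Perm (Fin n) → ℂ) where
  carrier := {θ | ∀ x g, θ (x⁻¹ * g * x) = θ g}
  add_mem' {a b} ha hb x g := by
    show a _ + b _ = a g + b g
    rw [ha x g, hb x g]
  zero_mem' _ _ := rfl
  smul_mem' c a ha x g := by
    show c • a _ = c • a g
    rw [ha x g]

/-- YL (linear algebra, about 80 lines).  `N` is integral and unitriangular with respect to `b`.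
Proof: (1) for all `v : ι → ℤ` there is `c : ι → ℤ` with `∑ i, c i * N i j = v j` for all `j`: downward
induction on `m` for the `v` supported on `{j | m ≤ b j}` (for `m` large `v = 0`): subtract
`∑_{b i = m} v i * N i j`, which is `v j` for `b j = m` and `0` for `b j < m`.  (2) So `T` is
surjective (over `ℂ` the unit vectors are in the image), hence injective by the dimension.
(3) If `T θ = v` take `c` from (1): `T (θ - ∑ c i a i) = 0`. -/
def Stmt_YL : Prop :=
  ∀ (ι : Type) [Fintype ι] (V : Type) [AddCommGroup V] [Module ℂ V] [FiniteDimensional ℂ V]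
    (T : V →ₗ[ℂ] (ι → ℂ)) (a : ι → V) (N : ι → ι → ℤ) (b : ι → ℕ),
    Module.finrank ℂ V ≤ Fintype.card ι →
    (∀ i j, T (a i) j = (N i j : ℂ)) → (∀ i, N i i = 1) →
    (∀ i j, N i j ≠ 0 → i ≠ j → b i < b j) →
    ∀ θ : V, (∀ j, ∃ k : ℤ, T θ j = (k : ℂ)) → ∃ c : ι → ℤ, θ = ∑ i, (c i : ℂ) • a i

/-- YD1 (the class functions, about 60 lines).  Proof: two permutations with the same cycle type
are conjugate (`Equiv.Perm.isConj_iff_cycleType_eq`), the cycle type together with the fixed
points is a partition (`Equiv.Perm.partition`, `Equiv.Perm.partition_eq_of_isConj`), so a class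
function `θ` is `F ∘ Equiv.Perm.partition` for a function `F` on the partitions: the map
`F ↦ F ∘ partition` from the functions on the partitions is onto a space which contains
`CF n`. -/
def Stmt_YD1 : Prop :=
  ∀ n : ℕ, Module.finrank ℂ (CF n) ≤ Fintype.card (Nat.Partition n)

/-- YD2 (about 60 lines).  Proof: for a partition take the sorted list of its parts
(`Multiset.sort`), `YoungDiagram.ofRowLens` or `YoungDiagram.equivListRowLens`; the number of the
cells is the sum of the row lengths. -/
def Stmt_YD2 : Prop :=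
  ∀ n : ℕ, ∃ _ : Fintype (YD n), Fintype.card (Nat.Partition n) ≤ Fintype.card (YD n)

/-- YI (integrality, about 60 lines).  Proof: `P_h χ` is the trace of the average over `S_h` of the
representation `s ↦ sgn(s) ρ(s)`, i.e. the dimension of its invariants
(`Representation.averageMap`, `Representation.isProj_averageMap`, `LinearMap.IsProj.trace`). -/
def Stmt_YI : Prop :=
  ∀ (n : ℕ) (V : Type) [AddCommGroup V] [Module ℂ V] [Module.Finite ℂ V]
    (ρ : Representation ℂ (Equiv.Perm (Fin n)) V) (h : Fin n → ℕ),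
    ∃ k : ℤ, pair h ρ.character = (k : ℂ)

/-- YA (about 60 lines).  `a_f` is the character of a representation: the functions on the quotient
`Perm (Fin n) ⧸ stab f` (trace of a permutation matrix; compare `Pool/Agent/ABS/WZP.lean`, lines
1-85, which may be copied). -/
def Stmt_YA : Prop :=
  ∀ (n : ℕ) (f : Fin n → ℕ), ∃ (V : Type) (_ : AddCommGroup V) (_ : Module ℂ V)
    (_ : Module.Finite ℂ V) (ρ : Representation ℂ (Equiv.Perm (Fin n)) V),
    ∀ g, ρ.character g = aF f g

/-- YP (the pairing, about 100 lines).  Proof: `P_h (a_f)` is `|S_h|⁻¹ |S_f|⁻¹` times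
`∑_x ∑_{s ∈ S_h, x⁻¹ s x ∈ S_f} sgn(s)`.  The condition says that `s` fixes the colourings `h` and
`f ∘ x⁻¹`.  If `i ↦ (f (x⁻¹ i), h i)` is injective the only such `s` is `1`, the inner sum is `1`.
If `(f (x⁻¹ i), h i) = (f (x⁻¹ j), h j)` with `i ≠ j`, the transposition `τ = (i j)` fixes both
colourings, and `s ↦ s τ` changes the sign: the inner sum is `0`.  Replace `x` by `x⁻¹`. -/
def Stmt_YP : Prop :=
  ∀ (n : ℕ) (f h : Fin n → ℕ), pair h (aF f) =
    ((inj f h).card : ℂ) / ((Nat.card (stab f) : ℂ) * (Nat.card (stab h) : ℂ))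

/-- YK (counting, about 120 lines).  Let `x ∈ inj (fr λ) (fc μ)`, `k : ℕ`.  For a column `j` of `μ` the
cells `i` of column `j` have different values `fr λ (x i)`; so at most `min k (colLen μ j)` of
them satisfy `fr λ (x i) < k`.  The number of all `i` with `fr λ (x i) < k` is the number of `i`
with `fr λ i < k` (`x` is a bijection); the number of `i` with `fr μ i < k` is
`∑_j min k (colLen μ j)`.  This gives the inequality.  If `λ = μ` there is equality for every `k`,
hence in every column; with `k = colLen μ j`: all cells `i` of column `j` have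
`fr μ (x i) < colLen μ j`, i.e. `(fr μ (x i), fc μ i) ∈ μ`. -/
def Stmt_YK : Prop :=
  ∀ (n : ℕ) (lam μ : YD n) (x : Equiv.Perm (Fin n)), x ∈ inj (fr lam) (fc μ) →
    (∀ k : ℕ, (Finset.univ.filter fun i => fr lam i < k).card ≤
      (Finset.univ.filter fun i => fr μ i < k).card) ∧
    (lam = μ → ∀ i, (fr μ (x i), fc μ i) ∈ μ.1)

/-- YG (the diagonal, about 80 lines).  Proof (hypothesis: `Stmt_YK`): let `x ∈ inj (fr μ) (fc μ)`.
By YK `(fr μ (x i), fc μ i)` is a cell of `μ`; let `t i` be its number.  `t` is injective, so a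
permutation, with `fc μ (t i) = fc μ i` and `fr μ (t i) = fr μ (x i)`: `t ∈ S_h`, `s = x t⁻¹ ∈ S_f`
(`f = fr μ`, `h = fc μ`).  Conversely `s t ∈ inj f h` for `s ∈ S_f`, `t ∈ S_h`.  The map
`S_f × S_h → inj f h` is injective: `S_f ∩ S_h = 1` because `i ↦ (f i, h i)` is injective. -/
def Stmt_YG : Prop :=
  ∀ (n : ℕ) (μ : YD n),
    (inj (fr μ) (fc μ)).card = Nat.card (stab (fr μ)) * Nat.card (stab (fc μ))

/-- YO (the order, about 60 lines).  `b μ = ∑_{k ≤ n} #{i | fr μ i < k}`.  If the inequalities
hold for all `k` and `λ ≠ μ` then some inequality for a `k ≤ n` is strict: if all for `k ≤ n` are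
equalities then (`fr μ i < n` for all `i`, since the cells `(0, j), ..., (fr μ i, j)` are
in `μ`) all are, `#{i | fr μ i = k} = rowLen μ k` (the cells of row `k`), so the
row lengths are equal and `λ = μ`. -/
def Stmt_YO : Prop :=
  ∀ (n : ℕ) (lam μ : YD n), lam ≠ μ →
    (∀ k : ℕ, (Finset.univ.filter fun i => fr lam i < k).card ≤
      (Finset.univ.filter fun i => fr μ i < k).card) →
    (∑ k ∈ Finset.range (n + 1), (Finset.univ.filter fun i => fr lam i < k).card) <
      ∑ k ∈ Finset.range (n + 1), (Finset.univ.filter fun i => fr μ i < k).card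

/-- YT (the theorem; assembly, helper6). -/
def Stmt_YT : Prop :=
  ∀ (n : ℕ) (V : Type) [AddCommGroup V] [Module ℂ V] [Module.Finite ℂ V]
    (ρ : Representation ℂ (Equiv.Perm (Fin n)) V),
    ∃ (m : ℕ) (H : Fin m → Subgroup (Equiv.Perm (Fin n))) (c : Fin m → ℤ), ∀ g,
      ρ.character g = ∑ i, (c i : ℂ) * ((∑ x : Equiv.Perm (Fin n),
        if x⁻¹ * g * x ∈ H i then (1 : ℂ) else 0) / (Nat.card (H i) : ℂ))

end Pool.Agent.YNG
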