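import Mathlib
import Pool.Agent.YNG.St

/-! Project YNG, module YL: integral unitriangular pairing. -/

set_option autoImplicit false

open scoped Classical

namespace Pool.Agent.YNG

namespace YLx

theorem solve {ι : Type} [Fintype ι] (N : ι → ι → ℤ) (b : ι → ℕ) (h1 : ∀ i, N i i = 1)
    (h2 : ∀ i j, N i j ≠ 0 → i ≠ j → b i < b j) (v : ι → ℤ) :
    ∃ c : ι → ℤ, ∀ j, ∑ i, c i * N i j = v j := by
  let M : Matrix ι ι ℤ := Matrix.of N
  have hM : M.BlockTriangular b := by
    intro i j hij
    by_contra hne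
    have h3 : i ≠ j := by
      rintro rfl
      exact lt_irrefl _ hij
    exact absurd (h2 i j hne h3) (not_lt.2 hij.le)
  have hblock : ∀ a, M.toSquareBlock b a = 1 := by
    intro a
    ext ⟨i, hi⟩ ⟨j, hj⟩
    rw [Matrix.toSquareBlock_def, Matrix.of_apply, Matrix.one_apply]
    by_cases hij : i = j
    · subst hij
      simp only [if_true]
      exact h1 i
    · rw [if_neg (fun h => hij (Subtype.mk.inj h))]
      by_contra hne
      have h3 := h2 i j hne hij
      have hi' : b i = a := hi
      have hj' : b j = a := hj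
      omega
  have hdet : M.det = 1 := by
    rw [hM.det]
    refine Finset.prod_eq_one fun a _ => ?_
    rw [hblock a, Matrix.det_one]
  have hunit : IsUnit M.det := by rw [hdet]; exact isUnit_one
  refine ⟨Matrix.vecMul v M⁻¹, ?_⟩
  have h4 : Matrix.vecMul (Matrix.vecMul v M⁻¹) M = v := by
    rw [Matrix.vecMul_vecMul, Matrix.nonsing_inv_mul M hunit, Matrix.vecMul_one]
  intro j
  have h5 := congrFun h4 j
  exact h5

end YLx

theorem YL_thm : Stmt_YL := by
  intro ι _ V _ _ _ T a N b hdim hT h1 h2 θ hθ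
  have hcomb : ∀ (c : ι → ℤ) (j : ι), T (∑ i, (c i : ℂ) • a i) j =
      ((∑ i, c i * N i j : ℤ) : ℂ) := by
    intro c j
    rw [map_sum, Finset.sum_apply]
    push_cast
    refine Finset.sum_congr rfl fun i _ => ?_
    rw [map_smul, Pi.smul_apply, hT, smul_eq_mul]
  have hunit : ∀ j : ι, ∃ w : V, T w = Pi.single j 1 := by
    intro j
    obtain ⟨c, hc⟩ := YLx.solve N b h1 h2 (Pi.single j 1)
    refine ⟨∑ i, (c i : ℂ) • a i, ?_⟩
    funext k
    rw [hcomb, hc k]
    by_cases hk : k = j
    · subst hk
      simp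
    · rw [Pi.single_eq_of_ne hk, Pi.single_eq_of_ne hk]
      simp
  have hsurj : Function.Surjective T := by
    intro w
    choose u hu using hunit
    refine ⟨∑ j, w j • u j, ?_⟩
    rw [map_sum]
    funext k
    rw [Finset.sum_apply]
    have : ∀ j, T (w j • u j) k = w j * (Pi.single j (1 : ℂ) : ι → ℂ) k := by
      intro j
      rw [map_smul, hu, Pi.smul_apply, smul_eq_mul]
    rw [Finset.sum_congr rfl (fun j _ => this j), Finset.sum_eq_single k]
    · simp
    · intro j _ hj
      rw [Pi.single_eq_of_ne (Ne.symm hj), mul_zero]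
    · intro h
      exact absurd (Finset.mem_univ k) h
  have hcard : Module.finrank ℂ (ι → ℂ) = Fintype.card ι := Module.finrank_fintype_fun_eq_card ℂ
  have hge : Module.finrank ℂ (ι → ℂ) ≤ Module.finrank ℂ V :=
    LinearMap.finrank_le_finrank_of_surjective hsurj
  have heq : Module.finrank ℂ V = Module.finrank ℂ (ι → ℂ) :=
    le_antisymm (hdim.trans hcard.ge) hge
  have hinj : Function.Injective T :=
    (LinearMap.injective_iff_surjective_of_finrank_eq_finrank heq).2 hsurj
  choose v hv using hθ
  obtain ⟨c, hc⟩ := YLx.solve N b h1 h2 v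
  refine ⟨c, hinj ?_⟩
  funext j
  rw [hcomb, hc j, hv j]

end Pool.Agent.YNG
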