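import Pool.Agent.YNG.StT
import Pool.Agent.YNG.YL

/-! Project YNG, module TL: linear algebra with the inverse matrix. -/

set_option autoImplicit false

open scoped Classical

namespace Pool.Agent.YNG

theorem TL_thm : Stmt_TL := by
  intro ι _ V _ _ _ T a N b hdim hT h1 h2
  have hM : ∀ j : ι, ∃ c : ι → ℤ, ∀ k, ∑ i, c i * N i k = (Pi.single j 1 : ι → ℤ) k :=
    fun j => YLx.solve N b h1 h2 (Pi.single j 1)
  choose M hM using hM
  have key : ∀ w : ι → ℂ, T (∑ i, (∑ j, w j * (M j i : ℂ)) • a i) = w := by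
    intro w
    funext k
    rw [map_sum, Finset.sum_apply]
    have e1 : ∀ i, T ((∑ j, w j * (M j i : ℂ)) • a i) k =
        ∑ j, w j * ((M j i * N i k : ℤ) : ℂ) := by
      intro i
      rw [map_smul, Pi.smul_apply, hT, smul_eq_mul, Finset.sum_mul]
      refine Finset.sum_congr rfl fun j _ => ?_
      push_cast
      ring
    rw [Finset.sum_congr rfl fun i _ => e1 i, Finset.sum_comm]
    have e2 : ∀ j, ∑ i, w j * ((M j i * N i k : ℤ) : ℂ) =
        w j * (((Pi.single j 1 : ι → ℤ) k : ℤ) : ℂ) := by
      intro j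
      rw [← Finset.mul_sum, ← hM j k]
      push_cast
      rfl
    rw [Finset.sum_congr rfl fun j _ => e2 j, Finset.sum_eq_single k]
    · simp
    · intro j _ hj
      rw [Pi.single_eq_of_ne (Ne.symm hj)]
      simp
    · intro h
      exact absurd (Finset.mem_univ k) h
  have hsurj : Function.Surjective T := fun w => ⟨_, key w⟩
  have hcard : Module.finrank ℂ (ι → ℂ) = Fintype.card ι := Module.finrank_fintype_fun_eq_card ℂ
  have hge : Module.finrank ℂ (ι → ℂ) ≤ Module.finrank ℂ V :=
    LinearMap.finrank_le_finrank_of_surjective hsurj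
  have heq : Module.finrank ℂ V = Module.finrank ℂ (ι → ℂ) :=
    le_antisymm (hdim.trans hcard.ge) hge
  have hinj : Function.Injective T :=
    (LinearMap.injective_iff_surjective_of_finrank_eq_finrank heq).2 hsurj
  exact ⟨M, fun θ => hinj (key (T θ)).symm⟩

end Pool.Agent.YNG
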