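import Pool.Agent.YNG.StT

/-!
# Project YNG, module TP: permutation character of a product (helper33)
-/

set_option autoImplicit false

open scoped Classical

namespace Pool.Agent.YNG

theorem TP_thm : Stmt_TP := by
  intro G₁ G₂ _ _ _ _ H₁ H₂ g₁ g₂
  have hc : (Nat.card (H₁.prod H₂) : ℂ) = (Nat.card H₁ : ℂ) * (Nat.card H₂ : ℂ) := by
    rw [Nat.card_congr (Subgroup.prodEquiv H₁ H₂).toEquiv, Nat.card_prod]
    push_cast
    rfl
  have hs : (∑ p : G₁ × G₂, if p⁻¹ * (g₁, g₂) * p ∈ H₁.prod H₂ then (1 : ℂ) else 0) =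
      (∑ x : G₁, if x⁻¹ * g₁ * x ∈ H₁ then (1 : ℂ) else 0) *
        ∑ y : G₂, if y⁻¹ * g₂ * y ∈ H₂ then (1 : ℂ) else 0 := by
    rw [Fintype.sum_prod_type, Finset.sum_mul_sum]
    refine Finset.sum_congr rfl fun x _ => Finset.sum_congr rfl fun y _ => ?_
    have e : (x, y)⁻¹ * (g₁, g₂) * (x, y) ∈ H₁.prod H₂ ↔
        x⁻¹ * g₁ * x ∈ H₁ ∧ y⁻¹ * g₂ * y ∈ H₂ := Subgroup.mem_prod
    by_cases h1 : x⁻¹ * g₁ * x ∈ H₁ <;> by_cases h2 : y⁻¹ * g₂ * y ∈ H₂ <;>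
      simp only [e, h1, h2, and_self, and_true, and_false, if_true, if_false, mul_one, mul_zero]
  unfold pc
  rw [hs, hc, div_mul_div_comm]

end Pool.Agent.YNG
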