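import Pool.Agent.YNG.St

/-!
# Project YNG, YA: the permutation characters are characters (helper18, after WZP by helper55)
-/

set_option autoImplicit false

open scoped Classical

namespace Pool.Agent.YNG

namespace YAx

variable {G : Type} [Group G] [Fintype G] (H : Subgroup G)

set_option linter.unusedSectionVars false

/-- The permutation representation on the functions on `G ⧸ H`. -/
noncomputable def perm : Representation ℂ G (G ⧸ H → ℂ) where
  toFun g := LinearMap.funLeft ℂ ℂ (fun x : G ⧸ H => g⁻¹ • x)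
  map_one' := by
    refine LinearMap.ext fun f => funext fun x => ?_
    rw [LinearMap.funLeft_apply, inv_one, one_smul]
    rfl
  map_mul' := by
    intro a b
    refine LinearMap.ext fun f => funext fun x => ?_
    rw [LinearMap.funLeft_apply, mul_inv_rev, mul_smul]
    rfl

theorem perm_apply (g : G) (f : G ⧸ H → ℂ) (x : G ⧸ H) : perm H g f x = f (g⁻¹ • x) := rfl

theorem char_perm (g : G) :
    (perm H).character g = ∑ x : G ⧸ H, if g⁻¹ • x = x then (1 : ℂ) else 0 := by
  unfold Representation.character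
  rw [LinearMap.trace_eq_matrix_trace ℂ (Pi.basisFun ℂ (G ⧸ H)), Matrix.trace]
  refine Finset.sum_congr rfl fun x _ => ?_
  rw [Matrix.diag_apply, LinearMap.toMatrix_apply, Pi.basisFun_repr, Pi.basisFun_apply,
    perm_apply, Pi.single_apply]

theorem fix_iff (g x : G) : g⁻¹ • (x : G ⧸ H) = (x : G ⧸ H) ↔ x⁻¹ * g * x ∈ H := by
  have h1 : g⁻¹ • (x : G ⧸ H) = (x : G ⧸ H) ↔ (x : G ⧸ H) = g • (x : G ⧸ H) := by
    rw [inv_smul_eq_iff]
  rw [h1]
  have h2 : g • (x : G ⧸ H) = ((g * x : G) : G ⧸ H) := rfl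
  rw [h2, QuotientGroup.eq, mul_assoc]

theorem sum_mk (F : G ⧸ H → ℂ) :
    ∑ x : G, F (x : G ⧸ H) = (Nat.card H : ℂ) * ∑ q : G ⧸ H, F q := by
  rw [← Finset.sum_fiberwise (s := Finset.univ) (g := fun x : G => (x : G ⧸ H)),
    Finset.mul_sum]
  refine Finset.sum_congr rfl fun q _ => ?_
  rw [Finset.sum_congr rfl (g := fun _ => F q) fun x hx => by rw [(Finset.mem_filter.1 hx).2],
    Finset.sum_const, nsmul_eq_mul]
  congr 2
  have h1 := QuotientGroup.card_preimage_mk H ({q} : Set (G ⧸ H))
  have h2 : Nat.card (({q} : Set (G ⧸ H)) : Type) = 1 := by simp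
  rw [h2, mul_one] at h1
  rw [← h1, Nat.card_eq_fintype_card, Fintype.card_subtype]
  congr 1
  ext x
  simp

theorem char_eq (g : G) : (perm H).character g =
    (∑ x : G, if x⁻¹ * g * x ∈ H then (1 : ℂ) else 0) / (Nat.card H : ℂ) := by
  have h1 := sum_mk H (fun q => if g⁻¹ • q = q then (1 : ℂ) else 0)
  have h2 : (Nat.card H : ℂ) ≠ 0 := by
    exact_mod_cast Nat.card_pos.ne'
  rw [char_perm, eq_div_iff h2, mul_comm, ← h1]
  refine Finset.sum_congr rfl fun x _ => ?_
  exact if_congr (fix_iff H g x) rfl rfl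

end YAx

theorem YA_thm : Stmt_YA := by
  intro n f
  exact ⟨Equiv.Perm (Fin n) ⧸ stab f → ℂ, inferInstance, inferInstance, inferInstance,
    YAx.perm (stab f), fun g => YAx.char_eq (stab f) g⟩

end Pool.Agent.YNG
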