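import Pool.Agent.YNG.St

/-!
# Project YNG, module YD1 (helper52): the dimension of the class functions
-/

set_option autoImplicit false

open scoped Classical

namespace Pool.Agent.YNG

namespace YD1x

/-- Partitions of the number of elements of `Fin n`. -/
abbrev P (n : ℕ) := Nat.Partition (Fintype.card (Fin n))

/-- A permutation with the given cycle partition (if there is one). -/
noncomputable def rep {n : ℕ} (p : P n) : Equiv.Perm (Fin n) :=
  if h : ∃ σ : Equiv.Perm (Fin n), σ.partition = p then h.choose else 1

theorem rep_spec {n : ℕ} (g : Equiv.Perm (Fin n)) :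
    (rep (g.partition : P n)).partition = g.partition := by
  have h : ∃ σ : Equiv.Perm (Fin n), σ.partition = g.partition := ⟨g, rfl⟩
  unfold rep
  rw [dif_pos h]
  exact h.choose_spec

theorem conj_eq {n : ℕ} (θ : CF n) (a b : Equiv.Perm (Fin n)) (h : a.partition = b.partition) :
    θ.1 a = θ.1 b := by
  have h1 : IsConj a b := Equiv.Perm.partition_eq_of_isConj.mpr h
  obtain ⟨c, hc⟩ := isConj_iff.mp h1
  have h2 : ∀ x g, θ.1 (x⁻¹ * g * x) = θ.1 g := θ.2
  have h3 := h2 c⁻¹ a
  rw [inv_inv, hc] at h3
  exact h3.symm

/-- The restriction to the representatives. -/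
noncomputable def L (n : ℕ) : CF n →ₗ[ℂ] (P n → ℂ) where
  toFun θ := fun p => θ.1 (rep p)
  map_add' _ _ := rfl
  map_smul' _ _ := rfl

theorem L_inj (n : ℕ) : Function.Injective (L n) := by
  intro θ θ' h
  apply Subtype.ext
  funext g
  have h1 : θ.1 (rep (g.partition : P n)) = θ'.1 (rep (g.partition : P n)) :=
    congrFun h (g.partition : P n)
  rw [conj_eq θ g (rep (g.partition : P n)) (rep_spec g).symm,
    conj_eq θ' g (rep (g.partition : P n)) (rep_spec g).symm]
  exact h1

end YD1x

theorem YD1_thm : Stmt_YD1 := by
  intro n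
  have h1 := LinearMap.finrank_le_finrank_of_injective (YD1x.L_inj n)
  rw [Module.finrank_fintype_fun_eq_card] at h1
  have h2 : Fintype.card (YD1x.P n) = Fintype.card (Nat.Partition n) := by
    have h3 : Fintype.card (Fin n) = n := Fintype.card_fin n
    show Fintype.card (Nat.Partition (Fintype.card (Fin n))) = Fintype.card (Nat.Partition n)
    rw [h3]
  rw [h2] at h1
  exact h1

end Pool.Agent.YNG
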