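import Pool.Agent.YNG.St

/-!
Project YNG, module YD2: there are at least as many Young diagrams with `n` cells as partitions
of `n`.
-/

set_option autoImplicit false

open scoped Classical

namespace Pool.Agent.YNG

namespace YD2x

/-- the number of the cells of a diagram given by its rows -/
lemma card_cells (w : List ℕ) : (YoungDiagram.cellsOfRowLens w).card = w.sum := by
  induction w with
  | nil => rfl
  | cons a w ih =>
    rw [YoungDiagram.cellsOfRowLens, Finset.card_union_of_disjoint, Finset.card_map, ih]
    · simp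
    · rw [Finset.disjoint_left]
      rintro ⟨i, j⟩ h1 h2
      simp only [Finset.mem_product, Finset.mem_singleton] at h1
      rw [Finset.mem_map] at h2
      obtain ⟨⟨i', j'⟩, -, h3⟩ := h2
      have h4 : Nat.succ i' = i := congrArg Prod.fst h3
      omega

lemma card_ofRowLens (w : List ℕ) (hw : w.SortedGE) :
    (YoungDiagram.ofRowLens w hw).card = w.sum := card_cells w

lemma card_eq (μ : YoungDiagram) : μ.rowLens.sum = μ.card := by
  rw [← card_ofRowLens _ μ.rowLens_sorted, YoungDiagram.ofRowLens_to_rowLens_eq_self]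

/-- the partition of a diagram -/
def toPart {n : ℕ} (μ : YD n) : Nat.Partition n where
  parts := (μ.1.rowLens : Multiset ℕ)
  parts_pos := fun h => μ.1.pos_of_mem_rowLens _ (Multiset.mem_coe.1 h)
  parts_sum := by
    rw [Multiset.sum_coe, card_eq, μ.2]

lemma toPart_inj {n : ℕ} : Function.Injective (toPart (n := n)) := by
  intro μ ν h
  have h1 : (μ.1.rowLens : Multiset ℕ) = (ν.1.rowLens : Multiset ℕ) :=
    congrArg Nat.Partition.parts h
  have h2 : μ.1.rowLens = ν.1.rowLens :=
    List.Perm.eq_of_sortedGE μ.1.rowLens_sorted ν.1.rowLens_sorted (Multiset.coe_eq_coe.1 h1)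
  apply Subtype.ext
  apply YoungDiagram.equivListRowLens.injective
  exact Subtype.ext h2

lemma sorted_sort {n : ℕ} (p : Nat.Partition n) : (p.parts.sort (· ≥ ·)).SortedGE :=
  List.sortedGE_iff_pairwise.2 (Multiset.pairwise_sort _ _)

/-- the diagram of a partition -/
noncomputable def ofPart {n : ℕ} (p : Nat.Partition n) : YD n :=
  ⟨YoungDiagram.ofRowLens _ (sorted_sort p), by
    rw [card_ofRowLens, ← Multiset.sum_coe, Multiset.sort_eq, p.parts_sum]⟩

lemma ofPart_inj {n : ℕ} : Function.Injective (ofPart (n := n)) := by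
  intro p q h
  have h1 : (ofPart p).1.rowLens = (ofPart q).1.rowLens := by rw [h]
  have e : ∀ r : Nat.Partition n, (ofPart r).1.rowLens = r.parts.sort (· ≥ ·) := fun r =>
    YoungDiagram.rowLens_ofRowLens_eq_self (hw := sorted_sort r) fun x hx =>
      r.parts_pos ((Multiset.mem_sort _).1 hx)
  rw [e, e] at h1
  have h2 : p.parts = q.parts := by
    rw [← Multiset.sort_eq p.parts (· ≥ ·), h1, Multiset.sort_eq]
  exact Nat.Partition.ext h2

end YD2x

theorem YD2_thm : Stmt_YD2 := by
  intro n
  have : Finite (YD n) := Finite.of_injective _ (YD2x.toPart_inj (n := n))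
  have : Fintype (YD n) := Fintype.ofFinite _
  exact ⟨inferInstance, Fintype.card_le_of_injective _ (YD2x.ofPart_inj (n := n))⟩

end Pool.Agent.YNG
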