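import Pool.Agent.YNG.St

/-!
# Project YNG, module YG: the diagonal
-/

set_option autoImplicit false

open scoped Classical

namespace Pool.Agent.YNG

namespace YGx

theorem sep {n : ℕ} (μ : YD n) (i j : Fin n) (h1 : fr μ i = fr μ j) (h2 : fc μ i = fc μ j) :
    i = j := by
  apply (num μ).injective
  apply Subtype.ext
  exact Prod.ext h1 h2

theorem both {n : ℕ} (μ : YD n) (g : Equiv.Perm (Fin n)) (h1 : g ∈ stab (fr μ))
    (h2 : g ∈ stab (fc μ)) : g = 1 := by
  ext i
  have h3 : g i = i := sep μ (g i) i (h1 i) (h2 i)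
  rw [h3]
  rfl

theorem prod_mem {n : ℕ} (μ : YD n) (s t : Equiv.Perm (Fin n)) (hs : s ∈ stab (fr μ))
    (ht : t ∈ stab (fc μ)) : s * t ∈ inj (fr μ) (fc μ) := by
  unfold inj
  rw [Finset.mem_filter]
  refine ⟨Finset.mem_univ _, ?_⟩
  intro i j hij
  have hij' : (fr μ (s (t i)), fc μ i) = (fr μ (s (t j)), fc μ j) := hij
  rw [Prod.mk.injEq] at hij'
  have e1 : fr μ (t i) = fr μ (t j) := by
    rw [← hs (t i), ← hs (t j)]
    exact hij'.1
  have e2 : fc μ (t i) = fc μ (t j) := by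
    rw [ht i, ht j]
    exact hij'.2
  exact t.injective (sep μ _ _ e1 e2)

theorem exists_fact {n : ℕ} (μ : YD n) (x : Equiv.Perm (Fin n))
    (hx : Function.Injective fun i => (fr μ (x i), fc μ i))
    (hcell : ∀ i, (fr μ (x i), fc μ i) ∈ μ.1) :
    ∃ s ∈ stab (fr μ), ∃ t ∈ stab (fc μ), s * t = x := by
  let t0 : Fin n → Fin n := fun i =>
    (num μ).symm ⟨(fr μ (x i), fc μ i), (YoungDiagram.mem_cells _).2 (hcell i)⟩
  have hnum : ∀ i, (num μ (t0 i)).1 = (fr μ (x i), fc μ i) := by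
    intro i
    show (num μ ((num μ).symm ⟨(fr μ (x i), fc μ i), (YoungDiagram.mem_cells _).2 (hcell i)⟩)).1 = _
    rw [Equiv.apply_symm_apply]
  have hf : ∀ i, fr μ (t0 i) = fr μ (x i) := by
    intro i
    show (num μ (t0 i)).1.1 = _
    rw [hnum i]
  have hh : ∀ i, fc μ (t0 i) = fc μ i := by
    intro i
    show (num μ (t0 i)).1.2 = _
    rw [hnum i]
  have hinj : Function.Injective t0 := by
    intro i j hij
    apply hx
    show (fr μ (x i), fc μ i) = (fr μ (x j), fc μ j)
    rw [← hnum i, ← hnum j, hij]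
  let t : Equiv.Perm (Fin n) := Equiv.ofBijective t0 (Finite.injective_iff_bijective.1 hinj)
  have htd : ∀ i, t i = t0 i := fun i => rfl
  refine ⟨x * t⁻¹, ?_, t, ?_, by simp⟩
  · intro i
    show fr μ (x (t⁻¹ i)) = fr μ i
    rw [← hf (t⁻¹ i), ← htd]
    congr 1
    simp
  · intro i
    rw [htd]
    exact hh i

end YGx

theorem YG_thm (hYK : Stmt_YK) : Stmt_YG := by
  intro n μ
  rw [← Nat.card_prod, ← Nat.card_eq_finsetCard]
  symm
  let F : stab (fr μ) × stab (fc μ) → inj (fr μ) (fc μ) := fun p =>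
    ⟨p.1.1 * p.2.1, YGx.prod_mem μ p.1.1 p.2.1 p.1.2 p.2.2⟩
  have hF : Function.Bijective F := by
    constructor
    · rintro ⟨⟨s, hs⟩, ⟨t, ht⟩⟩ ⟨⟨s', hs'⟩, ⟨t', ht'⟩⟩ he
      have he' : s * t = s' * t' := congrArg Subtype.val he
      have h1 : s'⁻¹ * s = t' * t⁻¹ := by
        rw [inv_mul_eq_iff_eq_mul, ← mul_assoc, ← he', mul_inv_cancel_right]
      have h2 : s'⁻¹ * s = 1 := by
        apply YGx.both μ
        · exact (stab (fr μ)).mul_mem ((stab (fr μ)).inv_mem hs') hs
        · rw [h1]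
          exact (stab (fc μ)).mul_mem ht' ((stab (fc μ)).inv_mem ht)
      have h3 : s = s' := by
        rw [inv_mul_eq_one] at h2
        exact h2.symm
      have h4 : t = t' := by
        rw [h3] at he'
        exact mul_left_cancel he'
      subst h3
      subst h4
      rfl
    · rintro ⟨x, hx⟩
      have hx' : Function.Injective fun i => (fr μ (x i), fc μ i) := by
        have := hx
        unfold inj at this
        rw [Finset.mem_filter] at this
        exact this.2
      obtain ⟨s, hs, t, ht, he⟩ := YGx.exists_fact μ x hx' ((hYK n μ μ x hx).2 rfl)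
      exact ⟨(⟨s, hs⟩, ⟨t, ht⟩), Subtype.ext he⟩
  exact Nat.card_congr (Equiv.ofBijective F hF)

end Pool.Agent.YNG
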