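import Pool.Agent.YNG.St

/-!
# Project YNG, module YI: integrality of the pairing with a character (helper33)
-/

set_option autoImplicit false

open scoped Classical

namespace Pool.Agent.YNG

namespace YIx

/-- The twist of `ρ` by the sign, restricted to `stab h`. -/
noncomputable def tw {n : ℕ} {V : Type} [AddCommGroup V] [Module ℂ V]
    (ρ : Representation ℂ (Equiv.Perm (Fin n)) V) (h : Fin n → ℕ) :
    Representation ℂ (stab h) V where
  toFun s := (((Equiv.Perm.sign s.1 : ℤ) : ℂ)) • ρ s.1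
  map_one' := by
    show (((Equiv.Perm.sign (1 : Equiv.Perm (Fin n)) : ℤ) : ℂ)) • ρ 1 = 1
    rw [Equiv.Perm.sign_one, map_one]
    simp
  map_mul' a b := by
    show (((Equiv.Perm.sign (a.1 * b.1) : ℤ) : ℂ)) • ρ (a.1 * b.1) =
      ((((Equiv.Perm.sign a.1 : ℤ) : ℂ)) • ρ a.1) * ((((Equiv.Perm.sign b.1 : ℤ) : ℂ)) • ρ b.1)
    rw [Equiv.Perm.sign_mul, map_mul, smul_mul_smul_comm]
    push_cast
    rfl

theorem tw_char {n : ℕ} {V : Type} [AddCommGroup V] [Module ℂ V] [Module.Finite ℂ V]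
    (ρ : Representation ℂ (Equiv.Perm (Fin n)) V) (h : Fin n → ℕ) (s : stab h) :
    (tw ρ h).character s = ((Equiv.Perm.sign s.1 : ℤ) : ℂ) * ρ.character s.1 := by
  show LinearMap.trace ℂ V ((((Equiv.Perm.sign s.1 : ℤ) : ℂ)) • ρ s.1) = _
  rw [map_smul]
  rfl

end YIx

theorem YI_thm : Stmt_YI := by
  intro n V _ _ _ ρ h
  have hne : (Nat.card (stab h) : ℂ) ≠ 0 := by
    have : 0 < Nat.card (stab h) := Nat.card_pos
    exact_mod_cast this.ne'
  haveI : Invertible (Nat.card (stab h) : ℂ) := invertibleOfNonzero hne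
  have key := Representation.card_inv_mul_sum_char_eq_finrank (YIx.tw ρ h)
  refine ⟨(Module.finrank ℂ (YIx.tw ρ h).invariants : ℤ), ?_⟩
  rw [Int.cast_natCast, ← key]
  unfold pair
  rw [div_eq_inv_mul]
  congr 1
  have e : ∑ s : Equiv.Perm (Fin n), (if s ∈ stab h then
      ((Equiv.Perm.sign s : ℤ) : ℂ) * ρ.character s else 0) =
      ∑ s : stab h, ((Equiv.Perm.sign s.1 : ℤ) : ℂ) * ρ.character s.1 := by
    rw [← Finset.sum_filter]
    exact Finset.sum_subtype (Finset.univ.filter fun s => s ∈ stab h) (by simp)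
      (fun s => ((Equiv.Perm.sign s : ℤ) : ℂ) * ρ.character s)
  rw [e]
  exact Finset.sum_congr rfl fun s _ => (YIx.tw_char ρ h s).symm

end Pool.Agent.YNG
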