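import Pool.Agent.YNG.St

/-! Module YK of project YNG (MP_46b841_nt): dominance by counting. -/

set_option autoImplicit false

open scoped Classical

namespace Pool.Agent.YNG

namespace YKx

variable {n : ℕ}

theorem cell_mem (μ : YD n) (i : Fin n) : (fr μ i, fc μ i) ∈ μ.1 := by
  have h := (num μ i).2
  rw [YoungDiagram.mem_cells] at h
  exact h

theorem ext_cell (μ : YD n) (i j : Fin n) (h1 : fr μ i = fr μ j) (h2 : fc μ i = fc μ j) :
    i = j := by
  apply (num μ).injective
  apply Subtype.ext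
  exact Prod.ext h1 h2

theorem exists_cell (μ : YD n) (r j : ℕ) (h : (r, j) ∈ μ.1) : ∃ i, fr μ i = r ∧ fc μ i = j := by
  have h' : (r, j) ∈ μ.1.cells := (YoungDiagram.mem_cells ..).2 h
  refine ⟨(num μ).symm ⟨(r, j), h'⟩, ?_, ?_⟩
  · unfold fr
    rw [Equiv.apply_symm_apply]
  · unfold fc
    rw [Equiv.apply_symm_apply]

theorem col_card_lt (μ : YD n) (j k : ℕ) :
    (Finset.univ.filter fun i => fr μ i < k ∧ fc μ i = j).card = min k (μ.1.colLen j) := by
  rw [← Finset.card_range (min k (μ.1.colLen j))]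
  apply Finset.card_bij (fun i _ => fr μ i)
  · intro i hi
    rw [Finset.mem_filter] at hi
    rw [Finset.mem_range, lt_min_iff]
    refine ⟨hi.2.1, ?_⟩
    rw [← YoungDiagram.mem_iff_lt_colLen, ← hi.2.2]
    exact cell_mem μ i
  · intro i hi i' hi' h
    rw [Finset.mem_filter] at hi hi'
    exact ext_cell μ i i' h (hi.2.2.trans hi'.2.2.symm)
  · intro r hr
    rw [Finset.mem_range, lt_min_iff, ← YoungDiagram.mem_iff_lt_colLen] at hr
    obtain ⟨i, h1, h2⟩ := exists_cell μ r j hr.2
    refine ⟨i, ?_, h1⟩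
    rw [Finset.mem_filter]
    exact ⟨Finset.mem_univ i, by rw [h1]; exact hr.1, h2⟩

theorem col_card (μ : YD n) (j : ℕ) :
    (Finset.univ.filter fun i => fc μ i = j).card = μ.1.colLen j := by
  have h := col_card_lt μ j (μ.1.colLen j)
  rw [min_self] at h
  rw [← h]
  congr 1
  ext i
  rw [Finset.mem_filter, Finset.mem_filter]
  constructor
  · rintro ⟨h1, h2⟩
    refine ⟨h1, ?_, h2⟩
    rw [← YoungDiagram.mem_iff_lt_colLen, ← h2]
    exact cell_mem μ i
  · rintro ⟨h1, _, h2⟩
    exact ⟨h1, h2⟩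

theorem col_le (lam μ : YD n) (x : Equiv.Perm (Fin n)) (hx : x ∈ inj (fr lam) (fc μ)) (k j : ℕ) :
    (Finset.univ.filter fun i => fr lam (x i) < k ∧ fc μ i = j).card ≤
      min k (μ.1.colLen j) := by
  have hinj : Function.Injective fun i => (fr lam (x i), fc μ i) := by
    unfold inj at hx
    exact (Finset.mem_filter.1 hx).2
  apply le_min
  · have h : (Finset.univ.filter fun i => fr lam (x i) < k ∧ fc μ i = j).card ≤
        (Finset.range k).card := by
      apply Finset.card_le_card_of_injOn (fun i => fr lam (x i))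
      · intro i hi
        have hi' := (Finset.mem_filter.1 (Finset.mem_coe.1 hi)).2
        exact Finset.mem_coe.2 (Finset.mem_range.2 hi'.1)
      · intro i hi i' hi' h
        have h1 := (Finset.mem_filter.1 (Finset.mem_coe.1 hi)).2
        have h2 := (Finset.mem_filter.1 (Finset.mem_coe.1 hi')).2
        exact hinj (Prod.ext h (h1.2.trans h2.2.symm))
    rwa [Finset.card_range] at h
  · rw [← col_card μ j]
    apply Finset.card_le_card
    intro i hi
    rw [Finset.mem_filter] at hi ⊢
    exact ⟨hi.1, hi.2.2⟩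

theorem card_x (lam : YD n) (x : Equiv.Perm (Fin n)) (k : ℕ) :
    (Finset.univ.filter fun i => fr lam (x i) < k).card =
      (Finset.univ.filter fun i => fr lam i < k).card := by
  apply Finset.card_bij (fun i _ => x i)
  · intro i hi
    rw [Finset.mem_filter] at hi ⊢
    exact ⟨Finset.mem_univ _, hi.2⟩
  · intro i _ i' _ h
    exact x.injective h
  · intro i hi
    rw [Finset.mem_filter] at hi
    refine ⟨x.symm i, ?_, x.apply_symm_apply i⟩
    rw [Finset.mem_filter, x.apply_symm_apply]
    exact ⟨Finset.mem_univ _, hi.2⟩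

theorem sum_cols (μ : YD n) (p : Fin n → Prop) [DecidablePred p] :
    (Finset.univ.filter fun i => p i).card =
      ∑ j ∈ Finset.univ.image (fc μ), (Finset.univ.filter fun i => p i ∧ fc μ i = j).card := by
  rw [Finset.card_eq_sum_card_fiberwise (f := fc μ) (t := Finset.univ.image (fc μ))]
  · apply Finset.sum_congr rfl
    intro j _
    rw [Finset.filter_filter]
  · intro i _
    exact Finset.mem_coe.2 (Finset.mem_image_of_mem _ (Finset.mem_univ i))

theorem ineq (lam μ : YD n) (x : Equiv.Perm (Fin n)) (hx : x ∈ inj (fr lam) (fc μ)) (k : ℕ) :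
    (Finset.univ.filter fun i => fr lam i < k).card ≤
      (Finset.univ.filter fun i => fr μ i < k).card := by
  have h1 := sum_cols μ (fun i => fr lam (x i) < k)
  have h2 := sum_cols μ (fun i => fr μ i < k)
  have h3 : (Finset.univ.filter fun i => fr lam (x i) < k).card ≤
      (Finset.univ.filter fun i => fr μ i < k).card := by
    rw [h1, h2]
    apply Finset.sum_le_sum
    intro j _
    rw [col_card_lt]
    exact col_le lam μ x hx k j
  rwa [card_x] at h3

theorem mem_of_eq (μ : YD n) (x : Equiv.Perm (Fin n)) (hx : x ∈ inj (fr μ) (fc μ)) (i : Fin n) :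
    (fr μ (x i), fc μ i) ∈ μ.1 := by
  obtain ⟨k, hk⟩ : ∃ k, k = μ.1.colLen (fc μ i) := ⟨_, rfl⟩
  have e1 := sum_cols μ (fun i => fr μ (x i) < k)
  have e2 := sum_cols μ (fun i => fr μ i < k)
  rw [card_x, e2] at e1
  have hle : ∀ j ∈ Finset.univ.image (fc μ),
      (Finset.univ.filter fun i => fr μ (x i) < k ∧ fc μ i = j).card ≤
        (Finset.univ.filter fun i => fr μ i < k ∧ fc μ i = j).card := by
    intro j _
    rw [col_card_lt]
    exact col_le μ μ x hx k j
  have h3 := (Finset.sum_eq_sum_iff_of_le hle).1 e1.symm (fc μ i)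
    (Finset.mem_image_of_mem _ (Finset.mem_univ i))
  rw [col_card_lt, ← hk, min_self] at h3
  have h3 := h3.trans (hk.trans (col_card μ (fc μ i)).symm)
  have hsub : (Finset.univ.filter fun i' => fr μ (x i') < k ∧ fc μ i' = fc μ i) ⊆
      (Finset.univ.filter fun i' => fc μ i' = fc μ i) := by
    intro i' hi'
    rw [Finset.mem_filter] at hi' ⊢
    exact ⟨hi'.1, hi'.2.2⟩
  have h4 := Finset.eq_of_subset_of_card_le hsub h3.ge
  have h5 : i ∈ (Finset.univ.filter fun i' => fc μ i' = fc μ i) := by
    rw [Finset.mem_filter]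
    exact ⟨Finset.mem_univ i, rfl⟩
  rw [← h4, Finset.mem_filter] at h5
  rw [YoungDiagram.mem_iff_lt_colLen, ← hk]
  exact h5.2.1

end YKx

theorem YK_thm : Stmt_YK := by
  intro n lam μ x hx
  refine ⟨fun k => YKx.ineq lam μ x hx k, ?_⟩
  rintro rfl i
  exact YKx.mem_of_eq lam x hx i

end Pool.Agent.YNG
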