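import Pool.Agent.YNG.St

/-!
# Module YO: the order on Young diagrams
-/

set_option autoImplicit false

open scoped Classical

namespace Pool.Agent.YNG

namespace YOx

theorem card_fr {n : ℕ} (μ : YD n) (k : ℕ) :
    (Finset.univ.filter fun i => fr μ i = k).card = μ.1.rowLen k := by
  rw [YoungDiagram.rowLen_eq_card]
  refine Finset.card_bij (fun i _ => (num μ i).1) ?_ ?_ ?_
  · intro i hi
    exact YoungDiagram.mem_row_iff.2 ⟨(num μ i).2, (Finset.mem_filter.1 hi).2⟩
  · intro i _ j _ h
    exact (num μ).injective (Subtype.ext h)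
  · intro c hc
    obtain ⟨hc1, hc2⟩ := YoungDiagram.mem_row_iff.1 hc
    have h : num μ ((num μ).symm ⟨c, hc1⟩) = ⟨c, hc1⟩ := (num μ).apply_symm_apply _
    refine ⟨(num μ).symm ⟨c, hc1⟩, Finset.mem_filter.2 ⟨Finset.mem_univ _, ?_⟩, ?_⟩
    · unfold fr
      rw [h]
      exact hc2
    · rw [h]

theorem fr_lt {n : ℕ} (μ : YD n) (i : Fin n) : fr μ i < n := by
  have h1 : ((num μ i).1.1, (num μ i).1.2) ∈ μ.1 := (num μ i).2
  have h2 := YoungDiagram.mem_iff_lt_colLen.1 h1
  have h3 : μ.1.colLen (num μ i).1.2 ≤ n := by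
    rw [YoungDiagram.colLen_eq_card]
    refine (Finset.card_le_card ?_).trans μ.2.le
    intro c hc
    exact (YoungDiagram.mem_col_iff.1 hc).1
  exact lt_of_lt_of_le h2 h3

theorem card_succ {n : ℕ} (μ : YD n) (k : ℕ) :
    (Finset.univ.filter fun i => fr μ i < k + 1).card =
      (Finset.univ.filter fun i => fr μ i < k).card + μ.1.rowLen k := by
  rw [← card_fr μ k, ← Finset.card_union_of_disjoint]
  · congr 1
    ext i
    simp only [Finset.mem_filter, Finset.mem_univ, true_and, Finset.mem_union]
    omega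
  · rw [Finset.disjoint_left]
    intro i h1 h2
    simp only [Finset.mem_filter, Finset.mem_univ, true_and] at h1 h2
    omega

theorem card_big {n : ℕ} (μ : YD n) (k : ℕ) (hk : n ≤ k) :
    (Finset.univ.filter fun i => fr μ i < k).card = n := by
  rw [Finset.filter_true_of_mem fun i _ => (fr_lt μ i).trans_le hk, Finset.card_univ,
    Fintype.card_fin]

end YOx

theorem YO_thm : Stmt_YO := by
  intro n lam μ hne hle
  refine Finset.sum_lt_sum (fun k _ => hle k) ?_
  by_contra hno
  push Not at hno
  apply hne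
  have heq : ∀ k, (Finset.univ.filter fun i => fr lam i < k).card =
      (Finset.univ.filter fun i => fr μ i < k).card := by
    intro k
    rcases Nat.lt_or_ge k (n + 1) with h | h
    · exact le_antisymm (hle k) (hno k (Finset.mem_range.2 h))
    · rw [YOx.card_big lam k (by omega), YOx.card_big μ k (by omega)]
  have hrow : ∀ k, lam.1.rowLen k = μ.1.rowLen k := by
    intro k
    have h1 := YOx.card_succ lam k
    have h2 := YOx.card_succ μ k
    have h3 := heq k
    have h4 := heq (k + 1)
    omega
  apply Subtype.ext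
  apply YoungDiagram.ext
  ext ⟨i, j⟩
  rw [YoungDiagram.mem_cells, YoungDiagram.mem_cells, YoungDiagram.mem_iff_lt_rowLen,
    YoungDiagram.mem_iff_lt_rowLen, hrow i]

end Pool.Agent.YNG
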