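import Pool.Agent.YNG.St

/-!
# Project YNG: the pairing formula (module YP)
-/

set_option autoImplicit false

open scoped Classical

namespace Pool.Agent.YNG

namespace YPx

/-- The swap of two points with the same colour preserves a colouring. -/
theorem swap_colour {n : ℕ} (g : Fin n → ℕ) (i j : Fin n) (hg : g i = g j) (k : Fin n) :
    g (Equiv.swap i j k) = g k := by
  by_cases h1 : k = i
  · subst h1; rw [Equiv.swap_apply_left]; exact hg.symm
  · by_cases h2 : k = j
    · subst h2; rw [Equiv.swap_apply_right]; exact hg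
    · rw [Equiv.swap_apply_of_ne_of_ne h1 h2]

/-- The inner sum. -/
theorem inner {n : ℕ} (g h : Fin n → ℕ) :
    (∑ s : Equiv.Perm (Fin n), if (∀ j, g (s j) = g j) ∧ (∀ j, h (s j) = h j) then
      ((Equiv.Perm.sign s : ℤ) : ℂ) else 0) =
    if Function.Injective (fun i => (g i, h i)) then 1 else 0 := by
  by_cases hI : Function.Injective (fun i => (g i, h i))
  · rw [if_pos hI, Finset.sum_eq_single (1 : Equiv.Perm (Fin n))]
    · rw [if_pos ⟨fun j => rfl, fun j => rfl⟩]
      simp
    · intro s _ hs
      rw [if_neg]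
      rintro ⟨h1, h2⟩
      apply hs
      ext j
      have : s j = j := hI (Prod.ext (h1 j) (h2 j))
      rw [this]; rfl
    · intro h0; exact absurd (Finset.mem_univ _) h0
  · rw [if_neg hI]
    have hex : ∃ i j, (g i = g j ∧ h i = h j) ∧ i ≠ j := by
      by_contra hc
      push Not at hc
      apply hI
      intro i j hij
      exact hc i j ⟨congrArg Prod.fst hij, congrArg Prod.snd hij⟩
    obtain ⟨i, j, ⟨hg, hh⟩, hij⟩ := hex
    set F : Equiv.Perm (Fin n) → ℂ := fun s =>
      if (∀ j, g (s j) = g j) ∧ (∀ j, h (s j) = h j) then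
      ((Equiv.Perm.sign s : ℤ) : ℂ) else 0 with hF
    have key : ∀ s, F (s * Equiv.swap i j) = - F s := by
      intro s
      have hP : ((∀ k, g ((s * Equiv.swap i j) k) = g k) ∧
          (∀ k, h ((s * Equiv.swap i j) k) = h k)) ↔
          ((∀ k, g (s k) = g k) ∧ (∀ k, h (s k) = h k)) := by
        constructor
        · rintro ⟨a, b⟩
          refine ⟨fun k => ?_, fun k => ?_⟩
          · have := a (Equiv.swap i j k)
            rw [Equiv.Perm.mul_apply, Equiv.swap_apply_self, swap_colour g i j hg] at this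
            exact this
          · have := b (Equiv.swap i j k)
            rw [Equiv.Perm.mul_apply, Equiv.swap_apply_self, swap_colour h i j hh] at this
            exact this
        · rintro ⟨a, b⟩
          refine ⟨fun k => ?_, fun k => ?_⟩
          · rw [Equiv.Perm.mul_apply, a, swap_colour g i j hg]
          · rw [Equiv.Perm.mul_apply, b, swap_colour h i j hh]
      simp only [hF]
      by_cases hp : (∀ k, g (s k) = g k) ∧ (∀ k, h (s k) = h k)
      · rw [if_pos hp, if_pos (hP.mpr hp), Equiv.Perm.sign_mul, Equiv.Perm.sign_swap hij]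
        simp
      · rw [if_neg hp, if_neg (fun hq => hp (hP.mp hq))]
        simp
    have h1 : ∑ s, F (s * Equiv.swap i j) = ∑ s, F s :=
      Equiv.sum_comp (Equiv.mulRight (Equiv.swap i j)) F
    have h2 : ∑ s, F (s * Equiv.swap i j) = - ∑ s, F s := by
      rw [← Finset.sum_neg_distrib]
      exact Finset.sum_congr rfl fun s _ => key s
    have h3 : ∑ s, F s = - ∑ s, F s := h1.symm.trans h2
    have h4 : (2 : ℂ) * ∑ s, F s = 0 := by
      rw [two_mul]; nth_rewrite 1 [h3]; ring
    rcases mul_eq_zero.mp h4 with h5 | h5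
    · norm_num at h5
    · exact h5

/-- Membership of a conjugate in a stabilizer. -/
theorem conj_mem {n : ℕ} (f : Fin n → ℕ) (x s : Equiv.Perm (Fin n)) :
    x⁻¹ * s * x ∈ stab f ↔ ∀ j, f (x⁻¹ (s j)) = f (x⁻¹ j) := by
  constructor
  · intro h j
    have := h (x⁻¹ j)
    rw [Equiv.Perm.mul_apply, Equiv.Perm.mul_apply] at this
    have e : x (x⁻¹ j) = j := by simp
    rw [e] at this
    exact this
  · intro h i
    have := h (x i)
    have e : x⁻¹ (x i) = i := by simp
    rw [e] at this
    rw [Equiv.Perm.mul_apply, Equiv.Perm.mul_apply]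
    exact this

end YPx

open YPx in
theorem YP_thm : Stmt_YP := by
  intro n f h
  have hnum : (∑ s : Equiv.Perm (Fin n), if s ∈ stab h then
      ((Equiv.Perm.sign s : ℤ) : ℂ) * aF f s else 0) =
      ((inj f h).card : ℂ) / (Nat.card (stab f) : ℂ) := by
    have e1 : ∀ s : Equiv.Perm (Fin n), (if s ∈ stab h then
        ((Equiv.Perm.sign s : ℤ) : ℂ) * aF f s else 0) =
        (∑ x : Equiv.Perm (Fin n), if (∀ j, f (x⁻¹ (s j)) = f (x⁻¹ j)) ∧ (∀ j, h (s j) = h j)
          then ((Equiv.Perm.sign s : ℤ) : ℂ) else 0) / (Nat.card (stab f) : ℂ) := by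
      intro s
      by_cases hs : s ∈ stab h
      · rw [if_pos hs]
        unfold aF
        rw [mul_div_assoc', Finset.mul_sum]
        congr 1
        apply Finset.sum_congr rfl
        intro x _
        by_cases hx : x⁻¹ * s * x ∈ stab f
        · rw [if_pos hx, if_pos ⟨(conj_mem f x s).mp hx, hs⟩, mul_one]
        · rw [if_neg hx, if_neg (fun hq => hx ((conj_mem f x s).mpr hq.1)), mul_zero]
      · rw [if_neg hs]
        symm
        rw [Finset.sum_eq_zero, zero_div]
        intro x _
        rw [if_neg (fun hq => hs hq.2)]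
    rw [Finset.sum_congr rfl fun s _ => e1 s, ← Finset.sum_div, Finset.sum_comm]
    congr 1
    rw [Finset.sum_congr rfl fun x _ => inner (fun j => f (x⁻¹ j)) h]
    rw [← Equiv.sum_comp (Equiv.inv (Equiv.Perm (Fin n)))]
    simp only [Equiv.inv_apply, inv_inv]
    rw [inj, Finset.card_filter]
    push_cast
    rfl
  unfold pair
  rw [hnum, div_div]

end Pool.Agent.YNG
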