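import Pool.Agent.YNG.St

/-!
# Project YNG: assembly (helper6)
-/

set_option autoImplicit false

open scoped Classical

namespace Pool.Agent.YNG

namespace YTx

theorem aF_class {n : ℕ} (f : Fin n → ℕ) : aF f ∈ CF n := by
  intro x g
  unfold aF
  congr 1
  refine Fintype.sum_equiv (Equiv.mulLeft x) _ _ fun y => ?_
  have h : y⁻¹ * (x⁻¹ * g * x) * y = (x * y)⁻¹ * g * (x * y) := by group
  rw [h]
  rfl

theorem char_class {n : ℕ} {V : Type} [AddCommGroup V] [Module ℂ V]
    [Module.Finite ℂ V] (ρ : Representation ℂ (Equiv.Perm (Fin n)) V) : ρ.character ∈ CF n := by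
  intro x g
  have := Representation.char_conj ρ g x⁻¹
  rwa [inv_inv] at this

/-- The pairing as a linear map. -/
noncomputable def pairL {n : ℕ} (h : Fin n → ℕ) : (Equiv.Perm (Fin n) → ℂ) →ₗ[ℂ] ℂ where
  toFun θ := pair h θ
  map_add' a b := by
    unfold pair
    rw [← add_div, ← Finset.sum_add_distrib]
    congr 1
    refine Finset.sum_congr rfl fun s _ => ?_
    split_ifs
    · rw [Pi.add_apply]
      ring
    · ring
  map_smul' c a := by
    unfold pair
    rw [RingHom.id_apply, smul_eq_mul, ← mul_div_assoc, Finset.mul_sum]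
    congr 1
    refine Finset.sum_congr rfl fun s _ => ?_
    split_ifs
    · rw [Pi.smul_apply, smul_eq_mul]
      ring
    · ring

end YTx

open YTx

theorem YT_of (hYL : Stmt_YL) (hYD1 : Stmt_YD1) (hYD2 : Stmt_YD2) (hYI : Stmt_YI)
    (hYA : Stmt_YA) (hYP : Stmt_YP) (hYK : Stmt_YK) (hYG : Stmt_YG) (hYO : Stmt_YO) :
    Stmt_YT := by
  intro n V _ _ _ ρ
  obtain ⟨iF, hcard⟩ := hYD2 n
  have hN : ∀ i j : YD n, ∃ k : ℤ, pair (fc j) (aF (fr i)) = (k : ℂ) := by
    intro i j
    obtain ⟨V', _, _, _, ρ', hρ'⟩ := hYA n (fr i)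
    obtain ⟨k, hk⟩ := hYI n V' ρ' (fc j)
    refine ⟨k, ?_⟩
    rw [← hk]
    congr 1
    funext g
    exact (hρ' g).symm
  choose N hN using hN
  have hc : ∀ (f : Fin n → ℕ), (Nat.card (stab f) : ℂ) ≠ 0 := fun f => by
    exact_mod_cast Nat.card_pos.ne'
  let T : CF n →ₗ[ℂ] (YD n → ℂ) := LinearMap.pi fun j => (pairL (fc j)).comp (CF n).subtype
  have hT : ∀ (θ : CF n) (j : YD n), T θ j = pair (fc j) (θ : Equiv.Perm (Fin n) → ℂ) :=
    fun _ _ => rfl
  have hdiag : ∀ i, N i i = 1 := by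
    intro i
    have h1 := hN i i
    rw [hYP, hYG] at h1
    push_cast at h1
    rw [div_self (mul_ne_zero (hc _) (hc _))] at h1
    exact_mod_cast h1.symm
  have htri : ∀ i j, N i j ≠ 0 → i ≠ j →
      (∑ k ∈ Finset.range (n + 1), (Finset.univ.filter fun a => fr i a < k).card) <
        ∑ k ∈ Finset.range (n + 1), (Finset.univ.filter fun a => fr j a < k).card := by
    intro i j hij hne
    refine hYO n i j hne fun k => ?_
    have h1 : (inj (fr i) (fc j)).Nonempty := by
      rw [Finset.nonempty_iff_ne_empty]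
      intro h
      apply hij
      have h2 := hN i j
      rw [hYP, h, Finset.card_empty, Nat.cast_zero, zero_div] at h2
      exact_mod_cast h2.symm
    obtain ⟨x, hx⟩ := h1
    exact (hYK n i j x hx).1 k
  obtain ⟨c, hcc⟩ := hYL (YD n) (CF n) T (fun i => ⟨aF (fr i), aF_class _⟩) N
    (fun μ => ∑ k ∈ Finset.range (n + 1), (Finset.univ.filter fun i => fr μ i < k).card)
    ((hYD1 n).trans hcard) (fun i j => by rw [hT]; exact hN i j) hdiag htri
    ⟨ρ.character, char_class ρ⟩ (fun j => by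
      rw [hT]
      exact hYI n V ρ (fc j))
  let e : YD n ≃ Fin (Fintype.card (YD n)) := Fintype.equivFin (YD n)
  refine ⟨Fintype.card (YD n), fun a => stab (fr (e.symm a)), fun a => c (e.symm a),
    fun g => ?_⟩
  have h1 := congrArg (fun θ : CF n => (θ : Equiv.Perm (Fin n) → ℂ) g) hcc
  simp only [AddSubmonoidClass.coe_finsetSum, Submodule.coe_smul, Finset.sum_apply,
    Pi.smul_apply, smul_eq_mul] at h1
  rw [h1]
  exact (Equiv.sum_comp e.symm (fun i : YD n => (c i : ℂ) * aF (fr i) g)).symm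

end Pool.Agent.YNG
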