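import Pool.Agent.YNG.StU
import Pool.Agent.YNG.CB

/-!
# Project YNG, CC: the largest CM subfield and the fixed vectors (helper50, from helper18's CB)
-/

set_option autoImplicit false

open NumberField
open scoped Classical

namespace Pool.Agent.YNG

theorem CC_thm (hCB1 : Stmt_CB1) : Stmt_CC := by
  intro K F L _ _ _ _ _ _ _ _ _ _ _ hK W _ _ σ hv hw
  obtain ⟨v, hv0, hv⟩ := hv
  have hc := hCB1 K L hK W σ hw
  haveI : IsGalois F L := IsGalois.tower_top_of_isGalois K F L
  set ι := algebraMap F L with hι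
  have hιinj : Function.Injective ι := (algebraMap F L).injective
  let φ₀ : L →+* ℂ := Classical.choice (inferInstance : Nonempty (L →+* ℂ))
  obtain ⟨c, hcφ, hcσ⟩ := hc φ₀
  have hcc : ∀ y, c (c y) = y := by
    intro y
    apply φ₀.injective
    rw [hcφ, hcφ]
    simp
  have hcinv : ∀ y, c⁻¹ y = c y := by
    intro y
    have : c⁻¹ (c (c y)) = c y := by
      rw [← AlgEquiv.mul_apply, inv_mul_cancel, AlgEquiv.one_apply]
    rwa [hcc] at this
  have hσc : ∀ u, σ c⁻¹ u = -u := by
    intro u
    have e : c⁻¹ = c := AlgEquiv.ext hcinv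
    rw [e, hcσ]
  -- the field
  let E := CBx.EE K F L W σ
  have memE : ∀ x : F, x ∈ E ↔ ∀ n : L ≃ₐ[K] L, (∀ v, σ n v = v) → n (ι x) = ι x :=
    fun x => Iff.rfl
  have hgen : ∀ g : L ≃ₐ[K] L, (∀ x ∈ E, g (ι x) = ι x) →
      ∀ u : W, (∀ g' : L ≃ₐ[K] L, (∀ x : F, g' (ι x) = ι x) → σ g' u = u) → σ g u = u := by
    intro g hg u hu
    let S : Subgroup (L ≃ₐ[K] L) :=
      { carrier := {g | σ g u = u}
        mul_mem' := by
          intro a b ha hb
          show σ (a * b) u = u
          rw [map_mul, Module.End.mul_apply]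
          rw [Set.mem_ofPred_eq] at ha hb
          rw [hb, ha]
        one_mem' := by
          show σ 1 u = u
          rw [map_one, Module.End.one_apply]
        inv_mem' := by
          intro a ha
          show σ a⁻¹ u = u
          have ha' : σ a u = u := ha
          have e : σ a⁻¹ (σ a u) = u := by
            rw [← Module.End.mul_apply, ← map_mul, inv_mul_cancel, map_one, Module.End.one_apply]
          rwa [ha'] at e }
    have hmem : g ∈ S := by
      rw [← IntermediateField.fixingSubgroup_fixedField S, IntermediateField.mem_fixingSubgroup_iff]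
      intro y hy
      rw [IntermediateField.mem_fixedField_iff] at hy
      have hyF : ∀ f : L ≃ₐ[F] L, f y = y := by
        intro f
        have := hy (AlgEquiv.restrictScalars K f) (hu _ fun x => f.commutes x)
        exact this
      obtain ⟨x, hx⟩ := (IsGalois.mem_range_algebraMap_iff_fixed (F := F) y).mpr hyF
      have hxE : x ∈ E := by
        rw [memE]
        intro n hn
        have : n y = y := hy n (hn u)
        rw [← hx] at this
        exact this
      rw [← hx]
      exact hg x hxE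
    exact hmem
  -- kernel facts
  have hker1 : ∀ n : L ≃ₐ[K] L, (∀ u, σ n u = u) → ∀ u, σ (c⁻¹ * n * c) u = u := by
    intro n hn u
    rw [map_mul, map_mul, Module.End.mul_apply, Module.End.mul_apply, hcσ, hσc, map_neg, hn, neg_neg]
  have hker2 : ∀ h : L ≃ₐ[K] L, ∀ u, σ (h⁻¹ * c⁻¹ * h * c) u = u := by
    intro h u
    rw [map_mul, map_mul, map_mul, Module.End.mul_apply, Module.End.mul_apply,
      Module.End.mul_apply, hcσ, map_neg, hσc, neg_neg, ← Module.End.mul_apply, ← map_mul,
      inv_mul_cancel, map_one, Module.End.one_apply]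
  -- `c` on `E`
  have hjex : ∀ x : E, ∃ y : E, ι y = c (ι x) := by
    intro x
    have hfix : ∀ f : L ≃ₐ[F] L, f (c (ι x)) = c (ι x) := by
      intro f
      let h : L ≃ₐ[K] L := AlgEquiv.restrictScalars K f
      have hfh : ∀ y, f y = h y := fun y => rfl
      have hx : h (ι x) = ι x := f.commutes x
      have hn := (memE x).mp x.2 _ (hker2 h)
      have e1 : (h⁻¹ * c⁻¹ * h * c) (ι x) = h⁻¹ (c⁻¹ (h (c (ι x)))) := rfl
      rw [e1] at hn
      have e2 : c⁻¹ (h (c (ι x))) = h (ι x) := by
        have e4 := congrArg h hn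
        rwa [← AlgEquiv.mul_apply h h⁻¹, mul_inv_cancel, AlgEquiv.one_apply] at e4
      rw [hx] at e2
      rw [hfh]
      have e3 : c (c⁻¹ (h (c (ι x)))) = h (c (ι x)) := by
        rw [← AlgEquiv.mul_apply c c⁻¹, mul_inv_cancel, AlgEquiv.one_apply]
      rw [← e3, e2]
    obtain ⟨y, hy⟩ := (IsGalois.mem_range_algebraMap_iff_fixed (F := F) (c (ι x))).mpr hfix
    refine ⟨⟨y, (memE y).mpr ?_⟩, hy⟩
    intro n hn
    have e0 : ι y = c (ι x) := hy
    have e1 := (memE x).mp x.2 _ (hker1 n hn)
    have e2 : (c⁻¹ * n * c) (ι x) = c⁻¹ (n (c (ι x))) := rfl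
    rw [e2] at e1
    rw [e0]
    have e3 : c (c⁻¹ (n (c (ι x)))) = n (c (ι x)) := by
      rw [← AlgEquiv.mul_apply c c⁻¹, mul_inv_cancel, AlgEquiv.one_apply]
    rw [← e3, e1]
  choose jf hjf using hjex
  have hιE : ∀ x y : E, ι x = ι y → x = y := fun x y h => Subtype.ext (hιinj h)
  let j : E →+* E :=
    { toFun := jf
      map_one' := hιE _ _ (by rw [hjf]; simp)
      map_mul' := fun a b => hιE _ _ (by
        rw [hjf]
        have e : ι ((jf a * jf b : E) : F) = ι (jf a) * ι (jf b) := by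
          rw [← map_mul]; rfl
        rw [e, hjf, hjf, ← map_mul, ← map_mul]
        rfl)
      map_zero' := hιE _ _ (by rw [hjf]; simp)
      map_add' := fun a b => hιE _ _ (by
        rw [hjf]
        have e : ι ((jf a + jf b : E) : F) = ι (jf a) + ι (jf b) := by
          rw [← map_add]; rfl
        rw [e, hjf, hjf, ← map_add, ← map_add]
        rfl) }
  have hj : ∀ x : E, ι (j x) = c (ι x) := hjf
  -- extension of embeddings
  have hext : ∀ ψ : E →+* ℂ, ∃ φ : L →+* ℂ, ∀ x : E, φ (ι x) = ψ x := by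
    intro ψ
    exact ⟨ComplexEmbedding.lift L ψ, fun x => ComplexEmbedding.lift_algebraMap_apply L ψ x⟩
  refine ⟨E, CBx.cm_of E j ?_ ?_ ?_ (φ₀.comp (ι.comp (algebraMap E F))) ?_, hgen⟩
  · intro x
    apply hιE
    rw [hj, hj, hcc]
  · intro ψ x hx
    obtain ⟨φ, hφ⟩ := hext ψ
    obtain ⟨c', hc'φ, hc'σ⟩ := hc φ
    have hn : ∀ u, σ (c' * c⁻¹) u = u := by
      intro u
      rw [map_mul, Module.End.mul_apply, hσc, map_neg, hc'σ, neg_neg]
    have e1 := (memE x).mp x.2 _ hn
    have e2 : c (ι x) = ι x := by rw [← hj, hx]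
    have e3 : (c' * c⁻¹) (ι x) = c' (ι x) := by
      rw [AlgEquiv.mul_apply, hcinv, e2]
    rw [e3] at e1
    have e4 := hc'φ (ι x)
    rw [e1, hφ] at e4
    exact e4.symm
  · intro ψ
    by_contra hcon
    push Not at hcon
    obtain ⟨φ, hφ⟩ := hext ψ
    obtain ⟨c', hc'φ, hc'σ⟩ := hc φ
    have hfix : ∀ x : E, c' (ι x) = ι x := by
      intro x
      apply φ.injective
      rw [hc'φ, hφ]
      exact hcon x
    have e1 : σ c' v = v := hgen c' (fun x hx => hfix ⟨x, hx⟩) v hv
    rw [hc'σ] at e1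
    apply hv0
    have e2 : (2 : ℂ) • v = 0 := by
      rw [two_smul]
      nth_rewrite 1 [← e1]
      exact neg_add_cancel v
    exact (smul_eq_zero.mp e2).resolve_left two_ne_zero
  · intro x
    show star (φ₀ (ι x)) = φ₀ (ι (j x))
    rw [hj, hcφ]
    rfl

end Pool.Agent.YNG
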