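import Pool.Agent.YNG.StU

/-!
# Project YNG, module CW
-/

set_option autoImplicit false

open NumberField
open scoped Classical

namespace Pool.Agent.YNG

namespace CWx

theorem mem_of_order (E F : Type) [Field E] [NumberField E] [Field F] [NumberField F]
    [Algebra E F]
    (H : ∀ E' : IntermediateField ℚ F, IsCMField E' → ∀ x ∈ E', x ∈ Set.range (algebraMap E F))
    (x : F) (n : ℕ) (hn : 0 < n) (hx : x ^ n = 1) : x ∈ Set.range (algebraMap E F) := by
  by_cases hc : 2 < orderOf x
  · have hp : IsPrimitiveRoot x (orderOf x) := IsPrimitiveRoot.orderOf x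
    have : NeZero (orderOf x) := ⟨by omega⟩
    have hc' : IsCyclotomicExtension {orderOf x} ℚ (IntermediateField.adjoin ℚ {x}) :=
      hp.intermediateField_adjoin_isCyclotomicExtension ℚ
    exact H (IntermediateField.adjoin ℚ {x})
      (IsCyclotomicExtension.Rat.isCMField (IntermediateField.adjoin ℚ {x})
        (S := {orderOf x}) ⟨orderOf x, rfl, hc⟩) x
      (IntermediateField.mem_adjoin_simple_self ℚ x)
  · have h3 : 0 < orderOf x := orderOf_pos_iff.2 (isOfFinOrder_iff_pow_eq_one.2 ⟨n, hn, hx⟩)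
    have h4 : orderOf x = 1 ∨ orderOf x = 2 := by omega
    rcases h4 with h4 | h4
    · exact ⟨1, by rw [map_one, orderOf_eq_one_iff.1 h4]⟩
    · rw [CharP.orderOf_eq_two_iff 0 (by decide)] at h4
      exact ⟨-1, by rw [map_neg, map_one, h4]⟩

end CWx

open CWx in
theorem CW_thm : Stmt_CW := by
  intro E F _ _ _ _ _ H
  let f : (𝓞 E)ˣ →* (𝓞 F)ˣ := _root_.Units.map ((algebraMap (𝓞 E) (𝓞 F) : 𝓞 E →+* 𝓞 F) : 𝓞 E →* 𝓞 F)
  have hfv : ∀ a : (𝓞 E)ˣ, (((f a : (𝓞 F)ˣ) : 𝓞 F) : F) = algebraMap E F ((a : 𝓞 E) : E) :=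
    fun a => rfl
  have hf : Function.Injective f := by
    intro a b hab
    apply _root_.Units.ext
    apply RingOfIntegers.ext
    apply (algebraMap E F).injective
    rw [← hfv a, ← hfv b, hab]
  have hpow : ∀ (a : (𝓞 F)ˣ), IsOfFinOrder a →
      ∃ n : ℕ, 0 < n ∧ ((a : 𝓞 F) : F) ^ n = 1 := by
    intro a ha
    obtain ⟨n, hn, h⟩ := isOfFinOrder_iff_pow_eq_one.1 ha
    refine ⟨n, hn, ?_⟩
    have h2 : ((a : 𝓞 F)) ^ n = 1 := by
      rw [← _root_.Units.val_pow_eq_pow_val, h, _root_.Units.val_one]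
    have h3 := congrArg (fun z : 𝓞 F => (z : F)) h2
    simpa using h3
  let φ : Units.torsion E → Units.torsion F := fun x =>
    ⟨f x.1, (CommGroup.mem_torsion _).2 (MonoidHom.isOfFinOrder f ((CommGroup.mem_torsion x.1).1 x.2))⟩
  have hb : Function.Bijective φ := by
    constructor
    · intro a b hab
      exact Subtype.ext (hf (congrArg Subtype.val hab))
    · intro u
      obtain ⟨n, hn, h⟩ := hpow u.1 ((CommGroup.mem_torsion u.1).1 u.2)
      obtain ⟨y, hy⟩ := mem_of_order E F H _ n hn h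
      have hyn : y ^ n = 1 := by
        apply (algebraMap E F).injective
        rw [map_pow, map_one, hy, h]
      have hint : IsIntegral ℤ y := IsIntegral.of_pow hn (by rw [hyn]; exact isIntegral_one)
      let z : 𝓞 E := ⟨y, hint⟩
      have hzn : z ^ n = 1 := by
        apply RingOfIntegers.ext
        have h5 : algebraMap (𝓞 E) E (z ^ n) = y ^ n := map_pow (algebraMap (𝓞 E) E) z n
        have h6 : algebraMap (𝓞 E) E (z ^ n) = algebraMap (𝓞 E) E 1 := by
          rw [h5, hyn, map_one]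
        exact h6
      let a : (𝓞 E)ˣ := _root_.Units.ofPowEqOne z n hzn hn.ne'
      have ha : (a : 𝓞 E) = z := rfl
      have hao : IsOfFinOrder a := by
        refine isOfFinOrder_iff_pow_eq_one.2 ⟨n, hn, ?_⟩
        apply _root_.Units.ext
        rw [_root_.Units.val_pow_eq_pow_val, ha, hzn, _root_.Units.val_one]
      refine ⟨⟨a, (CommGroup.mem_torsion a).2 hao⟩, ?_⟩
      apply Subtype.ext
      apply _root_.Units.ext
      apply RingOfIntegers.ext
      show ((f a : 𝓞 F) : F) = ((u.1 : 𝓞 F) : F)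
      rw [hfv a, ha]
      exact hy
  rw [Units.torsionOrder, Units.torsionOrder]
  exact Nat.card_congr (Equiv.ofBijective φ hb)

end Pool.Agent.YNG
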