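import Pool.Agent.YNG.StF

set_option autoImplicit false

open scoped Classical

namespace Pool.Agent.YNG

namespace FAx

/-- A submodule which is stable under the group and has a nonzero vector is everything. -/
theorem eq_top {G : Type} [Group G] {W : Type} [AddCommGroup W] [Module ℂ W]
    (σ : Representation ℂ G W) (hσ : σ.IsIrreducible) (P : Submodule ℂ W)
    (hP : ∀ g w, w ∈ P → σ g w ∈ P) (v : W) (hv : v ∈ P) (hv0 : v ≠ 0) : ∀ w, w ∈ P := by
  let S : Subrepresentation σ := ⟨P, fun g w hw => hP g w hw⟩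
  rcases hσ.eq_bot_or_eq_top S with h | h
  · exfalso
    have h1 : P = ⊥ := congrArg Subrepresentation.toSubmodule h
    rw [h1] at hv
    exact hv0 ((Submodule.mem_bot ℂ).1 hv)
  · have h1 : P = ⊤ := congrArg Subrepresentation.toSubmodule h
    intro w
    rw [h1]
    exact Submodule.mem_top

/-- The sum over all units against the sum over an orbit. -/
theorem orbit_sum (h0 : Stmt_FA0) (n : ℕ) [NeZero n] (j₀ : ZMod n) (O : Finset (ZMod n))
    (hO : ∀ j, j ∈ O ↔ ∃ u : (ZMod n)ˣ, j * u = j₀) (k : ZMod n) :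
    ∃ q : ℚ, ∑ j ∈ O, (ZMod.stdAddChar (N := n) (j * k) : ℂ) = (q : ℂ) := by
  have hpow : ∀ x : ZMod n, (ZMod.stdAddChar (N := n) x : ℂ) =
      (ZMod.stdAddChar (N := n) 1 : ℂ) ^ x.val := by
    intro x
    rw [← AddChar.map_nsmul_eq_pow, nsmul_eq_mul, mul_one, ZMod.natCast_zmod_val]
  have hprim : IsPrimitiveRoot (ZMod.stdAddChar (N := n) 1 : ℂ) n := by
    refine ⟨?_, ?_⟩
    · rw [← AddChar.map_nsmul_eq_pow, nsmul_eq_mul, mul_one, ZMod.natCast_self,
        AddChar.map_zero_eq_one]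
    · intro l hl
      rw [← AddChar.map_nsmul_eq_pow, nsmul_eq_mul, mul_one,
        ← AddChar.map_zero_eq_one (ZMod.stdAddChar (N := n))] at hl
      have h1 := ZMod.injective_stdAddChar hl
      exact (ZMod.natCast_eq_zero_iff l n).1 h1
  obtain ⟨q, hq⟩ := h0 n _ hprim (j₀ * k).val
  have h1 : ∑ u : (ZMod n)ˣ, (ZMod.stdAddChar (N := n) ((j₀ * (u : ZMod n)) * k) : ℂ) =
      (q : ℂ) := by
    rw [← hq]
    refine Finset.sum_congr rfl fun u _ => ?_
    rw [pow_mul, ← hpow, ← AddChar.map_nsmul_eq_pow, nsmul_eq_mul, ZMod.natCast_zmod_val]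
    congr 1
    ring
  have hmem : ∀ u : (ZMod n)ˣ, j₀ * (u : ZMod n) ∈ O := by
    intro u
    rw [hO]
    exact ⟨u⁻¹, by rw [mul_assoc, Units.mul_inv, mul_one]⟩
  have hfib : ∀ j ∈ O, (Finset.univ.filter fun u : (ZMod n)ˣ => j₀ * (u : ZMod n) = j).card =
      (Finset.univ.filter fun u : (ZMod n)ˣ => j₀ * (u : ZMod n) = j₀).card := by
    intro j hj
    obtain ⟨u₁, hu₁⟩ := (hO j).1 hj
    refine Finset.card_bij (fun u _ => u * u₁) ?_ ?_ ?_
    · intro u hu
      rw [Finset.mem_filter] at hu ⊢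
      refine ⟨Finset.mem_univ _, ?_⟩
      rw [Units.val_mul, ← mul_assoc, hu.2, hu₁]
    · intro u _ u' _ h
      exact mul_right_cancel h
    · intro u hu
      rw [Finset.mem_filter] at hu
      refine ⟨u * u₁⁻¹, ?_, by rw [inv_mul_cancel_right]⟩
      rw [Finset.mem_filter]
      refine ⟨Finset.mem_univ _, ?_⟩
      rw [Units.val_mul, ← mul_assoc, hu.2, ← hu₁, mul_assoc, Units.mul_inv, mul_one]
  have h2 := Finset.sum_fiberwise_of_maps_to (s := (Finset.univ : Finset (ZMod n)ˣ)) (t := O)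
    (g := fun u => j₀ * (u : ZMod n)) (fun u _ => hmem u)
    (fun u => (ZMod.stdAddChar (N := n) ((j₀ * (u : ZMod n)) * k) : ℂ))
  rw [h1] at h2
  have h3 : ∀ j ∈ O, ∑ u ∈ Finset.univ.filter (fun u : (ZMod n)ˣ => j₀ * (u : ZMod n) = j),
      (ZMod.stdAddChar (N := n) ((j₀ * (u : ZMod n)) * k) : ℂ) =
      ((Finset.univ.filter fun u : (ZMod n)ˣ => j₀ * (u : ZMod n) = j₀).card : ℂ) *
        (ZMod.stdAddChar (N := n) (j * k) : ℂ) := by
    intro j hj
    rw [← hfib j hj, ← nsmul_eq_mul, ← Finset.sum_const]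
    refine Finset.sum_congr rfl fun u hu => ?_
    rw [(Finset.mem_filter.1 hu).2]
  rw [Finset.sum_congr rfl h3, ← Finset.mul_sum] at h2
  have hs : ((Finset.univ.filter fun u : (ZMod n)ˣ => j₀ * (u : ZMod n) = j₀).card : ℂ) ≠ 0 := by
    rw [Nat.cast_ne_zero]
    refine Finset.card_ne_zero_of_mem (a := 1) ?_
    rw [Finset.mem_filter]
    exact ⟨Finset.mem_univ _, by rw [Units.val_one, mul_one]⟩
  refine ⟨q / ((Finset.univ.filter fun u : (ZMod n)ˣ => j₀ * (u : ZMod n) = j₀).card : ℚ), ?_⟩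
  rw [Rat.cast_div, Rat.cast_natCast, eq_div_iff hs, mul_comm]
  exact h2

end FAx

theorem FA_thm (hyp : Stmt_FA0) : Stmt_FA := by
  intro n _ G _ _ H f c hH hc haff W _ _ _ σ hirr hvec
  obtain ⟨v, hv0, hv⟩ := hvec
  have hpow : ∀ (m : ℕ) (x : ZMod n), f (c ^ m) x = x + m := by
    intro m
    induction m with
    | zero => intro x; simp
    | succ m ih =>
      intro x
      rw [pow_succ, map_mul, Equiv.Perm.mul_apply, hc, ih]
      push_cast
      ring
  have hval : ∀ i x : ZMod n, f (c ^ i.val) x = x + i := by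
    intro i x
    rw [hpow, ZMod.natCast_zmod_val]
  have hunit : ∀ g, ∃ (u : (ZMod n)ˣ) (b : ZMod n), ∀ x, f g x = u * x + b := by
    intro g
    obtain ⟨a, b, hab⟩ := haff g
    have h1 := hab ((f g).symm (1 + b))
    rw [Equiv.apply_symm_apply] at h1
    have h2 : a * (f g).symm (1 + b) = 1 := by linear_combination -h1
    obtain ⟨u, hu⟩ := IsUnit.of_mul_eq_one _ h2
    exact ⟨u, b, fun x => by rw [hu, hab]⟩
  have hker : ∀ m, f m = 1 → σ m = 1 := by
    let P : Submodule ℂ W :=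
      { carrier := {w | ∀ m, f m = 1 → σ m w = w}
        add_mem' := by
          intro a b ha hb m hm
          rw [map_add, ha m hm, hb m hm]
        zero_mem' := by
          intro m _
          exact map_zero _
        smul_mem' := by
          intro r a ha m hm
          rw [map_smul, ha m hm] }
    have hP : ∀ w, w ∈ P := by
      refine FAx.eq_top σ hirr P ?_ v ?_ hv0
      · intro g w hw m hm
        have h1 : f (g⁻¹ * m * g) = 1 := by
          rw [map_mul, map_mul, hm, mul_one, map_inv, inv_mul_cancel]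
        have h2 := hw _ h1
        have h3 : m * g = g * (g⁻¹ * m * g) := by group
        calc σ m (σ g w) = σ (m * g) w := by rw [map_mul]; rfl
          _ = σ g (σ (g⁻¹ * m * g) w) := by rw [h3, map_mul]; rfl
          _ = σ g w := by rw [h2]
      · intro m hm
        refine hv m ((hH m).2 ?_)
        rw [hm]
        rfl
    intro m hm
    exact LinearMap.ext fun w => hP w m hm
  have heq : ∀ g g', f g = f g' → σ g = σ g' := by
    intro g g' h
    have h1 : f (g * g'⁻¹) = 1 := by rw [map_mul, map_inv, h, mul_inv_cancel]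
    have h2 := hker _ h1
    calc σ g = σ (g * g'⁻¹ * g') := by rw [inv_mul_cancel_right]
      _ = σ (g * g'⁻¹) * σ g' := map_mul _ _ _
      _ = σ g' := by rw [h2, one_mul]
  have hcp : σ (c ^ n) = 1 := by
    rw [← map_one σ]
    apply heq
    ext x
    rw [hpow, map_one]
    simp
  have hdec : ∀ g, (c ^ (f g 0).val)⁻¹ * g ∈ H := by
    intro g
    rw [hH, map_mul, map_inv, Equiv.Perm.mul_apply, Equiv.Perm.inv_eq_iff_eq, hval, zero_add]
  have hconj : ∀ g a b, (∀ x, f g x = a * x + b) → σ (g * c * g⁻¹) = σ (c ^ a.val) := by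
    intro g a b hg
    apply heq
    ext x
    rw [hval, map_mul, map_mul, Equiv.Perm.mul_apply, Equiv.Perm.mul_apply, hc, hg]
    have h1 : f g (f g⁻¹ x) = x := by
      rw [map_inv]
      exact Equiv.apply_symm_apply _ _
    have h2 := hg (f g⁻¹ x)
    rw [h1] at h2
    linear_combination -h2
  -- the powers of `c`
  obtain ⟨T, hT⟩ : ∃ T : ZMod n → W →ₗ[ℂ] W, ∀ x, T x = σ (c ^ x.val) := ⟨_, fun _ => rfl⟩
  have hTadd : ∀ x y, T (x + y) = T x * T y := by
    intro x y
    rw [hT, hT, hT, ← map_mul]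
    apply heq
    ext z
    rw [map_mul, Equiv.Perm.mul_apply, hval, hval, hval]
    ring
  have hT0 : T 0 = 1 := by
    rw [hT, ZMod.val_zero, pow_zero, map_one]
  have hT1 : ∀ g, f g = f c → σ g = T 1 := by
    intro g hg
    rw [hT]
    apply heq
    ext z
    rw [hval, hg, hc]
  obtain ⟨e, he⟩ : ∃ e : AddChar (ZMod n) ℂ, e = ZMod.stdAddChar (N := n) := ⟨_, rfl⟩
  have hinj : Function.Injective e := by
    rw [he]
    exact ZMod.injective_stdAddChar
  have hprim : e.IsPrimitive := by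
    rw [he]
    exact ZMod.isPrimitive_stdAddChar n
  obtain ⟨w, hw⟩ : ∃ w : ZMod n → W, ∀ j, w j = ∑ x : ZMod n, e (-(j * x)) • T x v :=
    ⟨_, fun _ => rfl⟩
  have hTw : ∀ j y, T y (w j) = e (j * y) • w j := by
    intro j y
    rw [hw, map_sum, Finset.smul_sum]
    rw [← Equiv.sum_comp (Equiv.addRight y) fun x => e (j * y) • e (-(j * x)) • T x v]
    refine Finset.sum_congr rfl fun x _ => ?_
    rw [map_smul, smul_smul, ← AddChar.map_add_eq_mul, Equiv.coe_addRight]
    show e (-(j * x)) • T y (T x v) = e (j * y + -(j * (x + y))) • T (x + y) v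
    rw [add_comm x y, hTadd]
    show e (-(j * x)) • T y (T x v) = e (j * y + -(j * (y + x))) • T y (T x v)
    rw [show j * y + -(j * (y + x)) = -(j * x) by ring]
  have hHw : ∀ (h : G) (u : (ZMod n)ˣ), (∀ x, f h x = u * x) → ∀ j, σ h (w (j * u)) = w j := by
    intro h u hu j
    have hhH : h ∈ H := (hH h).2 (by rw [hu, mul_zero])
    rw [hw, hw, map_sum, ← Equiv.sum_comp (Units.mulLeft u) fun x => e (-(j * x)) • T x v]
    refine Finset.sum_congr rfl fun x _ => ?_
    rw [map_smul, Units.mulLeft_apply, mul_assoc]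
    congr 1
    have h1 : σ h * T x = T (u * x) * σ h := by
      rw [hT, hT, ← map_mul, ← map_mul]
      apply heq
      ext z
      rw [map_mul, map_mul, Equiv.Perm.mul_apply, Equiv.Perm.mul_apply, hval, hval, hu, hu]
      ring
    calc σ h (T x v) = (σ h * T x) v := rfl
      _ = T (u * x) (σ h v) := by rw [h1]; rfl
      _ = T (u * x) v := by rw [hv h hhH]
  have hgw : ∀ (g : G) (u : (ZMod n)ˣ) (b : ZMod n), (∀ x, f g x = u * x + b) →
      ∀ j, σ g (w (j * u)) = e (j * b) • w j := by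
    intro g u b hg j
    have h1 : ∀ x, f ((c ^ b.val)⁻¹ * g) x = u * x := by
      intro x
      rw [map_mul, map_inv, Equiv.Perm.mul_apply, Equiv.Perm.inv_eq_iff_eq, hval, hg]
    rw [← hTw, ← hHw _ u h1 j, hT]
    calc σ g (w (j * u)) = σ (c ^ b.val * ((c ^ b.val)⁻¹ * g)) (w (j * u)) := by
          rw [mul_inv_cancel_left]
      _ = σ (c ^ b.val) (σ ((c ^ b.val)⁻¹ * g) (w (j * u))) := by rw [map_mul]; rfl
  -- a nonzero component
  have hsum : ∑ j, w j = (n : ℂ) • v := by
    have h1 : ∑ j, w j = ∑ x : ZMod n, (∑ j : ZMod n, e (j * -x)) • T x v := by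
      rw [Finset.sum_congr rfl fun j _ => hw j, Finset.sum_comm]
      refine Finset.sum_congr rfl fun x _ => ?_
      rw [Finset.sum_smul]
      refine Finset.sum_congr rfl fun j _ => ?_
      rw [mul_neg]
    rw [h1, Finset.sum_eq_single (0 : ZMod n)]
    · rw [AddChar.sum_mulShift _ hprim, if_pos neg_zero, hT0, ZMod.card]
      rfl
    · intro x _ hx
      rw [AddChar.sum_mulShift _ hprim, if_neg (neg_ne_zero.2 hx), Nat.cast_zero, zero_smul]
    · intro h
      exact absurd (Finset.mem_univ _) h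
  obtain ⟨j₀, hj₀⟩ : ∃ j, w j ≠ 0 := by
    by_contra hcon
    push Not at hcon
    rw [Finset.sum_eq_zero fun j _ => hcon j] at hsum
    rcases smul_eq_zero.1 hsum.symm with h | h
    · exact NeZero.ne n (Nat.cast_eq_zero.1 h)
    · exact hv0 h
  obtain ⟨O, hO⟩ : ∃ O : Finset (ZMod n), ∀ j, j ∈ O ↔
      ∃ (h : G) (u : (ZMod n)ˣ), (∀ x, f h x = u * x) ∧ j * u = j₀ :=
    ⟨Finset.univ.filter fun j => ∃ (h : G) (u : (ZMod n)ˣ), (∀ x, f h x = u * x) ∧ j * u = j₀,
      fun j => by rw [Finset.mem_filter]; exact ⟨fun h => h.2, fun h => ⟨Finset.mem_univ _, h⟩⟩⟩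
  have hne : ∀ j ∈ O, w j ≠ 0 := by
    intro j hj h0
    obtain ⟨h, u, hu, rfl⟩ := (hO j).1 hj
    have h1 := hHw h u hu j
    rw [h0] at h1
    apply hj₀
    calc w (j * u) = σ (h⁻¹ * h) (w (j * u)) := by rw [inv_mul_cancel, map_one]; rfl
      _ = σ h⁻¹ (σ h (w (j * u))) := by rw [map_mul]; rfl
      _ = 0 := by rw [h1, map_zero]
  have hj₀O : j₀ ∈ O := (hO j₀).2 ⟨1, 1, fun x => by simp, by simp⟩
  have hlin : ∀ (g : G) (u : (ZMod n)ˣ) (b : ZMod n), (∀ x, f g x = u * x + b) →
      ∃ h : G, ∀ x, f h x = u * x := by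
    intro g u b hg
    refine ⟨(c ^ b.val)⁻¹ * g, fun x => ?_⟩
    rw [map_mul, map_inv, Equiv.Perm.mul_apply, Equiv.Perm.inv_eq_iff_eq, hval, hg]
  have hstab : ∀ (g : G) (u : (ZMod n)ˣ) (b : ZMod n), (∀ x, f g x = u * x + b) →
      ∀ j ∈ O, j * ((u⁻¹ : (ZMod n)ˣ) : ZMod n) ∈ O := by
    intro g u b hg j hj
    obtain ⟨h', u', hu', hj'⟩ := (hO j).1 hj
    obtain ⟨h, hh⟩ := hlin g u b hg
    refine (hO _).2 ⟨h * h', u * u', fun x => ?_, ?_⟩
    · rw [map_mul, Equiv.Perm.mul_apply, hh, hu', Units.val_mul, mul_assoc]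
    · rw [Units.val_mul, mul_assoc, ← mul_assoc ((u⁻¹ : (ZMod n)ˣ) : ZMod n), Units.inv_mul,
        one_mul, hj']
  have hgw' : ∀ (g : G) (u : (ZMod n)ˣ) (b : ZMod n), (∀ x, f g x = u * x + b) →
      ∀ j, σ g (w j) = e (j * ((u⁻¹ : (ZMod n)ˣ) : ZMod n) * b) •
        w (j * ((u⁻¹ : (ZMod n)ˣ) : ZMod n)) := by
    intro g u b hg j
    have h1 := hgw g u b hg (j * ((u⁻¹ : (ZMod n)ˣ) : ZMod n))
    rwa [mul_assoc j, Units.inv_mul, mul_one] at h1
  -- the basis
  have hspan : ⊤ ≤ Submodule.span ℂ (Set.range fun i : O => w i) := by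
    intro x _
    have hmem₀ : w j₀ ∈ Submodule.span ℂ (Set.range fun i : O => w i) :=
      Submodule.subset_span ⟨(⟨j₀, hj₀O⟩ : O), rfl⟩
    refine FAx.eq_top σ hirr _ ?_ (w j₀) hmem₀ hj₀ x
    intro g y hy
    have h1 : Submodule.span ℂ (Set.range fun i : O => w i) ≤
        (Submodule.span ℂ (Set.range fun i : O => w i)).comap (σ g) := by
      rw [Submodule.span_le]
      rintro _ ⟨i, rfl⟩
      obtain ⟨u, b, hg⟩ := hunit g
      show σ g (w i) ∈ Submodule.span ℂ (Set.range fun i : O => w i)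
      rw [hgw' g u b hg i]
      have h2 := hstab g u b hg i i.2
      exact Submodule.smul_mem _ _
        (Submodule.subset_span ⟨(⟨(i : ZMod n) * ((u⁻¹ : (ZMod n)ˣ) : ZMod n), h2⟩ : O), rfl⟩)
    exact h1 hy
  have hli : LinearIndependent ℂ (fun i : O => w i) := by
    refine Module.End.eigenvectors_linearIndependent' (T 1) (fun i : O => e i) ?_ _ ?_
    · intro i i' h
      exact Subtype.ext (hinj h)
    · intro i
      refine ⟨?_, hne i i.2⟩
      rw [Module.End.mem_eigenspace_iff, hTw, mul_one]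
  obtain ⟨B, hB⟩ : ∃ B : Module.Basis O ℂ W, ∀ i, B i = w i :=
    ⟨Module.Basis.mk hli hspan, fun i => Module.Basis.mk_apply hli hspan i⟩
  have hext : ∀ S S' : W →ₗ[ℂ] W, (∀ j ∈ O, S (w j) = S' (w j)) → S = S' := by
    intro S S' h
    refine B.ext fun i => ?_
    rw [hB]
    exact h i i.2
  have htr : ∀ S : W →ₗ[ℂ] W, LinearMap.trace ℂ W S = ∑ i : O, B.repr (S (w i)) i := by
    intro S
    rw [LinearMap.trace_eq_matrix_trace ℂ B, Matrix.trace]
    refine Finset.sum_congr rfl fun i _ => ?_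
    rw [Matrix.diag_apply, LinearMap.toMatrix_apply, hB]
  have hchc : ∀ k : ZMod n, σ.character (c ^ k.val) = ∑ j ∈ O, e (j * k) := by
    intro k
    show LinearMap.trace ℂ W (σ (c ^ k.val)) = _
    rw [← hT, htr, ← Finset.sum_coe_sort O fun j => e (j * k)]
    refine Finset.sum_congr rfl fun i _ => ?_
    rw [hTw, map_smul, ← hB, B.repr_self, Finsupp.smul_apply, Finsupp.single_eq_same,
      smul_eq_mul, mul_one]
  have hfixall : ∀ (g : G) (u : (ZMod n)ˣ) (b : ZMod n), (∀ x, f g x = u * x + b) →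
      ∀ j ∈ O, j * u = j → σ g = T b := by
    intro g u b hg j hj hju
    refine hext _ _ fun i hi => ?_
    obtain ⟨h₁, u₁, hu₁, hj₁⟩ := (hO j).1 hj
    obtain ⟨h₂, u₂, hu₂, hi₂⟩ := (hO i).1 hi
    have hiu : i * u = i := by
      have h3 : (i * u - i) * u₂ = 0 := by
        have : (i * u - i) * u₂ = (j * u - j) * u₁ := by
          linear_combination (u - 1 : ZMod n) * hi₂ - (u - 1 : ZMod n) * hj₁
        rw [this, hju, sub_self, zero_mul]
      have h4 : i * u - i = 0 := by
        have h5 := congrArg (fun z : ZMod n => z * ((u₂⁻¹ : (ZMod n)ˣ) : ZMod n)) h3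
        simp only [mul_assoc, Units.mul_inv, mul_one, zero_mul] at h5
        exact h5
      exact sub_eq_zero.1 h4
    have h6 := hgw g u b hg i
    rw [hiu] at h6
    rw [h6, hTw]
  have hchar : ∀ g, σ.character g = 0 ∨ ∃ k : ZMod n, σ.character g = σ.character (c ^ k.val) := by
    intro g
    obtain ⟨u, b, hg⟩ := hunit g
    by_cases hex : ∃ j ∈ O, j * u = j
    · right
      obtain ⟨j, hj, hju⟩ := hex
      refine ⟨b, ?_⟩
      unfold Representation.character
      rw [hfixall g u b hg j hj hju, hT]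
    · left
      push Not at hex
      show LinearMap.trace ℂ W (σ g) = 0
      rw [htr]
      refine Finset.sum_eq_zero fun i _ => ?_
      have h1 := hstab g u b hg i i.2
      rw [hgw' g u b hg i, map_smul, Finsupp.smul_apply]
      have h2 : w ((i : ZMod n) * ((u⁻¹ : (ZMod n)ˣ) : ZMod n)) = B ⟨_, h1⟩ := (hB ⟨_, h1⟩).symm
      rw [h2, B.repr_self, Finsupp.single_eq_of_ne, smul_zero]
      intro h3
      have h4 : (i : ZMod n) = (i : ZMod n) * ((u⁻¹ : (ZMod n)ˣ) : ZMod n) :=
        congrArg Subtype.val h3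
      apply hex i i.2
      conv_lhs => rw [h4]
      rw [mul_assoc, Units.inv_mul, mul_one]
  refine ⟨?_, ?_, ?_, ?_⟩
  · -- the quotient group
    have hπ : ∀ g g' : G, σ g = σ g' →
        (QuotientGroup.mk' (MonoidHom.ker σ) g) = QuotientGroup.mk' (MonoidHom.ker σ) g' := by
      intro g g' h
      rw [QuotientGroup.mk'_apply, QuotientGroup.mk'_apply, QuotientGroup.eq, MonoidHom.mem_ker,
        map_mul, ← h, ← map_mul, inv_mul_cancel, map_one]
    have hπ' : ∀ g g' : G,
        (QuotientGroup.mk' (MonoidHom.ker σ) g) = QuotientGroup.mk' (MonoidHom.ker σ) g' →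
        σ g = σ g' := by
      intro g g' h
      rw [QuotientGroup.mk'_apply, QuotientGroup.mk'_apply, QuotientGroup.eq, MonoidHom.mem_ker]
        at h
      calc σ g = σ g * σ (g⁻¹ * g') := by rw [h, mul_one]
        _ = σ g' := by rw [← map_mul, mul_inv_cancel_left]
    obtain ⟨π, hπd⟩ : ∃ π : G →* G ⧸ MonoidHom.ker σ, π = QuotientGroup.mk' (MonoidHom.ker σ) :=
      ⟨_, rfl⟩
    rw [← hπd] at hπ hπ'
    have hsurj : Function.Surjective π := by
      rw [hπd]
      exact QuotientGroup.mk'_surjective _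
    refine ⟨Subgroup.zpowers (π c), H.map π, ?_, inferInstance, ?_, ?_⟩
    · constructor
      intro m hm g
      obtain ⟨k, rfl⟩ := Subgroup.mem_zpowers_iff.1 hm
      obtain ⟨g, rfl⟩ := hsurj g
      obtain ⟨a, b, hab⟩ := haff g
      have h1 : π g * π c * (π g)⁻¹ = π c ^ a.val := by
        rw [← map_inv, ← map_mul, ← map_mul, ← map_pow]
        exact hπ _ _ (hconj g a b hab)
      rw [← conj_zpow, h1]
      exact Subgroup.zpow_mem _ (Subgroup.pow_mem _ (Subgroup.mem_zpowers _) _) _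
    · rw [eq_top_iff]
      intro x _
      obtain ⟨g, rfl⟩ := hsurj x
      have h1 : π g = π c ^ (f g 0).val * π ((c ^ (f g 0).val)⁻¹ * g) := by
        rw [← map_pow, ← map_mul, mul_inv_cancel_left]
      rw [h1]
      refine Subgroup.mul_mem _ ?_ ?_
      · exact Subgroup.mem_sup_left (Subgroup.pow_mem _ (Subgroup.mem_zpowers _) _)
      · exact Subgroup.mem_sup_right (Subgroup.mem_map_of_mem _ (hdec g))
    · rintro b ⟨h, hh, rfl⟩ hcomm
      have h1 := hcomm (π c) (Subgroup.mem_zpowers _)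
      obtain ⟨u, b, hab⟩ := hunit h
      have h0 : f h 0 = 0 := (hH h).1 hh
      have hb : b = 0 := by
        rw [hab] at h0
        simpa using h0
      have h2 : π (h * c * h⁻¹) = π c := by
        rw [map_mul, map_mul, map_inv, ← h1, mul_inv_cancel_right]
      have h3 : T u = T 1 := by
        rw [← hT1 c rfl, ← hπ' _ _ h2, hconj h u b hab, hT]
      have h4 : e (j₀ * u) = e j₀ := by
        have h5 := hTw j₀ u
        rw [h3, hTw, mul_one] at h5
        have h6 : (e (j₀ * u) - e j₀) • w j₀ = 0 := by rw [sub_smul, ← h5, sub_self]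
        rcases smul_eq_zero.1 h6 with h7 | h7
        · exact sub_eq_zero.1 h7
        · exact absurd h7 hj₀
      have h8 := hfixall h u b hab j₀ hj₀O (hinj h4)
      rw [hb, hT0] at h8
      rw [← map_one π]
      apply hπ
      rw [h8, map_one]
  · rw [← map_pow]
    exact hcp
  · intro g
    rcases hchar g with h | ⟨k, hk⟩
    · exact Or.inl h
    · exact Or.inr ⟨_, hk⟩
  · intro hall g
    rcases hchar g with h | ⟨k, hk⟩
    · exact ⟨0, by rw [h, Rat.cast_zero]⟩
    · rw [hk, hchc, he]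
      refine FAx.orbit_sum hyp n j₀ O ?_ k
      intro j
      rw [hO]
      constructor
      · rintro ⟨h, u, _, hju⟩
        exact ⟨u, hju⟩
      · rintro ⟨u, hju⟩
        obtain ⟨g, hg⟩ := hall u
        exact ⟨g, u, hg, hju⟩

end Pool.Agent.YNG
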