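import Pool.Agent.YNG.StF

/-! Project YNG, module FA0: Ramanujan sums are rational. -/

set_option autoImplicit false

open scoped Classical

namespace Pool.Agent.YNG

namespace FA0x

theorem sum_roots_aux (d : ℕ) [NeZero d] (b : ℕ) (K : Type) [Field K] [Algebra ℚ K]
    [IsCyclotomicExtension {d} ℚ K] : ∃ q : ℚ, ∑ μ ∈ primitiveRoots d ℂ, μ ^ b = (q : ℂ) := by
  have hfin : FiniteDimensional ℚ K := IsCyclotomicExtension.finiteDimensional {d} ℚ K
  have hζ : IsPrimitiveRoot (IsCyclotomicExtension.zeta d ℚ K) d :=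
    IsCyclotomicExtension.zeta_spec d ℚ K
  have hirr : Irreducible (Polynomial.cyclotomic d ℚ) :=
    Polynomial.cyclotomic.irreducible_rat (NeZero.pos d)
  have h1 := trace_eq_sum_embeddings (K := ℚ) (L := K) ℂ
    (x := (IsCyclotomicExtension.zeta d ℚ K) ^ b)
  refine ⟨Algebra.trace ℚ K ((IsCyclotomicExtension.zeta d ℚ K) ^ b), ?_⟩
  have h2 : ((Algebra.trace ℚ K ((IsCyclotomicExtension.zeta d ℚ K) ^ b) : ℚ) : ℂ) =
      algebraMap ℚ ℂ (Algebra.trace ℚ K ((IsCyclotomicExtension.zeta d ℚ K) ^ b)) := by simp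
  rw [h2, h1]
  rw [← Finset.sum_coe_sort (primitiveRoots d ℂ) fun μ => μ ^ b]
  refine (Fintype.sum_equiv (hζ.embeddingsEquivPrimitiveRoots ℂ hirr) _ _ fun σ => ?_).symm
  rw [map_pow, IsPrimitiveRoot.embeddingsEquivPrimitiveRoots_apply_coe]

theorem sum_roots (d : ℕ) [NeZero d] (b : ℕ) :
    ∃ q : ℚ, ∑ μ ∈ primitiveRoots d ℂ, μ ^ b = (q : ℂ) := by
  have h0 : NeZero ((d : ℕ) : ℚ) := ⟨by exact_mod_cast NeZero.ne d⟩
  exact @sum_roots_aux d _ b (CyclotomicField d ℚ) _ (CyclotomicField.algebra d ℚ)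
    (CyclotomicField.isCyclotomicExtension d ℚ)

end FA0x

theorem FA0_thm : Stmt_FA0 := by
  intro d _ ζ hζ b
  obtain ⟨q, hq⟩ := FA0x.sum_roots d b
  refine ⟨q, ?_⟩
  rw [← hq]
  have hinj : Set.InjOn (fun j : (ZMod d)ˣ => ζ ^ (j : ZMod d).val)
      ((Finset.univ : Finset (ZMod d)ˣ) : Set (ZMod d)ˣ) := by
    intro i _ j _ hij
    have h1 : ((i : ZMod d)).val = ((j : ZMod d)).val :=
      hζ.pow_inj (ZMod.val_lt _) (ZMod.val_lt _) hij
    exact Units.ext (ZMod.val_injective d h1)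
  have himg : (Finset.univ : Finset (ZMod d)ˣ).image (fun j : (ZMod d)ˣ => ζ ^ (j : ZMod d).val)
      = primitiveRoots d ℂ := by
    refine Finset.eq_of_subset_of_card_le ?_ ?_
    · intro μ hμ
      obtain ⟨j, -, rfl⟩ := Finset.mem_image.1 hμ
      rw [mem_primitiveRoots (NeZero.pos d)]
      exact hζ.pow_of_coprime _ (ZMod.val_coe_unit_coprime j)
    · rw [Finset.card_image_of_injOn hinj, hζ.card_primitiveRoots, Finset.card_univ,
        ZMod.card_units_eq_totient]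
  rw [← himg, Finset.sum_image hinj]
  refine Finset.sum_congr rfl fun j _ => ?_
  rw [← pow_mul, mul_comm]

end Pool.Agent.YNG
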