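import Pool.Agent.YNG.StF

/-!
# Project YNG, module FB: the Galois group of a pure field of odd degree
-/

set_option autoImplicit false

open NumberField IntermediateField Polynomial
open scoped Classical

namespace Pool.Agent.YNG

namespace FBx

section roots

variable {n : ℕ} [NeZero n] {L : Type} [Field L] {ζ : L}

theorem e_add (hζ : IsPrimitiveRoot ζ n) (i j : ZMod n) :
    ζ ^ (i + j).val = ζ ^ i.val * ζ ^ j.val := by
  rw [ZMod.val_add, ← pow_eq_pow_mod _ hζ.pow_eq_one, pow_add]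

theorem e_mul (hζ : IsPrimitiveRoot ζ n) (u i : ZMod n) :
    ζ ^ (u * i).val = (ζ ^ u.val) ^ i.val := by
  rw [ZMod.val_mul, ← pow_eq_pow_mod _ hζ.pow_eq_one, pow_mul]

theorem e_inj (hζ : IsPrimitiveRoot ζ n) {i j : ZMod n} (h : ζ ^ i.val = ζ ^ j.val) : i = j :=
  ZMod.val_injective n (hζ.pow_inj (ZMod.val_lt i) (ZMod.val_lt j) h)

theorem e_surj (hζ : IsPrimitiveRoot ζ n) {x : L} (hx : x ^ n = 1) :
    ∃ i : ZMod n, ζ ^ i.val = x := by
  obtain ⟨i, hi, h⟩ := hζ.eq_pow_of_pow_eq_one hx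
  refine ⟨(i : ZMod n), ?_⟩
  rw [ZMod.val_natCast_of_lt hi]
  exact h

theorem e_one (hζ : IsPrimitiveRoot ζ n) : ζ ^ (1 : ZMod n).val = ζ := by
  rw [ZMod.val_one_eq_one_mod, ← pow_eq_pow_mod _ hζ.pow_eq_one, pow_one]

theorem b_inj (hζ : IsPrimitiveRoot ζ n) {β : L} (hβ0 : β ≠ 0) {i j : ZMod n}
    (h : β * ζ ^ i.val = β * ζ ^ j.val) : i = j :=
  e_inj hζ (mul_left_cancel₀ hβ0 h)

theorem perm (hζ : IsPrimitiveRoot ζ n) {K : Type} [Field K] [Algebra K L] {β : L} (hβ0 : β ≠ 0)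
    (a : K) (hβ : β ^ n = algebraMap K L a) :
    ∃ f : (L ≃ₐ[K] L) →* Equiv.Perm (ZMod n),
      ∀ (g : L ≃ₐ[K] L) (i : ZMod n), β * ζ ^ (f g i).val = g (β * ζ ^ i.val) := by
  have ex : ∀ (g : L ≃ₐ[K] L) (i : ZMod n), ∃ j : ZMod n, β * ζ ^ j.val = g (β * ζ ^ i.val) := by
    intro g i
    have h1 : (g (β * ζ ^ i.val)) ^ n = β ^ n := by
      rw [← map_pow, mul_pow, ← pow_mul, mul_comm i.val n, pow_mul, hζ.pow_eq_one, one_pow,
        mul_one, hβ, g.commutes]
    have h2 : (g (β * ζ ^ i.val) / β) ^ n = 1 := by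
      rw [div_pow, h1, div_self (pow_ne_zero n hβ0)]
    obtain ⟨j, hj⟩ := e_surj hζ h2
    refine ⟨j, ?_⟩
    rw [hj]
    field_simp
  choose F hF using ex
  have F_mul : ∀ (g h : L ≃ₐ[K] L) (i : ZMod n), F (g * h) i = F g (F h i) := by
    intro g h i
    apply b_inj hζ hβ0
    rw [hF, hF, hF]
    rfl
  have F_one : ∀ i : ZMod n, F 1 i = i := by
    intro i
    apply b_inj hζ hβ0
    rw [hF]
    rfl
  refine ⟨MonoidHom.mk' (fun g => ⟨F g, F g⁻¹, fun i => ?_, fun i => ?_⟩) fun g h => ?_,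
    fun g i => hF g i⟩
  · rw [← F_mul, inv_mul_cancel, F_one]
  · rw [← F_mul, mul_inv_cancel, F_one]
  · apply Equiv.ext
    intro i
    exact F_mul g h i

theorem affine (hζ : IsPrimitiveRoot ζ n) {K : Type} [Field K] [Algebra K L] {β : L} (hβ0 : β ≠ 0)
    {f : (L ≃ₐ[K] L) →* Equiv.Perm (ZMod n)}
    (hf : ∀ (g : L ≃ₐ[K] L) (i : ZMod n), β * ζ ^ (f g i).val = g (β * ζ ^ i.val))
    {g : L ≃ₐ[K] L} {u b : ZMod n} (hu : g ζ = ζ ^ u.val) (hb : g β = β * ζ ^ b.val) (x : ZMod n) :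
    f g x = u * x + b := by
  apply b_inj hζ hβ0
  rw [hf, map_mul, map_pow, hu, hb, e_add hζ, e_mul hζ]
  ring

theorem zero_val (hζ : IsPrimitiveRoot ζ n) {K : Type} [Field K] [Algebra K L] {β : L}
    {f : (L ≃ₐ[K] L) →* Equiv.Perm (ZMod n)}
    (hf : ∀ (g : L ≃ₐ[K] L) (i : ZMod n), β * ζ ^ (f g i).val = g (β * ζ ^ i.val))
    (g : L ≃ₐ[K] L) : g β = β * ζ ^ (f g 0).val := by
  rw [hf, ZMod.val_zero, pow_zero, mul_one]

end roots

theorem bij_of_one (K : Type) [Field K] [NumberField K] (hK : Module.finrank ℚ K = 1) :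
    Function.Bijective (algebraMap ℚ K) :=
  Algebra.bijective_algebraMap_iff.2 (Subalgebra.bot_eq_top_of_finrank_eq_one hK).symm

theorem irr_cyc (K : Type) [Field K] [NumberField K] (hK : Module.finrank ℚ K = 1) (n : ℕ)
    (hn : 0 < n) : Irreducible (cyclotomic n K) := by
  have h1 := (MulEquiv.irreducible_iff
    (Polynomial.mapEquiv (RingEquiv.ofBijective (algebraMap ℚ K) (bij_of_one K hK)))).2
      (cyclotomic.irreducible_rat hn)
  have h2 : (Polynomial.mapEquiv (RingEquiv.ofBijective (algebraMap ℚ K) (bij_of_one K hK)))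
      (cyclotomic n ℚ) = cyclotomic n K := by
    rw [Polynomial.mapEquiv_apply]
    exact map_cyclotomic n _
  rwa [h2] at h1

theorem fix_of {K F L : Type} [Field K] [Field F] [Field L] [Algebra K F] [Algebra K L]
    [Algebra F L] [IsScalarTower K F L] [FiniteDimensional K F] {α : F} (hα : K⟮α⟯ = ⊤)
    (g : L ≃ₐ[K] L) (hg : g (algebraMap F L α) = algebraMap F L α) (x : F) :
    g (algebraMap F L x) = algebraMap F L x := by
  have h1 : Algebra.adjoin K {α} = ⊤ := by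
    rw [← IntermediateField.adjoin_simple_toSubalgebra_of_isAlgebraic
      (Algebra.IsAlgebraic.isAlgebraic α), hα]
    rfl
  have h2 : (g.toAlgHom.comp (IsScalarTower.toAlgHom K F L)) = IsScalarTower.toAlgHom K F L := by
    refine AlgHom.ext_of_adjoin_eq_top h1 ?_
    intro y hy
    rw [Set.mem_singleton_iff] at hy
    rw [hy]
    exact hg
  exact DFunLike.congr_fun h2 x

end FBx

theorem FB_thm (hyp : Stmt_FB1) : Stmt_FB := by
  intro K F L _ _ _ _ _ _ _ _ _ _ _ n _ hK hF hn α hα hαn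
  have hfin : FiniteDimensional K F :=
    Module.finite_of_finrank_pos (by rw [hF]; exact NeZero.pos n)
  rcases eq_or_ne n 1 with rfl | hn1
  · refine ⟨1, 1, fun g => ⟨fun _ => Subsingleton.elim _ _, fun _ x => ?_⟩,
      fun x => Subsingleton.elim _ _, fun g => ⟨0, 0, fun x => Subsingleton.elim _ _⟩,
      fun u => ⟨1, fun x => Subsingleton.elim _ _⟩⟩
    obtain ⟨y, rfl⟩ := (Algebra.bijective_algebraMap_iff.2
      (Subalgebra.bot_eq_top_of_finrank_eq_one hF).symm).2 x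
    rw [← IsScalarTower.algebraMap_apply]
    exact g.commutes y
  obtain ⟨a, ha⟩ := hαn
  have hint : IsIntegral K α := IsIntegral.of_finite K α
  have hdeg : (minpoly K α).natDegree = n := by
    rw [← hF]
    exact (Field.primitive_element_iff_minpoly_natDegree_eq K α).1 hα
  have hmon : (X ^ n - C a : K[X]).Monic := monic_X_pow_sub_C a (NeZero.ne n)
  have haev : aeval α (X ^ n - C a : K[X]) = 0 := by
    simp [ha]
  have hmin : minpoly K α = X ^ n - C a := by
    refine (Polynomial.eq_of_monic_of_dvd_of_natDegree_le (minpoly.monic hint) hmon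
      (minpoly.dvd K α haev) ?_).symm
    rw [natDegree_X_pow_sub_C, hdeg]
  have hirr : Irreducible (X ^ n - C a : K[X]) := hmin ▸ minpoly.irreducible hint
  have ha0 : a ≠ 0 := by
    intro h
    rw [h, C_0, sub_zero] at hirr
    exact not_irreducible_pow hn1 hirr
  obtain ⟨β, hβdef⟩ : ∃ β : L, β = algebraMap F L α := ⟨_, rfl⟩
  have hβn : β ^ n = algebraMap K L a := by
    rw [hβdef, ← map_pow, ← ha, ← IsScalarTower.algebraMap_apply]
  have hβ0 : β ≠ 0 := by
    intro h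
    rw [h, zero_pow (NeZero.ne n)] at hβn
    exact ha0 ((map_eq_zero (algebraMap K L)).1 hβn.symm)
  have hminβ : X ^ n - C a = minpoly K β :=
    minpoly.eq_of_irreducible_of_monic hirr (by simp [hβn]) hmon
  have hN : Normal K L := IsGalois.to_normal
  have hs1 : ((X ^ n - C a : K[X]).map (algebraMap K L)).Splits := by
    rw [hminβ]
    exact Normal.splits hN β
  have hs2 := splits_X_pow_sub_one_of_X_pow_sub_C (algebraMap K L) n ha0 hs1
  have hs3 : (X ^ n - 1 : L[X]).Splits := by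
    simpa using hs2
  have hs4 : (cyclotomic n L).Splits :=
    hs3.of_dvd (X_pow_sub_C_ne_zero (NeZero.pos n) 1) (cyclotomic.dvd_X_pow_sub_one n L)
  obtain ⟨ζ, hζ0⟩ := hs4.exists_eval_eq_zero (degree_cyclotomic_pos n L (NeZero.pos n)).ne'
  have hζ : IsPrimitiveRoot ζ n := isRoot_cyclotomic_iff.1 hζ0
  obtain ⟨f, hf⟩ := FBx.perm (K := K) hζ hβ0 a hβn
  -- the element `c`
  obtain ⟨c, hcβ, hcζ⟩ : ∃ c : L ≃ₐ[K] L, c β = β * ζ ∧ c ζ = ζ := by
    have : IsCyclotomicExtension {n} K K⟮ζ⟯ :=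
      hζ.intermediateField_adjoin_isCyclotomicExtension K
    have hirrE := hyp K K⟮ζ⟯ n hK hn a hirr
    have hmonE : (X ^ n - C (algebraMap K K⟮ζ⟯ a) : K⟮ζ⟯[X]).Monic :=
      monic_X_pow_sub_C _ (NeZero.ne n)
    have hββ : β ^ n = algebraMap K⟮ζ⟯ L (algebraMap K K⟮ζ⟯ a) := by
      rw [hβn, ← IsScalarTower.algebraMap_apply]
    have hminE : X ^ n - C (algebraMap K K⟮ζ⟯ a) = minpoly K⟮ζ⟯ β :=
      minpoly.eq_of_irreducible_of_monic hirrE (by
        rw [map_sub, map_pow, aeval_X, aeval_C, hββ, sub_self]) hmonE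
    have : IsGalois K⟮ζ⟯ L := IsGalois.tower_top_intermediateField K⟮ζ⟯
    have : Normal K⟮ζ⟯ L := IsGalois.to_normal
    obtain ⟨σ, hσ⟩ := minpoly.exists_algEquiv_of_root' (K := K⟮ζ⟯) (L := L) (x := β * ζ) (y := β)
      (Algebra.IsAlgebraic.isAlgebraic β) (by
        rw [← hminE, map_sub, map_pow, aeval_X, aeval_C, mul_pow, hζ.pow_eq_one, mul_one, hββ,
          sub_self])
    refine ⟨σ.restrictScalars K, hσ, ?_⟩
    exact σ.commutes ⟨ζ, mem_adjoin_simple_self K ζ⟩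
  have hfc : ∀ x, f c x = x + 1 := by
    intro x
    rw [FBx.affine hζ hβ0 hf (u := 1) (b := 1) (by rw [hcζ, FBx.e_one hζ])
      (by rw [hcβ, FBx.e_one hζ]), one_mul]
  have hfck : ∀ (k : ℕ) (x : ZMod n), f (c ^ k) x = x + k := by
    intro k
    induction k with
    | zero =>
      intro x
      rw [pow_zero, map_one, Nat.cast_zero, add_zero]
      rfl
    | succ k ih =>
      intro x
      rw [pow_succ, map_mul, Equiv.Perm.mul_apply, hfc, ih, Nat.cast_succ]
      ring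
  refine ⟨f, c, fun g => ⟨fun h => ?_, fun h x => ?_⟩, hfc, fun g => ?_, fun u => ?_⟩
  · apply FBx.b_inj hζ hβ0
    rw [hf, ZMod.val_zero, pow_zero, mul_one, hβdef]
    exact h α
  · refine FBx.fix_of hα g ?_ x
    rw [← hβdef, FBx.zero_val hζ hf g, h, ZMod.val_zero, pow_zero, mul_one]
  · obtain ⟨u, hu⟩ := FBx.e_surj hζ (x := g ζ) (by rw [← map_pow, hζ.pow_eq_one, map_one])
    exact ⟨u, f g 0, FBx.affine hζ hβ0 hf hu.symm (FBx.zero_val hζ hf g)⟩
  · have hprim : IsPrimitiveRoot (ζ ^ (u : ZMod n).val) n :=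
      hζ.pow_of_coprime _ (ZMod.val_coe_unit_coprime u)
    have hirrc := FBx.irr_cyc K hK n (NeZero.pos n)
    have hmz := hζ.minpoly_eq_cyclotomic_of_irreducible hirrc
    obtain ⟨τ, hτ⟩ := minpoly.exists_algEquiv_of_root' (K := K) (L := L)
      (x := ζ ^ (u : ZMod n).val) (y := ζ) (Algebra.IsAlgebraic.isAlgebraic ζ) (by
        rw [← hmz, aeval_def, eval₂_eq_eval_map, map_cyclotomic, ← IsRoot.def,
          isRoot_cyclotomic_iff]
        exact hprim)
    refine ⟨c ^ (-(f τ 0)).val * τ, fun x => ?_⟩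
    rw [map_mul, Equiv.Perm.mul_apply, hfck,
      FBx.affine hζ hβ0 hf hτ (FBx.zero_val hζ hf τ), ZMod.natCast_val, ZMod.cast_id]
    ring

end Pool.Agent.YNG
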