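import Pool.Agent.YNG.StF

set_option autoImplicit false

open NumberField IntermediateField Polynomial
open scoped Classical

namespace Pool.Agent.YNG

namespace FB1x

/-- the cyclotomic polynomials stay irreducible over a number field of degree one -/
theorem cyc_irr (K : Type) [Field K] [NumberField K] (hK : Module.finrank ℚ K = 1) (p : ℕ)
    (hp : 0 < p) : Irreducible (cyclotomic p K) := by
  have hb : Function.Bijective (algebraMap ℚ K) := by
    rw [Algebra.bijective_algebraMap_iff]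
    exact (Subalgebra.bot_eq_top_of_finrank_eq_one hK).symm
  let e : ℚ ≃+* K := RingEquiv.ofBijective (algebraMap ℚ K) hb
  have h := cyclotomic.irreducible_rat hp
  have h2 : Irreducible (Polynomial.mapEquiv e (cyclotomic p ℚ)) :=
    (MulEquiv.irreducible_iff (Polynomial.mapEquiv e)).2 h
  have h3 : Polynomial.mapEquiv e (cyclotomic p ℚ) = cyclotomic p K :=
    Polynomial.map_cyclotomic p (e : ℚ →+* K)
  rwa [h3] at h2

end FB1x

theorem FB1_thm : Stmt_FB1 := by
  intro K E _ _ _ _ n _ hcyc hK hodd a hirr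
  rw [X_pow_sub_C_irreducible_iff_forall_prime_of_odd hodd] at hirr ⊢
  intro p hp hpn b hb
  have hna := hirr p hp hpn
  have hirp : Irreducible (X ^ p - C a : K[X]) := X_pow_sub_C_irreducible_of_prime hp hna
  have hab : IsAbelianGalois K E := IsCyclotomicExtension.isAbelianGalois {n} K E
  have hfd : FiniteDimensional K E := IsCyclotomicExtension.finiteDimensional {n} K E
  obtain ⟨ζ, hζ⟩ : ∃ ζ : E, IsPrimitiveRoot ζ n :=
    IsCyclotomicExtension.exists_isPrimitiveRoot K E (Set.mem_singleton n) (NeZero.ne n)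
  obtain ⟨m, hm⟩ := hpn
  have hξ : IsPrimitiveRoot (ζ ^ m) p := hζ.pow (NeZero.pos n) (by rw [hm, mul_comm])
  obtain ⟨ξ, hξd⟩ : ∃ ξ, ξ = ζ ^ m := ⟨_, rfl⟩
  rw [← hξd] at hξ
  have hmin : ∀ x : E, x ^ p = algebraMap K E a → X ^ p - C a = minpoly K x := by
    intro x hx
    refine minpoly.eq_of_irreducible_of_monic hirp ?_ (monic_X_pow_sub_C a hp.ne_zero)
    simp [hx]
  have hbξ : (b * ξ) ^ p = algebraMap K E a := by
    rw [mul_pow, hb, hξ.pow_eq_one, mul_one]
  have hconj : b * ξ ∈ MulAction.orbit (E ≃ₐ[K] E) b :=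
    (Normal.minpoly_eq_iff_mem_orbit E).1 ((hmin _ hbξ).symm.trans (hmin _ hb))
  obtain ⟨σ, hσ⟩ := hconj
  have hσ' : σ b = b * ξ := hσ
  have hbmem : b ∈ K⟮b⟯ := mem_adjoin_simple_self K b
  have hmem : b * ξ ∈ K⟮b⟯ := by
    rw [← IsGalois.fixedField_fixingSubgroup K⟮b⟯]
    rintro ⟨τ, hτ⟩
    have h1 : τ b = b := (IntermediateField.mem_fixingSubgroup_iff K⟮b⟯ τ).1 hτ b hbmem
    change τ (b * ξ) = b * ξ
    have hcomm : τ * σ = σ * τ := hab.is_comm.comm τ σ
    have h2 : τ (σ b) = σ (τ b) := by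
      have := congrArg (fun f : E ≃ₐ[K] E => f b) hcomm
      exact this
    rw [← hσ', h2, h1]
  have hb0 : b ≠ 0 := by
    rintro rfl
    rw [zero_pow hp.ne_zero] at hb
    have ha0 : a = 0 := by
      have := hb.symm
      rwa [map_eq_zero] at this
    exact hna 0 (by rw [ha0, zero_pow hp.ne_zero])
  have hξmem : ξ ∈ K⟮b⟯ := by
    have : ξ = (b * ξ) * b⁻¹ := by
      field_simp
    rw [this]
    exact mul_mem hmem (inv_mem hbmem)
  have hle : K⟮ξ⟯ ≤ K⟮b⟯ := by
    rw [adjoin_simple_le_iff]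
    exact hξmem
  have hint : ∀ x : E, IsIntegral K x := fun x => IsIntegral.of_finite K x
  have f1 : Module.finrank K K⟮b⟯ = p := by
    rw [adjoin.finrank (hint b), ← hmin b hb, natDegree_X_pow_sub_C]
  have f2 : Module.finrank K K⟮ξ⟯ = p - 1 := by
    have : NeZero (p : K) := ⟨by exact_mod_cast hp.ne_zero⟩
    rw [adjoin.finrank (hint ξ),
      ← hξ.minpoly_eq_cyclotomic_of_irreducible (FB1x.cyc_irr K hK p hp.pos),
      natDegree_cyclotomic, Nat.totient_prime hp]
  have hdvd := finrank_dvd_of_le_right hle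
  rw [f1, f2] at hdvd
  have h2 := hp.two_le
  have h3 : p - 1 ∣ 1 := by
    have h4 : p - 1 ∣ p - (p - 1) := Nat.dvd_sub hdvd (dvd_refl _)
    have h5 : p - (p - 1) = 1 := by omega
    rwa [h5] at h4
  have h4 := Nat.le_of_dvd one_pos h3
  have h5 : p = 2 := by omega
  rw [h5] at hm
  rw [hm] at hodd
  exact (Nat.not_odd_iff_even.2 (even_two_mul m)) hodd

end Pool.Agent.YNG
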