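import Pool.Agent.YNG.StG

set_option autoImplicit false

open NumberField
open scoped Classical Pointwise

namespace Pool.Agent.YNG

namespace GAx

/-- The ramification index is the order of the inertia group. -/
lemma card_eq {G : Type} [Group G] [Finite G] (E L : Type) [Field E] [NumberField E] [Field L]
    [NumberField L] [Algebra E L] [MulSemiringAction G L] [IsGaloisGroup G E L]
    (P : Ideal (𝓞 L)) [P.IsMaximal] (q : Ideal (𝓞 E)) [q.IsMaximal] [P.LiesOver q] :
    Nat.card (P.inertia G) = P.ramificationIdx (𝓞 E) := by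
  have hq : q ≠ ⊥ := Ideal.IsMaximal.ne_bot_of_isIntegral_int q
  have : Finite (𝓞 E ⧸ q) := Ring.HasFiniteQuotients.finiteQuotient hq
  rw [Ideal.card_inertia_eq_ramificationIdxIn q P,
    Ideal.ramificationIdxIn_eq_ramificationIdx q P G]

lemma card_eq_int {G : Type} [Group G] [Finite G] (L : Type) [Field L]
    [NumberField L] [MulSemiringAction G L] [IsGaloisGroup G ℚ L]
    (P : Ideal (𝓞 L)) [P.IsMaximal] :
    Nat.card (P.inertia G) = P.ramificationIdx ℤ := by
  have hP : P ≠ ⊥ := Ideal.IsMaximal.ne_bot_of_isIntegral_int P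
  have hq : P.under ℤ ≠ ⊥ := by
    intro h
    exact hP (Ideal.eq_bot_of_comap_eq_bot h)
  have : (P.under ℤ).IsMaximal := Ideal.IsMaximal.under ℤ P
  have : Finite (ℤ ⧸ P.under ℤ) := Ring.HasFiniteQuotients.finiteQuotient hq
  rw [Ideal.card_inertia_eq_ramificationIdxIn (P.under ℤ) P,
    Ideal.ramificationIdxIn_eq_ramificationIdx (P.under ℤ) P G]

end GAx

open GAx in
theorem GA_thm : Stmt_GA := by
  intro L _ _ _ N hN
  let E : IntermediateField ℚ L := FixedPoints.intermediateField N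
  haveI hE : IsGaloisGroup N E L := IsGaloisGroup.of_fixedPoints_eq (L ≃ₐ[ℚ] L) ℚ L N E rfl
  have hfin : Module.finrank ℚ E = 1 := by
    by_contra hne
    obtain ⟨q, hq, hnu⟩ := NumberField.exists_not_isUnramifiedAt_int (K := E) (𝒪 := 𝓞 E) hne
    obtain ⟨P, hP, hPq⟩ := Ideal.exists_maximal_ideal_liesOver_of_isIntegral (S := 𝓞 L) q
    apply hnu
    rw [← Ideal.ramificationIdx_eq_one_iff]
    have h1 := Ideal.ramificationIdx_tower (R := ℤ) q P
    have h2 := card_eq (G := N) E L P q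
    have h3 := card_eq_int (G := (L ≃ₐ[ℚ] L)) L P
    have h4 : Nat.card (P.inertia N) = Nat.card (P.inertia (L ≃ₐ[ℚ] L)) := by
      have := Nat.card_congr (Subgroup.subgroupOfEquivOfLe (hN P hP)).toEquiv
      rw [← this]
      rfl
    rw [← h3, ← h2] at h1
    have h1' : Nat.card (P.inertia (L ≃ₐ[ℚ] L)) =
      q.ramificationIdx ℤ * Nat.card (P.inertia (L ≃ₐ[ℚ] L)) :=
      h1.trans (congrArg (fun z => q.ramificationIdx ℤ * z) h4)
    have h5 : 0 < Nat.card (P.inertia (L ≃ₐ[ℚ] L)) := Nat.card_pos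
    have h6 : 1 * Nat.card (P.inertia (L ≃ₐ[ℚ] L)) =
      q.ramificationIdx ℤ * Nat.card (P.inertia (L ≃ₐ[ℚ] L)) := by rw [one_mul]; exact h1'
    exact (Nat.eq_of_mul_eq_mul_right h5 h6).symm
  have hcard : Nat.card N = Module.finrank E L := IsGaloisGroup.card_eq_finrank N E L
  have hcard2 : Nat.card (L ≃ₐ[ℚ] L) = Module.finrank ℚ L := IsGalois.card_aut_eq_finrank ℚ L
  have hmul : Module.finrank ℚ E * Module.finrank E L = Module.finrank ℚ L :=
    Module.finrank_mul_finrank ℚ E L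
  apply Subgroup.eq_top_of_card_eq
  rw [hcard, hcard2, ← hmul, hfin, one_mul]

end Pool.Agent.YNG
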