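import Pool.Agent.YNG.StG

/-!
# Project YNG, module GB (helper52): the ramified primes of a field with squarefree discriminant
-/

set_option autoImplicit false

open NumberField
open scoped Classical Pointwise

namespace Pool.Agent.YNG

namespace GBx

section

variable {F : Type} [Field F] [NumberField F]

theorem ne_bot' {P : Ideal (𝓞 F)} (hP : P.IsMaximal) : P ≠ ⊥ :=
  Ring.ne_bot_of_isMaximal_of_not_isField hP (RingOfIntegers.not_isField F)

theorem pow_dvd {P : Ideal (𝓞 F)} (hP : P.IsMaximal) :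
    P ^ (P.ramificationIdx ℤ - 1) ∣ differentIdeal ℤ (𝓞 F) := by
  have hp : P.under ℤ ≠ ⊥ := mt Ideal.eq_bot_of_comap_eq_bot (ne_bot' hP)
  have hmax : (P.under ℤ).IsMaximal := Ideal.IsMaximal.under ℤ P
  refine pow_sub_one_dvd_differentIdeal ℤ P _ hp ?_
  rw [Ideal.dvd_iff_le, ← Ideal.ramificationIdx'_eq_ramificationIdx (P.under ℤ) P hp]
  exact Ideal.le_pow_ramificationIdx'

/-- Divisibility of the discriminant by a norm. -/
theorem norm_dvd {I : Ideal (𝓞 F)} (h : I ∣ differentIdeal ℤ (𝓞 F)) :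
    Ideal.absNorm I ∣ (discr F).natAbs := by
  rw [← absNorm_differentIdeal (K := F) (𝒪 := 𝓞 F)]
  exact map_dvd Ideal.absNorm h

theorem contra (hd : Squarefree (discr F)) {m : ℕ} (hm : m ≠ 1)
    (h : m * m ∣ (discr F).natAbs) : False := by
  have h1 : Squarefree (discr F).natAbs := Int.squarefree_natAbs.2 hd
  exact hm (Nat.isUnit_iff.1 (h1 m h))

end

end GBx

open GBx in
theorem GB_thm : Stmt_GB := by
  intro F _ _ hd P Q hP hQ hPQ heP heQ
  have hPpos : 0 < P.ramificationIdx ℤ := Ideal.ramificationIdx_pos P ℤ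
  have hQpos : 0 < Q.ramificationIdx ℤ := Ideal.ramificationIdx_pos Q ℤ
  obtain ⟨g, hg⟩ : ∃ g : ℤ, P.under ℤ = Ideal.span {g} :=
    ⟨Submodule.IsPrincipal.generator (P.under ℤ),
      (Ideal.span_singleton_generator (P.under ℤ)).symm⟩
  have hPg : P.LiesOver (Ideal.span {g}) := ⟨hg.symm⟩
  have hQg : Q.LiesOver (Ideal.span {g}) := ⟨hg.symm.trans hPQ⟩
  have nP : g.natAbs ^ P.inertiaDeg ℤ = Ideal.absNorm P := Ideal.natAbs_pow_inertiaDeg g P
  have nQ : g.natAbs ^ Q.inertiaDeg ℤ = Ideal.absNorm Q := Ideal.natAbs_pow_inertiaDeg g Q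
  have fP : 0 < P.inertiaDeg ℤ := Ideal.inertiaDeg_pos P ℤ
  have fQ : 0 < Q.inertiaDeg ℤ := Ideal.inertiaDeg_pos Q ℤ
  have hg1 : g.natAbs ≠ 1 := by
    intro h
    have hu : IsUnit g := Int.isUnit_iff_natAbs_eq.2 h
    have hmax : (P.under ℤ).IsMaximal := Ideal.IsMaximal.under ℤ P
    rw [hg, Ideal.span_singleton_eq_top.2 hu] at hmax
    exact hmax.ne_top rfl
  have hgP : g.natAbs ∣ Ideal.absNorm P := by
    rw [← nP]
    exact dvd_pow_self _ fP.ne'
  have hgQ : g.natAbs ∣ Ideal.absNorm Q := by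
    rw [← nQ]
    exact dvd_pow_self _ fQ.ne'
  have dP : P ∣ differentIdeal ℤ (𝓞 F) := (dvd_pow_self P (by omega)).trans (pow_dvd hP)
  have dQ : Q ∣ differentIdeal ℤ (𝓞 F) := (dvd_pow_self Q (by omega)).trans (pow_dvd hQ)
  refine ⟨?_, ?_, ?_⟩
  · by_contra hne
    have hcop : IsCoprime P Q := Ideal.isCoprime_iff_sup_eq.2 (hP.coprime_of_ne hQ hne)
    have h1 := norm_dvd (hcop.mul_dvd dP dQ)
    rw [map_mul] at h1
    exact contra hd hg1 ((mul_dvd_mul hgP hgQ).trans h1)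
  · by_contra hne
    have h1 : P ^ 2 ∣ differentIdeal ℤ (𝓞 F) := (pow_dvd_pow P (by omega)).trans (pow_dvd hP)
    have h2 := norm_dvd h1
    rw [map_pow, pow_two] at h2
    exact contra hd hg1 ((mul_dvd_mul hgP hgP).trans h2)
  · by_contra hne
    have h1 := norm_dvd dP
    rw [← nP] at h1
    refine contra hd hg1 (dvd_trans ?_ h1)
    rw [← pow_two]
    exact pow_dvd_pow _ (by omega)

end Pool.Agent.YNG
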