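import Pool.Agent.YNG.StG

set_option autoImplicit false

open NumberField
open scoped Classical Pointwise

namespace Pool.Agent.YNG

namespace GCx

section one
variable {F L : Type} [Field F] [NumberField F] [Field L] [NumberField L] [Algebra F L]
  [IsGalois ℚ L]

lemma card_inertia_rat (P : Ideal (𝓞 L)) [P.IsMaximal] :
    Nat.card (P.inertia (L ≃ₐ[ℚ] L)) = P.ramificationIdx ℤ := by
  rw [Ideal.card_inertia_eq_ramificationIdxIn (G := L ≃ₐ[ℚ] L) (P.under ℤ) P,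
    Ideal.ramificationIdxIn_eq_ramificationIdx (P.under ℤ) P (L ≃ₐ[ℚ] L)]

lemma card_stab_rat (P : Ideal (𝓞 L)) [P.IsMaximal] :
    Nat.card (MulAction.stabilizer (L ≃ₐ[ℚ] L) P) = P.ramificationIdx ℤ * P.inertiaDeg ℤ := by
  rw [Ideal.card_stabilizer_eq (G := L ≃ₐ[ℚ] L) (P.under ℤ) P,
    Ideal.ramificationIdxIn_eq_ramificationIdx (P.under ℤ) P (L ≃ₐ[ℚ] L),
    Ideal.inertiaDegIn_eq_inertiaDeg (P.under ℤ) P (L ≃ₐ[ℚ] L)]

lemma galF : IsGalois F L := IsGalois.tower_top_of_isGalois ℚ F L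

lemma card_inertia_F (P : Ideal (𝓞 L)) [P.IsMaximal] :
    Nat.card (P.inertia (L ≃ₐ[F] L)) = P.ramificationIdx (𝓞 F) := by
  have : IsGalois F L := galF
  rw [Ideal.card_inertia_eq_ramificationIdxIn (G := L ≃ₐ[F] L) (P.under (𝓞 F)) P,
    Ideal.ramificationIdxIn_eq_ramificationIdx (P.under (𝓞 F)) P (L ≃ₐ[F] L)]

lemma card_stab_F (P : Ideal (𝓞 L)) [P.IsMaximal] :
    Nat.card (MulAction.stabilizer (L ≃ₐ[F] L) P)
      = P.ramificationIdx (𝓞 F) * P.inertiaDeg (𝓞 F) := by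
  have : IsGalois F L := galF
  rw [Ideal.card_stabilizer_eq (G := L ≃ₐ[F] L) (P.under (𝓞 F)) P,
    Ideal.ramificationIdxIn_eq_ramificationIdx (P.under (𝓞 F)) P (L ≃ₐ[F] L),
    Ideal.inertiaDegIn_eq_inertiaDeg (P.under (𝓞 F)) P (L ≃ₐ[F] L)]


/-- An automorphism over the rationals which fixes `F` is one over `F`. -/
noncomputable def liftF (τ : L ≃ₐ[ℚ] L) (h : ∀ x : F, τ (algebraMap F L x) = algebraMap F L x) :
    L ≃ₐ[F] L := AlgEquiv.ofRingEquiv (f := τ.toRingEquiv) h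

omit [IsGalois ℚ L] in
lemma smul_ideal (σ : L ≃ₐ[F] L) (P : Ideal (𝓞 L)) :
    σ • P = (σ.restrictScalars ℚ : L ≃ₐ[ℚ] L) • P := by
  have h : MulSemiringAction.toRingHom (L ≃ₐ[F] L) (𝓞 L) σ
      = MulSemiringAction.toRingHom (L ≃ₐ[ℚ] L) (𝓞 L) (σ.restrictScalars ℚ) :=
    RingHom.ext fun x => rfl
  rw [Ideal.pointwise_smul_def, Ideal.pointwise_smul_def, h]

omit [IsGalois ℚ L] in
lemma card_stab_sub (P : Ideal (𝓞 L)) :
    Nat.card (MulAction.stabilizer (L ≃ₐ[F] L) P) =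
      Nat.card {σ : L ≃ₐ[ℚ] L // σ ∈ MulAction.stabilizer (L ≃ₐ[ℚ] L) P ∧
        ∀ x : F, σ (algebraMap F L x) = algebraMap F L x} := by
  refine Nat.card_congr
    { toFun := fun σ => ⟨σ.1.restrictScalars ℚ, ?_, fun x => σ.1.commutes x⟩
      invFun := fun τ => ⟨liftF τ.1 τ.2.2, ?_⟩
      left_inv := fun σ => Subtype.ext (AlgEquiv.ext fun x => rfl)
      right_inv := fun τ => Subtype.ext (AlgEquiv.ext fun x => rfl) }
  · have := σ.2
    rw [MulAction.mem_stabilizer_iff] at this ⊢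
    rw [← smul_ideal]
    exact this
  · have h1 := τ.2.1
    rw [MulAction.mem_stabilizer_iff] at h1 ⊢
    rw [smul_ideal]
    have : ((liftF τ.1 τ.2.2).restrictScalars ℚ : L ≃ₐ[ℚ] L) = τ.1 := AlgEquiv.ext fun x => rfl
    rw [this]
    exact h1

omit [IsGalois ℚ L] in
lemma card_inertia_sub (P : Ideal (𝓞 L)) :
    Nat.card (P.inertia (L ≃ₐ[F] L)) =
      Nat.card {σ : L ≃ₐ[ℚ] L // σ ∈ P.inertia (L ≃ₐ[ℚ] L) ∧
        ∀ x : F, σ (algebraMap F L x) = algebraMap F L x} := by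
  refine Nat.card_congr
    { toFun := fun σ => ⟨σ.1.restrictScalars ℚ, ?_, fun x => σ.1.commutes x⟩
      invFun := fun τ => ⟨liftF τ.1 τ.2.2, ?_⟩
      left_inv := fun σ => Subtype.ext (AlgEquiv.ext fun x => rfl)
      right_inv := fun τ => Subtype.ext (AlgEquiv.ext fun x => rfl) }
  · exact fun x => σ.2 x
  · exact fun x => τ.2.1 x

end one

end GCx

theorem GC_thm : Stmt_GC := by
  intro F L _ _ _ _ _ _ P hP
  have hfl : (P.under (𝓞 F)).IsPrime := inferInstance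
  have hram : P.ramificationIdx ℤ
      = (P.under (𝓞 F)).ramificationIdx ℤ * P.ramificationIdx (𝓞 F) :=
    Ideal.ramificationIdx_tower (P.under (𝓞 F)) P
  have hdeg : P.inertiaDeg ℤ = (P.under (𝓞 F)).inertiaDeg ℤ * P.inertiaDeg (𝓞 F) :=
    Ideal.inertiaDeg_tower (P.under (𝓞 F)) P
  refine ⟨fun h1 σ hσ => ?_, ?_⟩
  · rw [h1, one_mul, ← GCx.card_inertia_rat, ← GCx.card_inertia_F (F := F),
      GCx.card_inertia_sub (F := F)] at hram
    -- the two finite sets are equal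
    have hfin : Finite (P.inertia (L ≃ₐ[ℚ] L)) := inferInstance
    let f : {σ : L ≃ₐ[ℚ] L // σ ∈ P.inertia (L ≃ₐ[ℚ] L) ∧
        ∀ x : F, σ (algebraMap F L x) = algebraMap F L x} → P.inertia (L ≃ₐ[ℚ] L) :=
      fun τ => ⟨τ.1, τ.2.1⟩
    have hf : Function.Injective f := by
      intro a b hab
      exact Subtype.ext (congrArg (fun z : P.inertia (L ≃ₐ[ℚ] L) => (z : L ≃ₐ[ℚ] L)) hab)
    have hb : Function.Bijective f :=
      (Nat.bijective_iff_injective_and_card f).2 ⟨hf, hram.symm⟩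
    obtain ⟨τ, hτ⟩ := hb.2 ⟨σ, hσ⟩
    have h2 : τ.1 = σ := congrArg (fun z : P.inertia (L ≃ₐ[ℚ] L) => (z : L ≃ₐ[ℚ] L)) hτ
    rw [← h2]
    exact τ.2.2
  · rw [GCx.card_stab_rat, ← GCx.card_stab_sub, GCx.card_stab_F, hram, hdeg]
    ring

end Pool.Agent.YNG
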