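import Pool.Agent.YNG.StG

/-!
YNG, module GD (helper79, for helper6): embeddings with the same prime below are conjugate under the
decomposition group.
-/

set_option autoImplicit false

open NumberField
open scoped Classical Pointwise

namespace Pool.Agent.YNG

namespace GDx

variable {F L : Type} [Field F] [NumberField F] [Field L] [NumberField L]

theorem mem_below (τ : F →ₐ[ℚ] L) (P : Ideal (𝓞 L)) (x : 𝓞 F) :
    x ∈ belowX τ P ↔ RingOfIntegers.mapRingHom (τ : F →+* L) x ∈ P := Iff.rfl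

theorem below_smul (g : L ≃ₐ[ℚ] L) (τ : F →ₐ[ℚ] L) (P : Ideal (𝓞 L)) :
    belowX τ (g⁻¹ • P) = belowX ((g : L →ₐ[ℚ] L).comp τ) P := by
  ext x
  rw [mem_below, mem_below, Ideal.mem_inv_pointwise_smul_iff]
  have h : g • (RingOfIntegers.mapRingHom (τ : F →+* L) x) =
      RingOfIntegers.mapRingHom (((g : L →ₐ[ℚ] L).comp τ : F →ₐ[ℚ] L) : F →+* L) x :=
    RingOfIntegers.ext rfl
  rw [h]

theorem exists_g [IsGalois ℚ L] (τ τ' : F →ₐ[ℚ] L) :
    ∃ g : L ≃ₐ[ℚ] L, (g : L →ₐ[ℚ] L).comp τ = τ' := by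
  let _ : Algebra F L := (τ : F →+* L).toAlgebra
  have : IsScalarTower ℚ F L := IsScalarTower.of_algebraMap_eq (fun x => (τ.commutes x).symm)
  refine ⟨AlgEquiv.ofBijective (τ'.liftNormal L) (AlgHom.normal_bijective ℚ L L _), ?_⟩
  ext x
  exact τ'.liftNormal_commutes L x

theorem exists_h [IsGalois ℚ L] (τ : F →ₐ[ℚ] L) (P Q : Ideal (𝓞 L)) (hP : P.IsPrime)
    (hQ : Q.IsPrime) (h : belowX τ P = belowX τ Q) :
    ∃ s : L ≃ₐ[ℚ] L, s • P = Q ∧ (s : L →ₐ[ℚ] L).comp τ = τ := by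
  let _ : Algebra F L := (τ : F →+* L).toAlgebra
  have : IsScalarTower ℚ F L := IsScalarTower.of_algebraMap_eq (fun x => (τ.commutes x).symm)
  have : IsGalois F L := IsGalois.tower_top_of_isGalois ℚ F L
  have hu : P.under (𝓞 F) = Q.under (𝓞 F) := h
  obtain ⟨s, hs⟩ := Algebra.IsInvariant.exists_smul_of_under_eq (𝓞 F) (𝓞 L) (L ≃ₐ[F] L) P Q hu
  refine ⟨s.restrictScalars ℚ, ?_, ?_⟩
  · rw [hs]
    rfl
  · ext x
    exact s.commutes x

end GDx

open GDx in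
/-- **GD**. -/
theorem GD_thm : Stmt_GD := by
  intro F L _ _ _ _ _ P hP τ τ' h
  obtain ⟨g, hg⟩ := exists_g τ τ'
  have hPp : P.IsPrime := hP.isPrime
  have hPg : (g⁻¹ • P).IsPrime := inferInstance
  have h1 : belowX τ (g⁻¹ • P) = belowX τ P := by
    rw [below_smul, hg, h]
  obtain ⟨s, hs, hs'⟩ := exists_h τ (g⁻¹ • P) P hPg hPp h1
  refine ⟨g * s⁻¹, ?_, ?_⟩
  · rw [MulAction.mem_stabilizer_iff, mul_smul]
    conv_lhs => rw [← hs]
    rw [inv_smul_smul, smul_inv_smul]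
  · have h2 : permX F L s τ = τ := hs'
    have h3 : permX F L s⁻¹ τ = τ := by
      rw [map_inv, Equiv.Perm.inv_eq_iff_eq, h2]
    rw [map_mul, Equiv.Perm.mul_apply, h3]
    exact hg

end Pool.Agent.YNG
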