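import Pool.Agent.YNG.StG

/-!
# YNG, module GE: inertia acts on the embeddings as the identity or a transposition
-/

set_option autoImplicit false

open NumberField
open scoped Classical Pointwise

namespace Pool.Agent.YNG

namespace GEx

/-- The prime below, for the algebra structure given by the embedding. -/
theorem below_eq {F L : Type} [Field F] [NumberField F] [Field L] [NumberField L]
    (τ : F →ₐ[ℚ] L) (P : Ideal (𝓞 L)) :
    letI : Algebra F L := (τ : F →+* L).toAlgebra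
    P.under (𝓞 F) = belowX τ P := by
  letI : Algebra F L := (τ : F →+* L).toAlgebra
  ext x
  rfl

theorem below_max {F L : Type} [Field F] [NumberField F] [Field L] [NumberField L]
    (τ : F →ₐ[ℚ] L) (P : Ideal (𝓞 L)) (hP : P.IsMaximal) : (belowX τ P).IsMaximal := by
  letI : Algebra F L := (τ : F →+* L).toAlgebra
  have h : P.under (𝓞 F) = belowX τ P := below_eq τ P
  rw [← h]
  haveI := hP
  exact Ideal.IsMaximal.under (𝓞 F) P

theorem below_int {F L : Type} [Field F] [NumberField F] [Field L] [NumberField L]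
    (τ : F →ₐ[ℚ] L) (P : Ideal (𝓞 L)) : (belowX τ P).under ℤ = P.under ℤ := by
  unfold belowX Ideal.under
  rw [Ideal.comap_comap]
  congr 1
  exact RingHom.ext_int _ _

theorem gc {F L : Type} [Field F] [NumberField F] [Field L] [NumberField L] [IsGalois ℚ L]
    (hC : Stmt_GC) (τ : F →ₐ[ℚ] L) (P : Ideal (𝓞 L)) (hP : P.IsMaximal) :
    ((belowX τ P).ramificationIdx ℤ = 1 → ∀ σ ∈ P.inertia (L ≃ₐ[ℚ] L), permX F L σ τ = τ) ∧
    Nat.card (MulAction.stabilizer (L ≃ₐ[ℚ] L) P) =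
      (belowX τ P).ramificationIdx ℤ * (belowX τ P).inertiaDeg ℤ *
        Nat.card {σ : L ≃ₐ[ℚ] L // σ ∈ MulAction.stabilizer (L ≃ₐ[ℚ] L) P ∧
          permX F L σ τ = τ} := by
  letI : Algebra F L := (τ : F →+* L).toAlgebra
  have h : P.under (𝓞 F) = belowX τ P := below_eq τ P
  obtain ⟨h1, h2⟩ := hC F L P hP
  rw [h] at h1 h2
  have e : ∀ σ : L ≃ₐ[ℚ] L, (∀ x : F, σ (algebraMap F L x) = algebraMap F L x) ↔
      permX F L σ τ = τ := by
    intro σ
    constructor
    · intro hx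
      exact AlgHom.ext fun x => hx x
    · intro hx x
      exact congrArg (fun f : F →ₐ[ℚ] L => f x) hx
  refine ⟨fun h3 σ hσ => (e σ).1 (h1 h3 σ hσ), ?_⟩
  rw [h2]
  congr 1
  exact Nat.card_congr (Equiv.subtypeEquivRight fun σ => and_congr_right fun _ => e σ)

end GEx

theorem GE_thm (hB : Stmt_GB) (hC : Stmt_GC) (hD : Stmt_GD) : Stmt_GE := by
  intro F L _ _ _ _ _ hdisc P hP σ hσ
  have hσD : σ ∈ MulAction.stabilizer (L ≃ₐ[ℚ] L) P := Ideal.inertia_le_stabilizer P hσ
  by_cases hall : ∀ τ : F →ₐ[ℚ] L, (belowX τ P).ramificationIdx ℤ = 1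
  · left
    exact Equiv.ext fun τ => (GEx.gc hC τ P hP).1 (hall τ) σ hσ
  · push Not at hall
    obtain ⟨τ₀, hτ₀⟩ := hall
    have hgb : ∀ τ : F →ₐ[ℚ] L, (belowX τ P).ramificationIdx ℤ ≠ 1 →
        belowX τ₀ P = belowX τ P ∧ (belowX τ₀ P).ramificationIdx ℤ = 2 ∧
          (belowX τ₀ P).inertiaDeg ℤ = 1 := fun τ hτ =>
      hB F hdisc (belowX τ₀ P) (belowX τ P) (GEx.below_max τ₀ P hP) (GEx.below_max τ P hP)
        (by rw [GEx.below_int, GEx.below_int]) hτ₀ hτ
    obtain ⟨-, he, hf⟩ := hgb τ₀ hτ₀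
    have hcard := (GEx.gc hC τ₀ P hP).2
    rw [he, hf, mul_one] at hcard
    obtain ⟨D, hDd⟩ : ∃ D, D = MulAction.stabilizer (L ≃ₐ[ℚ] L) P := ⟨_, rfl⟩
    rw [← hDd] at hcard hσD
    let K : Subgroup (L ≃ₐ[ℚ] L) :=
      (MulAction.stabilizer (Equiv.Perm (F →ₐ[ℚ] L)) τ₀).comap (permX F L)
    have hK : ∀ g, g ∈ K ↔ permX F L g τ₀ = τ₀ := fun g => Iff.rfl
    have hidx : (K.subgroupOf D).index = 2 := by
      have h1 := Subgroup.card_mul_index (K.subgroupOf D)
      have h2 : Nat.card (K.subgroupOf D) = Nat.card {σ : L ≃ₐ[ℚ] L // σ ∈ D ∧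
          permX F L σ τ₀ = τ₀} :=
        Nat.card_congr (Equiv.subtypeSubtypeEquivSubtypeInter (fun σ => σ ∈ D)
          (fun σ => permX F L σ τ₀ = τ₀))
      rw [h2] at h1
      have h3 : 0 < Nat.card {σ : L ≃ₐ[ℚ] L // σ ∈ D ∧ permX F L σ τ₀ = τ₀} := by
        rw [← h2]
        exact Nat.card_pos
      rw [hcard] at h1
      have h4 : Nat.card {σ : L ≃ₐ[ℚ] L // σ ∈ D ∧ permX F L σ τ₀ = τ₀} *
          (K.subgroupOf D).index =
          Nat.card {σ : L ≃ₐ[ℚ] L // σ ∈ D ∧ permX F L σ τ₀ = τ₀} * 2 := by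
        rw [h1, mul_comm]
      exact Nat.eq_of_mul_eq_mul_left h3 h4
    obtain ⟨h, hhD, hhK⟩ : ∃ h ∈ D, h ∉ K := by
      by_contra hno
      push Not at hno
      have : K.subgroupOf D = ⊤ := by
        rw [Subgroup.subgroupOf_eq_top]
        exact hno
      rw [this, Subgroup.index_top] at hidx
      exact absurd hidx (by norm_num)
    obtain ⟨τ₁, hτ₁⟩ : ∃ τ₁, τ₁ = permX F L h τ₀ := ⟨_, rfl⟩
    have h01 : τ₀ ≠ τ₁ := by
      rw [hτ₁]
      exact fun e => hhK ((hK h).2 e.symm)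
    -- the orbit
    have horb : ∀ g ∈ D, permX F L g τ₀ = τ₀ ∨ permX F L g τ₀ = τ₁ := by
      intro g hg
      by_cases hgK : g ∈ K
      · left; exact (hK g).1 hgK
      · right
        have h1 := Subgroup.mul_mem_iff_of_index_two hidx (a := (⟨h, hhD⟩ : D)⁻¹)
          (b := (⟨g, hg⟩ : D))
        rw [inv_mem_iff, Subgroup.mem_subgroupOf, Subgroup.mem_subgroupOf,
          Subgroup.mem_subgroupOf] at h1
        have h2 : h⁻¹ * g ∈ K := h1.2 ⟨fun h3 => absurd h3 hhK, fun h3 => absurd h3 hgK⟩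
        rw [hK, map_mul, map_inv, Equiv.Perm.mul_apply, Equiv.Perm.inv_eq_iff_eq] at h2
        rw [h2, hτ₁]
    have hfix : ∀ τ, τ ≠ τ₀ → τ ≠ τ₁ → permX F L σ τ = τ := by
      intro τ ht0 ht1
      by_cases h1 : (belowX τ P).ramificationIdx ℤ = 1
      · exact (GEx.gc hC τ P hP).1 h1 σ hσ
      · obtain ⟨g, hg, hgτ⟩ := hD F L P hP τ₀ τ (hgb τ h1).1
        rw [← hDd] at hg
        rcases horb g hg with h2 | h2
        · exact absurd (hgτ.symm.trans h2) ht0
        · exact absurd (hgτ.symm.trans h2) ht1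
    have h0 := horb σ hσD
    have h1 : permX F L σ τ₁ = τ₀ ∨ permX F L σ τ₁ = τ₁ := by
      have := horb (σ * h) (mul_mem hσD hhD)
      rwa [map_mul, Equiv.Perm.mul_apply, ← hτ₁] at this
    rcases h0 with h0 | h0
    · left
      have h1' : permX F L σ τ₁ = τ₁ := by
        rcases h1 with h1 | h1
        · exact absurd ((permX F L σ).injective (h0.trans h1.symm)) h01
        · exact h1
      refine Equiv.ext fun τ => ?_
      rw [Equiv.Perm.one_apply]
      by_cases ht0 : τ = τ₀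
      · rw [ht0]; exact h0
      · by_cases ht1 : τ = τ₁
        · rw [ht1]; exact h1'
        · exact hfix τ ht0 ht1
    · right
      have h1' : permX F L σ τ₁ = τ₀ := by
        rcases h1 with h1 | h1
        · exact h1
        · exact absurd ((permX F L σ).injective (h0.trans h1.symm)) h01
      refine ⟨τ₀, τ₁, h01, Equiv.ext fun τ => ?_⟩
      by_cases ht0 : τ = τ₀
      · rw [ht0, Equiv.swap_apply_left]; exact h0
      · by_cases ht1 : τ = τ₁
        · rw [ht1, Equiv.swap_apply_right]; exact h1'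
        · rw [Equiv.swap_apply_of_ne_of_ne ht0 ht1]
          exact hfix τ ht0 ht1

end Pool.Agent.YNG
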