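import Pool.Agent.YNG.StG

/-!
# Project YNG, module GF: squarefree discriminant, the Galois group is the symmetric group (helper47)
-/

set_option autoImplicit false

open NumberField
open scoped Classical Pointwise

namespace Pool.Agent.YNG

namespace GFx

open IntermediateField in
theorem ext_prim {F L : Type} [Field F] [NumberField F] [Field L] [NumberField L]
    (φ ψ : F →ₐ[ℚ] L) (α : F) (hα : IntermediateField.adjoin ℚ ({α} : Set F) = ⊤)
    (h : φ α = ψ α) : φ = ψ := by
  have key : ∀ z ∈ IntermediateField.adjoin ℚ ({α} : Set F), φ z = ψ z := by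
    intro z hz
    induction hz using IntermediateField.adjoin_induction with
    | mem x hx =>
      rw [Set.mem_singleton_iff] at hx
      rw [hx]
      exact h
    | algebraMap x => rw [AlgHom.commutes, AlgHom.commutes]
    | add x y _ _ hx hy => rw [map_add, map_add, hx, hy]
    | inv x _ hx => rw [map_inv₀, map_inv₀, hx]
    | mul x y _ _ hx hy => rw [map_mul, map_mul, hx, hy]
  refine AlgHom.ext fun z => key z ?_
  rw [hα]
  exact IntermediateField.mem_top

theorem trans {F L : Type} [Field F] [NumberField F] [Field L] [NumberField L] [IsGalois ℚ L]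
    (τ τ' : F →ₐ[ℚ] L) : ∃ g : L ≃ₐ[ℚ] L, permX F L g τ = τ' := by
  obtain ⟨α, hα⟩ := Field.exists_primitive_element ℚ F
  have hy : IsAlgebraic ℚ (τ α) := Algebra.IsAlgebraic.isAlgebraic _
  have h_ev : (Polynomial.aeval (τ' α)) (minpoly ℚ (τ α)) = 0 := by
    rw [minpoly.algHom_eq τ τ.injective α, Polynomial.aeval_algHom_apply, minpoly.aeval, map_zero]
  obtain ⟨g, hg⟩ := minpoly.exists_algEquiv_of_root' hy h_ev
  exact ⟨g, ext_prim _ _ α hα hg⟩

end GFx

theorem GF_thm (hA : Stmt_GA) (hE : Stmt_GE) : Stmt_GF := by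
  intro F L _ _ _ _ _ hsq
  set S : Set (L ≃ₐ[ℚ] L) :=
    {σ | ∃ P : Ideal (𝓞 L), P.IsMaximal ∧ σ ∈ P.inertia (L ≃ₐ[ℚ] L)} with hSdef
  have hS : Subgroup.closure S = ⊤ :=
    hA L (Subgroup.closure S) fun P hP σ hσ => Subgroup.subset_closure ⟨P, hP, hσ⟩
  have hcl : Subgroup.closure ((permX F L '' S) \ {1}) = (permX F L).range := by
    rw [Subgroup.closure_sdiff_one, ← MonoidHom.map_closure, hS, ← MonoidHom.range_eq_map]
  have htr : MulAction.IsPretransitive (Subgroup.closure ((permX F L '' S) \ {1}))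
      (F →ₐ[ℚ] L) := by
    rw [hcl]
    refine ⟨fun τ τ' => ?_⟩
    obtain ⟨g, hg⟩ := GFx.trans τ τ'
    exact ⟨⟨permX F L g, ⟨g, rfl⟩⟩, hg⟩
  have hfin : Finite (F →ₐ[ℚ] L) := inferInstance
  have hsw : ∀ σ ∈ (permX F L '' S) \ {1}, σ.IsSwap := by
    rintro _ ⟨⟨σ, ⟨P, hP, hσ⟩, rfl⟩, h1⟩
    exact (hE F L hsq P hP σ hσ).resolve_left h1
  have h2 := closure_of_isSwap_of_isPretransitive hsw
  rw [hcl] at h2
  exact MonoidHom.range_eq_top.1 h2

end Pool.Agent.YNG
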