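import Pool.Agent.YNG.St

/-!
# Project YNG, part T: chains of subfields, products of symmetric groups (statements; helper6)

Every module proves `theorem X_thm : Stmt_X` (namespace `Pool.Agent.YNG`), file
`Pool/Agent/YNG/X.lean`, importing `Pool.Agent.YNG.StT` (auxiliary lemmas in a namespace `Xx`).
-/

set_option autoImplicit false

open scoped Classical

namespace Pool.Agent.YNG

/-- The permutation character on the cosets of `H`. -/
noncomputable def pc {G : Type} [Group G] [Fintype G] (H : Subgroup G) (g : G) : ℂ :=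
  (∑ x : G, if x⁻¹ * g * x ∈ H then (1 : ℂ) else 0) / (Nat.card H : ℂ)

/-- TC (permutation representations of minimal rank, about 200 lines).  Proof.  Let
`⟨a, b⟩ = |G|⁻¹ ∑ a(g) b(g⁻¹)`, `π_i = pc (C i)`.  (1) For every representation `ρ` `⟨χ_ρ, π_i⟩` is
the dimension of the vectors fixed by `C i` (trace of the average over `C i`, Frobenius
reciprocity by direct computation); `⟨π_k, π_k⟩` is the number of double cosets `H g H`
(Burnside's lemma for `H` on `G ⧸ H`), `H = C k`.  (2) `θ_i = π_(i+1) - π_i` is the character of a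
representation `V_i ≠ 0` (functions on `G ⧸ C (i+1)` with sum `0` over every coset of `C i`), `θ_(-1) = 1`
too.  So `π_k` is the character of `1 ⊕ V_0 ⊕ ... ⊕ V_(k-1)`, and `k + 1 = ⟨π_k, π_k⟩ =
∑_{i,j} ⟨θ_i, θ_j⟩`, where all summands are integers `≥ 0` (dimensions of spaces of intertwining
maps) and the diagonal ones are `≥ 1`.  So `⟨θ_i, θ_i⟩ = 1`: `V_i` is irreducible.
(3) `σ` has a vector fixed by `C k = H` and none fixed by `C 0 = G`; let `i` be such that it has one
fixed by `C (i+1)` and none by `C i`.  Then `⟨χ_σ, θ_i⟩ > 0`, so `σ` is isomorphic to `V_i`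
(or: `⟨χ_σ - θ_i, χ_σ - θ_i⟩ = 1 - 2 ⟨χ_σ, θ_i⟩ + 1 ≤ 0`, so `χ_σ = θ_i`; see `YNG/PA.lean`, where
this is done for `k = 1`). -/
def Stmt_TC : Prop :=
  ∀ (G : Type) [Group G] [Fintype G] (k : ℕ) (C : Fin (k + 1) → Subgroup G), StrictAnti C →
    C 0 = ⊤ →
    Nat.card (DoubleCoset.Quotient (C (Fin.last k) : Set G) (C (Fin.last k) : Set G)) = k + 1 →
    ∀ (W : Type) [AddCommGroup W] [Module ℂ W] [Module.Finite ℂ W]
      (σ : Representation ℂ G W), σ.IsIrreducible → (∃ g, σ g ≠ 1) →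
      (∃ v : W, v ≠ 0 ∧ ∀ h ∈ C (Fin.last k), σ h v = v) →
      ∃ i j : Fin (k + 1), ∀ g, σ.character g = pc (C j) g - pc (C i) g

/-- All characters of `G` are integral combinations of permutation characters. -/
def PermG (G : Type) [Group G] [Fintype G] : Prop :=
  ∀ (V : Type) [AddCommGroup V] [Module ℂ V] [Module.Finite ℂ V] (ρ : Representation ℂ G V),
    ∃ (m : ℕ) (H : Fin m → Subgroup G) (c : Fin m → ℤ), ∀ g,
      ρ.character g = ∑ i, (c i : ℂ) * pc (H i) g

/-- TL (linear algebra, about 60 lines): as `YL` (`YNG/YL.lean`), with the inverse matrix.  Proof: by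
`YL` (import it) or its proof the matrix `N` has an integral inverse `M`; `T` is an isomorphism with
`T (a i) = N i`, so `θ = ∑_i (∑_j (T θ)_j M_(j i)) a_i`. -/
def Stmt_TL : Prop :=
  ∀ (ι : Type) [Fintype ι] (V : Type) [AddCommGroup V] [Module ℂ V] [FiniteDimensional ℂ V]
    (T : V →ₗ[ℂ] (ι → ℂ)) (a : ι → V) (N : ι → ι → ℤ) (b : ι → ℕ),
    Module.finrank ℂ V ≤ Fintype.card ι →
    (∀ i j, T (a i) j = (N i j : ℂ)) → (∀ i, N i i = 1) →
    (∀ i j, N i j ≠ 0 → i ≠ j → b i < b j) →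
    ∃ M : ι → ι → ℤ, ∀ θ : V, θ = ∑ i, (∑ j, T θ j * (M j i : ℂ)) • a i

/-- TI (about 80 lines).  The function `g ↦ P_h (χ(·, g))` on `G₂` is the character of a
representation of `G₂`: the subspace `V' = {v | ρ(s, 1) v = sgn(s) v for s ∈ S_h}` is stable under
`ρ(1, g)`; the average `A = |S_h|⁻¹ ∑ sgn(s) ρ(s, 1)` is a projection onto `V'` which commutes with
`ρ(1, g)`, and the trace of `ρ(1, g)` on `V'` is the trace of `ρ(1, g) A` on `V`. -/
def Stmt_TI : Prop :=
  ∀ (n : ℕ) (G₂ : Type) [Group G₂] [Fintype G₂] (V : Type) [AddCommGroup V] [Module ℂ V]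
    [Module.Finite ℂ V] (ρ : Representation ℂ (Equiv.Perm (Fin n) × G₂) V) (h : Fin n → ℕ),
    ∃ (V' : Type) (_ : AddCommGroup V') (_ : Module ℂ V') (_ : Module.Finite ℂ V')
      (ρ' : Representation ℂ G₂ V'),
      ∀ g, ρ'.character g = pair h fun s => ρ.character (s, g)

/-- TP (about 40 lines).  `pc` of a product of subgroups: the sum over `(x, y)` factorizes. -/
def Stmt_TP : Prop :=
  ∀ (G₁ G₂ : Type) [Group G₁] [Group G₂] [Fintype G₁] [Fintype G₂] (H₁ : Subgroup G₁)
    (H₂ : Subgroup G₂) (g₁ : G₁) (g₂ : G₂), pc (H₁.prod H₂) (g₁, g₂) = pc H₁ g₁ * pc H₂ g₂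

/-- TE (about 40 lines).  Transport along an isomorphism. -/
def Stmt_TE : Prop :=
  ∀ (G₁ G₂ : Type) [Group G₁] [Group G₂] [Fintype G₁] [Fintype G₂], Nonempty (G₁ ≃* G₂) →
    PermG G₁ → PermG G₂

end Pool.Agent.YNG
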