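import Pool.Agent.YNG.YT
import Pool.Agent.YNG.StT

/-!
# Project YNG: products of symmetric groups, assembly (helper6)
-/

set_option autoImplicit false

open scoped Classical

namespace Pool.Agent.YNG

namespace TQx

open YTx

/-- Sums over a finite type. -/
theorem fin_of {G : Type} [Group G] [Fintype G] (θ : G → ℂ) (κ : Type) [Fintype κ]
    (H : κ → Subgroup G) (c : κ → ℤ) (h : ∀ g, θ g = ∑ i, (c i : ℂ) * pc (H i) g) :
    ∃ (m : ℕ) (H : Fin m → Subgroup G) (c : Fin m → ℤ), ∀ g,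
      θ g = ∑ i, (c i : ℂ) * pc (H i) g := by
  let e : κ ≃ Fin (Fintype.card κ) := Fintype.equivFin κ
  refine ⟨Fintype.card κ, fun a => H (e.symm a), fun a => c (e.symm a), fun g => ?_⟩
  rw [h g]
  exact (Equiv.sum_comp e.symm (fun i => (c i : ℂ) * pc (H i) g)).symm

theorem pc_top {G : Type} [Group G] [Fintype G] (g : G) : pc (⊤ : Subgroup G) g = 1 := by
  unfold pc
  rw [Nat.card_congr (Subgroup.topEquiv (G := G)).toEquiv, Nat.card_eq_fintype_card]
  simp only [Subgroup.mem_top, if_true, Finset.sum_const, Finset.card_univ, nsmul_eq_mul,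
    mul_one]
  exact div_self (Nat.cast_ne_zero.2 Fintype.card_ne_zero)

theorem permG_triv (G : Type) [Group G] [Fintype G] [Subsingleton G] : PermG G := by
  intro V _ _ _ ρ
  refine ⟨1, fun _ => ⊤, fun _ => Module.finrank ℂ V, fun g => ?_⟩
  rw [Fin.sum_univ_one, pc_top, mul_one, Subsingleton.elim g 1]
  show LinearMap.trace ℂ V (ρ 1) = _
  rw [map_one]
  rw [LinearMap.trace_one]
  push_cast
  rfl

theorem permG_mul (hYD1 : Stmt_YD1) (hYD2 : Stmt_YD2) (hYI : Stmt_YI)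
    (hYA : Stmt_YA) (hYP : Stmt_YP) (hYK : Stmt_YK) (hYG : Stmt_YG) (hYO : Stmt_YO)
    (hTL : Stmt_TL) (hTI : Stmt_TI) (hTP : Stmt_TP) (n : ℕ) (G₂ : Type) [Group G₂] [Fintype G₂]
    (hG : PermG G₂) : PermG (Equiv.Perm (Fin n) × G₂) := by
  intro V _ _ _ ρ
  obtain ⟨iF, hcard⟩ := hYD2 n
  have hN : ∀ i j : YD n, ∃ k : ℤ, pair (fc j) (aF (fr i)) = (k : ℂ) := by
    intro i j
    obtain ⟨V', _, _, _, ρ', hρ'⟩ := hYA n (fr i)
    obtain ⟨k, hk⟩ := hYI n V' ρ' (fc j)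
    refine ⟨k, ?_⟩
    rw [← hk]
    congr 1
    funext g
    exact (hρ' g).symm
  choose N hN using hN
  have hc : ∀ (f : Fin n → ℕ), (Nat.card (stab f) : ℂ) ≠ 0 := fun f => by
    exact_mod_cast Nat.card_pos.ne'
  let T : CF n →ₗ[ℂ] (YD n → ℂ) := LinearMap.pi fun j => (pairL (fc j)).comp (CF n).subtype
  have hT : ∀ (θ : CF n) (j : YD n), T θ j = pair (fc j) (θ : Equiv.Perm (Fin n) → ℂ) :=
    fun _ _ => rfl
  have hdiag : ∀ i, N i i = 1 := by
    intro i
    have h1 := hN i i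
    rw [hYP, hYG] at h1
    push_cast at h1
    rw [div_self (mul_ne_zero (hc _) (hc _))] at h1
    exact_mod_cast h1.symm
  have htri : ∀ i j, N i j ≠ 0 → i ≠ j →
      (∑ k ∈ Finset.range (n + 1), (Finset.univ.filter fun a => fr i a < k).card) <
        ∑ k ∈ Finset.range (n + 1), (Finset.univ.filter fun a => fr j a < k).card := by
    intro i j hij hne
    refine hYO n i j hne fun k => ?_
    have h1 : (inj (fr i) (fc j)).Nonempty := by
      rw [Finset.nonempty_iff_ne_empty]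
      intro h
      apply hij
      have h2 := hN i j
      rw [hYP, h, Finset.card_empty, Nat.cast_zero, zero_div] at h2
      exact_mod_cast h2.symm
    obtain ⟨x, hx⟩ := h1
    exact (hYK n i j x hx).1 k
  obtain ⟨M, hM⟩ := hTL (YD n) (CF n) T (fun i => ⟨aF (fr i), aF_class _⟩) N
    (fun μ => ∑ k ∈ Finset.range (n + 1), (Finset.univ.filter fun i => fr μ i < k).card)
    ((hYD1 n).trans hcard) (fun i j => by rw [hT]; exact hN i j) hdiag htri
  have hcl : ∀ g : G₂, (fun s => ρ.character (s, g)) ∈ CF n := by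
    intro g x s
    have h1 := Representation.char_conj ρ (s, g) ((x, 1) : Equiv.Perm (Fin n) × G₂)⁻¹
    have h2 : ((x, 1) : Equiv.Perm (Fin n) × G₂)⁻¹ * (s, g) *
        (((x, 1) : Equiv.Perm (Fin n) × G₂)⁻¹)⁻¹ = (x⁻¹ * s * x, g) := by
      rw [inv_inv]
      ext1 <;> simp
    rw [h2] at h1
    exact h1
  have hψ : ∀ μ : YD n, ∃ (m : ℕ) (H : Fin m → Subgroup G₂) (c : Fin m → ℤ), ∀ g,
      pair (fc μ) (fun s => ρ.character (s, g)) = ∑ i, (c i : ℂ) * pc (H i) g := by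
    intro μ
    obtain ⟨V', _, _, _, ρ', hρ'⟩ := hTI n G₂ V ρ (fc μ)
    obtain ⟨m, H, c, h⟩ := hG V' ρ'
    exact ⟨m, H, c, fun g => by rw [← hρ', h]⟩
  choose m H c hψ using hψ
  refine fin_of _ (YD n × (μ : YD n) × Fin (m μ))
    (fun a => (stab (fr a.1)).prod (H a.2.1 a.2.2))
    (fun a => M a.2.1 a.1 * c a.2.1 a.2.2) ?_
  rintro ⟨s, g⟩
  have h1 := congrArg (fun θ : CF n => (θ : Equiv.Perm (Fin n) → ℂ) s) (hM ⟨_, hcl g⟩)
  simp only [AddSubmonoidClass.coe_finsetSum, Submodule.coe_smul, Finset.sum_apply,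
    Pi.smul_apply, smul_eq_mul] at h1
  rw [h1, Fintype.sum_prod_type]
  refine Finset.sum_congr rfl fun i _ => ?_
  rw [Fintype.sum_sigma, Finset.sum_mul]
  refine Finset.sum_congr rfl fun j _ => ?_
  rw [hT]
  have h2 : pair (fc j) (fun s => ρ.character (s, g)) = ∑ l, (c j l : ℂ) * pc (H j l) g := hψ j g
  rw [show pair (fc j) ((⟨fun s => ρ.character (s, g), hcl g⟩ : CF n) :
    Equiv.Perm (Fin n) → ℂ) = _ from h2, Finset.sum_mul, Finset.sum_mul]
  refine Finset.sum_congr rfl fun l _ => ?_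
  rw [hTP]
  have h3 : aF (fr i) s = pc (stab (fr i)) s := rfl
  rw [h3]
  push_cast
  ring

/-- Splitting off a factor. -/
def piEquiv (k : ℕ) (n : Fin (k + 1) → ℕ) :
    (Equiv.Perm (Fin (n 0)) × (∀ i : Fin k, Equiv.Perm (Fin (n i.succ)))) ≃*
      (∀ i : Fin (k + 1), Equiv.Perm (Fin (n i))) where
  toFun p := Fin.cons p.1 p.2
  invFun f := (f 0, fun i => f i.succ)
  left_inv p := Prod.ext rfl (funext fun _ => rfl)
  right_inv f := by
    funext i
    refine Fin.cases ?_ (fun j => ?_) i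
    · rfl
    · rfl
  map_mul' p q := by
    funext i
    refine Fin.cases ?_ (fun j => ?_) i
    · rfl
    · rfl

theorem permG_pi (hYD1 : Stmt_YD1) (hYD2 : Stmt_YD2) (hYI : Stmt_YI)
    (hYA : Stmt_YA) (hYP : Stmt_YP) (hYK : Stmt_YK) (hYG : Stmt_YG) (hYO : Stmt_YO)
    (hTL : Stmt_TL) (hTI : Stmt_TI) (hTP : Stmt_TP) (hTE : Stmt_TE) (k : ℕ) (n : Fin k → ℕ) :
    PermG (∀ i, Equiv.Perm (Fin (n i))) := by
  induction k with
  | zero =>
    have : Subsingleton (∀ i, Equiv.Perm (Fin (n i))) := ⟨fun a b => funext fun i => i.elim0⟩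
    exact permG_triv _
  | succ k ih =>
    exact hTE _ _ ⟨piEquiv k n⟩ (permG_mul hYD1 hYD2 hYI hYA hYP hYK hYG hYO hTL hTI hTP (n 0) _
      (ih fun i => n i.succ))

end TQx

/-- Products of symmetric groups. -/
def Stmt_TQ : Prop := ∀ (k : ℕ) (n : Fin k → ℕ), PermG (∀ i, Equiv.Perm (Fin (n i)))

end Pool.Agent.YNG
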