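import Mathlib

/-!
# Project YNG, part C: fields without CM subfield (statements; helper6)

Every module proves `theorem X_thm : Stmt_X` (namespace `Pool.Agent.YNG`), file
`Pool/Agent/YNG/X.lean`, importing `Pool.Agent.YNG.StC` only (auxiliary lemmas in a namespace
`Xx`).
-/

set_option autoImplicit false

open NumberField
open scoped Classical

namespace Pool.Agent.YNG

/-- CA (about 50 lines).  Proof: if `F` contains a root of unity `ζ` of order `m > 2`, then
`ℚ(ζ)` (`IntermediateField.adjoin ℚ {ζ}`) is a cyclotomic extension of `ℚ`, hence a CM field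
(`IsCyclotomicExtension.Rat.isCMField`,
`IsPrimitiveRoot.intermediateField_adjoin_isCyclotomicExtension`).  So all roots of unity are
`1, -1`.  The last step (`Units.torsionOrder F = 2`) is written in `Pool/Agent/ABS/WZM.lean`,
`WZMx.torsion_of_real`, which may be copied. -/
def Stmt_CA : Prop :=
  ∀ (F : Type) [Field F] [NumberField F], (¬ ∃ E : IntermediateField ℚ F, IsCMField E) →
    Units.torsionOrder F = 2

/-- CB (about 200 lines).  `[K : ℚ] = 1`, `L/K` Galois, `σ` a representation of `G = Gal(L/K)` with a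
vector `v ≠ 0` fixed by `H = Gal(L/F)` such that no vector `≠ 0` is fixed by the stabilizer of an
infinite place.  Then `F` has a CM subfield.

Proof.  For every embedding `φ : L → ℂ` there is `c_φ ∈ G` with `φ (c_φ x) = conj (φ x)`
(`L/K` is Galois and `K` has only one embedding into `ℂ`, so `conj ∘ φ` is another `K`-embedding;
`NumberField.ComplexEmbedding.IsConj`, `exists_comp_symm_eq_of_comp_eq`), the stabilizer of the place
of `φ` is `{1, c_φ}` (`c_φ^2 = 1`).  For all `u : W` the vector `u + σ(c_φ) u` is fixed by it, so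
`σ(c_φ) u = -u`: `σ(c_φ) = -1` for all `φ`.  Fix one `c = c_φ₀`, let `N = ker σ`.  Then
`c_φ c⁻¹ ∈ N` for all `φ`, `c² = 1`, and for all `g ∈ G` the commutator of `c` and `g` is in `N`.
Let `E = {x ∈ F | n x = x for all n ∈ N}` (an intermediate field of `F/ℚ`; `x` is regarded as an
element of `L`), `E₊ = {x ∈ E | c x = x}`.
(a) `c` maps `E` onto itself: for `x ∈ E`, `h ∈ H`: `h c x = c (c⁻¹ h c) x`, `c⁻¹ h c = h n` with
`n ∈ N` (the commutator), `(c⁻¹ h c) x = h x = x`, so `c x` is fixed by `H`, hence in `F`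
(`L/F` is Galois), and fixed by `N` (normal subgroup).
(b) `E` is totally complex, in particular `c ≠ 1` on `E`: an embedding of `E` extends to an
embedding `φ` of `L`; if it is real on `E` then `c_φ x = x` for all `x ∈ E`; by the Galois
correspondence `E` is the fixed field of the subgroup `H ⊔ N`, so `c_φ ∈ H ⊔ N`, which fixes `v`;
but `σ(c_φ) v = -v ≠ v`.
(c) `E₊` is totally real: an embedding extends to `φ` on `L`, `c_φ = n c` with `n ∈ N`, so
`conj (φ x) = φ (c_φ x) = φ (n c x) = φ x` for `x ∈ E₊`.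
(d) `E/E₊` is quadratic: take `d ∈ E` with `c d ≠ d`, `δ = d - c d`, `c δ = -δ`; `x = (x + c x)/2 +
((x - c x)/(2 δ)) δ`, and `1, δ` are independent over `E₊`.
(e) `IsCMField.ofCMExtension`. -/
def Stmt_CB : Prop :=
  ∀ (K F L : Type) [Field K] [NumberField K] [Field F] [NumberField F] [Field L] [NumberField L]
    [Algebra K F] [Algebra K L] [Algebra F L] [IsScalarTower K F L] [IsGalois K L],
    Module.finrank ℚ K = 1 →
    ∀ (W : Type) [AddCommGroup W] [Module ℂ W] (σ : Representation ℂ (L ≃ₐ[K] L) W),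
      (∃ v : W, v ≠ 0 ∧ ∀ g : L ≃ₐ[K] L,
        (∀ x : F, g (algebraMap F L x) = algebraMap F L x) → σ g v = v) →
      (∀ (w : InfinitePlace L) (v : W),
        (∀ g ∈ MulAction.stabilizer (L ≃ₐ[K] L) w, σ g v = v) → v = 0) →
      ∃ E : IntermediateField ℚ F, IsCMField E

/-- CB1 (part of CB, about 80 lines).  Complex conjugations.  For every embedding `φ` there is `c`
with `φ (c x) = conj (φ x)` (see CB), it lies in the stabilizer of the place of `φ`, which is
`{1, c}`; so `σ c = -1`. -/
def Stmt_CB1 : Prop :=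
  ∀ (K L : Type) [Field K] [NumberField K] [Field L] [NumberField L] [Algebra K L]
    [IsGalois K L], Module.finrank ℚ K = 1 →
    ∀ (W : Type) [AddCommGroup W] [Module ℂ W] (σ : Representation ℂ (L ≃ₐ[K] L) W),
      (∀ (w : InfinitePlace L) (v : W),
        (∀ g ∈ MulAction.stabilizer (L ≃ₐ[K] L) w, σ g v = v) → v = 0) →
      ∀ φ : L →+* ℂ, ∃ c : L ≃ₐ[K] L, (∀ x, φ (c x) = starRingEnd ℂ (φ x)) ∧
        ∀ v : W, σ c v = -v

end Pool.Agent.YNG
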