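import Pool.Agent.YNG.StH

/-!
# Project YNG, module HA (helper62): the number of double cosets grows
-/

set_option autoImplicit false

open scoped Classical

namespace Pool.Agent.YNG

namespace HAx

variable {G : Type} [Group G]

/-- The map on double cosets induced by an inclusion of subgroups. -/
noncomputable def f (H M : Subgroup G) (h : H ≤ M) :
    DoubleCoset.Quotient (H : Set G) (H : Set G) →
      DoubleCoset.Quotient (M : Set G) (M : Set G) :=
  _root_.Quotient.map (sa := DoubleCoset.setoid (H : Set G) (H : Set G))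
    (sb := DoubleCoset.setoid (M : Set G) (M : Set G)) id (by
      intro x y hxy
      have h1 := DoubleCoset.rel_iff.1 hxy
      obtain ⟨a, ha, b, hb, hy⟩ := h1
      exact DoubleCoset.rel_iff.2 ⟨a, h ha, b, h hb, hy⟩)

theorem f_mk (H M : Subgroup G) (h : H ≤ M) (x : G) :
    f H M h (_root_.Quotient.mk (DoubleCoset.setoid (H : Set G) (H : Set G)) x) =
      _root_.Quotient.mk (DoubleCoset.setoid (M : Set G) (M : Set G)) x := rfl

theorem f_surj (H M : Subgroup G) (h : H ≤ M) : Function.Surjective (f H M h) := by
  intro y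
  induction y using _root_.Quotient.inductionOn with
  | h x => exact ⟨_root_.Quotient.mk _ x, rfl⟩

theorem f_not_inj (H M : Subgroup G) (h : H < M) : ¬ Function.Injective (f H M h.le) := by
  intro hinj
  obtain ⟨g, hgM, hgH⟩ := SetLike.exists_of_lt h
  have h1 : f H M h.le (_root_.Quotient.mk (DoubleCoset.setoid (H : Set G) (H : Set G)) 1) =
      f H M h.le (_root_.Quotient.mk (DoubleCoset.setoid (H : Set G) (H : Set G)) g) := by
    rw [f_mk, f_mk]
    apply _root_.Quotient.sound
    exact DoubleCoset.rel_iff.2 ⟨g, hgM, 1, M.one_mem, by simp⟩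
  have h2 := _root_.Quotient.exact (hinj h1)
  obtain ⟨a, ha, b, hb, hg⟩ := DoubleCoset.rel_iff.1 h2
  apply hgH
  rw [hg]
  simpa using H.mul_mem ha hb

end HAx

theorem HA_thm : Stmt_HA := by
  intro G _ _ H M h
  have : Finite (DoubleCoset.Quotient (H : Set G) (H : Set G)) :=
    Finite.of_surjective (_root_.Quotient.mk (DoubleCoset.setoid (H : Set G) (H : Set G)))
      _root_.Quotient.mk_surjective
  have : Finite (DoubleCoset.Quotient (M : Set G) (M : Set G)) :=
    Finite.of_surjective (_root_.Quotient.mk (DoubleCoset.setoid (M : Set G) (M : Set G)))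
      _root_.Quotient.mk_surjective
  have := Fintype.ofFinite (DoubleCoset.Quotient (H : Set G) (H : Set G))
  have := Fintype.ofFinite (DoubleCoset.Quotient (M : Set G) (M : Set G))
  rw [Nat.card_eq_fintype_card, Nat.card_eq_fintype_card]
  exact Fintype.card_lt_of_surjective_not_injective (HAx.f H M h.le) (HAx.f_surj H M h.le)
    (HAx.f_not_inj H M h)

end Pool.Agent.YNG
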