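import Pool.Agent.YNG.StH
import Pool.Agent.YNG.TC

/-!
# Project YNG, part H, module HB: one step of minimal rank (helper56)

If `H ≤ M` and `H` has one more double coset than `M`, then `pc H - pc M` has norm one, and an
irreducible character with a vector fixed by `H` and none fixed by `M` is equal to it.
-/

set_option autoImplicit false

open scoped Classical ComplexConjugate

namespace Pool.Agent.YNG

namespace HBx

variable {G : Type} [Group G] [Fintype G]

theorem fin_Q (A B : Subgroup G) : Finite (DoubleCoset.Quotient (A : Set G) (B : Set G)) :=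
  Finite.of_surjective (fun g : G => DoubleCoset.mk A B g) fun q =>
    ⟨Quotient.out q, DoubleCoset.out_eq' A B q⟩

/-- The sum of the numbers `N A B z z` counts the double cosets `A z B`. -/
theorem dc_sum (A B : Subgroup G) :
    ∑ z : G, TCx.N A B z z =
      (Nat.card (DoubleCoset.Quotient (A : Set G) (B : Set G)) : ℂ) *
        ((Nat.card A : ℂ) * (Nat.card B : ℂ)) := by
  have hfin := fin_Q A B
  have hft : Fintype (DoubleCoset.Quotient (A : Set G) (B : Set G)) := Fintype.ofFinite _
  let r : DoubleCoset.Quotient (A : Set G) (B : Set G) → G := fun q => Quotient.out q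
  have hr : ∀ q, DoubleCoset.mk A B (r q) = q := fun q => DoubleCoset.out_eq' A B q
  have key : ∀ z : G, TCx.N A B z z = ∑ q, TCx.N A B (r q) z := by
    intro z
    rw [Finset.sum_eq_single (DoubleCoset.mk A B z)]
    · obtain ⟨a, ha, b, hb, hab⟩ := (DoubleCoset.eq A B _ _).1 (hr (DoubleCoset.mk A B z))
      exact (TCx.N_shift A B _ z a b ha hb hab).symm
    · intro q _ hq
      refine TCx.N_zero A B _ _ ?_
      intro a ha b hb hab
      apply hq
      rw [← hr q]
      exact (DoubleCoset.eq A B _ _).2 ⟨a, ha, b, hb, hab.symm⟩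
    · intro h
      exact absurd (Finset.mem_univ _) h
  rw [Finset.sum_congr rfl fun z _ => key z, Finset.sum_comm,
    Finset.sum_congr rfl fun q _ => TCx.sum_N A B (r q), Finset.sum_const, Finset.card_univ,
    nsmul_eq_mul, ← Nat.card_eq_fintype_card]

/-- The map of the double cosets when both groups grow. -/
noncomputable def up (A A' B B' : Subgroup G)
    (q : DoubleCoset.Quotient (A : Set G) (B : Set G)) :
    DoubleCoset.Quotient (A' : Set G) (B' : Set G) :=
  DoubleCoset.mk A' B' (Quotient.out q)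

theorem up_mk (A A' B B' : Subgroup G) (hA : A ≤ A') (hB : B ≤ B') (g : G) :
    up A A' B B' (DoubleCoset.mk A B g) = DoubleCoset.mk A' B' g := by
  obtain ⟨a, ha, b, hb, hab⟩ := (DoubleCoset.eq A B _ _).1
    (DoubleCoset.out_eq' A B (DoubleCoset.mk A B g))
  exact (DoubleCoset.eq A' B' _ _).2 ⟨a, hA ha, b, hB hb, hab⟩

theorem up_surj (A A' B B' : Subgroup G) (hA : A ≤ A') (hB : B ≤ B') :
    Function.Surjective (up A A' B B') := by
  intro q
  refine ⟨DoubleCoset.mk A B (Quotient.out q), ?_⟩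
  rw [up_mk A A' B B' hA hB]
  exact DoubleCoset.out_eq' A' B' q

/-- The number of double cosets `M x H`. -/
theorem card_MH (H M : Subgroup G) (hHM : H ≤ M)
    (hcard : Nat.card (DoubleCoset.Quotient (H : Set G) (H : Set G)) =
      Nat.card (DoubleCoset.Quotient (M : Set G) (M : Set G)) + 1) :
    Nat.card (DoubleCoset.Quotient (M : Set G) (H : Set G)) =
      Nat.card (DoubleCoset.Quotient (M : Set G) (M : Set G)) := by
  have f1 := fin_Q M H
  have f2 := fin_Q M M
  have f3 := fin_Q H H
  have h1 : Nat.card (DoubleCoset.Quotient (M : Set G) (M : Set G)) ≤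
      Nat.card (DoubleCoset.Quotient (M : Set G) (H : Set G)) :=
    Nat.card_le_card_of_surjective _ (up_surj M M H M (le_refl M) hHM)
  obtain ⟨g, hgM, hgH⟩ : ∃ g, g ∈ M ∧ g ∉ H := by
    by_contra hcon
    push Not at hcon
    have : H = M := le_antisymm hHM hcon
    rw [this] at hcard
    omega
  have h2 : Nat.card (DoubleCoset.Quotient (M : Set G) (H : Set G)) <
      Nat.card (DoubleCoset.Quotient (H : Set G) (H : Set G)) := by
    have t1 : Fintype (DoubleCoset.Quotient (M : Set G) (H : Set G)) := Fintype.ofFinite _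
    have t2 : Fintype (DoubleCoset.Quotient (H : Set G) (H : Set G)) := Fintype.ofFinite _
    rw [Nat.card_eq_fintype_card, Nat.card_eq_fintype_card]
    refine Fintype.card_lt_of_surjective_not_injective _
      (up_surj H M H H hHM (le_refl H)) ?_
    intro hinj
    have h3 : up H M H H (DoubleCoset.mk H H g) = up H M H H (DoubleCoset.mk H H 1) := by
      rw [up_mk H M H H hHM (le_refl H), up_mk H M H H hHM (le_refl H)]
      exact (DoubleCoset.eq M H _ _).2 ⟨g⁻¹, M.inv_mem hgM, 1, H.one_mem, by group⟩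
    obtain ⟨a, ha, b, hb, hab⟩ := (DoubleCoset.eq H H _ _).1 (hinj h3)
    apply hgH
    have e : g = a⁻¹ * b⁻¹ := by
      have : g = a⁻¹ * (a * g * b) * b⁻¹ := by group
      rw [this, ← hab, mul_one]
    rw [e]
    exact H.mul_mem (H.inv_mem ha) (H.inv_mem hb)
  omega

/-- The inner product of two permutation characters. -/
theorem sum_pc (A B : Subgroup G) :
    ∑ g : G, pc A g * pc B g =
      (Nat.card G : ℂ) * (Nat.card (DoubleCoset.Quotient (A : Set G) (B : Set G)) : ℂ) := by
  have hA : (Nat.card A : ℂ) ≠ 0 := Nat.cast_ne_zero.2 Nat.card_pos.ne'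
  have hB : (Nat.card B : ℂ) ≠ 0 := Nat.cast_ne_zero.2 Nat.card_pos.ne'
  have h1 : ∀ g : G, pc A g * pc B g = PAx.P A g * PAx.P B g /
      ((Nat.card A : ℂ) * (Nat.card B : ℂ)) := by
    intro g
    have e1 : pc A g = PAx.P A g / (Nat.card A : ℂ) := rfl
    have e2 : pc B g = PAx.P B g / (Nat.card B : ℂ) := rfl
    rw [e1, e2]
    field_simp
  rw [Finset.sum_congr rfl fun g _ => h1 g, ← Finset.sum_div, TCx.sum_PP, dc_sum]
  field_simp

/-- The inner product of a permutation character with a character. -/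
theorem sum_pc_char (A : Subgroup G) {W : Type} [AddCommGroup W] [Module ℂ W]
    [Module.Finite ℂ W] (σ : Representation ℂ G W) :
    ∃ d : ℕ, ∑ g : G, pc A g * σ.character g = (Nat.card G : ℂ) * d ∧
      ((∃ v : W, v ≠ 0 ∧ ∀ h ∈ A, σ h v = v) → 1 ≤ d) ∧
      ((¬ ∃ v : W, v ≠ 0 ∧ ∀ h ∈ A, σ h v = v) → d = 0) := by
  have hA : (Nat.card A : ℂ) ≠ 0 := Nat.cast_ne_zero.2 Nat.card_pos.ne'
  let τ : Representation ℂ A W := σ.comp A.subtype
  have h0 : ∑ g : G, PAx.P A g * σ.character g =
      (Nat.card G : ℂ) * ((Nat.card A : ℂ) * (Module.finrank ℂ τ.invariants : ℕ)) := by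
    rw [PAx.sum_P_mul A σ.character (fun x g => σ.char_conj g x), ← PAx.sum_sub A σ.character]
    congr 1
    have h1 := PAx.sum_char τ
    rw [← h1]
    rfl
  refine ⟨Module.finrank ℂ τ.invariants, ?_, ?_, ?_⟩
  · have h1 : ∀ g : G, pc A g * σ.character g = PAx.P A g * σ.character g /
        (Nat.card A : ℂ) := by
      intro g
      have e1 : pc A g = PAx.P A g / (Nat.card A : ℂ) := rfl
      rw [e1]
      ring
    rw [Finset.sum_congr rfl fun g _ => h1 g, ← Finset.sum_div, h0]
    field_simp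
  · rintro ⟨v, hv, hH⟩
    have hm : v ∈ τ.invariants := fun h => hH h h.2
    have hn : Nontrivial τ.invariants := ⟨⟨⟨v, hm⟩, 0, fun h => hv (congrArg Subtype.val h)⟩⟩
    exact Module.finrank_pos
  · intro hno
    have hbot : τ.invariants = ⊥ := by
      rw [Submodule.eq_bot_iff]
      intro v hv
      by_contra hv0
      exact hno ⟨v, hv0, fun h hh => hv ⟨h, hh⟩⟩
    rw [hbot]
    exact finrank_bot ℂ W

end HBx

theorem HB_thm : Stmt_HB := by
  intro G _ _ H M hHM hcard W _ _ _ σ hσ hv
  by_cases hM : ∃ v : W, v ≠ 0 ∧ ∀ h ∈ M, σ h v = v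
  · exact Or.inl hM
  right
  have hcG : (Nat.card G : ℝ) > 0 := by exact_mod_cast Nat.card_pos
  obtain ⟨dH, hdH, hdH1, -⟩ := HBx.sum_pc_char H σ
  obtain ⟨dM, hdM, -, hdM0⟩ := HBx.sum_pc_char M σ
  have hdH1 := hdH1 hv
  have hdM0 := hdM0 hM
  have hinv : ∀ (A : Subgroup G) (d : ℕ),
      ∑ g : G, pc A g * σ.character g = (Nat.card G : ℂ) * d →
      ∑ g : G, pc A g * σ.character g⁻¹ = (Nat.card G : ℂ) * d := by
    intro A d hd
    rw [← hd, ← Equiv.sum_comp (Equiv.inv G)]
    refine Finset.sum_congr rfl fun g _ => ?_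
    simp only [Equiv.inv_apply, inv_inv]
    have e : pc A g⁻¹ = pc A g := by
      show PAx.P A g⁻¹ / _ = PAx.P A g / _
      rw [PAx.P_inv]
    rw [e]
  have hdH' := hinv H dH hdH
  have hdM' := hinv M dM hdM
  have hs5 := PAx.sum_mul_inv σ hσ
  have hpc : ∀ (A : Subgroup G) (g : G), conj (pc A g) = pc A g := by
    intro A g
    show conj (PAx.P A g / _) = PAx.P A g / _
    rw [map_div₀, PAx.P_conj, map_natCast]
  have hHH := HBx.sum_pc H H
  have hMH := HBx.sum_pc M H
  have hMM := HBx.sum_pc M M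
  rw [HBx.card_MH H M hHM hcard] at hMH
  rw [hcard] at hHH
  let ψ : G → ℂ := fun g => σ.character g - (pc H g - pc M g)
  have hsum : ∑ g : G, ψ g * conj (ψ g) =
      (Nat.card G : ℂ) * (2 - 2 * (dH : ℂ)) := by
    have e : ∀ g, ψ g * conj (ψ g) = σ.character g * σ.character g⁻¹
        - pc H g * σ.character g - pc H g * σ.character g⁻¹
        + pc M g * σ.character g + pc M g * σ.character g⁻¹
        + pc H g * pc H g - 2 * (pc M g * pc H g)
        + pc M g * pc M g := by
      intro g
      simp only [ψ]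
      rw [map_sub, map_sub, hpc, hpc, ← PAx.char_inv]
      ring
    rw [Finset.sum_congr rfl fun g _ => e g]
    simp only [Finset.sum_add_distrib, Finset.sum_sub_distrib, ← Finset.mul_sum]
    rw [hs5, hdH, hdH', hdM, hdM', hHH, hMH, hMM, hdM0]
    push_cast
    ring
  have hreal : ∑ g : G, Complex.normSq (ψ g) =
      (Nat.card G : ℝ) * (2 - 2 * (dH : ℝ)) := by
    have : ((∑ g : G, Complex.normSq (ψ g) : ℝ) : ℂ)
        = (((Nat.card G : ℝ) * (2 - 2 * (dH : ℝ)) : ℝ) : ℂ) := by
      rw [Complex.ofReal_sum]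
      push_cast
      rw [← hsum]
      refine Finset.sum_congr rfl fun g _ => ?_
      rw [Complex.mul_conj]
    exact_mod_cast this
  have hle' : ∑ g : G, Complex.normSq (ψ g) ≤ 0 := by
    rw [hreal]
    have : (1 : ℝ) ≤ dH := by exact_mod_cast hdH1
    apply mul_nonpos_of_nonneg_of_nonpos hcG.le
    linarith
  have hz : ∑ g : G, Complex.normSq (ψ g) = 0 :=
    le_antisymm hle' (Finset.sum_nonneg fun g _ => Complex.normSq_nonneg _)
  rw [Finset.sum_eq_zero_iff_of_nonneg fun g _ => Complex.normSq_nonneg _] at hz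
  intro g
  exact sub_eq_zero.1 (Complex.normSq_eq_zero.1 (hz g (Finset.mem_univ g)))

end Pool.Agent.YNG
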