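import Pool.Agent.YNG.StH

/-!
# YNG_HC: a chain of subgroups with minimal growth of the number of double cosets
-/

set_option autoImplicit false

open scoped Classical

namespace Pool.Agent.YNG

namespace HCx

/-- the number of the double cosets of `H` -/
noncomputable def dc {G : Type} [Group G] (H : Subgroup G) : ℕ :=
  Nat.card (DoubleCoset.Quotient (H : Set G) (H : Set G))

theorem grow (hA : Stmt_HA) (G : Type) [Group G] [Fintype G] (k : ℕ)
    (C : Fin (k + 1) → Subgroup G) (hC : StrictAnti C) (d : ℕ) :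
    ∀ (i : ℕ) (hi : i < k + 1) (hj : i + d < k + 1), dc (C ⟨i, hi⟩) + d ≤ dc (C ⟨i + d, hj⟩) := by
  induction d with
  | zero =>
    intro i hi hj
    exact le_rfl
  | succ d ih =>
    intro i hi hj
    have h1 := ih i hi (by omega)
    have hlt : C ⟨i + (d + 1), hj⟩ < C ⟨i + d, by omega⟩ := by
      apply hC
      rw [Fin.mk_lt_mk]
      omega
    have h2 : dc (C ⟨i + d, by omega⟩) + 1 ≤ dc (C ⟨i + (d + 1), hj⟩) := hA G _ _ hlt
    omega

end HCx

open HCx

/-- HC. -/
theorem HC_thm (hA : Stmt_HA) (hB : Stmt_HB) : Stmt_HC := by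
  intro G _ _ k C hC hr W _ _ _ σ hσ hv
  have hr' : dc (C ⟨k, by omega⟩) = dc (C ⟨0, by omega⟩) + k := hr
  have hstep : ∀ i (hi : i < k), dc (C ⟨i + 1, by omega⟩) = dc (C ⟨i, by omega⟩) + 1 := by
    intro i hi
    have h1 : dc (C ⟨0, by omega⟩) + i ≤ dc (C ⟨i, by omega⟩) := by
      have h := grow hA G k C hC i 0 (by omega) (by omega)
      have e : (⟨0 + i, by omega⟩ : Fin (k + 1)) = ⟨i, by omega⟩ := Fin.ext (Nat.zero_add i)
      rwa [e] at h
    have h2 : dc (C ⟨i, by omega⟩) + 1 ≤ dc (C ⟨i + 1, by omega⟩) :=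
      grow hA G k C hC 1 i (by omega) (by omega)
    have h3 : dc (C ⟨i + 1, by omega⟩) + (k - (i + 1)) ≤ dc (C ⟨k, by omega⟩) := by
      have h := grow hA G k C hC (k - (i + 1)) (i + 1) (by omega) (by omega)
      have e : (⟨i + 1 + (k - (i + 1)), by omega⟩ : Fin (k + 1)) = ⟨k, by omega⟩ :=
        Fin.ext (by show i + 1 + (k - (i + 1)) = k; omega)
      rwa [e] at h
    omega
  have key : ∀ d (hd : d ≤ k), (∃ v : W, v ≠ 0 ∧ ∀ h ∈ C ⟨k - d, by omega⟩, σ h v = v) ∨
      ∃ i j : Fin (k + 1), ∀ g, σ.character g = pc (C j) g - pc (C i) g := by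
    intro d
    induction d with
    | zero =>
      intro _
      exact Or.inl hv
    | succ d ih =>
      intro hd
      rcases ih (by omega) with h | h
      · have hi : k - (d + 1) < k := by omega
        have e : (⟨k - (d + 1) + 1, by omega⟩ : Fin (k + 1)) = ⟨k - d, by omega⟩ :=
          Fin.ext (by show k - (d + 1) + 1 = k - d; omega)
        have hs := hstep _ hi
        rw [e] at hs
        have hle : C ⟨k - d, by omega⟩ ≤ C ⟨k - (d + 1), by omega⟩ := by
          apply hC.antitone
          rw [Fin.mk_le_mk]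
          omega
        rcases hB G _ _ hle hs W σ hσ h with h' | h'
        · exact Or.inl h'
        · exact Or.inr ⟨_, _, h'⟩
      · exact Or.inr h
  have h := key k le_rfl
  have e : (⟨k - k, by omega⟩ : Fin (k + 1)) = 0 := Fin.ext (by show k - k = 0; omega)
  rw [e] at h
  exact h

end Pool.Agent.YNG
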