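import Mathlib

/-!
# Project YNG, part S: fields of degree six (statements; helper6)

Every module proves `theorem X_thm : Stmt_X` (namespace `Pool.Agent.YNG`), file
`Pool/Agent/YNG/X.lean`, importing `Pool.Agent.YNG.StS` only (auxiliary lemmas in a namespace
`Xx`).  `G` acts on the six cosets of `H`.
-/

set_option autoImplicit false

open scoped Classical

namespace Pool.Agent.YNG

/-- PS0 (about 100 lines).  Proof.  `F` = functions `G ⧸ H → ℂ`, `V₁ ⊆ F` the functions with sum `0` over
the cosets of `H` in every coset of `M`; `dim V₁ = [G : H] - [G : M]`, the character of `V₁` is the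
difference of the two permutation characters (`F / V₁` is isomorphic to the functions on `G ⧸ M`).
`T : F → W`, `T u = ∑_{gH} u(gH) σ g v`, is equivariant and onto (its image is not `0` and `W` is
irreducible).  `T` is `0` on the functions which are constant on the cosets of `M`: the vector
`∑_{mH ⊆ M} σ m v` is fixed by `M`, so `0`.  `F` is the sum of `V₁` and these functions, so `T : V₁ → W`
is onto; if the dimensions are equal it is an isomorphism. -/
def Stmt_PS0 : Prop :=
  ∀ (G : Type) [Group G] [Fintype G] (H M : Subgroup G), H ≤ M →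
    ∀ (W : Type) [AddCommGroup W] [Module ℂ W] [Module.Finite ℂ W]
      (σ : Representation ℂ G W), σ.IsIrreducible →
      (∃ v : W, v ≠ 0 ∧ ∀ h ∈ H, σ h v = v) → (∀ v : W, (∀ m ∈ M, σ m v = v) → v = 0) →
      Module.finrank ℂ W + M.index ≤ H.index ∧
      (Module.finrank ℂ W + M.index = H.index → ∀ g, σ.character g =
        (∑ x : G, if x⁻¹ * g * x ∈ H then (1 : ℂ) else 0) / (Nat.card H : ℂ) -
          (∑ x : G, if x⁻¹ * g * x ∈ M then (1 : ℂ) else 0) / (Nat.card M : ℂ))

/-- PS1 (primitive groups of degree six, about 200 lines).  Proof.  Let `X = G ⧸ H`, `x₀` the coset of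
`1`.  Suppose `H` is not transitive on `X \ {x₀}`.  An orbit of length `1`, `{g x₀}`, gives
`g⁻¹ H g = H`, so the normalizer of `H` is `G` (`H` is maximal), `G ⧸ H` is a group of order six, which has
a subgroup of order `2` (Cauchy): a subgroup strictly between.  So the orbits have lengths `2` and `3`.
Let `R x y` hold if `(x, y)` is in the `G`-orbit of `(x₀, y₀)`, `y₀` in the orbit of length `2`.  `R` is
`G`-invariant, every `x` has two `R`-neighbours; `R` is symmetric (the transposed relation is a
`G`-orbit on pairs with two neighbours, and the other orbit has three).  Let `S x y` hold if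
`x = y` or there is `z` with `R x z`, `R z y`.  A graph with six vertices in which all vertices have
degree `2` is a hexagon or two triangles; in both cases `S` is an equivalence relation with
classes of size `3`.  (By hand: let `x` have the neighbours `y, z`; if `R y z` then `{x, y, z}` is a
component; else let `y'`, `z'` be the other neighbours of `y`, `z`; `y' ≠ z'`, else the remaining two
vertices would have degree at most `1`; the remaining vertex `w` is adjacent to `y'` and `z'`.)  Then
`M = {g | S x₀ (g x₀)}` is a subgroup, `H < M < G`: contradiction. -/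
def Stmt_PS1 : Prop :=
  ∀ (G : Type) [Group G] [Fintype G] (H : Subgroup G), H.index = 6 →
    (∀ M : Subgroup G, H ≤ M → M = H ∨ M = ⊤) →
    ∀ g g' : G, g ∉ H → g' ∉ H → ∃ a ∈ H, ∃ b ∈ H, g' = a * g * b

/-- PS2 (about 120 lines).  Proof.  `[M : H] = 2`.  For `m ∈ M \ H` the vector `v + σ m v` is fixed by `M`,
so `σ m v = -v`; hence `σ m v = ± v` for `m ∈ M` and the line `L_g = ℂ σ g v` depends only on `g M`:
three lines, permuted by `G`, which span `W`.  Let `N` be the kernel of the action of `G` on the three
cosets of `M`; `σ n` (`n ∈ N`) acts by `± 1` on every `L_g`.  Some `c ∈ G` permutes the three cosets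
cyclically.  If two of the lines are equal, then (apply `c`) all are equal, `W` is a line and
`σ n = ± 1`.  If not, then `dim W = 2` and `σ n` has three different eigenlines, so it is a scalar:
`σ n = ± 1`.  Let `g ∈ G`.  If `g³ ∈ N` then `(σ g)³ = ± 1`.  If not, `g` acts as a transposition:
`g² ∈ N` and `g` fixes a coset `x M`, `σ g (σ x v) = ± σ x v`, so `σ (g²)`, which is `± 1`, is
`1`. -/
def Stmt_PS2 : Prop :=
  ∀ (G : Type) [Group G] [Fintype G] (H M : Subgroup G), H ≤ M → H.index = 6 → M.index = 3 →
    ∀ (W : Type) [AddCommGroup W] [Module ℂ W] [Module.Finite ℂ W]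
      (σ : Representation ℂ G W), σ.IsIrreducible →
      (∃ v : W, v ≠ 0 ∧ ∀ h ∈ H, σ h v = v) → (∀ v : W, (∀ m ∈ M, σ m v = v) → v = 0) →
      Module.finrank ℂ W ≤ 2 → ∀ g, σ g ^ 6 = 1

/-- PS3 (about 200 lines).  Proof.  `M` is normal of index `2`, `[M : H] = 3`.  Let `U` be the span of the
`σ m v`, `m ∈ M`: it is stable under `M`, and a quotient of the functions with sum `0` on `M ⧸ H` (as in
PS0, the sum of the three vectors `σ m v` is fixed by `M`, so `0`), so `dim U ≤ 2`.  `W = U + σ g U` for
`g ∉ M`.  Let `M' ⊆ S₃` be the image of `M` in the permutations of the three cosets of `H`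
(transitive).
(1) If `M'` has order three: `m³` acts trivially on the three cosets, so `σ (m³) = 1` on `U` and
(conjugate by `g`) on `σ g U`, so on `W`; for `x ∈ G`, `x² ∈ M`, so `σ x ^ 6 = 1`.
(2) If `M' = S₃`: the functions with sum `0` are an irreducible representation of `S₃` of dimension
`2`, so `U` is irreducible under `M` of dimension `2` (`U ≠ 0`); `U ∩ σ g U` is stable under `M` and not
`0` because `dim W ≤ 3`; so `U = σ g U = W`.  `σ m` depends only on the image of `m` in `S₃`, and
`σ(M)` is isomorphic to `S₃`: let `t, r ∈ σ(M)` be of order `2` and `3`, `t r t = r⁻¹`.  Let `x ∉ M`.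
`σ x` normalizes `σ(M)`, `σ x t (σ x)⁻¹` is one of the three elements `r^i t r^(-i)` of order `2`, so
there is `y ∈ M x` (`y = m x`) such that `σ y` commutes with `t`; `σ y r (σ y)⁻¹ = r` or `r⁻¹`; replacing
`σ y` by `t σ y` in the second case we get `m ∈ M` with `z = σ (m x)` commuting with `t` and `r`,
so with `σ(M)`; by Schur's lemma `z` is a scalar.  `σ x = σ m⁻¹ z`, `σ (x²) = σ m⁻² z² ∈ σ(M)`, so the
scalar `z²` is in `σ(M)`, which has trivial centre: `z² = 1`, and `σ x ^ 6 = (σ m⁻¹) ^ 6 = 1`. -/
def Stmt_PS3 : Prop :=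
  ∀ (G : Type) [Group G] [Fintype G] (H M : Subgroup G), H ≤ M → H.index = 6 → M.index = 2 →
    ∀ (W : Type) [AddCommGroup W] [Module ℂ W] [Module.Finite ℂ W]
      (σ : Representation ℂ G W), σ.IsIrreducible →
      (∃ v : W, v ≠ 0 ∧ ∀ h ∈ H, σ h v = v) → (∀ v : W, (∀ m ∈ M, σ m v = v) → v = 0) →
      Module.finrank ℂ W ≤ 3 → ∀ g, σ g ^ 6 = 1

end Pool.Agent.YNG
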