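import Mathlib

/-!
# Project YNG, part F: pure fields of odd degree (statements; helper6)

Every module proves `theorem X_thm : Stmt_X` (namespace `Pool.Agent.YNG`), file
`Pool/Agent/YNG/X.lean`, importing `Pool.Agent.YNG.StF` only (auxiliary lemmas in a namespace
`Xx`).
-/

set_option autoImplicit false

open NumberField IntermediateField Polynomial
open scoped Classical

namespace Pool.Agent.YNG

/-- FA0 (Ramanujan sums, about 60 lines).  Proof by strong induction on `d`: the sum over all
`j : ZMod d` of `ζ^(b j)` is `d` or `0`; every `j` is, with `e` its additive order (a divisor of `d`),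
`(d/e) j'` with a unit `j'` modulo `e`, so this sum is the sum over the divisors `e` of `d` of the
sums in question for `e` (with the primitive `e`-th root `ζ^(d/e)`); the ones with `e < d` are
rational by induction. -/
def Stmt_FA0 : Prop :=
  ∀ (d : ℕ) [NeZero d] (ζ : ℂ), IsPrimitiveRoot ζ d → ∀ b : ℕ,
    ∃ q : ℚ, (∑ j : (ZMod d)ˣ, ζ ^ (b * (j : ZMod d).val)) = (q : ℂ)

/-- FA (representations of groups of affine maps of `ℤ/n`, about 280 lines; hypothesis `Stmt_FA0`,
used only for the last assertion).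
Proof.  `N = ker f ⊆ H` is normal, fixes all `σ g v`, which span `W`: `σ = 1` on `N`, in particular
`σ c ^ n = 1`.  Every `g` is `c^b h` with `h ∈ H`, `b = f g 0`; for `h ∈ H` there is a unit `u = u_h`
with `f h x = u x` (`f h 0 = 0`, and `f h` is injective), `h c h⁻¹ ∈ c^u N`.  Let `ζ` be a primitive
`n`-th root of unity: `W = ⊕ W_j`, `W_j` the eigenspace of `σ c` for `ζ^j`, `j : ZMod n`;
`σ h W_j ⊆ W_(j u⁻¹)`.  Write `v = ∑ v_j`; `σ h v_j = v_(j u⁻¹)`, because `σ h v = v`.  Choose `j₀` with
`v_(j₀) ≠ 0`, let `O` be the orbit of `j₀` under the group `U` of all `u_h`: `v_j ≠ 0` for `j ∈ O`, and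
the span of these `v_j` is stable under `c` and `H`, so it is `W`: the `v_j`, `j ∈ O`, are a basis of
`W` (eigenvectors for different eigenvalues), `σ c v_j = ζ^j v_j`, `σ h v_j = v_(j u_h⁻¹)`.
`A` = the subgroup generated by the class of `c`, `B` = the image of `H`.  `A` is normal
(`h c h⁻¹ ∈ c^u N`), cyclic, `A ⊔ B = ⊤`.  If the class of `h` commutes with the class of `c` then
`σ (c^(u-1)) = 1`, so `(u - 1) j = 0` for `j ∈ O`, `σ h v_j = v_j`, `σ h = 1`.
Character: `g = c^b h`.  If `j u_h⁻¹ = j` for one `j ∈ O` then for all (`U` is commutative and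
transitive on `O`), `σ h = 1` and the character is the one of `c^b`.  Otherwise it is `0`.
Last assertion: if all units occur in `U`, `O` is the set of all `j` with the same additive order `d`
as `j₀`, and the character of `c^b` is `∑_j ζ^(b j)` over the `j` of order `d`: the sum in FA0 for
`ζ^(n/d)`. -/
def Stmt_FA : Prop :=
  ∀ (n : ℕ) [NeZero n] (G : Type) [Group G] [Fintype G] (H : Subgroup G)
    (f : G →* Equiv.Perm (ZMod n)) (c : G), (∀ g, g ∈ H ↔ f g 0 = 0) →
    (∀ x, f c x = x + 1) → (∀ g, ∃ a b : ZMod n, ∀ x, f g x = a * x + b) →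
    ∀ (W : Type) [AddCommGroup W] [Module ℂ W] [Module.Finite ℂ W]
      (σ : Representation ℂ G W), σ.IsIrreducible →
      (∃ v : W, v ≠ 0 ∧ ∀ h ∈ H, σ h v = v) →
      (∃ A B : Subgroup (G ⧸ MonoidHom.ker σ), A.Normal ∧ IsCyclic A ∧ A ⊔ B = ⊤ ∧
        ∀ b ∈ B, (∀ a ∈ A, a * b = b * a) → b = 1) ∧
      σ c ^ n = 1 ∧
      (∀ g, σ.character g = 0 ∨ ∃ k : ℕ, σ.character g = σ.character (c ^ k)) ∧
      ((∀ u : (ZMod n)ˣ, ∃ g, ∀ x, f g x = (u : ZMod n) * x) →
        ∀ g, ∃ q : ℚ, σ.character g = (q : ℂ))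

/-- FB1 (about 120 lines).  Proof (`K` has degree `1` over `ℚ`, so everything may be transported to
`ℚ`).  By `X_pow_sub_C_irreducible_iff_forall_prime_of_odd` (`n` odd) it suffices that `a` is not a
`p`-th power in `E` for the primes `p` which divide `n`.  Suppose `b ∈ E`, `b^p = a`.  By the same
criterion over `K`, `a` is not a `p`-th power in `K`, so `X^p - a` is irreducible over `K`
(`X_pow_sub_C_irreducible_of_prime`) and `K(b)` has degree `p`; `E/K` is abelian, so `K(b)/K` is
Galois and contains the other roots `b ξ`, `ξ` a primitive `p`-th root of unity, hence `ξ`.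
`K(ξ)` has degree `p - 1` over `K` (cyclotomic polynomials are irreducible over `ℚ`), and
`p - 1` divides `p`: `p = 2`, but `n` is odd. -/
def Stmt_FB1 : Prop :=
  ∀ (K E : Type) [Field K] [NumberField K] [Field E] [Algebra K E] (n : ℕ) [NeZero n]
    [IsCyclotomicExtension {n} K E], Module.finrank ℚ K = 1 → Odd n → ∀ a : K,
    Irreducible (X ^ n - C a : K[X]) → Irreducible (X ^ n - C (algebraMap K E a) : E[X])

/-- FB (about 200 lines; hypothesis `Stmt_FB1`).  Proof.  `n = [F : K]`, `α^n = a ∈ K`; the minimal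
polynomial of `α` over `K` has degree `n`, so it is `X^n - a`, irreducible.  `L` contains all roots of
it (normal), so a primitive `n`-th root of unity `ζ`, and the roots are `α ζ^i`, `i : ZMod n`.
For `g ∈ Gal(L/K)` let `g α = α ζ^b`, `g ζ = ζ^u`; `f g i = u i + b` (define `f g` by
`g (α ζ^i) = α ζ^(f g i)`).  `f g 0 = 0` if and only if `g α = α`, i.e. `g` is the identity on
`F = K(α)`.  Existence of `c` (`c α = α ζ`, `c ζ = ζ`) and of `g_u` (`g_u α = α`, `g_u ζ = ζ^u`, `u` a
unit): by FB1 `X^n - a` is irreducible over `E = K(ζ)`, so `Gal(L/E)` is transitive on its roots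
(this gives `c`); the cyclotomic polynomial is irreducible over `K` (degree one over `ℚ`), so there
is `g` with `g ζ = ζ^u`, and multiplied by a power of `c` from the left it fixes `α`. -/
def Stmt_FB : Prop :=
  ∀ (K F L : Type) [Field K] [NumberField K] [Field F] [NumberField F] [Field L] [NumberField L]
    [Algebra K F] [Algebra K L] [Algebra F L] [IsScalarTower K F L] [IsGalois K L] (n : ℕ)
    [NeZero n], Module.finrank ℚ K = 1 → Module.finrank K F = n → Odd n →
    ∀ α : F, K⟮α⟯ = ⊤ → α ^ n ∈ Set.range (algebraMap K F) →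
    ∃ (f : (L ≃ₐ[K] L) →* Equiv.Perm (ZMod n)) (c : L ≃ₐ[K] L),
      (∀ g, (∀ x : F, g (algebraMap F L x) = algebraMap F L x) ↔ f g 0 = 0) ∧
      (∀ x, f c x = x + 1) ∧ (∀ g, ∃ a b : ZMod n, ∀ x, f g x = a * x + b) ∧
      ∀ u : (ZMod n)ˣ, ∃ g, ∀ x, f g x = (u : ZMod n) * x

end Pool.Agent.YNG
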