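import Pool.Agent.YNG.StC

/-!
# Project YNG, part U: the largest CM subfield (statements; helper6)

Every module proves `theorem X_thm : Stmt_X` (namespace `Pool.Agent.YNG`), file
`Pool/Agent/YNG/X.lean`, importing `Pool.Agent.YNG.StU` and existing files of `Pool/Agent/YNG`
(auxiliary lemmas in a namespace `Xx`).
-/

set_option autoImplicit false

open NumberField
open scoped Classical

namespace Pool.Agent.YNG

/-- CC (a sharper form of CB, `Pool/Agent/YNG/CB.lean`; hypothesis `Stmt_CB1`; about 200 lines, of
which most are a copy of `CB_thm`).  The CM field `E` constructed there (the elements of `F` fixed by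
`ker σ`) has the property: every `g` which fixes all elements of `E` fixes every vector `u` which is
fixed by `Gal(L/F)`.  Proof: this is the argument `hmem` in `CB_thm`, with `u` instead of `v`: let
`S = {g | σ g u = u}`, a subgroup; `S = fixingSubgroup (fixedField S)`, and every `y` in the fixed field
of `S` is in `F` (because `Gal(L/F) ≤ S`) and fixed by `ker σ ≤ S`, so it is in `E` and fixed by `g`. -/
def Stmt_CC : Prop :=
  ∀ (K F L : Type) [Field K] [NumberField K] [Field F] [NumberField F] [Field L] [NumberField L]
    [Algebra K F] [Algebra K L] [Algebra F L] [IsScalarTower K F L] [IsGalois K L],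
    Module.finrank ℚ K = 1 →
    ∀ (W : Type) [AddCommGroup W] [Module ℂ W] (σ : Representation ℂ (L ≃ₐ[K] L) W),
      (∃ v : W, v ≠ 0 ∧ ∀ g : L ≃ₐ[K] L,
        (∀ x : F, g (algebraMap F L x) = algebraMap F L x) → σ g v = v) →
      (∀ (w : InfinitePlace L) (v : W),
        (∀ g ∈ MulAction.stabilizer (L ≃ₐ[K] L) w, σ g v = v) → v = 0) →
      ∃ E : IntermediateField ℚ F, IsCMField E ∧ ∀ g : L ≃ₐ[K] L,
        (∀ x ∈ E, g (algebraMap F L x) = algebraMap F L x) →
        ∀ u : W, (∀ g' : L ≃ₐ[K] L,
          (∀ x : F, g' (algebraMap F L x) = algebraMap F L x) → σ g' u = u) → σ g u = u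

/-- CW (about 100 lines).  Proof (see `CA_thm`, `Pool/Agent/YNG/CA.lean`): let `ζ ∈ F` be a root of
unity.  If its order is greater than `2` then `ℚ(ζ)` is a CM subfield of `F`
(`IsPrimitiveRoot.intermediateField_adjoin_isCyclotomicExtension`,
`IsCyclotomicExtension.Rat.isCMField`), so `ζ ∈ E`; if the order is `1` or `2`, `ζ = 1` or `ζ = -1`,
so `ζ ∈ E` too.  So the inclusion `E → F` gives a bijection between the roots of unity (torsion units) of
`E` and those of `F`; `Units.torsionOrder` is the number of these. -/
def Stmt_CW : Prop :=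
  ∀ (E F : Type) [Field E] [NumberField E] [Field F] [NumberField F] [Algebra E F],
    (∀ E' : IntermediateField ℚ F, IsCMField E' → ∀ x ∈ E', x ∈ Set.range (algebraMap E F)) →
    Units.torsionOrder E = Units.torsionOrder F

end Pool.Agent.YNG
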