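import Mathlib

/-!
# Project YNG, part G: fields with squarefree discriminant (statements; helper6)

Every module proves `theorem X_thm : Stmt_X` (namespace `Pool.Agent.YNG`), file
`Pool/Agent/YNG/X.lean`, importing `Pool.Agent.YNG.StG` only (auxiliary lemmas in a namespace
`Xx`).  `Gal(L/ℚ) = (L ≃ₐ[ℚ] L)` acts on `𝓞 L` (instance `RingOfIntegers.instMulSemiringAction`,
`((σ • x : 𝓞 L) : L) = σ x` is `rfl`), `IsGaloisGroup (L ≃ₐ[ℚ] L) ℤ (𝓞 L)` is an instance; for `F`
instead of `ℚ` use `IsGaloisGroup.of_isFractionRing`.  Mathlib: `Ideal.inertia`,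
`Ideal.card_inertia_eq_ramificationIdxIn`, `Ideal.card_stabilizer_eq`, `Ideal.ramificationIdx_tower`,
`Ideal.inertiaDeg_tower`, `Ideal.ramificationIdxIn_eq_ramificationIdx`, `Ideal.ramificationIdx_eq_one_iff`.
-/

set_option autoImplicit false

open NumberField
open scoped Classical Pointwise

namespace Pool.Agent.YNG

/-- The action of `Gal(L/ℚ)` on the embeddings of `F` into `L`. -/
def permX (F L : Type) [Field F] [NumberField F] [Field L] [NumberField L] :
    (L ≃ₐ[ℚ] L) →* Equiv.Perm (F →ₐ[ℚ] L) where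
  toFun g :=
    { toFun := fun τ => (g : L →ₐ[ℚ] L).comp τ
      invFun := fun τ => (g.symm : L →ₐ[ℚ] L).comp τ
      left_inv := fun τ => AlgHom.ext fun x => g.symm_apply_apply (τ x)
      right_inv := fun τ => AlgHom.ext fun x => g.apply_symm_apply (τ x) }
  map_one' := Equiv.ext fun τ => AlgHom.ext fun x => rfl
  map_mul' a b := Equiv.ext fun τ => AlgHom.ext fun x => rfl

/-- The prime of `F` below `P` for the embedding `τ`. -/
noncomputable def belowX {F L : Type} [Field F] [NumberField F] [Field L] [NumberField L]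
    (τ : F →ₐ[ℚ] L) (P : Ideal (𝓞 L)) : Ideal (𝓞 F) :=
  P.comap (RingOfIntegers.mapRingHom (τ : F →+* L))

/-- GA (about 120 lines): the inertia groups generate the Galois group.  Proof.  Let `E` be the fixed
field of `N`, so `N = Gal(L/E)`.  Let `q` be a maximal ideal of `𝓞 E`, `P` a maximal ideal of `𝓞 L`
above `q`.  The inertia group `I` of `P` in `Gal(L/ℚ)` is contained in `N`, so it is (isomorphic to)
the inertia group of `P` in `Gal(L/E)`; the orders are the ramification indices of `P` over `ℤ` and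
over `𝓞 E`, the first is the product of the second and the one of `q` over `ℤ`
(`Ideal.ramificationIdx_tower`), so `q` has ramification index `1` over `ℤ`: unramified
(`Ideal.ramificationIdx_eq_one_iff`).  By Minkowski's theorem
(`NumberField.exists_not_isUnramifiedAt_int`) `E` has degree `1` over `ℚ`, so `N = ⊤`. -/
def Stmt_GA : Prop :=
  ∀ (L : Type) [Field L] [NumberField L] [IsGalois ℚ L] (N : Subgroup (L ≃ₐ[ℚ] L)),
    (∀ P : Ideal (𝓞 L), P.IsMaximal → P.inertia (L ≃ₐ[ℚ] L) ≤ N) → N = ⊤

/-- GB (about 120 lines): the ramified primes of a field with squarefree discriminant.  Proof.  The norm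
of the different is the absolute value of the discriminant (`NumberField.absNorm_differentIdeal`), and
`P^(e-1)` divides the different (`pow_sub_one_dvd_differentIdeal` or a similar name;
`e = P.ramificationIdx ℤ`).  Let `p` be the prime number under `P` and `Q`, so `N(P) = p^f`,
`N(Q) = p^f'` with `f, f' ≥ 1`.  If `P ≠ Q` then `P Q` divides the different, `p^(f + f')` divides the
discriminant, a contradiction.  If `f ≥ 2`, `p^2` divides `N(P)`, which divides the discriminant.  If
`e ≥ 3` then `P^2` divides the different and `p^2` divides the discriminant. -/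
def Stmt_GB : Prop :=
  ∀ (F : Type) [Field F] [NumberField F], Squarefree (discr F) →
    ∀ (P Q : Ideal (𝓞 F)), P.IsMaximal → Q.IsMaximal → P.under ℤ = Q.under ℤ →
      P.ramificationIdx ℤ ≠ 1 → Q.ramificationIdx ℤ ≠ 1 →
      P = Q ∧ P.ramificationIdx ℤ = 2 ∧ P.inertiaDeg ℤ = 1

/-- GC (about 150 lines).  Proof.  `q = P.under (𝓞 F)`, `D` the stabilizer and `I` the inertia group of
`P` in `G = Gal(L/ℚ)`; `D' = {σ ∈ D | σ fixes F}` and `I' = {σ ∈ I | σ fixes F}` are isomorphic to the
stabilizer and the inertia group of `P` in `Gal(L/F)` (which acts on `𝓞 L` in the same way).  The orders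
are `|I| = e(P|ℤ)`, `|I'| = e(P|q)`, `|D| = e(P|ℤ) f(P|ℤ)`, `|D'| = e(P|q) f(P|q)`, and
`e(P|ℤ) = e(q|ℤ) e(P|q)`, `f(P|ℤ) = f(q|ℤ) f(P|q)`.  First part: `e(q|ℤ) = 1`, so `|I| = |I'|`. -/
def Stmt_GC : Prop :=
  ∀ (F L : Type) [Field F] [NumberField F] [Field L] [NumberField L] [Algebra F L]
    [IsGalois ℚ L] (P : Ideal (𝓞 L)), P.IsMaximal →
    ((P.under (𝓞 F)).ramificationIdx ℤ = 1 → ∀ σ ∈ P.inertia (L ≃ₐ[ℚ] L),
      ∀ x : F, σ (algebraMap F L x) = algebraMap F L x) ∧
    Nat.card (MulAction.stabilizer (L ≃ₐ[ℚ] L) P) =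
      (P.under (𝓞 F)).ramificationIdx ℤ * (P.under (𝓞 F)).inertiaDeg ℤ *
        Nat.card {σ : L ≃ₐ[ℚ] L // σ ∈ MulAction.stabilizer (L ≃ₐ[ℚ] L) P ∧
          ∀ x : F, σ (algebraMap F L x) = algebraMap F L x}

/-- GD (about 80 lines).  Proof.  There is `g ∈ Gal(L/ℚ)` with `τ' = g ∘ τ` (`L/ℚ` is normal,
`AlgHom.liftNormal`, `AlgEquiv.liftNormal` or similar).  Make `L` an algebra over `F` by `τ`.  The primes
`P` and `g⁻¹ P` of `𝓞 L` lie over the same prime of `𝓞 F`: `belowX τ (g⁻¹ P) = belowX (g ∘ τ) P = belowX τ' P`.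
So there is `h ∈ Gal(L/F)` with `h (g⁻¹ P) = P` (`Ideal.exists_smul_eq_of_isGaloisGroup` or
`Algebra.IsInvariant.exists_smul_of_under_eq`).  `σ = g h⁻¹`, regarded as an element of `Gal(L/ℚ)`. -/
def Stmt_GD : Prop :=
  ∀ (F L : Type) [Field F] [NumberField F] [Field L] [NumberField L] [IsGalois ℚ L]
    (P : Ideal (𝓞 L)), P.IsMaximal → ∀ τ τ' : F →ₐ[ℚ] L, belowX τ P = belowX τ' P →
    ∃ σ ∈ MulAction.stabilizer (L ≃ₐ[ℚ] L) P, permX F L σ τ = τ'

/-- GE (about 120 lines; hypotheses `Stmt_GB`, `Stmt_GC`, `Stmt_GD`): an element of an inertia group acts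
on the embeddings as the identity or a transposition.  Proof.  Let `σ ∈ I(P)`.  GC for the algebra
structure given by `τ` (`P.under (𝓞 F)` is then `belowX τ P`): if `belowX τ P` has ramification index `1`
then `σ ∘ τ = τ`.  Assume that `τ₀` is an embedding with `q₀ = belowX τ₀ P` of index `≠ 1`, otherwise
`σ` acts trivially.  By GB the index is `2` and the inertia degree `1`; by GC and orbit-stabilizer the
orbit `Y` of `τ₀` under the stabilizer `D` of `P` has `2` elements.  If `τ` is another embedding such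
that `belowX τ P` has index `≠ 1` then `belowX τ P = q₀` by GB (both are over `P ∩ ℤ`) and `τ ∈ Y` by
GD.  So `σ` fixes all elements outside of `Y` and, because `σ ∈ I(P) ≤ D`, maps `Y` to itself: it is the
identity or the transposition of the two elements of `Y`. -/
def Stmt_GE : Prop :=
  ∀ (F L : Type) [Field F] [NumberField F] [Field L] [NumberField L] [IsGalois ℚ L],
    Squarefree (discr F) → ∀ (P : Ideal (𝓞 L)), P.IsMaximal →
    ∀ σ ∈ P.inertia (L ≃ₐ[ℚ] L), permX F L σ = 1 ∨ (permX F L σ).IsSwap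

/-- GF (about 50 lines; hypotheses `Stmt_GA`, `Stmt_GE`): the Galois group of a field with
squarefree discriminant is the symmetric group.  Proof: `surjective_of_isSwap_of_isPretransitive'`
for the action of `L ≃ₐ[ℚ] L` on `F →ₐ[ℚ] L` through `permX` (`MulAction.compHom`, local instance) and
`S` the union of the inertia groups, which generates by GA; the action is transitive (`L/ℚ` normal). -/
def Stmt_GF : Prop :=
  ∀ (F L : Type) [Field F] [NumberField F] [Field L] [NumberField L] [IsGalois ℚ L],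
    Squarefree (discr F) → Function.Surjective (permX F L)

end Pool.Agent.YNG
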