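import Pool.Agent.YNG.StT

/-!
# Project YNG, part H: extensions of minimal rank over a subfield (statements; helper6)

Every module proves `theorem X_thm : Stmt_X` (namespace `Pool.Agent.YNG`), file
`Pool/Agent/YNG/X.lean`, importing `Pool.Agent.YNG.StH` and existing files of `Pool/Agent/YNG`
(auxiliary lemmas in a namespace `Xx`).
-/

set_option autoImplicit false

open scoped Classical

namespace Pool.Agent.YNG

/-- HA (about 60 lines).  The number of double cosets grows.  Proof: `H g H ↦ M g M` is a surjective map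
from the double cosets of `H` to those of `M` (`H ≤ M`), which is not injective: for `g ∈ M`, `g ∉ H` the
double cosets of `g` and `1` are different for `H` and equal for `M`. -/
def Stmt_HA : Prop :=
  ∀ (G : Type) [Group G] [Fintype G] (H M : Subgroup G), H < M →
    Nat.card (DoubleCoset.Quotient (M : Set G) (M : Set G)) + 1 ≤
      Nat.card (DoubleCoset.Quotient (H : Set G) (H : Set G))

/-- HB (about 180 lines): one step.  Proof.  `r_M`, `r_H` the numbers of double cosets, `r_H = r_M + 1`.  The map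
of HA has exactly one fibre with two elements, the others have one; the fibre of `M` contains the
double cosets of `1` and of a `g ∈ M`, `g ∉ H`; so for `x ∉ M`: `M x M = H x H`, therefore also
`M x M = M x H`, and the number of double cosets `M x H` is `r_M`.  Inner products (`⟨a, b⟩ = |G|⁻¹ ∑ a(g) b(g⁻¹)`,
`⟨pc A, pc B⟩` is the number of double cosets `A x B`: `TCx.sum_PP`, `TCx.N_shift`, `TCx.N_zero`, `TCx.sum_N` in
`Pool/Agent/YNG/TC.lean`): with `θ = pc H - pc M`, `⟨θ, θ⟩ = r_H - 2 r_M + r_M = 1`.  `⟨χ_σ, pc A⟩` is the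
dimension of the vectors fixed by `A` (`PAx.sum_P_char`): it is `≥ 1` for `A = H`.  If it is `0` for `A = M` (no
vector `≠ 0` fixed by `M`) then `⟨χ_σ, θ⟩ ≥ 1` and `⟨χ_σ - θ, χ_σ - θ⟩ = 1 - 2 ⟨χ_σ, θ⟩ + 1 ≤ 0`, so
`χ_σ = θ` (this step is in `TCx.main`). -/
def Stmt_HB : Prop :=
  ∀ (G : Type) [Group G] [Fintype G] (H M : Subgroup G), H ≤ M →
    Nat.card (DoubleCoset.Quotient (H : Set G) (H : Set G)) =
      Nat.card (DoubleCoset.Quotient (M : Set G) (M : Set G)) + 1 →
    ∀ (W : Type) [AddCommGroup W] [Module ℂ W] [Module.Finite ℂ W]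
      (σ : Representation ℂ G W), σ.IsIrreducible →
      (∃ v : W, v ≠ 0 ∧ ∀ h ∈ H, σ h v = v) →
      (∃ v : W, v ≠ 0 ∧ ∀ h ∈ M, σ h v = v) ∨
        ∀ g, σ.character g = pc H g - pc M g

/-- HC (about 60 lines; hypotheses `Stmt_HA`, `Stmt_HB`).  Proof: let `r_i` be the number of double
cosets of `C i`; `r_(i+1) ≥ r_i + 1` by HA and `r_k = r_0 + k`, so `r_(i+1) = r_i + 1` for all `i < k`.
Descending induction over `i`: there is a vector `≠ 0` fixed by `C i`, or the second alternative (HB for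
`H = C (i+1)`, `M = C i`). -/
def Stmt_HC : Prop :=
  ∀ (G : Type) [Group G] [Fintype G] (k : ℕ) (C : Fin (k + 1) → Subgroup G), StrictAnti C →
    Nat.card (DoubleCoset.Quotient (C (Fin.last k) : Set G) (C (Fin.last k) : Set G)) =
      Nat.card (DoubleCoset.Quotient (C 0 : Set G) (C 0 : Set G)) + k →
    ∀ (W : Type) [AddCommGroup W] [Module ℂ W] [Module.Finite ℂ W]
      (σ : Representation ℂ G W), σ.IsIrreducible →
      (∃ v : W, v ≠ 0 ∧ ∀ h ∈ C (Fin.last k), σ h v = v) →
      (∃ v : W, v ≠ 0 ∧ ∀ h ∈ C 0, σ h v = v) ∨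
        ∃ i j : Fin (k + 1), ∀ g, σ.character g = pc (C j) g - pc (C i) g

end Pool.Agent.YNG
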