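import Pool.Agent.YNG.StP

/-!
# Project YNG, module PD: a transitive group of prime degree is 2-transitive or affine (helper71)
-/

set_option autoImplicit false

open NumberField
open scoped Classical

namespace Pool.Agent.YNG

namespace PDx

/-- The numbering of the points by the powers of a `p`-cycle. -/
theorem cyc (p : ℕ) [Fact p.Prime] (Ω : Type) [Fintype Ω] (hcard : Fintype.card Ω = p)
    (σ : Equiv.Perm Ω) (hσ : orderOf σ = p) (x0 : Ω) :
    ∃ e : ZMod p ≃ Ω, e 0 = x0 ∧ ∀ x, e (x + 1) = σ (e x) := by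
  have hp : p.Prime := Fact.out
  have hcyc : σ.IsCycle := by
    refine Equiv.Perm.isCycle_of_prime_order' (by rw [hσ]; exact hp) ?_
    rw [hσ, hcard]
    have := hp.pos
    omega
  have hsupp : σ.support = Finset.univ := by
    apply Finset.eq_univ_of_card
    rw [← hcyc.orderOf, hσ, hcard]
  have hmove : ∀ y, σ y ≠ y := by
    intro y
    have : y ∈ σ.support := by rw [hsupp]; exact Finset.mem_univ y
    exact Equiv.Perm.mem_support.1 this
  have hpow : ∀ n : ℕ, (σ ^ (n % p)) = σ ^ n := by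
    intro n
    rw [← hσ, pow_mod_orderOf]
  let e0 : ZMod p → Ω := fun i => (σ ^ i.val) x0
  have hsurj : Function.Surjective e0 := by
    intro y
    obtain ⟨i, -, hi⟩ := (hcyc.sameCycle (hmove x0) (hmove y)).exists_pow_eq'
    refine ⟨(i : ZMod p), ?_⟩
    change (σ ^ ((i : ZMod p).val)) x0 = y
    rw [ZMod.val_natCast, hpow, hi]
  have hbij : Function.Bijective e0 := by
    rw [Fintype.bijective_iff_surjective_and_card]
    exact ⟨hsurj, by rw [ZMod.card, hcard]⟩
  refine ⟨Equiv.ofBijective e0 hbij, ?_, ?_⟩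
  · change (σ ^ ((0 : ZMod p).val)) x0 = x0
    rw [ZMod.val_zero, pow_zero, Equiv.Perm.one_apply]
  · intro x
    change (σ ^ ((x + 1 : ZMod p).val)) x0 = σ ((σ ^ x.val) x0)
    rw [ZMod.val_add, hpow, ← Equiv.Perm.mul_apply, ← pow_succ', pow_add, pow_add]
    congr 2
    by_cases h1 : p = 1
    · exact absurd h1 hp.one_lt.ne'
    · haveI : Fact (1 < p) := ⟨hp.one_lt⟩
      rw [ZMod.val_one]

/-- An element which acts as a `p`-cycle. -/
theorem elt (G : Type) [Group G] [Fintype G] (H : Subgroup G) (p : ℕ) [Fact p.Prime]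
    (hH : H.index = p) :
    ∃ c : G, orderOf (MulAction.toPermHom G (G ⧸ H) c) = p := by
  have hfin : Fintype (G ⧸ H) := Fintype.ofFinite _
  set φ := MulAction.toPermHom G (G ⧸ H) with hφ
  have htr : MulAction.IsPretransitive φ.range (G ⧸ H) := by
    constructor
    intro x y
    obtain ⟨g, hg⟩ := MulAction.exists_smul_eq G x y
    exact ⟨⟨φ g, ⟨g, rfl⟩⟩, hg⟩
  have hidx := MulAction.index_stabilizer_of_transitive φ.range (X := G ⧸ H)
    (((1 : G) : G ⧸ H))
  have hcard : Nat.card (G ⧸ H) = p := hH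
  rw [hcard] at hidx
  have hdvd : p ∣ Nat.card φ.range := by
    rw [← hidx]
    exact Subgroup.index_dvd_card _
  obtain ⟨⟨σ, c, hc⟩, hx⟩ := exists_prime_orderOf_dvd_card' (G := φ.range) p hdvd
  refine ⟨c, ?_⟩
  rw [hc]
  rw [← hx, ← Subgroup.orderOf_coe]

/-- The transported action. -/
theorem act (G : Type) [Group G] [Fintype G] (H : Subgroup G) (p : ℕ) [Fact p.Prime]
    (hH : H.index = p) :
    ∃ (f : G →* Equiv.Perm (ZMod p)) (c : G), (∀ g, g ∈ H ↔ f g 0 = 0) ∧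
      (∀ x, f c x = x + 1) := by
  have hfin : Fintype (G ⧸ H) := Fintype.ofFinite _
  obtain ⟨c, hc⟩ := elt G H p hH
  have hcard : Fintype.card (G ⧸ H) = p := by
    rw [← Nat.card_eq_fintype_card]
    exact hH
  obtain ⟨e, he0, he⟩ := cyc p (G ⧸ H) hcard (MulAction.toPermHom G (G ⧸ H) c) hc
    ((1 : G) : G ⧸ H)
  refine ⟨(e.symm.permCongrHom.toMonoidHom).comp (MulAction.toPermHom G (G ⧸ H)), c, ?_, ?_⟩
  · intro g
    have h1 : ((e.symm.permCongrHom.toMonoidHom).comp (MulAction.toPermHom G (G ⧸ H))) g 0 =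
        e.symm (g • (e 0)) := rfl
    rw [h1, he0]
    rw [Equiv.symm_apply_eq, he0]
    have h2 : g • ((1 : G) : G ⧸ H) = ((g : G) : G ⧸ H) := by
      rw [← QuotientGroup.mk_mul_of_mem g (one_mem H)] 
      rfl
    rw [h2, eq_comm, QuotientGroup.eq]
    simp
  · intro x
    have h1 : ((e.symm.permCongrHom.toMonoidHom).comp (MulAction.toPermHom G (G ⧸ H))) c x =
        e.symm ((MulAction.toPermHom G (G ⧸ H) c) (e x)) := rfl
    rw [h1, ← he, Equiv.symm_apply_apply]

end PDx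

/-- PD. -/
theorem PD_thm (hPM : Stmt_PM) : Stmt_PD := by
  intro G _ _ H p _ hH
  obtain ⟨f, c, hf, hc⟩ := PDx.act G H p hH
  by_cases h2 : ∀ g g' : G, g ∉ H → g' ∉ H → ∃ a ∈ H, ∃ b ∈ H, g' = a * g * b
  · exact Or.inl h2
  right
  refine ⟨f, c, hf, hc, ?_⟩
  push Not at h2
  obtain ⟨g₀, g₁, h₀, h₁, hne⟩ := h2
  have hpw : ∀ (n : ℕ) (x : ZMod p), f (c ^ n) x = x + n := by
    intro n
    induction n with
    | zero => intro x; simp
    | succ n ih =>
      intro x
      rw [pow_succ, map_mul, Equiv.Perm.mul_apply, hc, ih]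
      push_cast
      ring
  have hpz : ∀ (j x : ZMod p), f (c ^ j.val) x = x + j := by
    intro j x
    rw [hpw, ZMod.natCast_zmod_val]
  have hinv : ∀ (j x : ZMod p), f ((c ^ j.val)⁻¹) x = x - j := by
    intro j x
    rw [map_inv, Equiv.Perm.inv_eq_iff_eq, hpz]
    ring
  let U : Finset (ZMod p) := Finset.univ.filter fun x => ∃ h ∈ H, f (h * g₀) 0 = x
  have hU : ∀ x, x ∈ U ↔ ∃ h ∈ H, f (h * g₀) 0 = x := by
    intro x
    simp [U]
  intro g
  refine hPM p (f g) U ⟨f (1 * g₀) 0, (hU _).2 ⟨1, one_mem H, rfl⟩⟩ ?_ ?_ ?_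
  · intro h
    obtain ⟨h, hh, h3⟩ := (hU _).1 h
    exact h₀ ((Subgroup.mul_mem_cancel_left H hh).1 ((hf _).2 h3))
  · refine ⟨f g₁ 0, fun h => h₁ ((hf _).2 h), ?_⟩
    intro h
    obtain ⟨h, hh, h3⟩ := (hU _).1 h
    have h4 : f ((h * g₀)⁻¹ * g₁) 0 = 0 := by
      rw [map_mul, Equiv.Perm.mul_apply, map_inv, Equiv.Perm.inv_eq_iff_eq, h3]
    refine hne h hh ((h * g₀)⁻¹ * g₁) ((hf _).2 h4) ?_
    group
  · intro i j hij
    obtain ⟨h, hh, h3⟩ := (hU _).1 hij
    refine (hU _).2 ⟨(c ^ (f g j).val)⁻¹ * g * c ^ j.val * h, ?_, ?_⟩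
    · rw [hf]
      rw [map_mul, map_mul, map_mul, Equiv.Perm.mul_apply, Equiv.Perm.mul_apply,
        Equiv.Perm.mul_apply, (hf h).1 hh, hpz, hinv]
      rw [zero_add, sub_self]
    · rw [mul_assoc, map_mul, map_mul, map_mul, Equiv.Perm.mul_apply, Equiv.Perm.mul_apply,
        Equiv.Perm.mul_apply, h3, hpz, hinv]
      rw [sub_add_cancel]

end Pool.Agent.YNG
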