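import Pool.Agent.YNG.StP

/-!
# Project YNG, module PQ: fields of prime degree have no CM subfield
-/

set_option autoImplicit false

open NumberField
open scoped Classical

namespace Pool.Agent.YNG

theorem PQ_thm : Stmt_PQ := by
  intro F _ _ hp h2 hE
  obtain ⟨E, hE⟩ := hE
  have := hE
  have heven : 2 ∣ Module.finrank ℚ E := by
    have h := Module.finrank_mul_finrank ℚ (maximalRealSubfield E) E
    rw [Algebra.IsQuadraticExtension.finrank_eq_two (maximalRealSubfield E) E] at h
    exact ⟨_, by rw [← h, mul_comm]⟩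
  have hdvd : Module.finrank ℚ E ∣ Module.finrank ℚ F :=
    ⟨_, (Module.finrank_mul_finrank ℚ E F).symm⟩
  have hF : Module.finrank ℚ F = 2 :=
    ((Nat.prime_dvd_prime_iff_eq Nat.prime_two hp).1 (heven.trans hdvd)).symm
  have hpos := h2 hF
  obtain ⟨w, hw⟩ := Fintype.card_pos_iff.1 hpos
  have hr : InfinitePlace.IsReal (w.comap (algebraMap E F)) := hw.comap _
  exact (InfinitePlace.not_isReal_iff_isComplex.2
    (IsTotallyComplex.isComplex (w.comap (algebraMap E F)))) hr

end Pool.Agent.YNG
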